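import Pool.Agent.Lib.MP_ad7336_co.Setup

set_option autoImplicit false

namespace Pool.Agent.Lib.MP_ad7336_co

open QuadraticAlgebra Finset Filter Topology

namespace Adel

/-- The norm form in coordinates. -/
def qf (a b : ℤ) (z : ℤ × ℤ) : ℤ := z.1 ^ 2 + b * z.1 * z.2 - a * z.2 ^ 2

/-- A family of points that are pairwise incongruent modulo `m`. -/
def Inc {ι : Type} (m : ℤ) (S : Finset ι) (g : ι → ℤ × ℤ) : Prop :=
  ∀ i ∈ S, ∀ j ∈ S, m ∣ (g i).1 - (g j).1 → m ∣ (g i).2 - (g j).2 → i = j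

/-- The fibre of the norm form over `u` modulo `m` has at most `C` points. -/
def FB (a b m u : ℤ) (C : ℝ) : Prop :=
  ∀ (ι : Type) (S : Finset ι) (g : ι → ℤ × ℤ), Inc m S g → (∀ i ∈ S, m ∣ qf a b (g i) - u) →
    (S.card : ℝ) ≤ C

variable {a b : ℤ}

theorem card_le_part {ι κ : Type} [DecidableEq κ] (S : Finset ι) (c : ι → κ) (T : Finset κ) (C : ℝ)
    (hT : ∀ i ∈ S, c i ∈ T) (h : ∀ t ∈ T, ((S.filter (fun i => c i = t)).card : ℝ) ≤ C) :
    (S.card : ℝ) ≤ T.card * C := by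
  rw [card_eq_sum_card_fiberwise hT, Nat.cast_sum, ← nsmul_eq_mul]
  exact sum_le_card_nsmul _ _ _ h

theorem dvd_eq {n x y : ℤ} (h : n ∣ x) (e : y = x) : n ∣ y := e ▸ h

theorem dvd_of_div {m n x y : ℤ} (hm : m ≠ 0) (h : m ∣ x - y) (h2 : x / m % n = y / m % n) :
    n * m ∣ x - y := by
  obtain ⟨t, ht⟩ := h
  have hx : x = y + m * t := by linarith
  rw [hx, Int.add_mul_ediv_left _ _ hm] at h2
  have h3 : n ∣ y / m + t - y / m := (Int.ModEq.dvd h2.symm)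
  rw [add_sub_cancel_left] at h3
  rw [ht, mul_comm n]
  exact mul_dvd_mul_left _ h3

theorem qf_congr {m : ℤ} {z w : ℤ × ℤ} (h1 : m ∣ z.1 - w.1) (h2 : m ∣ z.2 - w.2) :
    m ∣ qf a b z - qf a b w := by
  have : qf a b z - qf a b w = (z.1 - w.1) * (z.1 + w.1 + b * z.2) +
      (z.2 - w.2) * (b * w.1 - a * (z.2 + w.2)) := by
    unfold qf; ring
  rw [this]
  exact dvd_add (h1.mul_right _) (h2.mul_right _)

theorem eq_of_Ico {n s t : ℤ} (hs : 0 ≤ s ∧ s < n) (ht : 0 ≤ t ∧ t < n) (h : n ∣ s - t) :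
    s = t := by
  have := Int.eq_zero_of_abs_lt_dvd h (by rw [abs_lt]; constructor <;> omega)
  omega

theorem emod_mem {n : ℤ} (hn : 0 < n) (x : ℤ) : x % n ∈ Ico 0 n :=
  mem_Ico.2 ⟨Int.emod_nonneg _ hn.ne', Int.emod_lt_of_pos _ hn⟩

theorem dvd_emod_sub (n x : ℤ) : n ∣ x % n - x := ⟨-(x / n), by rw [Int.emod_def]; ring⟩

theorem FB.mono {m u : ℤ} {C C' : ℝ} (h : FB a b m u C) (hC : C ≤ C') : FB a b m u C' :=
  fun ι S g h1 h2 => (h ι S g h1 h2).trans hC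

theorem FB_one (u : ℤ) : FB a b 1 u 1 := fun _ S _ h _ => by
  exact_mod_cast card_le_one.2 fun i hi j hj => h i hi j hj (one_dvd _) (one_dvd _)

theorem FB.up {m n u : ℤ} {C : ℝ} (h : FB a b m u C) (hm : m ≠ 0) (hn : 0 < n) {ι : Type}
    (S : Finset ι) (g : ι → ℤ × ℤ) (h1 : Inc (n * m) S g) (h2 : ∀ i ∈ S, m ∣ qf a b (g i) - u) :
    (S.card : ℝ) ≤ (n : ℝ) ^ 2 * C := by
  have := card_le_part S (fun i => ((g i).1 / m % n, (g i).2 / m % n)) (Ico 0 n ×ˢ Ico 0 n) C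
    (fun i _ => mem_product.2 ⟨emod_mem hn _, emod_mem hn _⟩) (fun t _ => by
      refine h ι _ g (fun i hi j hj e1 e2 => ?_) (fun i hi => h2 i (mem_filter.1 hi).1)
      obtain ⟨hi, hi'⟩ := mem_filter.1 hi
      obtain ⟨hj, hj'⟩ := mem_filter.1 hj
      have e := hi'.trans hj'.symm
      exact h1 i hi j hj (dvd_of_div hm e1 (congrArg Prod.fst e))
        (dvd_of_div hm e2 (congrArg Prod.snd e)))
  have hc : (((Ico 0 n ×ˢ Ico 0 n).card : ℕ) : ℤ) = n ^ 2 := by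
    simp [Int.toNat_of_nonneg hn.le, sq]
  have hc' : (((Ico 0 n ×ˢ Ico 0 n).card : ℕ) : ℝ) = (n : ℝ) ^ 2 := by exact_mod_cast hc
  rwa [hc'] at this

theorem FB.crt {m n u : ℤ} {C C' : ℝ} (h : FB a b m u C) (h' : FB a b n u C') (hm : 0 < m)
    (hc : IsCoprime m n) (hC : 0 ≤ C') : FB a b (m * n) u (C * C') := by
  intro ι S g h1 h2
  have := card_le_part S (fun i => ((g i).1 % m, (g i).2 % m)) (S.image _) C'
    (fun i hi => mem_image_of_mem _ hi) (fun t _ => by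
      refine h' ι _ g (fun i hi j hj e1 e2 => ?_)
        (fun i hi => (dvd_mul_left n m).trans (h2 i (mem_filter.1 hi).1))
      obtain ⟨hi, hi'⟩ := mem_filter.1 hi
      obtain ⟨hj, hj'⟩ := mem_filter.1 hj
      have e := hi'.trans hj'.symm
      exact h1 i hi j hj (hc.mul_dvd (Int.ModEq.dvd (congrArg Prod.fst e).symm) e1)
        (hc.mul_dvd (Int.ModEq.dvd (congrArg Prod.snd e).symm) e2))
  refine this.trans (mul_le_mul_of_nonneg_right (h _ _ id ?_ ?_) hC)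
  · intro s hs t ht e1 e2
    obtain ⟨i, -, rfl⟩ := mem_image.1 hs
    obtain ⟨j, -, rfl⟩ := mem_image.1 ht
    exact Prod.ext (eq_of_Ico (mem_Ico.1 (emod_mem hm _)) (mem_Ico.1 (emod_mem hm _)) e1)
      (eq_of_Ico (mem_Ico.1 (emod_mem hm _)) (mem_Ico.1 (emod_mem hm _)) e2)
  · intro s hs
    obtain ⟨i, hi, rfl⟩ := mem_image.1 hs
    have := dvd_add (qf_congr (a := a) (b := b) (z := ((g i).1 % m, (g i).2 % m)) (w := g i)
      (dvd_emod_sub _ _) (dvd_emod_sub _ _)) ((dvd_mul_right m n).trans (h2 i hi))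
    simpa using this

/-- Multiplication in coordinates. -/
def mu (a b : ℤ) (z w : ℤ × ℤ) : ℤ × ℤ :=
  (z.1 * w.1 + a * z.2 * w.2, z.1 * w.2 + z.2 * w.1 + b * z.2 * w.2)

theorem qf_mu (z w : ℤ × ℤ) : qf a b (mu a b z w) = qf a b z * qf a b w := by
  unfold qf mu; ring

theorem inc_mul {ι κ : Type} {N u : ℤ} {S : Finset ι} {g : ι → ℤ × ℤ} (J : Finset κ)
    (w : κ → ℤ × ℤ) (hS : Inc N S g) (hu : ∀ i ∈ S, N ∣ qf a b (g i) - u)
    (h1 : ∀ j ∈ J, IsCoprime N (qf a b (w j)))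
    (h2 : ∀ j ∈ J, ∀ j' ∈ J, N ∣ (qf a b (w j) - qf a b (w j')) * u → j = j') :
    Inc N (S ×ˢ J) (fun p => mu a b (g p.1) (w p.2)) := by
  rintro ⟨i, j⟩ hi ⟨i', j'⟩ hi' e1 e2
  obtain ⟨hi, hj⟩ := mem_product.1 hi
  obtain ⟨hi', hj'⟩ := mem_product.1 hi'
  have e := qf_congr (a := a) (b := b) e1 e2
  rw [qf_mu, qf_mu] at e
  obtain rfl : j = j' := h2 j hj j' hj' (dvd_eq (dvd_add (dvd_sub e
    ((hu i hi).mul_right (qf a b (w j)))) ((hu i' hi').mul_right (qf a b (w j')))) (by ring))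
  obtain rfl : i = i' := by
    refine hS i hi i' hi' ((h1 j hj).dvd_of_dvd_mul_right ?_) ((h1 j hj).dvd_of_dvd_mul_right ?_)
    · convert dvd_sub (e1.mul_right ((w j).1 + b * (w j).2)) (e2.mul_right (a * (w j).2)) using 1
      unfold qf mu; ring
    · convert dvd_sub (e2.mul_right (w j).1) (e1.mul_right (w j).2) using 1
      unfold qf mu; ring
  rfl

theorem FB.lift {p m u : ℤ} {C : ℝ} (h : FB a b m u C) (hm : m ≠ 0) (hp : 0 < p) (t : ℤ → ℤ)
    (h1 : ∀ j, IsCoprime (p * m) (t j)) (h2 : ∀ j, m ∣ t j ^ 2 - 1)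
    (h3 : ∀ j j', p * m ∣ (t j ^ 2 - t j' ^ 2) * u → p ∣ j - j') : FB a b (p * m) u (p * C) := by
  intro ι S g hS hu
  have hq : ∀ j, qf a b (t j, 0) = t j ^ 2 := fun j => by simp [qf]
  have := h.up hm hp _ _ (inc_mul (Ico 0 p) (fun j => (t j, 0)) hS hu
    (fun j _ => by rw [hq]; exact (h1 j).pow_right)
    (fun j hj j' hj' e => eq_of_Ico (mem_Ico.1 hj) (mem_Ico.1 hj') (h3 j j' (by rwa [hq, hq] at e))))
    (fun i hi => by
      rw [qf_mu, hq]
      exact dvd_eq (dvd_add (((dvd_mul_left m p).trans (hu i.1 (mem_product.1 hi).1)).mul_right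
        (t i.2 ^ 2)) ((h2 i.2).mul_right u)) (by ring))
  have hc : (((Ico 0 p).card : ℕ) : ℤ) = p := by simp [Int.toNat_of_nonneg hp.le]
  have hc' : (((Ico 0 p).card : ℕ) : ℝ) = p := by exact_mod_cast hc
  rw [card_product, Nat.cast_mul, hc'] at this
  have hp' : (0 : ℝ) < p := by exact_mod_cast hp
  exact le_of_mul_le_mul_right (by linarith) hp'

theorem FB.lift_odd {p m u : ℤ} {C : ℝ} (h : FB a b m u C) (hm : m ≠ 0) (hp : 0 < p)
    (hpp : Prime p) (h2 : ¬ p ∣ 2) (hpm : p ∣ m) (hu : ¬ p ∣ u) : FB a b (p * m) u (p * C) := by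
  refine h.lift hm hp (fun j => 1 + j * m) (fun j => ?_) (fun j => ⟨2 * j + j ^ 2 * m, by ring⟩)
    (fun j j' e => ?_)
  · have : IsCoprime m (1 + j * m) := ⟨-j, 1, by ring⟩
    exact (this.of_isCoprime_of_dvd_left hpm).mul_left this
  · have e' : p * m ∣ ((j - j') * ((2 + (j + j') * m) * u)) * m := by convert e using 1; ring
    rcases hpp.dvd_or_dvd ((mul_dvd_mul_iff_right hm).1 e') with e | e
    · exact e
    · rcases hpp.dvd_or_dvd e with e | e
      · exact absurd ((dvd_add_left (hpm.mul_left _)).1 e) h2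
      · exact absurd e hu

theorem FB.lift_two {m u : ℤ} {C : ℝ} (h : FB a b (8 * m) u C) (hm : m ≠ 0) (hu : ¬ 2 ∣ u) :
    FB a b (2 * (8 * m)) u ((2 : ℤ) * C) := by
  refine h.lift (by omega) two_pos (fun j => 1 + j * (4 * m)) (fun j => ?_)
    (fun j => ⟨j + 2 * j ^ 2 * m, by ring⟩) (fun j j' e => ?_)
  · have : IsCoprime (2 * m) (1 + j * (4 * m)) := ⟨-(2 * j), 1, by ring⟩
    have h2 := this.of_isCoprime_of_dvd_left (dvd_mul_right 2 m)
    convert (h2.mul_left (h2.mul_left (h2.mul_left this))) using 1; ring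
  · have e' : 2 * (8 * m) ∣ ((j - j') * ((1 + 2 * ((j + j') * m)) * u)) * (8 * m) := by
      convert e using 1; ring
    rcases Int.prime_two.dvd_or_dvd ((mul_dvd_mul_iff_right (by omega)).1 e') with e | e
    · exact e
    · rcases Int.prime_two.dvd_or_dvd e with e | e
      · omega
      · exact absurd e hu

/-- The fibre count modulo `m`. -/
def cnt (m : ℕ) [NeZero m] (a b u : ZMod m) : ℕ :=
  (univ.filter fun z : ZMod m × ZMod m => z.1 ^ 2 + b * z.1 * z.2 - a * z.2 ^ 2 = u).card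

theorem card_le_zmod {m : ℕ} {ι : Type} {S : Finset ι} {g : ι → ℤ × ℤ} (hS : Inc m S g)
    (T : Finset (ZMod m × ZMod m)) (hT : ∀ i ∈ S, (((g i).1 : ZMod m), ((g i).2 : ZMod m)) ∈ T) :
    S.card ≤ T.card :=
  card_le_card_of_injOn _ hT fun i hi j hj e => hS i hi j hj
    ((ZMod.intCast_eq_intCast_iff_dvd_sub _ _ _).1 (congrArg Prod.fst e).symm)
    ((ZMod.intCast_eq_intCast_iff_dvd_sub _ _ _).1 (congrArg Prod.snd e).symm)

theorem FB_cnt (m : ℕ) [NeZero m] {u : ℤ} {n : ℕ} (h : cnt m a b u ≤ n) : FB a b m u n := by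
  intro ι S g hS hu
  refine Nat.cast_le.2 ((card_le_zmod hS _ fun i hi => mem_filter.2 ⟨mem_univ _, ?_⟩).trans h)
  have := (ZMod.intCast_eq_intCast_iff_dvd_sub _ _ _).2 (hu i hi)
  rw [this, qf]
  push_cast
  rfl

theorem cnt_prime (p : ℕ) [Fact p.Prime] (a b u : ZMod p) : cnt p a b u ≤ 2 * p := by
  have := card_le_mul_card_image_of_maps_to (f := Prod.snd) (t := univ) (s := univ.filter
    fun z : ZMod p × ZMod p => z.1 ^ 2 + b * z.1 * z.2 - a * z.2 ^ 2 = u)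
    (fun _ _ => mem_univ _) 2 (fun y _ => ?_)
  · rwa [card_univ, ZMod.card] at this
  rcases (filter (fun z : ZMod p × ZMod p => z.2 = y) (univ.filter
    fun z : ZMod p × ZMod p => z.1 ^ 2 + b * z.1 * z.2 - a * z.2 ^ 2 = u)).eq_empty_or_nonempty
    with h | ⟨z, hz⟩
  · simp [h]
  refine (card_le_card (t := {(z.1, y), (-(b * y) - z.1, y)}) ?_).trans (card_le_two)
  rintro ⟨x, y'⟩ hw
  simp only [mem_filter, mem_univ, true_and] at hz hw
  obtain ⟨hw, rfl⟩ := hw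
  obtain ⟨hz, hz'⟩ := hz
  rw [hz'] at hz
  have : (x - z.1) * (x - (-(b * y') - z.1)) = 0 := by linear_combination hw - hz
  simpa [sub_eq_zero] using this

theorem cnt_ram : (∀ a b u : ZMod 2, cnt 2 a b u ≤ 4) ∧
    (∀ a b u : ZMod 4, b = 0 → 2 ≤ a.val → u.val % 2 = 1 → cnt 4 a b u ≤ 8) ∧
    (∀ a b u : ZMod 8, b = 0 → 2 ≤ a.val % 4 → u.val % 2 = 1 → cnt 8 a b u ≤ 16) := by
  decide +kernel

theorem cnt_ine : (∀ a b u : ZMod 2, b = 1 → a.val = 1 → cnt 2 a b u ≤ 3) ∧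
    (∀ a b u : ZMod 4, b = 1 → a.val % 2 = 1 → cnt 4 a b u ≤ 6) ∧
    (∀ a b u : ZMod 8, b = 1 → a.val % 2 = 1 → cnt 8 a b u ≤ 12) := by
  decide +kernel

theorem unit_odd {p u : ℤ} {c : ℝ} (hp : 0 < p) (hpp : Prime p) (h2 : ¬ p ∣ 2) (hu : ¬ p ∣ u)
    (h : FB a b p u (c * p)) (k : ℕ) : FB a b (p ^ (k + 1)) u (c * p ^ (k + 1)) := by
  induction k with
  | zero => simpa using h
  | succ k ih =>
    rw [pow_succ' p]
    exact (ih.lift_odd (pow_ne_zero _ hp.ne') hp hpp h2 (dvd_pow_self _ (by omega)) hu).mono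
      (le_of_eq (by ring))

theorem unit_two {u : ℤ} {c : ℝ} (hu : ¬ 2 ∣ u) (h1 : FB a b 2 u (c * 2)) (h2 : FB a b 4 u (c * 4))
    (h3 : FB a b 8 u (c * 8)) (k : ℕ) : FB a b (2 ^ (k + 1)) u (c * (2 : ℤ) ^ (k + 1)) := by
  have h : ∀ k : ℕ, FB a b (8 * 2 ^ k) u (c * (8 * 2 ^ k)) := fun k => by
    induction k with
    | zero => simpa using h3
    | succ k ih =>
      rw [show (8 * 2 ^ (k + 1) : ℤ) = 2 * (8 * 2 ^ k) by ring]
      exact (ih.lift_two (by positivity) hu).mono (le_of_eq (by push_cast; ring))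
  rcases k with _ | _ | k
  · simpa using h1
  · exact h2.mono (le_of_eq (by norm_num))
  · rw [show (2 ^ (k + 1 + 1 + 1) : ℤ) = 8 * 2 ^ k by ring]
    exact (h k).mono (le_of_eq (by push_cast; ring))

theorem inert_pow {p : ℤ} {c : ℝ} (hp : 0 < p) (hc : 1 ≤ c)
    (hI : ∀ z, p ∣ qf a b z → p ∣ z.1 ∧ p ∣ z.2)
    (hU : ∀ u, ¬ p ∣ u → ∀ k : ℕ, FB a b (p ^ (k + 1)) u (c * p ^ (k + 1))) (k : ℕ) :
    ∀ u, FB a b (p ^ k) u (c * p ^ k) := by
  induction k using Nat.strong_induction_on with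
  | _ k ih =>
  intro u
  rcases k with _ | k
  · simpa using (FB_one u).mono hc
  by_cases hu : p ∣ u
  swap
  · exact hU u hu k
  intro ι S g hS hq
  have hd : ∀ i ∈ S, p ∣ (g i).1 ∧ p ∣ (g i).2 := fun i hi => hI _
    (dvd_eq (dvd_add ((dvd_pow_self p (by omega)).trans (hq i hi)) hu) (by ring))
  rcases k with _ | k
  · have : S.card ≤ 1 := card_le_one.2 fun i hi j hj => hS i hi j hj
      (by simpa using dvd_sub (hd i hi).1 (hd j hj).1)
      (by simpa using dvd_sub (hd i hi).2 (hd j hj).2)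
    have h1 : (S.card : ℝ) ≤ 1 := by exact_mod_cast this
    have h2 : (1 : ℝ) ≤ p := by exact_mod_cast hp
    rw [zero_add, pow_one]
    nlinarith
  have e1 : ∀ i ∈ S, (g i).1 = p * ((g i).1 / p) := fun i hi =>
    (Int.mul_ediv_cancel' (hd i hi).1).symm
  have e2 : ∀ i ∈ S, (g i).2 = p * ((g i).2 / p) := fun i hi =>
    (Int.mul_ediv_cancel' (hd i hi).2).symm
  rw [show p ^ (k + 1 + 1) = p * (p * p ^ k) by ring] at hS
  have := (ih k (by omega) (u / (p * p))).up (pow_ne_zero _ hp.ne') hp S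
    (fun i => ((g i).1 / p, (g i).2 / p)) (fun i hi j hj f1 f2 => hS i hi j hj
      (dvd_eq (mul_dvd_mul_left p f1) (by linear_combination e1 i hi - e1 j hj))
      (dvd_eq (mul_dvd_mul_left p f2) (by linear_combination e2 i hi - e2 j hj))) (fun i hi => ?_)
  · exact this.trans (le_of_eq (by ring))
  have e : qf a b (g i) = p * p * qf a b ((g i).1 / p, (g i).2 / p) := by
    conv_lhs => rw [qf, e1 i hi, e2 i hi]
    unfold qf; ring
  have h3 := hq i hi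
  rw [show p ^ (k + 1 + 1) = p * p * p ^ k by ring, e] at h3
  have h4 : p * p ∣ u := dvd_eq (dvd_sub (dvd_mul_right (p * p) (qf a b ((g i).1 / p, (g i).2 / p)))
    ((dvd_mul_right _ _).trans h3)) (by ring)
  rw [← Int.mul_ediv_cancel' h4, ← mul_sub] at h3
  exact (mul_dvd_mul_iff_left (by positivity)).1 h3

theorem ram_pow {p r c : ℤ} (hp : 0 < p) (hpp : Prime p) (hr : r ^ 2 + b * r - a = p * c)
    (hc : ¬ p ∣ c) (hb : p ∣ b + 2 * r)
    (hU : ∀ u, ¬ p ∣ u → ∀ k : ℕ, FB a b (p ^ (k + 1)) u (2 * p ^ (k + 1))) (k : ℕ) :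
    ∀ u, FB a b (p ^ k) u (2 * p ^ k) := by
  induction k with
  | zero => intro u; simpa using (FB_one u).mono one_le_two
  | succ k ih =>
  intro u
  by_cases hu : p ∣ u
  swap
  · exact hU u hu k
  intro ι S g hS hq
  have hd : ∀ i ∈ S, p ∣ r * (g i).2 - (g i).1 := fun i hi => by
    have h1 := dvd_add ((dvd_pow_self p (by omega)).trans (hq i hi)) hu
    refine hpp.dvd_of_dvd_pow (n := 2) (dvd_eq (dvd_sub (dvd_sub h1
      (hb.mul_right ((g i).2 * ((g i).1 - r * (g i).2)))) (dvd_mul_right p (c * (g i).2 ^ 2))) ?_)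
    unfold qf
    linear_combination (-(g i).2 ^ 2) * hr
  choose! s hs using hd
  obtain ⟨u, rfl⟩ := hu
  have hpk := pow_ne_zero k hp.ne'
  have := card_le_part S (fun i => (g i).2 / p ^ k % p) (Ico 0 p) (2 * p ^ k)
    (fun i _ => emod_mem hp _) (fun t _ => ih (c * u) ι _
      (fun i => (c * (g i).2 - (r + b) * s i, s i)) (fun i hi j hj f1 f2 => ?_) (fun i hi => ?_))
  · have hc : (((Ico 0 p).card : ℕ) : ℤ) = p := by simp [Int.toNat_of_nonneg hp.le]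
    have hc' : (((Ico 0 p).card : ℕ) : ℝ) = p := by exact_mod_cast hc
    rw [hc'] at this
    exact this.trans (le_of_eq (by ring))
  · obtain ⟨hi, hi'⟩ := mem_filter.1 hi
    obtain ⟨hj, hj'⟩ := mem_filter.1 hj
    have h1 : p ^ k ∣ (g i).2 - (g j).2 :=
      ((hpp.irreducible.coprime_iff_not_dvd.2 hc).pow_left (m := k)).dvd_of_dvd_mul_left
        (dvd_eq (dvd_add f1 (f2.mul_left (r + b))) (by ring))
    have h2 := dvd_of_div hpk h1 (hi'.trans hj'.symm)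
    rw [pow_succ'] at hS
    refine hS i hi j hj (dvd_eq (dvd_sub (h2.mul_left r) (mul_dvd_mul_left p f2)) ?_) h2
    linear_combination hs j hj - hs i hi
  · have hi := (mem_filter.1 hi).1
    refine (mul_dvd_mul_iff_left hp.ne').1 (dvd_eq (((pow_succ' p k).symm ▸ hq i hi :
      p * p ^ k ∣ _).mul_left c) ?_)
    have e1 : (g i).1 = r * (g i).2 - p * s i := by linarith [hs i hi]
    have e2 : a = r ^ 2 + b * r - p * c := by linarith
    unfold qf
    simp only []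
    rw [e1, e2]
    ring

theorem inert_of {p : ℤ} (hpp : Prime p) (h : ¬ ∃ r : ℤ, p ∣ r ^ 2 - b * r - a) (z : ℤ × ℤ)
    (hz : p ∣ qf a b z) : p ∣ z.1 ∧ p ∣ z.2 := by
  have h2 : p ∣ z.2 := by
    by_contra h2
    obtain ⟨s, v, e⟩ := hpp.irreducible.coprime_iff_not_dvd.2 h2
    refine h ⟨-(z.1 * v), dvd_eq (dvd_add (hz.mul_right (v ^ 2))
      (dvd_mul_right p (s * (b * z.1 * v - a * (1 + v * z.2))))) ?_⟩
    unfold qf
    linear_combination (-(b * z.1 * v - a * (1 + v * z.2))) * e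
  refine ⟨hpp.dvd_of_dvd_pow (n := 2) (dvd_eq (dvd_sub hz
    (h2.mul_right (b * z.1 - a * z.2))) ?_), h2⟩
  unfold qf; ring

theorem inert_base {p : ℕ} (hp : p.Prime) (h2 : p ≠ 2)
    (hI : ∀ z, (p : ℤ) ∣ qf a b z → (p : ℤ) ∣ z.1 ∧ (p : ℤ) ∣ z.2) {u : ℤ} (hu : ¬ (p : ℤ) ∣ u) :
    FB a b p u (p + 1) := by
  have := Fact.mk hp
  have hpp := Nat.prime_iff_prime_int.1 hp
  have hD : ((-(b ^ 2 + 4 * a) : ℤ) : ZMod p) ≠ 0 := fun h => by
    have : (p : ℤ) ∣ 2 := (hI (-b, 2) (dvd_eq ((ZMod.intCast_zmod_eq_zero_iff_dvd _ _).1 h)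
      (by unfold qf; ring))).2
    exact h2 ((Nat.prime_dvd_prime_iff_eq hp Nat.prime_two).1 (by exact_mod_cast this))
  have hs : ∀ c : ℤ, ∃ w, (p : ℤ) ∣ qf a b w - c := fun c => by
    obtain ⟨x, y, e⟩ := FiniteField.exists_root_sum_quadratic (R := ZMod p)
      (f := Polynomial.X ^ 2) (g := Polynomial.C ((-(b ^ 2 + 4 * a) : ℤ) : ZMod p) *
        Polynomial.X ^ 2 - Polynomial.C (c : ZMod p)) (by simp)
      (by generalize ((-(b ^ 2 + 4 * a) : ℤ) : ZMod p) = d at hD; compute_degree!)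
      (by rw [ZMod.card]; exact hp.eq_two_or_odd.resolve_left h2)
    obtain ⟨x, rfl⟩ := ZMod.intCast_surjective x
    obtain ⟨y, rfl⟩ := ZMod.intCast_surjective y
    refine ⟨(x - b * y, 2 * y), (ZMod.intCast_zmod_eq_zero_iff_dvd _ _).1 ?_⟩
    simp only [Polynomial.eval_pow, Polynomial.eval_X, Polynomial.eval_sub, Polynomial.eval_mul,
      Polynomial.eval_C] at e
    unfold qf
    push_cast at e ⊢
    linear_combination e
  choose w hw using hs
  intro ι S g hS hq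
  have hw' : ∀ j ∈ Ico (1 : ℤ) p, ¬ (p : ℤ) ∣ qf a b (w j) := fun j hj h => by
    have := Int.le_of_dvd (by linarith [(mem_Ico.1 hj).1])
      (dvd_eq (dvd_sub h (hw j)) (by ring) : (p : ℤ) ∣ j)
    linarith [(mem_Ico.1 hj).2]
  have := card_le_zmod (inc_mul (Ico (1 : ℤ) p) w hS hq
    (fun j hj => hpp.irreducible.coprime_iff_not_dvd.2 (hw' j hj)) (fun j hj j' hj' e => ?_))
    (univ.erase 0) (fun i hi => mem_erase.2 ⟨fun e => ?_, mem_univ _⟩)
  · rw [card_product, card_erase_of_mem (mem_univ _), card_univ, Fintype.card_prod, ZMod.card,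
      Int.card_Ico] at this
    obtain ⟨n, rfl⟩ : ∃ n, p = n + 2 := ⟨p - 2, by have := hp.two_le; omega⟩
    rw [show ((n + 2 : ℕ) - 1 : ℤ).toNat = n + 1 by omega,
      show (n + 2) * (n + 2) - 1 = (n + 2 + 1) * (n + 1) from Nat.sub_eq_of_eq_add (by ring)] at this
    exact_mod_cast le_of_mul_le_mul_right this (by omega)
  · have hj := mem_Ico.1 hj
    have hj' := mem_Ico.1 hj'
    exact eq_of_Ico ⟨by omega, hj.2⟩ ⟨by omega, hj'.2⟩ (dvd_eq (dvd_add (dvd_sub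
      ((hpp.dvd_or_dvd e).resolve_right hu) (hw j)) (hw j')) (by ring))
  · have h0 := qf_congr (a := a) (b := b) (z := mu a b (g i.1) (w i.2)) (w := (0, 0))
      (by simpa using (ZMod.intCast_zmod_eq_zero_iff_dvd _ _).1 (congrArg Prod.fst e))
      (by simpa using (ZMod.intCast_zmod_eq_zero_iff_dvd _ _).1 (congrArg Prod.snd e))
    rw [qf_mu, show qf a b (0, 0) = 0 by simp [qf], sub_zero] at h0
    rcases hpp.dvd_or_dvd h0 with h | h
    · exact hu (dvd_eq (dvd_sub h (hq _ (mem_product.1 hi).1)) (by ring))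
    · exact hw' _ (mem_product.1 hi).2 h

theorem exists_gap {ι : Type} (S : Finset ι) (hS : S.Nonempty) (l : ι → ℤ) {m : ℤ} (hm : 0 < m) :
    ∃ j ∈ S, ∃ d : ℤ, 0 < d ∧
      S.card * d ≤ m * (S.filter (fun i => m ∣ l i - l j - d)).card := by
  classical
  have hex : ∀ i ∈ S, ∃ d : ℕ, 0 < d ∧ ∃ j ∈ S, m ∣ l i - l j - d := fun i hi =>
    ⟨m.toNat, by omega, i, hi, -1, by rw [Int.toNat_of_nonneg hm.le]; ring⟩
  have hex' : ∀ β ∈ S.image (fun i => l i % m), ∃ d : ℕ, (0 < d ∧ ∃ j ∈ S, m ∣ β - l j - d) ∧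
      ∀ e : ℕ, 0 < e → e < d → ∀ j ∈ S, ¬ m ∣ β - l j - e := fun β hβ => by
    obtain ⟨i, hi, rfl⟩ := mem_image.1 hβ
    have h : ∃ d : ℕ, 0 < d ∧ ∃ j ∈ S, m ∣ l i % m - l j - d := by
      obtain ⟨d, hd, j, hj, h⟩ := hex i hi
      exact ⟨d, hd, j, hj, dvd_eq (dvd_add h (dvd_emod_sub m (l i))) (by ring)⟩
    exact ⟨_, Nat.find_spec h, fun e he hl j hj h' => Nat.find_min h hl ⟨he, j, hj, h'⟩⟩
  choose! d hd hmin using hex'
  have key : ∀ β ∈ S.image (fun i => l i % m), ∀ β' ∈ S.image (fun i => l i % m), ∀ e e' : ℕ,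
      e ≤ e' → e' < d β' → m ∣ (β' - e') - (β - e) → e = e' := fun β hβ β' hβ' e e' h1 h2 h3 => by
    by_contra h4
    obtain ⟨i, hi, rfl⟩ := mem_image.1 hβ
    refine hmin β' hβ' (e' - e) (by omega) (by omega) i hi
      (dvd_eq (dvd_add h3 (dvd_emod_sub m (l i))) ?_)
    rw [Nat.cast_sub h1]; ring
  have hsum : ((∑ β ∈ S.image (fun i => l i % m), d β : ℕ) : ℤ) ≤ m := by
    have := card_le_card_of_injOn (s := (S.image (fun i => l i % m)).sigma fun β => range (d β))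
      (t := Ico 0 m) (fun x => (x.1 - (x.2 : ℕ)) % m) (fun x _ => emod_mem hm _) ?_
    · rw [card_sigma, Int.card_Ico] at this
      simp only [card_range] at this
      omega
    rintro ⟨β, e⟩ hx ⟨β', e'⟩ hy h
    obtain ⟨hβ, he⟩ := mem_sigma.1 hx
    obtain ⟨hβ', he'⟩ := mem_sigma.1 hy
    have h1 : m ∣ (β' - e') - (β - e) := Int.ModEq.dvd h
    obtain rfl : e = e' := by
      rcases le_total e e' with h2 | h2
      · exact key β hβ β' hβ' e e' h2 (mem_range.1 he') h1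
      · exact (key β' hβ' β hβ e' e h2 (mem_range.1 he) (dvd_sub_comm.1 h1)).symm
    obtain ⟨i, -, rfl⟩ := mem_image.1 hβ
    obtain ⟨j, -, rfl⟩ := mem_image.1 hβ'
    rw [eq_of_Ico (mem_Ico.1 (emod_mem hm (l j))) (mem_Ico.1 (emod_mem hm (l i)))
      (dvd_eq h1 (by ring))]
  obtain ⟨β, hβ, h⟩ := exists_le_of_sum_le (hS.image (fun i => l i % m))
    (f := fun β => (S.card * d β : ℤ))
    (g := fun β => m * (S.filter (fun i => l i % m = β)).card) (by
      rw [← mul_sum, ← mul_sum, ← Nat.cast_sum, ← Nat.cast_sum, ← card_eq_sum_card_image, mul_comm]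
      exact mul_le_mul_of_nonneg_right hsum (by positivity))
  obtain ⟨h0, j, hj, h1⟩ := hd β hβ
  refine ⟨j, hj, d β, by exact_mod_cast h0, h.trans (mul_le_mul_of_nonneg_left
    (Nat.cast_le.2 (card_le_card fun i hi => ?_)) hm.le)⟩
  obtain ⟨hi', rfl⟩ := mem_filter.1 hi
  exact mem_filter.2 ⟨hi', dvd_eq (dvd_sub h1 (dvd_emod_sub m (l i))) (by ring)⟩

theorem split_fibre {m n r d u : ℤ} {C : ℝ} (hm : 0 < m) (hd : 0 < d) (hc : IsCoprime m n)
    (hr : m ∣ r ^ 2 - b * r - a) (hr' : IsCoprime m (2 * r - b)) (h : FB a b n u C) {ι : Type}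
    (S : Finset ι) (g : ι → ℤ × ℤ) (hS : Inc (m * n) S g) (h1 : ∀ i ∈ S, m * n ∣ qf a b (g i) - u)
    (h2 : ∀ i ∈ S, m ∣ (g i).1 + (g i).2 * (b - r) - d) : (S.card : ℝ) ≤ d * C := by
  have := card_le_part S (fun i => ((g i).1 + (g i).2 * r) % m * d / m) (Ico 0 d) C
    (fun i _ => ?_) (fun t _ => h ι _ g (fun i hi j hj f1 f2 => ?_)
      (fun i hi => (dvd_mul_left n m).trans (h1 i (mem_filter.1 hi).1)))
  · have hc : (((Ico 0 d).card : ℕ) : ℤ) = d := by simp [Int.toNat_of_nonneg hd.le]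
    have hc' : (((Ico 0 d).card : ℕ) : ℝ) = d := by exact_mod_cast hc
    rwa [hc'] at this
  · obtain ⟨h3, h4⟩ := mem_Ico.1 (emod_mem hm ((g i).1 + (g i).2 * r))
    exact mem_Ico.2 ⟨Int.ediv_nonneg (by positivity) hm.le,
      Int.ediv_lt_of_lt_mul hm (by nlinarith)⟩
  obtain ⟨hi, hi'⟩ := mem_filter.1 hi
  obtain ⟨hj, hj'⟩ := mem_filter.1 hj
  have h3 : ∀ i ∈ S, m ∣ ((g i).1 + (g i).2 * r) % m * d - u := fun i hi =>
    dvd_eq (dvd_sub (dvd_sub (dvd_add ((dvd_mul_right m n).trans (h1 i hi))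
      ((dvd_emod_sub m ((g i).1 + (g i).2 * r)).mul_right d)) (hr.mul_right ((g i).2 ^ 2)))
      ((h2 i hi).mul_right ((g i).1 + (g i).2 * r))) (by unfold qf; ring)
  have h4 : ((g i).1 + (g i).2 * r) % m * d = ((g j).1 + (g j).2 * r) % m * d := by
    have e1 : ((g j).1 + (g j).2 * r) % m * d % m = ((g i).1 + (g i).2 * r) % m * d % m :=
      Int.modEq_iff_dvd.2 (dvd_eq (dvd_sub (h3 i hi) (h3 j hj)) (by ring))
    rw [← Int.mul_ediv_add_emod (((g i).1 + (g i).2 * r) % m * d) m, hi', ← e1, ← hj',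
      Int.mul_ediv_add_emod]
  have h5 : m ∣ (g i).1 + (g i).2 * r - ((g j).1 + (g j).2 * r) :=
    Int.ModEq.dvd (mul_right_cancel₀ hd.ne' h4).symm
  have h6 : m ∣ (g i).2 - (g j).2 := hr'.dvd_of_dvd_mul_right
    (dvd_eq (dvd_add (dvd_sub h5 (h2 i hi)) (h2 j hj)) (by ring))
  exact hS i hi j hj (hc.mul_dvd (dvd_eq (dvd_sub h5 (h6.mul_right r)) (by ring)) f1)
    (hc.mul_dvd h6 f2)

end Adel

open Adel
open scoped Classical

namespace IQ

variable (F : IQ)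

theorem eta_pos (Q : ℕ) : 0 < F.eta Q := prod_pos fun p _ => by
  split_ifs <;> positivity

theorem adel_eta_mul {m n : ℕ} (h : m.Coprime n) : F.eta (m * n) = F.eta m * F.eta n := by
  rw [eta, h.primeFactors_mul, prod_union h.disjoint_primeFactors, eta, eta]

theorem adel_dvd_D {p : ℕ} : p ∣ F.D ↔ (p : ℤ) ∣ F.b ^ 2 + 4 * F.a := by
  rw [D, Int.natCast_dvd]

theorem adel_FB_ram {p : ℕ} (hp : p.Prime) (hD : p ∣ F.D) (k : ℕ) (u : ℤ) :
    FB F.a F.b (p ^ k) u (2 * (p : ℤ) ^ k) := by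
  have hpp := Nat.prime_iff_prime_int.1 hp
  have hp0 : (0 : ℤ) < p := by exact_mod_cast hp.pos
  rw [adel_dvd_D] at hD
  obtain ⟨r, c, h1, h2, h3⟩ : ∃ r c : ℤ, r ^ 2 + F.b * r - F.a = p * c ∧ ¬ (p : ℤ) ∣ c ∧
      (p : ℤ) ∣ F.b + 2 * r := by
    rcases F.fund with ⟨hb, hs⟩ | ⟨hb, hs, h4⟩
    · rw [hb, one_pow] at hD
      obtain ⟨e, he⟩ := hD
      rcases hp.eq_two_or_odd' with rfl | ⟨r, hr⟩
      · omega
      have hr' : (p : ℤ) = 2 * r + 1 := by exact_mod_cast hr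
      have h4 : IsCoprime (p : ℤ) 2 := ⟨1, -r, by rw [hr']; ring⟩
      obtain ⟨c, hc⟩ : (p : ℤ) ∣ r ^ 2 + r - F.a := (h4.pow_right (n := 2)).dvd_of_dvd_mul_left
        ⟨p - e, by linear_combination (-1) * he - (p + 2 * r + 1) * hr'⟩
      refine ⟨r, c, by rw [hb, one_mul, hc], fun ⟨t, ht⟩ => hpp.not_isUnit (hs _ ⟨1 - 4 * t, ?_⟩),
        1, by rw [hb, hr']; ring⟩
      rw [ht] at hc
      linear_combination (-4) * hc - (p + 2 * r + 1) * hr'
    by_cases ha : (p : ℤ) ∣ F.a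
    · obtain ⟨c, hc⟩ := ha
      exact ⟨0, -c, by rw [hc]; ring, fun ⟨t, ht⟩ => hpp.not_isUnit (hs _ ⟨-t, by
        rw [hc]; linear_combination (-(p : ℤ)) * ht⟩), by simp [hb]⟩
    · rw [hb] at hD
      have h5 : (p : ℤ) ∣ 2 := hpp.dvd_of_dvd_pow (n := 2)
        ((hpp.dvd_or_dvd (dvd_eq hD (by ring) : (p : ℤ) ∣ 2 ^ 2 * F.a)).resolve_right ha)
      obtain rfl := (Nat.prime_dvd_prime_iff_eq hp Nat.prime_two).1 (by exact_mod_cast h5)
      exact ⟨1, (1 - F.a) / 2, by rw [hb]; push_cast at ha ⊢; omega, by push_cast at ha ⊢; omega,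
        by rw [hb]; simp⟩
  refine ram_pow hp0 hpp h1 h2 h3 (fun u hu => ?_) k u
  rcases eq_or_ne p 2 with rfl | h2
  · rcases F.fund with ⟨hb, hs⟩ | ⟨hb, hs, h4⟩
    · rw [hb] at hD; omega
    have h5 : F.a % 4 ≠ 0 := fun h => Int.prime_two.not_isUnit (hs 2 (by omega))
    have a4 := ZMod.val_intCast (n := 4) F.a
    have a8 := ZMod.val_intCast (n := 8) F.a
    have u4 := ZMod.val_intCast (n := 4) u
    have u8 := ZMod.val_intCast (n := 8) u
    exact unit_two (c := 2) hu ((FB_cnt 2 (cnt_ram.1 _ _ _)).mono (by norm_num))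
      ((FB_cnt 4 (cnt_ram.2.1 _ _ _ (by simp [hb]) (by omega) (by omega))).mono (by norm_num))
      ((FB_cnt 8 (cnt_ram.2.2 _ _ _ (by simp [hb]) (by omega) (by omega))).mono (by norm_num))
  · have := Fact.mk hp
    exact unit_odd hp0 hpp (fun h => h2 ((Nat.prime_dvd_prime_iff_eq hp Nat.prime_two).1
      (by exact_mod_cast h))) hu ((FB_cnt p (cnt_prime p _ _ _)).mono (by simp))

theorem adel_FB_ine {p : ℕ} (hp : p.Prime) (hI : ¬ ∃ r : ℤ, (p : ℤ) ∣ r ^ 2 - F.b * r - F.a) (k : ℕ)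
    (u : ℤ) : FB F.a F.b (p ^ k) u ((1 + (p : ℝ)⁻¹) * (p : ℤ) ^ k) := by
  have hpp := Nat.prime_iff_prime_int.1 hp
  have hp0 : (0 : ℤ) < p := by exact_mod_cast hp.pos
  have hp1 : (p : ℝ) ≠ 0 := by exact_mod_cast hp.ne_zero
  refine inert_pow hp0 (le_add_of_nonneg_right (by positivity)) (inert_of hpp hI)
    (fun u hu => ?_) k u
  rcases eq_or_ne p 2 with rfl | h2
  · have ha : F.a % 2 = 1 := by
      by_contra h
      exact hI ⟨0, by push_cast; omega⟩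
    have hb : F.b = 1 := by
      rcases F.fund with ⟨hb, -⟩ | ⟨hb, -⟩
      · exact hb
      · exact absurd ⟨1, by rw [hb]; push_cast; omega⟩ hI
    have a2 := ZMod.val_intCast (n := 2) F.a
    have a4 := ZMod.val_intCast (n := 4) F.a
    have a8 := ZMod.val_intCast (n := 8) F.a
    exact unit_two hu ((FB_cnt 2 (cnt_ine.1 _ _ _ (by simp [hb]) (by omega))).mono (by norm_num))
      ((FB_cnt 4 (cnt_ine.2.1 _ _ _ (by simp [hb]) (by omega))).mono (by norm_num))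
      ((FB_cnt 8 (cnt_ine.2.2 _ _ _ (by simp [hb]) (by omega))).mono (by norm_num))
  · exact unit_odd hp0 hpp (fun h => h2 ((Nat.prime_dvd_prime_iff_eq hp Nat.prime_two).1
      (by exact_mod_cast h))) hu ((inert_base hp h2 (inert_of hpp hI) hu).mono
      (le_of_eq (by push_cast; field_simp)))

theorem adel_FB_nonsplit (m : ℕ) : m ≠ 0 → (∀ p : ℕ, p.Prime → p ∣ m → ¬ F.Spl p) →
    ∀ u, FB F.a F.b m u (m / F.eta m) := by
  induction m using Nat.recOnPosPrimePosCoprime with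
  | zero => simp
  | one => intro _ _ u; simpa [eta] using FB_one u
  | prime_pow p k hp hk =>
    intro _ h u
    have h := h p hp (dvd_pow_self _ hk.ne')
    rw [eta, Nat.primeFactors_prime_pow hk.ne' hp, prod_singleton, if_neg h, Nat.cast_pow]
    split_ifs with hD
    · exact (F.adel_FB_ram hp hD k u).mono (le_of_eq (by push_cast; ring))
    · exact (F.adel_FB_ine hp (fun h' => h ⟨hp, hD, h'⟩) k u).mono
        (le_of_eq (by push_cast; rw [div_inv_eq_mul, mul_comm]))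
  | coprime m n hm hn hc ihm ihn =>
    intro _ h u
    have := F.eta_pos n
    rw [F.adel_eta_mul hc, Nat.cast_mul]
    exact ((ihm (by omega) (fun p hp e => h p hp (e.mul_right _)) u).crt
      (ihn (by omega) (fun p hp e => h p hp (e.mul_left _)) u) (by omega)
      (Nat.isCoprime_iff_coprime.2 hc) (by positivity)).mono
      (le_of_eq (by rw [div_mul_div_comm, Nat.cast_mul]))

theorem Spl.adel_nd {F : IQ} {p : ℕ} (h : F.Spl p) {r : ℤ} (hr : (p : ℤ) ∣ r ^ 2 - F.b * r - F.a) :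
    ¬ (p : ℤ) ∣ 2 * r - F.b := fun e => h.2.1 (F.adel_dvd_D.2
  (dvd_eq (dvd_sub (e.mul_right (2 * r - F.b)) (hr.mul_left 4)) (by ring)))

theorem adel_exists_root (m : ℕ) : m ≠ 0 → (∀ p : ℕ, p.Prime → p ∣ m → F.Spl p) →
    ∃ r : ℤ, (m : ℤ) ∣ r ^ 2 - F.b * r - F.a := by
  induction m using induction_on_primes with
  | zero => simp
  | one => simp
  | prime_mul p m hp ih =>
    intro h0 h
    obtain ⟨r, e, he⟩ := ih (right_ne_zero_of_mul h0) fun q hq e => h q hq (e.mul_left _)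
    have hs := h p hp (dvd_mul_right _ _)
    have hpp := Nat.prime_iff_prime_int.1 hp
    rw [Nat.cast_mul]
    by_cases hm : (p : ℤ) ∣ m
    · obtain ⟨s, t, h1⟩ := hpp.irreducible.coprime_iff_not_dvd.2
        (hs.adel_nd (hm.trans ⟨e, he⟩))
      obtain ⟨n, hn⟩ := hm
      refine ⟨r - m * (e * t), s * e + n * (e * t) ^ 2, ?_⟩
      linear_combination he - m * e * h1 + m * (e * t) ^ 2 * hn
    · have hc := hpp.irreducible.coprime_iff_not_dvd.2 hm
      obtain ⟨r₀, h2⟩ := hs.2.2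
      obtain ⟨s, t, h1⟩ := id hc
      refine ⟨r * (s * p) + r₀ * (t * m), hc.mul_dvd ?_ ?_⟩
      · rw [show r * (s * p) + r₀ * (t * m) = r₀ + p * ((r - r₀) * s) by
          linear_combination r₀ * h1]
        exact dvd_eq (dvd_add h2 (dvd_mul_right (p : ℤ) ((r - r₀) * s *
          (2 * r₀ - F.b + p * ((r - r₀) * s))))) (by ring)
      · rw [show r * (s * p) + r₀ * (t * m) = r + m * ((r₀ - r) * t) by
          linear_combination r * h1]
        exact dvd_eq (dvd_add (Dvd.intro e he.symm) (dvd_mul_right (m : ℤ) ((r₀ - r) * t *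
          (2 * r - F.b + m * ((r₀ - r) * t))))) (by ring)

theorem adel_exists_fac (M : ℕ) : M ≠ 0 → ∃ m n : ℕ, M = m * n ∧ (∀ p : ℕ, p.Prime → p ∣ m → F.Spl p) ∧
    ∀ p : ℕ, p.Prime → p ∣ n → ¬ F.Spl p := by
  induction M using induction_on_primes with
  | zero => simp
  | one => exact fun _ => ⟨1, 1, rfl, fun p hp h => absurd h hp.not_dvd_one,
      fun p hp h => absurd h hp.not_dvd_one⟩
  | prime_mul p M hp ih =>
    intro h0
    obtain ⟨m, n, rfl, h1, h2⟩ := ih (right_ne_zero_of_mul h0)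
    by_cases h : F.Spl p
    · exact ⟨p * m, n, by ring, fun q hq e => ((hq.dvd_mul.1 e).elim
        (fun e => (Nat.prime_dvd_prime_iff_eq hq hp).1 e ▸ h) (h1 q hq)), h2⟩
    · exact ⟨m, p * n, by ring, h1, fun q hq e => ((hq.dvd_mul.1 e).elim
        (fun e => (Nat.prime_dvd_prime_iff_eq hq hp).1 e ▸ h) (h2 q hq))⟩

theorem adel_core {M : ℕ} (hM : M ≠ 0) {ι : Type} (S : Finset ι) (g : ι → ℤ × ℤ) (hS : Inc M S g) :
    F.eta M * S.card ≤ M * ((range M).filter (fun u : ℕ => ∃ i ∈ S, ∃ j ∈ S,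
      (M : ℤ) ∣ qf F.a F.b (g i - g j) - u)).card := by
  rcases S.eq_empty_or_nonempty with rfl | hne
  · simp
  obtain ⟨m, n, rfl, h1, h2⟩ := F.adel_exists_fac M hM
  have hm := left_ne_zero_of_mul hM
  have hn := right_ne_zero_of_mul hM
  have hm0 : (0 : ℤ) < m := by omega
  have hM0 : (0 : ℤ) < (m * n : ℕ) := by omega
  have hc : m.Coprime n := Nat.coprime_of_dvd fun p hp e e' => h2 p hp e' (h1 p hp e)
  obtain ⟨r, hr⟩ := F.adel_exists_root m hm h1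
  have hr' : IsCoprime (m : ℤ) (2 * r - F.b) := by
    rw [Int.isCoprime_iff_gcd_eq_one]
    exact Nat.coprime_of_dvd fun p hp e e' => (h1 p hp e).adel_nd
      ((Int.natCast_dvd_natCast.2 e).trans hr) (Int.natCast_dvd.2 e')
  have he : F.eta (m * n) = F.eta n := by
    rw [F.adel_eta_mul hc, eta, prod_eq_one fun p hp => if_pos (h1 p (Nat.prime_of_mem_primeFactors hp)
      (Nat.dvd_of_mem_primeFactors hp)), one_mul]
  obtain ⟨j, hj, d, hd, h⟩ := exists_gap S hne (fun i => (g i).1 + (g i).2 * (F.b - r)) hm0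
  have := card_le_part (S.filter (fun i => (m : ℤ) ∣ (g i).1 + (g i).2 * (F.b - r) -
      ((g j).1 + (g j).2 * (F.b - r)) - d))
    (fun i => (qf F.a F.b (g i - g j) % (m * n : ℕ)).toNat) ((range (m * n)).filter
      (fun u : ℕ => ∃ i ∈ S, ∃ j ∈ S, ((m * n : ℕ) : ℤ) ∣ qf F.a F.b (g i - g j) - u))
    (d * (n / F.eta n)) (fun i hi => ?_) (fun u _ => split_fibre hm0 hd
      (Nat.isCoprime_iff_coprime.2 hc) hr hr' (F.adel_FB_nonsplit n hn h2 u) _ (fun i => g i - g j)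
      (fun i hi i' hi' f1 f2 => ?_) (fun i hi => ?_) (fun i hi => ?_))
  · have h' := (Int.cast_le (R := ℝ)).2 h
    rw [Int.cast_mul, Int.cast_mul, Int.cast_natCast, Int.cast_natCast, Int.cast_natCast] at h'
    have h3 := h'.trans (mul_le_mul_of_nonneg_left this (Nat.cast_nonneg m))
    have hd' : (0 : ℝ) < d := by exact_mod_cast hd
    have h4 := F.eta_pos n
    rw [he, mul_comm, ← le_div_iff₀ h4]
    exact le_of_mul_le_mul_right (h3.trans (le_of_eq (by push_cast; ring))) hd'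
  · have h3 := mem_Ico.1 (emod_mem hM0 (qf F.a F.b (g i - g j)))
    refine mem_filter.2 ⟨mem_range.2 (by omega), i, (mem_filter.1 hi).1, j, hj, ?_⟩
    rw [Int.toNat_of_nonneg h3.1]
    exact dvd_sub_comm.1 (dvd_emod_sub _ _)
  · rw [← Nat.cast_mul] at f1 f2
    exact hS i (mem_filter.1 (mem_filter.1 hi).1).1 i' (mem_filter.1 (mem_filter.1 hi').1).1
      (by simpa using f1) (by simpa using f2)
  · rw [← (mem_filter.1 hi).2, Int.toNat_of_nonneg (mem_Ico.1 (emod_mem hM0 _)).1, ← Nat.cast_mul]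
    exact dvd_sub_comm.1 (dvd_emod_sub _ _)
  · exact dvd_eq (mem_filter.1 (mem_filter.1 hi).1).2 (by simp only [Prod.fst_sub, Prod.snd_sub]; ring)

theorem adel {Q M : ℕ} (hM : M ≠ 0) (hQM : Q ∣ M) (hp : M.primeFactors = Q.primeFactors)
    {A : Finset F.O} (hA : A ⊆ F.bx 0 Q) :
    F.eta Q * M / Q ^ 2 * A.card ≤ ((range M).filter (fun u => ∃ ρ ∈ A, ∃ ρ' ∈ A, ∃ z : F.O,
      (Q : F.O) ∣ z - (ρ' - ρ) ∧ F.nm z ≡ u [MOD M])).card := by
  obtain ⟨n, rfl⟩ := hQM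
  have hQ := left_ne_zero_of_mul hM
  have hn := right_ne_zero_of_mul hM
  have h := F.adel_core hM (A ×ˢ (Ico (0 : ℤ) n ×ˢ Ico (0 : ℤ) n))
    (fun x => (x.1.re + Q * x.2.1, x.1.im + Q * x.2.2)) ?_
  · have he : F.eta (Q * n) = F.eta Q := by rw [eta, hp, eta]
    rw [he, card_product, card_product, Int.card_Ico, sub_zero, Int.toNat_natCast] at h
    have hM' : (0 : ℝ) < (Q * n : ℕ) := by positivity
    refine le_of_mul_le_mul_left ((le_of_eq ?_).trans (h.trans (mul_le_mul_of_nonneg_left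
      (Nat.cast_le.2 (card_le_card fun u hu => ?_)) hM'.le))) hM'
    · push_cast; field_simp
    obtain ⟨hu, i, hi, j, hj, h⟩ := mem_filter.1 hu
    refine mem_filter.2 ⟨hu, j.1, (mem_product.1 hj).1, i.1, (mem_product.1 hi).1,
      i.1 - j.1 + Q * ⟨i.2.1 - j.2.1, i.2.2 - j.2.2⟩, ⟨_, add_sub_cancel_left _ _⟩,
      (Nat.modEq_iff_dvd.2 (dvd_eq h ?_)).symm⟩
    rw [nm_cast, norm_def, qf]
    simp
    ring
  rintro ⟨x, s, t⟩ hx ⟨y, s', t'⟩ hy f1 f2
  simp only [mem_product, mem_Ico] at hx hy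
  have hx' := F.mem_bx.1 (hA hx.1)
  have hy' := F.mem_bx.1 (hA hy.1)
  rw [Nat.cast_mul] at f1 f2
  have e1 : x.re = y.re := eq_of_Ico hx'.1 hy'.1 (dvd_eq (dvd_sub ((dvd_mul_right _ _).trans f1)
    (dvd_mul_right _ (s - s'))) (by ring))
  have e2 : x.im = y.im := eq_of_Ico hx'.2 hy'.2 (dvd_eq (dvd_sub ((dvd_mul_right _ _).trans f2)
    (dvd_mul_right _ (t - t'))) (by ring))
  have hQ' : (Q : ℤ) ≠ 0 := by omega
  rw [QuadraticAlgebra.ext e1 e2, eq_of_Ico hx.2.1 hy.2.1 ((mul_dvd_mul_iff_left hQ').1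
    (dvd_eq f1 (by linear_combination -e1))), eq_of_Ico hx.2.2 hy.2.2
    ((mul_dvd_mul_iff_left hQ').1 (dvd_eq f2 (by linear_combination -e2)))]

theorem adel_layer {Q M : ℕ} (hM : M ≠ 0) (hQM : Q ∣ M) (hp : M.primeFactors = Q.primeFactors)
    (nB : F.O → ℕ) : ∃ (ρ ρ' z : ℕ → F.O) (l : ℕ → ℕ),
      (∀ u, l u ≠ 0 → ρ u ∈ F.bx 0 Q ∧ ρ' u ∈ F.bx 0 Q ∧ l u ≤ nB (ρ u) ∧ l u ≤ nB (ρ' u) ∧
        (Q : F.O) ∣ z u - (ρ' u - ρ u) ∧ F.nm (z u) ≡ u [MOD M]) ∧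
      F.eta Q * M / Q ^ 2 * ∑ x ∈ F.bx 0 Q, (nB x : ℝ) ≤ ∑ u ∈ range M, (l u : ℝ) := by
  set K := (F.bx 0 Q).sup nB
  set P : ℕ → ℕ → Prop := fun u j => ∃ ρ ∈ (F.bx 0 Q).filter (fun x => j ≤ nB x),
    ∃ ρ' ∈ (F.bx 0 Q).filter (fun x => j ≤ nB x), ∃ z : F.O,
      (Q : F.O) ∣ z - (ρ' - ρ) ∧ F.nm z ≡ u [MOD M]
  have h : ∀ u, ∃ ρ ρ' z : F.O, Nat.findGreatest (P u) K ≠ 0 → ρ ∈ F.bx 0 Q ∧ ρ' ∈ F.bx 0 Q ∧
      Nat.findGreatest (P u) K ≤ nB ρ ∧ Nat.findGreatest (P u) K ≤ nB ρ' ∧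
        (Q : F.O) ∣ z - (ρ' - ρ) ∧ F.nm z ≡ u [MOD M] := fun u => by
    by_cases h : Nat.findGreatest (P u) K = 0
    · exact ⟨0, 0, 0, fun h' => absurd h h'⟩
    obtain ⟨ρ, h1, ρ', h2, z, h3⟩ := Nat.findGreatest_of_ne_zero rfl h
    exact ⟨ρ, ρ', z, fun _ => ⟨(mem_filter.1 h1).1, (mem_filter.1 h2).1, (mem_filter.1 h1).2,
      (mem_filter.1 h2).2, h3⟩⟩
  choose ρ ρ' z h using h
  refine ⟨ρ, ρ', z, _, h, ?_⟩
  have h1 : ∑ x ∈ F.bx 0 Q, nB x =
      ∑ j ∈ Icc 1 K, ((F.bx 0 Q).filter (fun x => j ≤ nB x)).card := by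
    simp only [card_filter]
    rw [sum_comm]
    refine sum_congr rfl fun x hx => ?_
    have : nB x ≤ K := le_sup hx
    rw [← card_filter, show (Icc 1 K).filter (fun j => j ≤ nB x) = Icc 1 (nB x) by
      ext j; simp only [mem_filter, mem_Icc]; omega, Nat.card_Icc, Nat.add_sub_cancel]
  have h2 : ∑ j ∈ Icc 1 K, ((range M).filter (fun u => P u j)).card ≤
      ∑ u ∈ range M, Nat.findGreatest (P u) K := by
    simp only [card_filter]
    rw [sum_comm]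
    refine sum_le_sum fun u _ => ?_
    rw [← card_filter]
    refine (card_le_card (t := Icc 1 (Nat.findGreatest (P u) K)) fun j hj => ?_).trans (by simp)
    obtain ⟨hj, h⟩ := mem_filter.1 hj
    exact mem_Icc.2 ⟨(mem_Icc.1 hj).1, Nat.le_findGreatest (mem_Icc.1 hj).2 h⟩
  rw [← Nat.cast_sum, ← Nat.cast_sum, h1, Nat.cast_sum, mul_sum]
  refine (sum_le_sum fun j _ => F.adel hM hQM hp (filter_subset _ _)).trans ?_
  exact_mod_cast h2

end IQ

theorem card_bad_le {Q : ℕ} (hQ : Q ≠ 0) (k : ℕ) :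
    (((range (Q ^ (4 + k))).filter (fun u => ¬ Nat.gcd u (Q ^ (4 + k)) ∣ Q ^ k)).card : ℝ) ≤
      Q * Q ^ (4 + k) / 2 ^ k := by
  have h1 : (range (Q ^ (4 + k))).filter (fun u => ¬ Nat.gcd u (Q ^ (4 + k)) ∣ Q ^ k) ⊆
      Q.primeFactors.biUnion fun p => (range (Q ^ (4 + k) / p ^ k)).image (fun t => p ^ k * t) := by
    intro u hu
    obtain ⟨hu, h⟩ := mem_filter.1 hu
    rw [Nat.dvd_iff_prime_pow_dvd_dvd] at h
    push Not at h
    obtain ⟨p, e, hp, h1, h2⟩ := h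
    have he : e ≠ 0 := by rintro rfl; simp at h2
    have h3 : p ∣ Q := hp.dvd_of_dvd_pow
      ((dvd_pow_self p he).trans (h1.trans (Nat.gcd_dvd_right _ _)))
    have h4 : k ≤ e := by
      by_contra h
      exact h2 ((pow_dvd_pow p (by omega)).trans (pow_dvd_pow_of_dvd h3 k))
    obtain ⟨t, rfl⟩ := (pow_dvd_pow p h4).trans (h1.trans (Nat.gcd_dvd_left _ _))
    refine mem_biUnion.2 ⟨p, Nat.mem_primeFactors.2 ⟨hp, h3, hQ⟩, mem_image.2 ⟨t, mem_range.2 ?_, rfl⟩⟩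
    exact (Nat.lt_div_iff_mul_lt' ((pow_dvd_pow_of_dvd h3 k).trans (pow_dvd_pow Q (by omega))) t).2
      (mem_range.1 hu)
  have h2 : Q.primeFactors.card ≤ Q := (card_le_card (t := Icc 1 Q) fun p hp => mem_Icc.2
    ⟨(Nat.prime_of_mem_primeFactors hp).pos, Nat.le_of_mem_primeFactors hp⟩).trans (by simp)
  have h3 := (card_le_card h1).trans (card_biUnion_le_card_mul _ _ (Q ^ (4 + k) / 2 ^ k)
    fun p hp => card_image_le.trans ((card_range _).trans_le (Nat.div_le_div_left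
      (Nat.pow_le_pow_left (Nat.prime_of_mem_primeFactors hp).two_le k) (by positivity))))
  refine (Nat.cast_le.2 (h3.trans (Nat.mul_le_mul_right _ h2))).trans ?_
  rw [Nat.cast_mul, mul_div_assoc]
  exact mul_le_mul_of_nonneg_left (Nat.cast_div_le.trans (by push_cast; rfl)) (Nat.cast_nonneg Q)

end Pool.Agent.Lib.MP_ad7336_co
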