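import Pool.Agent.Lib.MP_ad7336_co.Eul

set_option autoImplicit false

namespace Pool.Agent.Lib.MP_ad7336_co

open QuadraticAlgebra Finset Filter Topology MeasureTheory
open scoped Classical

noncomputable def kA (S : ℕ → Prop) (n : ℕ) : ℝ := if comp S n then (n : ℝ)⁻¹ else 0

theorem kA_nonneg (S : ℕ → Prop) (n : ℕ) : 0 ≤ kA S n := by
  unfold kA; split_ifs <;> positivity

theorem kA_pow (S : ℕ → Prop) (σ : ℝ) (k n : ℕ) :
    kA S n * ((n : ℝ) ^ (-σ) * ((n : ℝ) ^ (-σ)) ^ k) =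
      if comp S n then (n : ℝ) ^ (-(1 + (k + 1) * σ)) else 0 := by
  unfold kA
  split_ifs with h
  · have h0 : (0 : ℝ) < n := by exact_mod_cast Nat.pos_of_ne_zero h.1
    rw [← Real.rpow_neg_one, ← Real.rpow_natCast, ← Real.rpow_mul h0.le, ← Real.rpow_add h0,
      ← Real.rpow_add h0]
    congr 1; ring
  · simp

theorem k_poly (S : ℕ → Prop) {C : ℝ}
    (h : Tendsto (fun s : ℝ => √(s - 1) * EE S s) (𝓝[>] 1) (𝓝 C)) (q : Polynomial ℝ) :
    (∀ σ : ℝ, 0 < σ → Summable (fun n : ℕ => kA S n * ((n : ℝ) ^ (-σ) * q.eval ((n : ℝ) ^ (-σ))))) ∧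
    IntegrableOn (fun v : ℝ => Real.exp (-v ^ 2) * q.eval (Real.exp (-v ^ 2))) (Set.Ioi 0) ∧
    Tendsto (fun σ : ℝ => √σ * ∑' n : ℕ, kA S n * ((n : ℝ) ^ (-σ) * q.eval ((n : ℝ) ^ (-σ))))
      (𝓝[>] 0) (𝓝 (2 * C / √Real.pi *
        ∫ v in Set.Ioi (0 : ℝ), Real.exp (-v ^ 2) * q.eval (Real.exp (-v ^ 2)))) := by
  induction q using Polynomial.induction_on' with
  | add p q hp hq =>
    simp only [Polynomial.eval_add, mul_add]
    refine ⟨fun σ hσ => (hp.1 σ hσ).add (hq.1 σ hσ), hp.2.1.add hq.2.1, ?_⟩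
    rw [integral_add hp.2.1 hq.2.1, mul_add]
    refine (hp.2.2.add hq.2.2).congr' ?_
    filter_upwards [self_mem_nhdsWithin] with σ hσ
    rw [(hp.1 σ hσ).tsum_add (hq.1 σ hσ), mul_add]
  | monomial k c =>
    have k0 : (0 : ℝ) < k + 1 := by positivity
    have e1 : ∀ (σ : ℝ) (n : ℕ), kA S n * ((n : ℝ) ^ (-σ) * (Polynomial.monomial k c).eval
        ((n : ℝ) ^ (-σ))) = c * if comp S n then (n : ℝ) ^ (-(1 + (k + 1) * σ)) else 0 := by
      intro σ n
      rw [← kA_pow, Polynomial.eval_monomial]; ring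
    have e2 : ∀ v : ℝ, Real.exp (-v ^ 2) * (Polynomial.monomial k c).eval (Real.exp (-v ^ 2)) =
        c * Real.exp (-(k + 1) * v ^ 2) := by
      intro v
      rw [Polynomial.eval_monomial, ← Real.exp_nat_mul, mul_left_comm, ← Real.exp_add]
      congr 2; ring
    simp only [e1, e2]
    refine ⟨fun σ hσ => (EE_summable S (by nlinarith)).mul_left c,
      ((integrable_exp_neg_mul_sq k0).const_mul c).integrableOn, ?_⟩
    rw [integral_const_mul, integral_gaussian_Ioi]
    have t1 : Tendsto (fun σ : ℝ => 1 + (k + 1) * σ) (𝓝[>] 0) (𝓝[>] 1) := by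
      refine tendsto_nhdsWithin_iff.2 ⟨?_, ?_⟩
      · have : Tendsto (fun σ : ℝ => 1 + (k + 1) * σ) (𝓝 0) (𝓝 (1 + (k + 1) * 0)) :=
          (by fun_prop : Continuous (fun σ : ℝ => 1 + (k + 1) * σ)).tendsto 0
        simpa using this.mono_left nhdsWithin_le_nhds
      · filter_upwards [self_mem_nhdsWithin] with σ hσ
        have : 0 < σ := hσ
        show 1 < 1 + (k + 1) * σ
        nlinarith
    have s0 : 0 < √(k + 1 : ℝ) := Real.sqrt_pos.2 k0
    have s1 : 0 < √Real.pi := Real.sqrt_pos.2 Real.pi_pos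
    convert ((h.comp t1).const_mul (c / √(k + 1))) using 2
    · simp only [Function.comp, add_sub_cancel_left]
      rw [tsum_mul_left, Real.sqrt_mul k0.le, EE]
      field_simp
    · rw [Real.sqrt_div Real.pi_pos.le]
      field_simp

theorem k_approx {A B ε : ℝ} (hA : 0 ≤ A) (hAB : A < B) (hε : 0 < ε) : ∃ q : Polynomial ℝ,
    ∀ v : ℝ, 0 ≤ v → (if v ≤ A then 1 else 0) - ε * Real.exp (-v ^ 2) ≤
      Real.exp (-v ^ 2) * q.eval (Real.exp (-v ^ 2)) ∧
      Real.exp (-v ^ 2) * q.eval (Real.exp (-v ^ 2)) ≤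
        (if v ≤ B then 1 else 0) + ε * Real.exp (-v ^ 2) := by
  set α := Real.exp (-A ^ 2)
  set β := Real.exp (-B ^ 2)
  have b0 : 0 < β := Real.exp_pos _
  have ab : 0 < α - β := sub_pos.2 (Real.exp_lt_exp.2 (by nlinarith))
  obtain ⟨q, hq⟩ := exists_polynomial_near_of_continuousOn 0 1
    (fun u => min 1 (max 0 ((u - β) / (α - β))) / max u β)
    (Continuous.continuousOn (Continuous.div (by fun_prop) (by fun_prop)
      (fun u => (b0.trans_le (le_max_right _ _)).ne'))) ε hε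
  refine ⟨q, fun v hv => ?_⟩
  have u0 := Real.exp_pos (-v ^ 2)
  have h1 := abs_lt.1 (hq _ ⟨u0.le, Real.exp_le_one_iff.2 (neg_nonpos.2 (sq_nonneg v))⟩)
  have hα : v ≤ A → α ≤ Real.exp (-v ^ 2) := fun h => Real.exp_le_exp.2 (by nlinarith)
  have hβ : ¬ v ≤ B → Real.exp (-v ^ 2) ≤ β := fun h => Real.exp_le_exp.2 (by nlinarith)
  generalize Real.exp (-v ^ 2) = u at *
  have e : u * (min 1 (max 0 ((u - β) / (α - β))) / max u β) =
      min 1 (max 0 ((u - β) / (α - β))) := by
    rcases le_total β u with h | h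
    · rw [max_eq_left h]; field_simp
    · rw [max_eq_left (div_nonpos_of_nonpos_of_nonneg (by linarith) ab.le)]; simp
  have l1 : (if v ≤ A then 1 else 0) ≤ min 1 (max 0 ((u - β) / (α - β))) := by
    split_ifs with h
    · exact le_min le_rfl (le_max_of_le_right ((one_le_div ab).2 (by linarith [hα h])))
    · exact le_min zero_le_one (le_max_left _ _)
  have l2 : min 1 (max 0 ((u - β) / (α - β))) ≤ if v ≤ B then 1 else 0 := by
    split_ifs with h
    · exact min_le_left _ _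
    · exact min_le_of_right_le (max_le le_rfl
        (div_nonpos_of_nonpos_of_nonneg (by linarith [hβ h]) ab.le))
  have m1 := mul_lt_mul_of_pos_left h1.1 u0
  have m2 := mul_lt_mul_of_pos_left h1.2 u0
  rw [mul_sub, e] at m1 m2
  constructor <;> linarith

theorem k_int {B : ℝ} (hB : 0 ≤ B) :
    IntegrableOn (fun v : ℝ => if v ≤ B then (1 : ℝ) else 0) (Set.Ioi 0) ∧
    ∫ v in Set.Ioi (0 : ℝ), (if v ≤ B then (1 : ℝ) else 0) = B := by
  have e : (fun v : ℝ => if v ≤ B then (1 : ℝ) else 0) = (Set.Iic B).indicator (fun _ => 1) := by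
    funext v; simp [Set.indicator]
  rw [e]
  constructor
  · rw [IntegrableOn, integrable_indicator_iff measurableSet_Iic, IntegrableOn,
      Measure.restrict_restrict measurableSet_Iic, Set.Iic_inter_Ioi]
    exact integrableOn_const (by simp)
  · rw [setIntegral_indicator measurableSet_Iic, Set.Ioi_inter_Iic]
    simp [hB]

theorem k_sum (S : ℕ → Prop) {x : ℝ} (hx : 1 < x) : HasSum (fun n : ℕ =>
    kA S n * if √((Real.log x)⁻¹ * Real.log n) ≤ 1 then 1 else 0) (SS S x) := by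
  have h0 := Real.log_pos hx
  have e : ∀ n : ℕ, n ≠ 0 → (√((Real.log x)⁻¹ * Real.log n) ≤ 1 ↔ n ≤ ⌊x⌋₊) := fun n hn => by
    rw [Real.sqrt_le_left zero_le_one, one_pow, inv_mul_le_iff₀ h0, mul_one, Real.log_le_log_iff
      (by exact_mod_cast Nat.pos_of_ne_zero hn) (by linarith), Nat.le_floor_iff (by linarith)]
  have h1 : SS S x = ∑ n ∈ Icc 1 ⌊x⌋₊,
      kA S n * if √((Real.log x)⁻¹ * Real.log n) ≤ 1 then 1 else 0 :=
    sum_congr rfl (fun n hn => by
      rw [mem_Icc] at hn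
      rw [if_pos ((e n (by omega)).2 hn.2), mul_one, kA])
  rw [h1]
  refine hasSum_sum_of_ne_finset_zero (fun n hn => ?_)
  by_cases h : n = 0
  · rw [h, kA, if_neg (fun h => h.1 rfl), zero_mul]
  · rw [if_neg (fun h' => hn (mem_Icc.2 ⟨by omega, (e n h).1 h'⟩)), mul_zero]

theorem k_exp (S : ℕ → Prop) {σ : ℝ} (hσ : 0 < σ) (g : ℝ → ℝ) (n : ℕ) :
    kA S n * g (Real.exp (-√(σ * Real.log n) ^ 2)) = kA S n * g ((n : ℝ) ^ (-σ)) := by
  by_cases h : n = 0
  · rw [h, kA, if_neg (fun h => h.1 rfl), zero_mul, zero_mul]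
  · rw [Real.sq_sqrt (mul_nonneg hσ.le (Real.log_natCast_nonneg n)),
      Real.rpow_def_of_pos (by exact_mod_cast Nat.pos_of_ne_zero h)]
    congr 3; ring

theorem karamata (S : ℕ → Prop) {C : ℝ}
    (h : Tendsto (fun s : ℝ => √(s - 1) * EE S s) (𝓝[>] 1) (𝓝 C)) :
    Tendsto (fun x : ℝ => SS S x / √(Real.log x)) atTop (𝓝 (2 * C / √Real.pi)) := by
  have C0 : 0 ≤ C := ge_of_tendsto h (by
    filter_upwards [self_mem_nhdsWithin] with s hs
    exact mul_nonneg (Real.sqrt_nonneg _) (zero_le_one.trans (one_le_EE S hs)))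
  have c0 : 0 ≤ 2 * C / √Real.pi := by positivity
  generalize hc : 2 * C / √Real.pi = c at c0
  have t1 : Tendsto (fun x : ℝ => (Real.log x)⁻¹) atTop (𝓝[>] 0) :=
    tendsto_inv_atTop_nhdsGT_zero.comp Real.tendsto_log_atTop
  have g0 := (integrable_exp_neg_mul_sq one_pos).integrableOn (s := Set.Ioi 0)
  have g1 := integral_gaussian_Ioi 1
  simp only [neg_mul, one_mul, div_one] at g0 g1
  have g2 : √Real.pi / 2 ≤ 1 := by
    rw [div_le_one two_pos, Real.sqrt_le_left zero_le_two]; linarith [Real.pi_le_four]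
  have key : ∀ δ : ℝ, 0 < δ → δ ≤ 1 → ∀ᶠ x : ℝ in atTop, c - (3 * c + 1) * δ < SS S x / √(Real.log x) ∧
      SS S x / √(Real.log x) < c + (3 * c + 1) * δ := by
    intro δ δ0 δ1
    obtain ⟨p, hp⟩ := k_approx (A := 1 - δ) (B := 1) (by linarith) (by linarith) δ0
    obtain ⟨q, hq⟩ := k_approx (A := 1) (B := 1 + δ) zero_le_one (by linarith) δ0
    obtain ⟨p1, p2, p3⟩ := k_poly S h (p - Polynomial.C δ)
    obtain ⟨q1, q2, q3⟩ := k_poly S h (q + Polynomial.C δ)
    rw [hc] at p3 q3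
    simp only [Polynomial.eval_sub, Polynomial.eval_add, Polynomial.eval_C] at p1 p2 p3 q1 q2 q3
    have i1 := setIntegral_mono_on ((k_int (B := 1 - δ) (by linarith)).1.sub (g0.const_mul (2 * δ)))
      p2 measurableSet_Ioi (fun v hv => by
        have := (hp v (le_of_lt hv)).1
        simp only [Pi.sub_apply]
        linarith)
    have i2 := setIntegral_mono_on q2 ((k_int (B := 1 + δ) (by linarith)).1.add (g0.const_mul (2 * δ)))
      measurableSet_Ioi (fun v hv => by
        have := (hq v (le_of_lt hv)).2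
        simp only [Pi.add_apply]
        linarith)
    simp only [Pi.sub_apply, Pi.add_apply] at i1 i2
    rw [integral_sub (k_int (B := 1 - δ) (by linarith)).1 (g0.const_mul _), integral_const_mul,
      (k_int (by linarith)).2, g1] at i1
    rw [integral_add (k_int (B := 1 + δ) (by linarith)).1 (g0.const_mul _), integral_const_mul,
      (k_int (by linarith)).2, g1] at i2
    have g3 := mul_le_mul_of_nonneg_left g2 (mul_nonneg c0 δ0.le)
    filter_upwards [(p3.comp t1).eventually (lt_mem_nhds (show c - (3 * c + 1) * δ < _ by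
        nlinarith [mul_le_mul_of_nonneg_left i1 c0])),
      (q3.comp t1).eventually (gt_mem_nhds (show _ < c + (3 * c + 1) * δ by
        nlinarith [mul_le_mul_of_nonneg_left i2 c0])), eventually_gt_atTop 1] with x a1 a2 hx
    have σ0 := inv_pos.2 (Real.log_pos hx)
    simp only [Function.comp] at a1 a2
    rw [div_eq_inv_mul, ← Real.sqrt_inv, ← (k_sum S hx).tsum_eq]
    constructor
    · refine a1.trans_le (mul_le_mul_of_nonneg_left ((p1 _ σ0).tsum_le_tsum (fun n => ?_)
        (k_sum S hx).summable) (Real.sqrt_nonneg _))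
      rw [← k_exp S σ0 (fun u => u * (p.eval u - δ))]
      refine mul_le_mul_of_nonneg_left ?_ (kA_nonneg S n)
      linarith [(hp _ (Real.sqrt_nonneg ((Real.log x)⁻¹ * Real.log n))).2]
    · refine lt_of_le_of_lt (mul_le_mul_of_nonneg_left ((k_sum S hx).summable.tsum_le_tsum
        (fun n => ?_) (q1 _ σ0)) (Real.sqrt_nonneg _)) a2
      rw [← k_exp S σ0 (fun u => u * (q.eval u + δ))]
      refine mul_le_mul_of_nonneg_left ?_ (kA_nonneg S n)
      linarith [(hq _ (Real.sqrt_nonneg ((Real.log x)⁻¹ * Real.log n))).1]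
  rw [Metric.tendsto_nhds]
  intro ε hε
  have d0 : 0 < 3 * c + 1 := by linarith
  filter_upwards [key (min 1 (ε / (3 * c + 1))) (lt_min one_pos (by positivity)) (min_le_left _ _)]
    with x hx
  have := (le_div_iff₀' d0).1 (min_le_right 1 (ε / (3 * c + 1)))
  rw [Real.dist_eq, abs_lt]
  constructor <;> linarith [hx.1, hx.2]

end Pool.Agent.Lib.MP_ad7336_co
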