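import Pool.Agent.Lib.MP_ad7336_co.Lat
import Pool.Agent.Lib.MP_ad7336_co.Kara

set_option autoImplicit false

namespace Pool.Agent.Lib.MP_ad7336_co

open QuadraticAlgebra Finset Filter Topology
open scoped Classical nonZeroDivisors

namespace IQ

variable (F : IQ)

namespace Zt

/-- Sum over the generators of `I * r`. -/
theorem class_hasSum {r : Ideal F.O} (hr : r ≠ ⊥) {G : F.O → ℂ} {g : Ideal F.O → ℂ}
    (h0 : ∀ z, (z ∉ r ∨ z = 0) → G z = 0)
    (h1 : ∀ I z, I ≠ ⊥ → Ideal.span {z} = I * r → G z = g I) {a : ℂ} (ha : HasSum G a) :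
    HasSum (fun I => if I ≠ ⊥ ∧ (I * r).IsPrincipal then (F.ww : ℂ) * g I else 0) a := by
  let T := {I : Ideal F.O // I ≠ ⊥ ∧ (I * r).IsPrincipal}
  have hg : ∀ I : T, ∃ z : F.O, Ideal.span {z} = I.1 * r := fun I => by
    obtain ⟨z, hz⟩ := I.2.2
    exact ⟨z, hz.symm⟩
  choose gen hgen using hg
  have hgen0 : ∀ I : T, gen I ≠ 0 := fun I h => by
    have := hgen I
    rw [h, Ideal.span_singleton_eq_bot.2 rfl] at this
    exact mul_ne_zero I.2.1 hr this.symm
  have hsp : ∀ (I : T) (u : F.Oˣ), Ideal.span {(u : F.O) * gen I} = I.1 * r := fun I u => by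
    rw [Ideal.span_singleton_mul_left_unit u.isUnit, hgen]
  let φ : T × F.Oˣ → F.O := fun p => (p.2 : F.O) * gen p.1
  have hφ : Function.Injective φ := by
    rintro ⟨I, u⟩ ⟨J, v⟩ h
    simp only [φ] at h
    have hIJ : I = J := by
      apply Subtype.ext
      have := hsp I u
      rw [h, hsp J v] at this
      exact (mul_right_cancel₀ hr this).symm
    subst hIJ
    have := mul_right_cancel₀ (hgen0 I) h
    rw [Units.ext this]
  have hout : ∀ z, z ∉ Set.range φ → G z = 0 := by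
    intro z hz
    apply h0
    by_contra hc
    push Not at hc
    apply hz
    obtain ⟨I, hI⟩ := Ideal.dvd_span_singleton.2 hc.1
    have hI0 : I ≠ ⊥ := by
      rintro rfl
      rw [Ideal.mul_bot, Ideal.span_singleton_eq_bot] at hI
      exact hc.2 hI
    rw [mul_comm] at hI
    let J : T := ⟨I, hI0, ⟨z, hI.symm⟩⟩
    have h2 : Ideal.span {gen J} = Ideal.span {z} := by rw [hgen J, hI]
    obtain ⟨u, hu⟩ := Ideal.span_singleton_eq_span_singleton.1 h2
    exact ⟨(J, u), by simp only [φ]; rw [mul_comm]; exact hu⟩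
  have h2 := (hφ.hasSum_iff hout).2 ha
  let _ := Fintype.ofFinite F.Oˣ
  have h3 : HasSum (fun I : T => (F.ww : ℂ) * g I.1) a := by
    refine h2.prod_fiberwise fun I => ?_
    have : (fun u : F.Oˣ => (G ∘ φ) (I, u)) = fun _ => g I.1 := by
      funext u
      exact h1 _ _ I.2.1 (hsp I u)
    rw [this]
    have h4 := hasSum_fintype (fun _ : F.Oˣ => g I.1)
    rwa [Finset.sum_const, card_univ, nsmul_eq_mul, ← Nat.card_eq_fintype_card] at h4
  have h5 := (hasSum_subtype_iff_indicator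
    (s := {I : Ideal F.O | I ≠ ⊥ ∧ (I * r).IsPrincipal})
    (f := fun I => (F.ww : ℂ) * g I) (a := a)).1 h3
  have : (fun I => if I ≠ ⊥ ∧ (I * r).IsPrincipal then (F.ww : ℂ) * g I else 0) =
      Set.indicator {I : Ideal F.O | I ≠ ⊥ ∧ (I * r).IsPrincipal}
        (fun I => (F.ww : ℂ) * g I) := by
    funext I
    simp only [Set.indicator_apply, Set.mem_ofPred_eq]
  rw [this]
  exact h5

theorem exists_reps {Q : ℕ} (hQ : Q ≠ 0) : ∃ r : ClassGroup F.O → Ideal F.O,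
    (∀ C, F.cop Q (r C)) ∧ ∀ I : Ideal F.O, I ≠ ⊥ → ∃! C, (I * r C).IsPrincipal := by
  have h : ∀ C : ClassGroup F.O, ∃ r : Ideal F.O, F.cop Q r ∧
      ∀ (I : Ideal F.O) (hI : I ∈ (Ideal F.O)⁰),
        (I * r).IsPrincipal ↔ ClassGroup.mk0 ⟨I, hI⟩ = C := by
    intro C
    obtain ⟨⟨J, hJ⟩, rfl⟩ := ClassGroup.mk0_surjective C
    have hJ0 : J ≠ ⊥ := nonZeroDivisors.ne_zero hJ
    obtain ⟨z, r, hr, hz⟩ := F.exists_span_mul hQ hJ0
    have hr0 : r ∈ (Ideal F.O)⁰ := mem_nonZeroDivisors_of_ne_zero hr.1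
    refine ⟨r, hr, fun I hI => ?_⟩
    have h1 : ClassGroup.mk0 ⟨J, hJ⟩ * ClassGroup.mk0 ⟨r, hr0⟩ = 1 := by
      rw [← map_mul]
      exact (ClassGroup.mk0_eq_one_iff (mul_mem hJ hr0)).2 ⟨z, hz.symm⟩
    rw [← ClassGroup.mk0_eq_one_iff (mul_mem hI hr0)]
    have h2 : ClassGroup.mk0 ⟨I * r, mul_mem hI hr0⟩ =
        ClassGroup.mk0 ⟨I, hI⟩ * ClassGroup.mk0 ⟨r, hr0⟩ := by
      rw [← map_mul]; rfl
    rw [h2, ← h1, mul_left_inj]
  choose r hr1 hr2 using h
  refine ⟨r, hr1, fun I hI => ?_⟩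
  have hI' : I ∈ (Ideal F.O)⁰ := mem_nonZeroDivisors_of_ne_zero hI
  exact ⟨ClassGroup.mk0 ⟨I, hI'⟩, (hr2 _ I hI').2 rfl, fun C hC => ((hr2 C I hI').1 hC).symm⟩

/-- The summand of the Hecke series. -/
noncomputable def gg (Q : ℕ) (f : Ideal F.O → ℂ) (s : ℝ) (I : Ideal F.O) : ℂ :=
  if F.cop Q I then f I * ((((Ideal.absNorm I : ℕ) : ℝ) ^ (-s) : ℝ) : ℂ) else 0

/-- The truncated periodic factor. -/
noncomputable def tc (Q : ℕ) (c : F.O → ℂ) (z : F.O) : ℂ :=
  if Ideal.span {z} ⊔ Ideal.span {(Q : F.O)} = ⊤ then c z else 0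

theorem tc_per {Q : ℕ} {c : F.O → ℂ} (hc : ∀ z w, (Q : F.O) ∣ z - w → c z = c w) (z w : F.O)
    (h : (Q : F.O) ∣ z - w) : tc F Q c z = tc F Q c w := by
  have key : ∀ x y : F.O, (Q : F.O) ∣ x - y →
      Ideal.span {x} ⊔ Ideal.span {(Q : F.O)} ≤ Ideal.span {y} ⊔ Ideal.span {(Q : F.O)} := by
    intro x y hxy
    refine sup_le ?_ le_sup_right
    rw [Ideal.span_singleton_le_iff_mem]
    have : x = y + (x - y) := by ring
    rw [this]
    exact add_mem (Ideal.mem_sup_left (Ideal.mem_span_singleton_self y))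
      (Ideal.mem_sup_right (Ideal.mem_span_singleton.2 hxy))
  have h' : (Q : F.O) ∣ w - z := by rw [← neg_sub]; exact h.neg_right
  unfold tc
  rw [le_antisymm (key z w h) (key w z h'), hc z w h]

theorem absNorm_pos {I : Ideal F.O} (hI : I ≠ ⊥) : (0 : ℝ) < (Ideal.absNorm I : ℕ) := by
  have : Ideal.absNorm I ≠ 0 := fun h => hI (Ideal.absNorm_eq_zero_iff.1 h)
  exact_mod_cast Nat.pos_of_ne_zero this

theorem tc_summable {Q : ℕ} {f : Ideal F.O → ℂ} (hn : ∀ I, F.cop Q I → ‖f I‖ = 1)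
    {c : F.O → ℂ} {k : ℤ}
    (hf : ∀ z, F.cop Q (Ideal.span {z}) → f (Ideal.span {z}) = c z * F.dir z ^ k)
    (J : Ideal F.O) {s : ℝ} (hs : 1 < s) :
    Summable (fun z => if z ∈ J then tc F Q c z * F.ph k s z else 0) := by
  refine Summable.of_norm_bounded (F.ph_summable k hs) fun z => ?_
  split_ifs with hz
  · by_cases h0 : z = 0
    · simp [ph, h0]
    · rw [norm_mul]
      refine mul_le_of_le_one_left (norm_nonneg _) ?_
      unfold tc
      split_ifs with h1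
      · have h2 : F.cop Q (Ideal.span {z}) :=
          F.cop_iff.2 ⟨by rwa [Ne, Ideal.span_singleton_eq_bot], h1⟩
        have h3 := hn _ h2
        rw [hf z h2, norm_mul, norm_zpow, F.norm_dir h0, one_zpow, mul_one] at h3
        exact h3.le
      · simp
  · simp

theorem gg_class {Q : ℕ} {f : Ideal F.O → ℂ}
    (hm : ∀ I J, F.cop Q I → F.cop Q J → f (I * J) = f I * f J)
    (hn : ∀ I, F.cop Q I → ‖f I‖ = 1) {c : F.O → ℂ} {k : ℤ}
    (hf : ∀ z, F.cop Q (Ideal.span {z}) → f (Ideal.span {z}) = c z * F.dir z ^ k)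
    {r : Ideal F.O} (hr : F.cop Q r) (q : Ideal F.O) {s : ℝ} (hs : 1 < s) :
    HasSum (fun I => if I ≠ ⊥ ∧ (I * r).IsPrincipal then
        (F.ww : ℂ) * (if q ∣ I then gg F Q f s I else 0) else 0)
      ((f r)⁻¹ * ((((Ideal.absNorm r : ℕ) : ℝ) ^ s : ℝ) : ℂ) *
        ∑' z, if z ∈ r * q then tc F Q c z * F.ph k s z else 0) := by
  refine class_hasSum F hr.1 ?_ ?_
    ((tc_summable F hn hf (r * q) hs).hasSum.mul_left _)
  · rintro z (hz | rfl)
    · rw [if_neg (fun h : z ∈ r * q => hz (Ideal.mul_le_left h)), mul_zero]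
    · simp [ph]
  · intro I z hI hz
    have hz0 : z ≠ 0 := by
      rintro rfl
      rw [Ideal.span_singleton_eq_bot.2 rfl] at hz
      exact mul_ne_zero hI hr.1 hz.symm
    have h1 : z ∈ r * q ↔ q ∣ I := by
      rw [← Ideal.dvd_span_singleton, hz, mul_comm I r, mul_dvd_mul_iff_left hr.1]
    by_cases hq : q ∣ I
    · rw [if_pos (h1.2 hq), if_pos hq]
      unfold gg tc
      by_cases hc : F.cop Q I
      · have h2 : F.cop Q (Ideal.span {z}) := by rw [hz]; exact F.cop_mul.2 ⟨hc, hr⟩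
        rw [if_pos hc, if_pos (F.cop_iff.1 h2).2]
        have h3 : f I * f r = c z * F.dir z ^ k := by rw [← hm I r hc hr, ← hz, hf z h2]
        have h4 : (F.nm z : ℝ) = (Ideal.absNorm I : ℕ) * (Ideal.absNorm r : ℕ) := by
          rw [← F.absNorm_span, hz, map_mul, Nat.cast_mul]
        have h5 : f r ≠ 0 := fun h => by simpa [h] using hn r hr
        have h6 : (((Ideal.absNorm r : ℕ) : ℝ)) ^ s * (F.nm z : ℝ) ^ (-s) =
            ((Ideal.absNorm I : ℕ) : ℝ) ^ (-s) := by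
          rw [h4, Real.mul_rpow (Nat.cast_nonneg _) (Nat.cast_nonneg _), mul_left_comm,
            ← Real.rpow_add (absNorm_pos F hr.1), add_neg_cancel, Real.rpow_zero, mul_one]
        rw [← h6, ph, if_neg hz0, Complex.ofReal_mul]
        field_simp
        linear_combination -(((((Ideal.absNorm r : ℕ) : ℝ) ^ s : ℝ) : ℂ) *
          (((F.nm z : ℝ) ^ (-s) : ℝ) : ℂ)) * h3
      · rw [if_neg hc, if_neg, zero_mul, mul_zero]
        intro h
        have h2 : F.cop Q (Ideal.span {z}) :=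
          F.cop_iff.2 ⟨by rwa [Ne, Ideal.span_singleton_eq_bot], h⟩
        rw [hz] at h2
        exact hc (F.cop_mul.1 h2).1
    · rw [if_neg (fun h => hq (h1.1 h)), if_neg hq, mul_zero]

noncomputable scoped instance : Fintype (ClassGroup F.O) := Fintype.ofFinite _

theorem gg_hasSum {Q : ℕ} {f : Ideal F.O → ℂ}
    (hm : ∀ I J, F.cop Q I → F.cop Q J → f (I * J) = f I * f J)
    (hn : ∀ I, F.cop Q I → ‖f I‖ = 1) {c : F.O → ℂ} {k : ℤ}
    (hf : ∀ z, F.cop Q (Ideal.span {z}) → f (Ideal.span {z}) = c z * F.dir z ^ k)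
    {r : ClassGroup F.O → Ideal F.O} (hr : ∀ C, F.cop Q (r C))
    (hu : ∀ I : Ideal F.O, I ≠ ⊥ → ∃! C, (I * r C).IsPrincipal) (q : Ideal F.O) {s : ℝ}
    (hs : 1 < s) :
    HasSum (fun I => (F.ww : ℂ) * (if q ∣ I then gg F Q f s I else 0))
      (∑ C, (f (r C))⁻¹ * ((((Ideal.absNorm (r C) : ℕ) : ℝ) ^ s : ℝ) : ℂ) *
        ∑' z, if z ∈ r C * q then tc F Q c z * F.ph k s z else 0) := by
  have h := hasSum_sum (s := univ) fun C _ => gg_class F hm hn hf (hr C) q hs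
  have e : (fun I => (F.ww : ℂ) * (if q ∣ I then gg F Q f s I else 0)) = fun I =>
      ∑ C, if I ≠ ⊥ ∧ (I * r C).IsPrincipal then
        (F.ww : ℂ) * (if q ∣ I then gg F Q f s I else 0) else 0 := by
    funext I
    by_cases hI : I = ⊥
    · have : gg F Q f s I = 0 := if_neg fun h => h.1 hI
      simp [this]
    · obtain ⟨C, hC, hC'⟩ := hu I hI
      rw [Finset.sum_eq_single C]
      · exact (if_pos ⟨hI, hC⟩).symm
      · intro C' _ hne
        exact if_neg fun h => hne (hC' C' h.2)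
      · simp
  rw [e]
  exact h

theorem gg_summable {Q : ℕ} (hQ : Q ≠ 0) {f : Ideal F.O → ℂ} (h : F.Hk Q f) {s : ℝ}
    (hs : 1 < s) : Summable (gg F Q f s) := by
  obtain ⟨c, k, -, hf⟩ := h.form
  obtain ⟨r, hr, hu⟩ := exists_reps F hQ
  have h1 := (gg_hasSum F h.mul h.norm hf hr hu 1 hs).summable
  have hw : (F.ww : ℂ) ≠ 0 := by exact_mod_cast F.ww_pos.ne'
  simpa only [one_dvd, if_true, summable_mul_left_iff hw] using h1

theorem rpow_tendsto {a : ℝ} (ha : a ≠ 0) :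
    Tendsto (fun s : ℝ => ((a ^ s : ℝ) : ℂ)) (𝓝[>] 1) (𝓝 (a : ℂ)) := by
  have h := (Real.continuousAt_const_rpow (b := 1) ha).tendsto
  rw [Real.rpow_one] at h
  exact (Complex.continuous_ofReal.tendsto a).comp (h.mono_left nhdsWithin_le_nhds)

theorem asym {Q : ℕ} (hQ : Q ≠ 0) {f : Ideal F.O → ℂ}
    (hm : ∀ I J, F.cop Q I → F.cop Q J → f (I * J) = f I * f J)
    (hn : ∀ I, F.cop Q I → ‖f I‖ = 1) {c : F.O → ℂ} {k : ℤ}
    (hc : ∀ z w, (Q : F.O) ∣ z - w → c z = c w)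
    (hf : ∀ z, F.cop Q (Ideal.span {z}) → f (Ideal.span {z}) = c z * F.dir z ^ k)
    {r : ClassGroup F.O → Ideal F.O} (hr : ∀ C, F.cop Q (r C))
    (hu : ∀ I : Ideal F.O, I ≠ ⊥ → ∃! C, (I * r C).IsPrincipal) {q : Ideal F.O}
    (hq : F.cop Q q) :
    Tendsto (fun s : ℝ => ((s - 1 : ℝ) : ℂ) *
      ((F.ww : ℂ) * (∑' I, if q ∣ I then gg F Q f s I else 0) -
        (∑ C, (f (r C))⁻¹ * ((((Ideal.absNorm (r C) : ℕ) : ℝ) ^ s : ℝ) : ℂ) /
          Ideal.absNorm (r C)) * ((∑ z ∈ F.bx 0 Q, tc F Q c z) / (Q : ℂ) ^ 2) /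
          Ideal.absNorm q * ∑' z, F.ph k s z)) (𝓝[>] 1) (𝓝 0) := by
  have h1 := tendsto_finsetSum (s := univ) fun C _ =>
    ((tendsto_const_nhds (x := (f (r C))⁻¹)).mul
      (rpow_tendsto (absNorm_pos F (hr C).1).ne')).mul
      (F.ph_ideal hQ k (tc F Q c) (tc_per F hc) (F.cop_mul.2 ⟨hr C, hq⟩))
  simp only [mul_zero, Finset.sum_const_zero] at h1
  refine h1.congr' ?_
  filter_upwards [self_mem_nhdsWithin] with s hs
  rw [← tsum_mul_left, (gg_hasSum F hm hn hf hr hu q hs).tsum_eq, Finset.sum_mul,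
    Finset.sum_div, Finset.sum_mul, ← Finset.sum_sub_distrib, Finset.mul_sum]
  refine Finset.sum_congr rfl fun C _ => ?_
  rw [map_mul, Nat.cast_mul]
  ring

theorem tsum_dvd {g : Ideal F.O → ℂ} (hm : ∀ I J, g (I * J) = g I * g J) {q : Ideal F.O}
    (hq : q ≠ ⊥) : (∑' I, if q ∣ I then g I else 0) = g q * ∑' I, g I := by
  have hinj : Function.Injective (fun J : Ideal F.O => q * J) := mul_right_injective₀ hq
  rw [← hinj.tsum_eq (f := fun I => if q ∣ I then g I else 0), ← tsum_mul_left]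
  · refine tsum_congr fun J => ?_
    rw [if_pos (dvd_mul_right q J), hm]
  · intro I hI
    by_contra h
    apply hI
    exact if_neg fun ⟨J, hJ⟩ => h ⟨J, hJ.symm⟩

theorem gg_mul {Q : ℕ} {f : Ideal F.O → ℂ}
    (hm : ∀ I J, F.cop Q I → F.cop Q J → f (I * J) = f I * f J) (s : ℝ) (I J : Ideal F.O) :
    gg F Q f s (I * J) = gg F Q f s I * gg F Q f s J := by
  unfold gg
  by_cases hI : F.cop Q I
  · by_cases hJ : F.cop Q J
    · rw [if_pos (F.cop_mul.2 ⟨hI, hJ⟩), if_pos hI, if_pos hJ, hm I J hI hJ, map_mul, Nat.cast_mul,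
        Real.mul_rpow (Nat.cast_nonneg _) (Nat.cast_nonneg _), Complex.ofReal_mul]
      ring
    · rw [if_neg fun h => hJ (F.cop_mul.1 h).2, if_neg hJ, mul_zero]
  · rw [if_neg fun h => hI (F.cop_mul.1 h).1, if_neg hI, zero_mul]

theorem hk_top {Q : ℕ} {f : Ideal F.O → ℂ} (h : F.Hk Q f) : f ⊤ = 1 := by
  have h1 := h.mul ⊤ ⊤ (F.cop_top Q) (F.cop_top Q)
  have h2 : f ⊤ ≠ 0 := fun e => by simpa [e] using h.norm ⊤ (F.cop_top Q)
  rw [Ideal.top_mul] at h1
  exact (mul_eq_left₀ h2).1 h1.symm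

theorem gg_top {Q : ℕ} {f : Ideal F.O → ℂ} (h : F.Hk Q f) (s : ℝ) : gg F Q f s ⊤ = 1 := by
  simp [gg, F.cop_top Q, hk_top F h]

/-- A nontrivial Hecke character has no pole. -/
theorem no_pole {Q : ℕ} (hQ : Q ≠ 0) {f : Ideal F.O → ℂ} (h : F.Hk Q f) {q : Ideal F.O}
    (hq : F.cop Q q) (hne : f q ≠ 1) :
    Tendsto (fun s : ℝ => ((s - 1 : ℝ) : ℂ) * ∑' I, gg F Q f s I) (𝓝[>] 1) (𝓝 0) := by
  obtain ⟨c, k, hc, hf⟩ := h.form
  obtain ⟨r, hr, hu⟩ := exists_reps F hQ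
  have h1 := asym F hQ h.mul h.norm hc hf hr hu hq
  have h2 := asym F hQ h.mul h.norm hc hf hr hu (F.cop_top Q)
  have hN := absNorm_pos F hq.1
  have hN' : ((Ideal.absNorm q : ℕ) : ℂ) ≠ 0 := by exact_mod_cast hN.ne'
  have hw : (F.ww : ℂ) ≠ 0 := by exact_mod_cast F.ww_pos.ne'
  have h3 := (h1.mul_const ((Ideal.absNorm q : ℕ) : ℂ)).sub h2
  have h4 : Tendsto (fun s : ℝ => (F.ww : ℂ) * (f q * ((Ideal.absNorm q : ℕ) : ℂ) /
      ((((Ideal.absNorm q : ℕ) : ℝ) ^ s : ℝ) : ℂ) - 1)) (𝓝[>] 1) (𝓝 (F.ww * (f q - 1))) := by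
    have := ((tendsto_const_nhds (x := f q * ((Ideal.absNorm q : ℕ) : ℂ))).div
      (rpow_tendsto hN.ne') (by exact_mod_cast hN.ne')).sub_const 1 |>.const_mul (F.ww : ℂ)
    rwa [Complex.ofReal_natCast, mul_div_cancel_right₀ _ hN'] at this
  have h5 : (F.ww : ℂ) * (f q - 1) ≠ 0 := mul_ne_zero hw (sub_ne_zero.2 hne)
  have h6 := h3.div h4 h5
  simp only [zero_mul, sub_zero, zero_div] at h6
  refine h6.congr' ?_
  filter_upwards [h4.eventually_ne h5] with s hs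
  rw [Pi.div_apply, div_eq_iff hs, tsum_dvd F (gg_mul F h.mul s) hq.1,
    tsum_dvd F (gg_mul F h.mul s) top_ne_bot, gg_top F h]
  rw [gg, if_pos hq, Real.rpow_neg hN.le, Complex.ofReal_inv, Ideal.absNorm_top]
  field_simp
  ring

theorem hk_one : F.Hk 1 (fun _ => 1) :=
  ⟨fun _ _ _ _ => by simp, fun _ _ => by simp, fun _ => 1, 0, fun _ _ _ => rfl, fun _ _ => by simp⟩

/-- The residue of the Dedekind zeta function. -/
theorem zeta_res :
    Tendsto (fun s : ℝ => ((s - 1 : ℝ) : ℂ) * ∑' I, gg F 1 (fun _ => 1) s I) (𝓝[>] 1)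
      (𝓝 (F.rho : ℂ)) := by
  obtain ⟨r, hr, hu⟩ := exists_reps F one_ne_zero
  have h1 := asym F (f := fun _ => 1) (c := fun _ => 1) (k := 0) one_ne_zero (hk_one F).mul
    (hk_one F).norm (fun _ _ _ => rfl) (fun _ _ => by simp) hr hu (F.cop_top 1)
  have hw : (F.ww : ℂ) ≠ 0 := by exact_mod_cast F.ww_pos.ne'
  have h2 : ∑ z ∈ F.bx 0 (1 : ℕ), tc F 1 (fun _ => 1) z = 1 := by
    have : ∀ z, tc F 1 (fun _ => 1) z = 1 := fun z => by simp [tc]
    simp [this, card_bx]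
  have h3 : Tendsto (fun s : ℝ => ∑ C, (1 : ℂ)⁻¹ *
      ((((Ideal.absNorm (r C) : ℕ) : ℝ) ^ s : ℝ) : ℂ) / Ideal.absNorm (r C)) (𝓝[>] 1)
      (𝓝 (F.hh : ℂ)) := by
    have := tendsto_finsetSum (s := univ) fun C _ =>
      ((rpow_tendsto (absNorm_pos F (hr C).1).ne').const_mul (1 : ℂ)⁻¹).div_const
        ((Ideal.absNorm (r C) : ℕ) : ℂ)
    have e : ∑ C, (1 : ℂ)⁻¹ * (((Ideal.absNorm (r C) : ℕ) : ℝ) : ℂ) /
        ((Ideal.absNorm (r C) : ℕ) : ℂ) = F.hh := by
      rw [Finset.sum_congr rfl (g := fun _ => (1 : ℂ))]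
      · simp [hh]
      · intro C _
        have : ((Ideal.absNorm (r C) : ℕ) : ℂ) ≠ 0 := by
          exact_mod_cast (absNorm_pos F (hr C).1).ne'
        rw [inv_one, one_mul, Complex.ofReal_natCast, div_self this]
    rwa [e] at this
  have h4 := (h1.add (h3.mul F.ph_zero_tendsto)).div_const (F.ww : ℂ)
  have e : (0 + (F.hh : ℂ) * ((2 * Real.pi / √(F.D : ℝ) : ℝ) : ℂ)) / F.ww = F.rho := by
    unfold rho
    push_cast
    ring
  rw [e] at h4
  refine h4.congr fun s => ?_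
  rw [h2, tsum_dvd F (gg_mul F (hk_one F).mul s) top_ne_bot, gg_top F (hk_one F),
    Ideal.absNorm_top]
  field_simp
  ring

theorem sieve {g : Ideal F.O → ℂ} (hm : ∀ I J, g (I * J) = g I * g J) (hs : Summable g)
    (S : Finset (Ideal F.O)) (hS : ∀ P ∈ S, Prime P) :
    (∑' I, if ∃ P ∈ S, P ∣ I then 0 else g I) = (∏ P ∈ S, (1 - g P)) * ∑' I, g I := by
  induction S using Finset.induction_on with
  | empty => simp
  | insert P S hP ih =>
    have hS' : ∀ P' ∈ S, Prime P' := fun P' h => hS P' (mem_insert_of_mem h)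
    have hPp : Prime P := hS P (mem_insert_self _ _)
    set g' : Ideal F.O → ℂ := fun I => if ∃ P ∈ S, P ∣ I then 0 else g I with hg'
    have hm' : ∀ I J, g' (I * J) = g' I * g' J := by
      intro I J
      simp only [hg']
      by_cases hI : ∃ P ∈ S, P ∣ I
      · obtain ⟨P', h1, h2⟩ := hI
        rw [if_pos ⟨P', h1, h2.mul_right J⟩, if_pos ⟨P', h1, h2⟩, zero_mul]
      · by_cases hJ : ∃ P ∈ S, P ∣ J
        · obtain ⟨P', h1, h2⟩ := hJ
          rw [if_pos ⟨P', h1, h2.mul_left I⟩, if_pos (c := ∃ P ∈ S, P ∣ J) ⟨P', h1, h2⟩, mul_zero]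
        · rw [if_neg hI, if_neg hJ, if_neg, hm]
          rintro ⟨P', h1, h2⟩
          rcases (hS' P' h1).dvd_or_dvd h2 with h | h
          exacts [hI ⟨P', h1, h⟩, hJ ⟨P', h1, h⟩]
    have hs' : Summable g' := by
      refine Summable.of_norm_bounded hs.norm fun I => ?_
      simp only [hg']
      split_ifs <;> simp
    have hs'' : Summable fun I => if P ∣ I then g' I else 0 := by
      refine Summable.of_norm_bounded hs'.norm fun I => ?_
      split_ifs <;> simp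
    have hgP : g' P = g P := by
      refine if_neg ?_
      rintro ⟨P', h1, h2⟩
      rw [(prime_dvd_prime_iff_eq (hS' P' h1) hPp).1 h2] at h1
      exact hP h1
    have e : (fun I => if ∃ P' ∈ insert P S, P' ∣ I then 0 else g I) =
        fun I => g' I - if P ∣ I then g' I else 0 := by
      funext I
      by_cases h : P ∣ I
      · rw [if_pos ⟨P, mem_insert_self _ _, h⟩, if_pos h, sub_self]
      · rw [if_neg h, sub_zero]
        simp only [hg', mem_insert, exists_eq_or_imp, h, false_or]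
    rw [e, hs'.tsum_sub hs'', tsum_dvd F hm' hPp.ne_zero, hgP, ih hS', prod_insert hP]
    ring

theorem pair_prime {p : ℕ} (hp : p.Prime) {P : Ideal F.O}
    (h : P ∈ ({F.pp p, F.cj (F.pp p)} : Finset (Ideal F.O))) : Prime P ∧ (p : F.O) ∈ P := by
  rcases mem_insert.1 h with rfl | h
  · exact ⟨F.pp_prime hp, F.pp_mem hp⟩
  · rw [mem_singleton.1 h]
    exact ⟨F.cj_prime (F.pp_prime hp), F.mem_cj.2 (by simpa using F.pp_mem hp)⟩

/-- The Euler product in sieving form. -/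
theorem euler {g : Ideal F.O → ℂ} (hm : ∀ I J, g (I * J) = g I * g J) (h0 : g ⊥ = 0)
    (h1 : g ⊤ = 1) (hs : Summable g) :
    Tendsto (fun y : ℕ => (∏ p ∈ (range (y + 1)).filter Nat.Prime,
      ∏ P ∈ ({F.pp p, F.cj (F.pp p)} : Finset (Ideal F.O)), (1 - g P)) * ∑' I, g I)
      atTop (𝓝 1) := by
  let S : ℕ → Finset (Ideal F.O) := fun y =>
    ((range (y + 1)).filter Nat.Prime).biUnion fun p => {F.pp p, F.cj (F.pp p)}
  have hS : ∀ y, ∀ P ∈ S y, Prime P := by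
    intro y P hP
    obtain ⟨p, hp, h⟩ := mem_biUnion.1 hP
    exact (pair_prime F (mem_filter.1 hp).2 h).1
  have h2 : Tendsto (fun y : ℕ => ∑' I, if ∃ P ∈ S y, P ∣ I then 0 else g I) atTop
      (𝓝 (∑' I : Ideal F.O, if I = ⊤ then (1 : ℂ) else 0)) := by
    refine tendsto_tsum_of_dominated_convergence hs.norm (fun I => ?_)
      (Eventually.of_forall fun y I => by split_ifs <;> simp)
    by_cases hI : I = ⊤
    · subst hI
      rw [if_pos rfl]
      refine tendsto_const_nhds.congr fun y => ?_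
      rw [if_neg, h1]
      rintro ⟨P, hP, hd⟩
      exact (hS y P hP).not_dvd_one (by rwa [Ideal.one_eq_top])
    · rw [if_neg hI]
      by_cases hb : I = ⊥
      · subst hb
        simp [h0]
      · obtain ⟨P, hP, hd⟩ := Ideal.exists_le_maximal I hI
        have hP0 : P ≠ ⊥ := fun h => hb (le_bot_iff.1 (h ▸ hd))
        have hPp : Prime P := Ideal.prime_of_isPrime hP0 hP.isPrime
        obtain ⟨p, hp, hpP⟩ := F.exists_under hPp
        refine tendsto_const_nhds.congr' ?_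
        filter_upwards [eventually_ge_atTop p] with y hy
        rw [if_pos]
        refine ⟨P, mem_biUnion.2 ⟨p, mem_filter.2 ⟨mem_range.2 (by omega), hp⟩, ?_⟩,
          Ideal.dvd_iff_le.2 hd⟩
        rcases F.eq_pp hp hPp hpP with h | h <;> simp [h]
  rw [tsum_ite_eq] at h2
  refine h2.congr fun y => ?_
  rw [sieve F hm hs _ (hS y), prod_biUnion]
  intro p hp p' hp' hne
  refine disjoint_left.2 fun P h h' => ?_
  have hp1 := (mem_filter.1 hp).2
  have hp2 := (mem_filter.1 hp').2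
  obtain ⟨hP, h3⟩ := pair_prime F hp1 h
  have h4 := (pair_prime F hp2 h').2
  have h5 : IsCoprime (p : F.O) (p' : F.O) := by
    have := (Nat.isCoprime_iff_coprime.2 ((Nat.coprime_primes hp1 hp2).2 hne)).map
      (Int.castRingHom F.O)
    simpa using this
  obtain ⟨a, b, hab⟩ := h5
  have h6 : (1 : F.O) ∈ P := hab ▸ add_mem (P.mul_mem_left a h3) (P.mul_mem_left b h4)
  exact hP.not_isUnit (by rw [(Ideal.eq_top_iff_one P).2 h6, ← Ideal.one_eq_top]; exact isUnit_one)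

theorem norm_pp {p : ℕ} (hp : p.Prime) :
    Ideal.absNorm (F.pp p) = p ∨ Ideal.absNorm (F.pp p) = p ^ 2 := by
  rcases F.tri hp with h | h | h
  exacts [Or.inl h.absNorm, Or.inr h.absNorm, Or.inl (F.ram_absNorm hp h)]

theorem cop_pp {Q p : ℕ} (hp : p.Prime) : F.cop Q (F.pp p) ↔ ¬ p ∣ Q := by
  rw [← hp.coprime_iff_not_dvd]
  unfold cop
  rw [and_iff_right (show F.pp p ≠ ⊥ from (F.pp_prime hp).ne_zero)]
  rcases norm_pp F hp with h | h <;> rw [h]
  exact Nat.coprime_pow_left_iff two_pos _ _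

theorem rp_pos {p : ℕ} (hp : p.Prime) (s : ℝ) : 0 < (p : ℝ) ^ (-s) :=
  Real.rpow_pos_of_pos (by exact_mod_cast hp.pos) _

theorem rp_le {p : ℕ} (hp : p.Prime) {s : ℝ} (hs : 1 ≤ s) : (p : ℝ) ^ (-s) ≤ (p : ℝ)⁻¹ := by
  rw [← Real.rpow_neg_one]
  exact Real.rpow_le_rpow_of_exponent_le (by exact_mod_cast hp.one_le) (by linarith)

theorem inv_le_half {p : ℕ} (hp : p.Prime) : (p : ℝ)⁻¹ ≤ 1 / 2 := by
  rw [one_div]
  exact inv_anti₀ two_pos (by exact_mod_cast hp.two_le)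

theorem zeta_eq {s : ℝ} (hs : 1 < s) : ∑' I, gg F 1 (fun _ => 1) s I =
    ((EE F.Spl s ^ 2 * EE F.Ine (2 * s) * EE (fun p => p ∣ F.D) s : ℝ) : ℂ) := by
  have h1 := euler F (gg_mul F (hk_one F).mul s) (if_neg fun h => h.1 rfl) (gg_top F (hk_one F) s)
    (gg_summable F one_ne_zero (hk_one F) hs)
  have h2 := (Complex.continuous_ofReal.tendsto _).comp
    ((((EE_partial F.Spl hs).pow 2).mul (EE_partial F.Ine (s := 2 * s) (by linarith))).mul
      (EE_partial (fun p => p ∣ F.D) hs))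
  have h3 := h2.mul h1
  rw [mul_one] at h3
  refine tendsto_nhds_unique (tendsto_const_nhds.congr fun y => ?_) h3
  rw [← mul_assoc]
  refine (one_mul _).symm.trans (congrArg (· * _) (Eq.symm ?_))
  rw [Function.comp_apply, prod_filter, prod_filter, prod_filter, prod_filter, ← prod_pow,
    ← prod_mul_distrib, ← prod_mul_distrib, Complex.ofReal_prod, ← prod_mul_distrib]
  refine prod_eq_one fun p _ => ?_
  by_cases hp : p.Prime
  · have hc : F.cop 1 (F.pp p) := (cop_pp F hp).2 hp.not_dvd_one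
    have hX : ((1 - (p : ℝ) ^ (-s) : ℝ) : ℂ) ≠ 0 := by
      have := (rp_le hp hs.le).trans (inv_le_half hp)
      exact_mod_cast (by linarith : (0 : ℝ) < 1 - (p : ℝ) ^ (-s)).ne'
    have hX2 : ((1 - (p : ℝ) ^ (-(2 * s)) : ℝ) : ℂ) ≠ 0 := by
      have := (rp_le hp (s := 2 * s) (by linarith)).trans (inv_le_half hp)
      exact_mod_cast (by linarith : (0 : ℝ) < 1 - (p : ℝ) ^ (-(2 * s))).ne'
    rw [Complex.ofReal_sub, Complex.ofReal_one] at hX hX2
    rcases F.tri hp with h | h | h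
    · have hI : ¬ F.Ine p := fun h' => h'.not_spl h
      rw [if_pos ⟨hp, h⟩, if_neg fun h' => hI h'.2, if_neg fun h' => h.2.1 h'.2, if_pos hp,
        prod_pair h.ne.symm, gg, gg, if_pos hc, if_pos (F.cop_cj.2 hc), F.absNorm_cj, h.absNorm]
      push_cast
      field_simp
    · rw [if_neg fun h' => h.not_spl h'.2, if_pos ⟨hp, h⟩, if_neg fun h' => h.not_dvd h'.2,
        if_pos hp, F.cj_pp_of_not hp h.not_spl, pair_eq_singleton, prod_singleton, gg, if_pos hc,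
        h.absNorm, Nat.cast_pow, ← Real.rpow_natCast (p : ℝ) 2, ← Real.rpow_mul (Nat.cast_nonneg _),
        Nat.cast_ofNat, mul_neg]
      push_cast
      field_simp
    · have hS : ¬ F.Spl p := fun h' => h'.2.1 h
      rw [if_neg fun h' => hS h'.2, if_neg fun h' => h'.2.not_dvd h, if_pos ⟨hp, h⟩,
        if_pos hp, F.cj_pp_of_not hp hS, pair_eq_singleton, prod_singleton, gg, if_pos hc,
        F.ram_absNorm hp h]
      push_cast
      field_simp
  · simp [hp]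

theorem prod_tendsto (T : Finset ℕ) (hT : ∀ p ∈ T, p.Prime) :
    Tendsto (fun s : ℝ => ∏ p ∈ T, (1 - (p : ℝ) ^ (-s))) (𝓝[>] 1)
      (𝓝 (∏ p ∈ T, (1 - (p : ℝ)⁻¹))) := by
  refine tendsto_finsetProd _ fun p hp => Tendsto.const_sub _ ?_
  have h0 : (p : ℝ) ≠ 0 := by exact_mod_cast (hT p hp).ne_zero
  have h := ((Real.continuousAt_const_rpow (b := -1) h0).tendsto).comp
    (continuous_neg.tendsto (1 : ℝ))
  rw [Real.rpow_neg_one] at h
  exact h.mono_left nhdsWithin_le_nhds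

theorem prod_pos' (T : Finset ℕ) (hT : ∀ p ∈ T, p.Prime) : 0 < ∏ p ∈ T, (1 - (p : ℝ)⁻¹) :=
  prod_pos fun p hp => by linarith [inv_le_half (hT p hp)]

end Zt

open Zt

theorem II_pos : 0 < F.II := lt_of_lt_of_le one_pos (one_le_EE _ (by norm_num))

theorem ramP_pos : 0 < F.ramP := prod_pos' _ fun _ hp => Nat.prime_of_mem_primeFactors hp

theorem rho_pos : 0 < F.rho := by
  have h1 : (0 : ℝ) < F.hh := by exact_mod_cast F.hh_pos
  have h2 : (0 : ℝ) < F.ww := by exact_mod_cast F.ww_pos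
  have h3 : (0 : ℝ) < F.D := by exact_mod_cast lt_of_lt_of_le (by norm_num) F.three_le_D
  have := Real.pi_pos
  unfold rho
  positivity

theorem CE_pos : 0 < F.CE :=
  Real.sqrt_pos.2 (div_pos (mul_pos F.rho_pos F.ramP_pos) F.II_pos)

theorem tendsto_CE : Tendsto (fun s : ℝ => √(s - 1) * EE F.Spl s) (𝓝[>] 1) (𝓝 F.CE) := by
  have hD : F.D ≠ 0 := by have := F.three_le_D; omega
  have h1 := (Complex.continuous_re.tendsto _).comp (zeta_res F)
  have h2 := (h1.mul (prod_tendsto F.D.primeFactors fun _ hp =>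
    Nat.prime_of_mem_primeFactors hp)).div (EE_two_cont F.Ine) F.II_pos.ne'
  refine h2.sqrt.congr' ?_
  filter_upwards [self_mem_nhdsWithin] with s hs
  have hs : 1 < s := hs
  have h3 := (EE_fin F.D.primeFactors (fun p => p ∣ F.D) (fun p hp => by simp [hp, hD])
    (fun _ hp => Nat.prime_of_mem_primeFactors hp) (s := s) (by linarith)).tsum_eq
  have h4 : 0 < ∏ p ∈ F.D.primeFactors, (1 - (p : ℝ) ^ (-s)) := prod_pos fun p hp => by
    have hp' := Nat.prime_of_mem_primeFactors hp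
    linarith [(rp_le hp' hs.le).trans (inv_le_half hp')]
  have h5 := one_le_EE F.Ine (s := 2 * s) (by linarith)
  have h6 := one_le_EE F.Spl hs
  have h7 : EE F.Ine (2 * s) ≠ 0 := by linarith
  rw [Pi.div_apply, Function.comp_apply, zeta_eq F hs, ← Complex.ofReal_mul, Complex.ofReal_re,
    show EE (fun p => p ∣ F.D) s = _ from h3, prod_inv_distrib]
  rw [show (s - 1) * (EE F.Spl s ^ 2 * EE F.Ine (2 * s) *
      (∏ p ∈ F.D.primeFactors, (1 - (p : ℝ) ^ (-s)))⁻¹) *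
      (∏ p ∈ F.D.primeFactors, (1 - (p : ℝ) ^ (-s))) / EE F.Ine (2 * s) =
      (s - 1) * EE F.Spl s ^ 2 by rw [div_eq_iff h7]; field_simp,
    Real.sqrt_mul (by linarith), Real.sqrt_sq (by linarith)]

theorem Zt.tendsto_sdiff (S' : ℕ → Prop) (T : Finset ℕ) (hT : ∀ p ∈ T, F.Spl p)
    (h : ∀ p, p.Prime → (S' p ↔ F.Spl p ∧ p ∉ T)) :
    Tendsto (fun s : ℝ => √(s - 1) * EE S' s) (𝓝[>] 1)
      (𝓝 (F.CE * ∏ p ∈ T, (1 - (p : ℝ)⁻¹))) := by
  refine (F.tendsto_CE.mul (prod_tendsto T fun p hp => (hT p hp).1)).congr' ?_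
  filter_upwards [self_mem_nhdsWithin] with s hs
  rw [EE_sdiff F.Spl S' T (fun p hp => ⟨(hT p hp).1, hT p hp⟩) h hs, mul_assoc]

theorem tendsto_Lg (y : ℕ) : Tendsto (fun x : ℝ => SS (F.Lg y) x / √(Real.log x)) atTop
    (𝓝 (2 * (F.CE * F.Ey 1 y) / √Real.pi)) := by
  refine karamata _ (tendsto_sdiff F _ (F.PP 1 y) (fun p hp => (F.mem_PP.1 hp).2.1) fun p hp => ?_)
  rw [F.mem_PP, Lg]
  exact ⟨fun h => ⟨h.1, fun h' => by linarith [h.2, h'.1]⟩,
    fun h => ⟨h.1, by_contra fun h' => h.2 ⟨not_lt.1 h', h.1, hp.not_dvd_one⟩⟩⟩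

theorem Zt.exists_lim {Q : ℕ} (hQ : Q ≠ 0) : ∃ c : ℝ, 0 < c ∧
    Tendsto (fun s : ℝ => √(s - 1) * EE (fun p => F.Spl p ∧ ¬ p ∣ Q) s) (𝓝[>] 1) (𝓝 c) := by
  refine ⟨_, mul_pos F.CE_pos (prod_pos' (Q.primeFactors.filter F.Spl) fun p hp =>
    (mem_filter.1 hp).2.1), tendsto_sdiff F _ _ (fun p hp => (mem_filter.1 hp).2) fun p hp => ?_⟩
  simp only [mem_filter, Nat.mem_primeFactors, hp, true_and, ne_eq, hQ, not_false_eq_true,
    and_true]
  tauto

theorem Zt.EE_PP (Q : ℕ) {s : ℝ} (hs : 1 < s) :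
    Tendsto (fun y : ℕ => ∏ p ∈ F.PP Q y, (1 - (p : ℝ) ^ (-s))⁻¹) atTop
      (𝓝 (EE (fun p => F.Spl p ∧ ¬ p ∣ Q) s)) := by
  refine (EE_partial _ hs).congr fun y => prod_congr ?_ fun _ _ => rfl
  ext p
  simp only [PP, mem_filter]
  exact and_congr_right fun _ => ⟨fun h => h.2, fun h => ⟨h.1.1, h⟩⟩

theorem Zt.PP_mono (Q : ℕ) : Monotone (F.PP Q) := fun y y' h p hp => by
  rw [F.mem_PP] at hp ⊢
  exact ⟨hp.1.trans h, hp.2⟩

theorem Zt.sqrt_tendsto : Tendsto (fun s : ℝ => √(s - 1)) (𝓝[>] 1) (𝓝 0) := by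
  have : Continuous fun s : ℝ => √(s - 1) := by fun_prop
  have h := this.tendsto 1
  rw [sub_self, Real.sqrt_zero] at h
  exact h.mono_left nhdsWithin_le_nhds

theorem sum_PP_atTop {Q : ℕ} (hQ : Q ≠ 0) :
    Tendsto (fun y : ℕ => ∑ p ∈ F.PP Q y, (p : ℝ)⁻¹) atTop atTop := by
  refine tendsto_atTop_atTop_of_monotone' (fun y y' h => sum_le_sum_of_subset_of_nonneg
    (PP_mono F Q h) fun _ _ _ => by positivity) ?_
  rintro ⟨B, hB⟩
  obtain ⟨c, hc, hl⟩ := exists_lim F hQ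
  have h1 := sqrt_tendsto.mul_const (Real.exp (2 * B))
  rw [zero_mul] at h1
  refine hc.not_ge (le_of_tendsto_of_tendsto hl h1 ?_)
  filter_upwards [self_mem_nhdsWithin] with s hs
  have hs : 1 < s := hs
  refine mul_le_mul_of_nonneg_left (le_of_tendsto' (EE_PP F Q hs) fun y => ?_) (Real.sqrt_nonneg _)
  calc ∏ p ∈ F.PP Q y, (1 - (p : ℝ) ^ (-s))⁻¹ ≤ ∏ p ∈ F.PP Q y, Real.exp (2 * (p : ℝ)⁻¹) := by
        refine prod_le_prod (fun p hp => ?_) fun p hp => ?_ <;>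
        · have hp' := (F.mem_PP.1 hp).2.1.1
          have h2 := rp_le hp' hs.le
          have h3 := inv_le_half hp'
          have h4 := rp_pos hp' s
          first
          | exact inv_nonneg.2 (by linarith)
          | refine le_trans ?_ (Real.add_one_le_exp _)
            rw [inv_le_iff_one_le_mul₀ (by linarith)]
            nlinarith
    _ ≤ Real.exp (2 * B) := by
        rw [← Real.exp_sum, ← mul_sum]
        exact Real.exp_le_exp.2 (by linarith [hB ⟨y, rfl⟩])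

theorem Zt.hk_xi {Q : ℕ} {Ψ : Ideal F.O → ℂ} (h : F.Hk Q Ψ) :
    F.Hk Q (fun I => Ψ I * (starRingEnd ℂ) (Ψ (F.cj I))) := by
  obtain ⟨c, k, hc, hf⟩ := h.form
  refine ⟨fun I J hI hJ => ?_, fun I hI => ?_,
    fun z => c z * (starRingEnd ℂ) (c (star z)), k + k, fun z w hzw => ?_, fun z hz => ?_⟩
  · rw [F.cj_mul, h.mul I J hI hJ, h.mul _ _ (F.cop_cj.2 hI) (F.cop_cj.2 hJ), map_mul]
    ring
  · rw [norm_mul, Complex.norm_conj, h.norm I hI, h.norm _ (F.cop_cj.2 hI), mul_one]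
  · obtain ⟨t, ht⟩ := hzw
    show c z * _ = c w * _
    rw [hc z w ⟨t, ht⟩, hc (star z) (star w) ⟨star t, by rw [← star_sub, ht]; simp⟩]
  · have hz0 : z ≠ 0 := fun e => hz.1 (Ideal.span_singleton_eq_bot.2 e)
    have hd : F.dir z ≠ 0 := fun e => by simpa [e] using F.norm_dir hz0
    have h2 := F.cop_cj.2 hz
    rw [F.cj_span] at h2 ⊢
    rw [hf z hz, hf _ h2, F.dir_star, map_mul, map_zpow₀, Complex.conj_conj, zpow_add₀ hd]
    ring

theorem Zt.loc_le {u : ℂ} (hu : ‖u‖ = 1) {X t : ℝ} (h0 : 0 < X) (h1 : X ≤ t) (h2 : t ≤ 1 / 2) :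
    ‖(1 - u * X) * (1 - (starRingEnd ℂ) u * X)‖ * (1 - X)⁻¹ ^ 2 ≤
      Real.exp (8 * ((1 - u.re) * t)) := by
  have h3 : u.re ^ 2 + u.im ^ 2 = 1 := by
    have := Complex.sq_norm u
    rw [hu, Complex.normSq_apply] at this
    linarith
  have h4 : u.re ≤ 1 := hu ▸ Complex.re_le_norm u
  have h5 : (1 - u * X) * (1 - (starRingEnd ℂ) u * X) =
      (((1 - X) ^ 2 + 2 * (1 - u.re) * X : ℝ) : ℂ) := by
    apply Complex.ext
    · simp [sq]
      linear_combination X ^ 2 * h3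
    · simp [sq]
      ring
  have h6 : 0 ≤ (1 - u.re) * X := mul_nonneg (by linarith) h0.le
  have h7 : (1 - u.re) * X ≤ (1 - u.re) * t := mul_le_mul_of_nonneg_left h1 (by linarith)
  rw [h5, Complex.norm_real, Real.norm_of_nonneg (by nlinarith), inv_pow, ← div_eq_mul_inv,
    div_le_iff₀ (by nlinarith)]
  refine le_trans ?_ (mul_le_mul_of_nonneg_right (Real.add_one_le_exp _) (sq_nonneg _))
  have h8 : 1 / 4 ≤ (1 - X) ^ 2 := by nlinarith
  nlinarith [mul_le_mul h7 h8 (by norm_num) (h6.trans h7)]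

theorem diverge {Q : ℕ} (hQ : Q ≠ 0) {Ψ : Ideal F.O → ℂ} (h : F.Hk Q Ψ) (hn : ¬ F.Striv Q Ψ) :
    Tendsto (fun y : ℕ => ∑ p ∈ F.PP Q y,
      (1 - (Ψ (F.pp p) * (starRingEnd ℂ) (Ψ (F.cj (F.pp p)))).re) / p) atTop atTop := by
  have hξ := hk_xi F h
  set ξ : Ideal F.O → ℂ := fun I => Ψ I * (starRingEnd ℂ) (Ψ (F.cj I)) with hξd
  have hcop : ∀ {y p}, p ∈ F.PP Q y → F.cop Q (F.pp p) := fun hp =>
    (cop_pp F (F.mem_PP.1 hp).2.1.1).2 (F.mem_PP.1 hp).2.2
  refine tendsto_atTop_atTop_of_monotone' (fun y y' hy => sum_le_sum_of_subset_of_nonneg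
    (PP_mono F Q hy) fun p hp _ => div_nonneg (sub_nonneg.2 ?_) (Nat.cast_nonneg _)) ?_
  · exact (Complex.re_le_norm _).trans (hξ.norm _ (hcop hp)).le
  rintro ⟨B, hB⟩
  obtain ⟨c, hc, hl⟩ := exists_lim F hQ
  obtain ⟨q, hq, hne⟩ : ∃ q, F.cop Q q ∧ ξ q ≠ 1 := by
    by_contra hc
    push Not at hc
    refine hn fun I hI => ?_
    have h1 := hc I hI
    have h2 := Complex.mul_conj' (Ψ (F.cj I))
    rw [h.norm _ (F.cop_cj.2 hI)] at h2
    simp only [hξd] at h1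
    push_cast at h2
    linear_combination Ψ I * h2 - Ψ (F.cj I) * h1
  have h1 := (no_pole F hQ hξ hq hne).norm.const_mul (Real.exp (8 * B))
  rw [_root_.norm_zero, mul_zero] at h1
  refine (pow_pos hc 2).not_ge (le_of_tendsto_of_tendsto (hl.pow 2) h1 ?_)
  filter_upwards [self_mem_nhdsWithin] with s hs
  have hs : 1 < s := hs
  have h2 := (euler F (gg_mul F hξ.mul s) (if_neg fun h => h.1 rfl) (gg_top F hξ s)
    (gg_summable F hQ hξ hs)).norm.mul ((EE_PP F Q hs).pow 2)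
  rw [NormOneClass.norm_one, one_mul] at h2
  have h3 : EE (fun p => F.Spl p ∧ ¬ p ∣ Q) s ^ 2 ≤
      Real.exp (8 * B) * ‖∑' I, gg F Q ξ s I‖ := by
    refine le_of_tendsto' h2 fun y => ?_
    rw [norm_mul, mul_right_comm]
    refine mul_le_mul_of_nonneg_right ?_ (norm_nonneg _)
    have h4 : ‖∏ p ∈ (range (y + 1)).filter Nat.Prime,
        ∏ P ∈ ({F.pp p, F.cj (F.pp p)} : Finset (Ideal F.O)), (1 - gg F Q ξ s P)‖ ≤
        ∏ p ∈ F.PP Q y, ‖(1 - ξ (F.pp p) * ((p : ℝ) ^ (-s) : ℝ)) *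
          (1 - (starRingEnd ℂ) (ξ (F.pp p)) * ((p : ℝ) ^ (-s) : ℝ))‖ := by
      rw [norm_prod, PP, prod_filter, prod_filter]
      refine prod_le_prod (fun p _ => by split_ifs <;> positivity) fun p _ => ?_
      by_cases hp : p.Prime
      · rw [if_pos hp]
        by_cases hQp : p ∣ Q
        · have h5 : ¬ F.cop Q (F.pp p) := fun h => (cop_pp F hp).1 h hQp
          rw [if_neg fun h => h.2 hQp, prod_eq_one, NormOneClass.norm_one]
          intro P hP
          rcases mem_insert.1 hP with rfl | hP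
          · rw [gg, if_neg h5, sub_zero]
          · rw [mem_singleton.1 hP, gg, if_neg fun h => h5 (F.cop_cj.1 h), sub_zero]
        · have h5 := (cop_pp F hp).2 hQp
          by_cases hS : F.Spl p
          · rw [if_pos ⟨hS, hQp⟩, prod_pair hS.ne.symm, gg, gg, if_pos h5,
              if_pos (F.cop_cj.2 h5), F.absNorm_cj, hS.absNorm]
            simp only [hξd, F.cj_cj, map_mul, Complex.conj_conj, mul_comm (Ψ (F.cj (F.pp p))),
              le_refl]
          · have h6 : ξ (F.pp p) = 1 := by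
              simp only [hξd]
              rw [F.cj_pp_of_not hp hS, Complex.mul_conj', h.norm _ h5]
              simp
            have h7 : ((Ideal.absNorm (F.pp p) : ℕ) : ℝ) ^ (-s) ≤ 1 :=
              Real.rpow_le_one_of_one_le_of_nonpos
                (by exact_mod_cast (Nat.cast_pos.1 (absNorm_pos F h5.1))) (by linarith)
            have h8 : 0 ≤ ((Ideal.absNorm (F.pp p) : ℕ) : ℝ) ^ (-s) := by positivity
            rw [if_neg fun h => hS h.1, F.cj_pp_of_not hp hS, pair_eq_singleton, prod_singleton,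
              gg, if_pos h5, h6, one_mul, ← Complex.ofReal_one, ← Complex.ofReal_sub,
              Complex.norm_real, Real.norm_of_nonneg (by linarith)]
            linarith
      · rw [if_neg hp, if_neg fun h => hp h.1.1]
    refine (mul_le_mul_of_nonneg_right h4 (sq_nonneg _)).trans ?_
    rw [← prod_pow, ← prod_mul_distrib]
    refine (prod_le_prod (fun p _ => by positivity) fun p hp => loc_le (hξ.norm _ (hcop hp))
      (rp_pos (F.mem_PP.1 hp).2.1.1 s) (rp_le (F.mem_PP.1 hp).2.1.1 hs.le)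
      (inv_le_half (F.mem_PP.1 hp).2.1.1)).trans ?_
    rw [← Real.exp_sum, ← mul_sum]
    refine Real.exp_le_exp.2 (mul_le_mul_of_nonneg_left ?_ (by norm_num))
    simpa only [div_eq_mul_inv] using hB ⟨y, rfl⟩
  show (√(s - 1) * _) ^ 2 ≤ _
  rw [mul_pow, Real.sq_sqrt (by linarith), norm_mul, Complex.norm_real,
    Real.norm_of_nonneg (by linarith), mul_left_comm]
  exact mul_le_mul_of_nonneg_left h3 (by linarith)

end IQ

end Pool.Agent.Lib.MP_ad7336_co
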