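import Pool.Agent.Lib.MP_ad7336_co.Wirs
import Pool.Agent.Lib.MP_ad7336_co.Zeta

set_option autoImplicit false

namespace Pool.Agent.Lib.MP_ad7336_co

open QuadraticAlgebra Finset Filter Topology
open scoped Classical

namespace IQ

theorem hx_D_pos (F : IQ) : (0 : ℝ) < F.D := by
  exact_mod_cast lt_of_lt_of_le (by norm_num) F.three_le_D

theorem kap_pos (F : IQ) : 0 < F.kap := by
  have h1 := F.hx_D_pos
  have h2 := F.CE_pos
  have h3 := F.II_pos
  have h4 := F.ramP_pos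
  have := Real.pi_pos
  unfold kap
  positivity

theorem kap_sq (F : IQ) : F.kap ^ 2 = 4 / Real.pi ^ 2 * (8 * F.hh / F.ww) * √(F.D : ℝ) * F.II /
    (F.ramP * 4 ^ F.D.primeFactors.card) := by
  have h1 := F.hx_D_pos
  have h3 := F.II_pos
  have h4 := F.ramP_pos
  have h5 := Real.pi_pos
  have h6 : (0 : ℝ) < F.ww := by exact_mod_cast F.ww_pos
  have e1 : F.CE ^ 2 = F.rho * F.ramP / F.II :=
    Real.sq_sqrt (div_pos (mul_pos F.rho_pos F.ramP_pos) F.II_pos).le
  have e2 : √Real.pi ^ 2 = Real.pi := Real.sq_sqrt h5.le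
  have e4 : ((2 : ℝ) ^ F.D.primeFactors.card) ^ 2 = 4 ^ F.D.primeFactors.card := by
    rw [← pow_mul, mul_comm, pow_mul]; norm_num
  have h7 : 0 < √(F.D : ℝ) := Real.sqrt_pos.2 h1
  unfold kap
  rw [div_pow, div_pow, mul_pow, mul_pow, mul_pow, div_pow, div_pow, e1, e2, e4]
  unfold rho
  field_simp
  ring

theorem hx_D {H : IQ} (ha : H.a = -1) (hb : H.b = 1) : H.D = 3 := by
  simp [D, ha, hb]

theorem hx_euclid {H : IQ} (ha : H.a = -1) (hb : H.b = 1) (z w : H.O) (hw : w ≠ 0) :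
    ∃ q : H.O, H.nm (z - q * w) < H.nm w := by
  have hN : 0 < H.nm w := Nat.pos_of_ne_zero fun h => hw (H.nm_eq_zero.1 h)
  have hN' : (0 : ℤ) < H.nm w := by exact_mod_cast hN
  have key : ∀ x : ℤ, ∃ k : ℤ, -(H.nm w : ℤ) ≤ 2 * (x - k * H.nm w) ∧ 2 * (x - k * H.nm w) ≤ H.nm w := by
    intro x
    have h1 := Int.emod_nonneg (2 * x + H.nm w) (b := 2 * H.nm w) (by omega)
    have h2 := Int.emod_lt_of_pos (2 * x + H.nm w) (b := 2 * H.nm w) (by omega)
    have h3 := Int.emod_add_mul_ediv (2 * x + H.nm w) (2 * H.nm w)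
    refine ⟨(2 * x + H.nm w) / (2 * H.nm w), ?_, ?_⟩ <;> nlinarith
  obtain ⟨k₁, h1, h2⟩ := key (z * star w).re
  obtain ⟨k₂, h3, h4⟩ := key (z * star w).im
  refine ⟨⟨k₁, k₂⟩, ?_⟩
  have e : (z - ⟨k₁, k₂⟩ * w) * star w = z * star w - ⟨k₁, k₂⟩ * (H.nm w : H.O) := by
    rw [← H.mul_star_eq]; ring
  have e1 := H.four_nm ((z - ⟨k₁, k₂⟩ * w) * star w)
  rw [H.nm_mul, H.nm_star, e, hx_D ha hb] at e1
  have r1 : (z * star w - ⟨k₁, k₂⟩ * (H.nm w : H.O)).re = (z * star w).re - k₁ * H.nm w := by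
    simp
  have r2 : (z * star w - ⟨k₁, k₂⟩ * (H.nm w : H.O)).im = (z * star w).im - k₂ * H.nm w := by
    simp
  rw [r1, r2] at e1
  generalize (z * star w).re - k₁ * H.nm w = u at *
  generalize (z * star w).im - k₂ * H.nm w = v at *
  have e2 : 4 * ((H.nm (z - ⟨k₁, k₂⟩ * w) : ℤ) * H.nm w) = (2 * u + v) ^ 2 + 3 * v ^ 2 := by
    have hbv : H.b * v = v := by rw [hb, one_mul]
    rw [hbv] at e1; push_cast at e1; linarith
  have hu : 4 * u ^ 2 ≤ (H.nm w : ℤ) ^ 2 := by nlinarith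
  have hv : 4 * v ^ 2 ≤ (H.nm w : ℤ) ^ 2 := by nlinarith
  have h5 : (H.nm (z - ⟨k₁, k₂⟩ * w) : ℤ) * H.nm w < H.nm w * H.nm w := by
    nlinarith [sq_nonneg (u - v), mul_pos hN' hN']
  exact_mod_cast lt_of_mul_lt_mul_right h5 hN'.le

theorem hx_pid {H : IQ} (ha : H.a = -1) (hb : H.b = 1) : IsPrincipalIdealRing H.O := by
  refine ⟨fun I => ?_⟩
  by_cases hI : ∃ n : ℕ, ∃ w ∈ I, w ≠ 0 ∧ H.nm w = n
  · obtain ⟨w, hw, h0, hn⟩ := Nat.find_spec hI
    refine ⟨w, le_antisymm (fun z hz => ?_) ?_⟩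
    · obtain ⟨q, hq⟩ := hx_euclid ha hb z w h0
      have : z - q * w = 0 := by
        by_contra h
        have := Nat.find_min' hI ⟨z - q * w, I.sub_mem hz (I.mul_mem_left q hw), h, rfl⟩
        omega
      exact Submodule.mem_span_singleton.2 ⟨q, (sub_eq_zero.1 this).symm⟩
    · exact (Submodule.span_singleton_le_iff_mem _ _).2 hw
  · refine ⟨0, le_antisymm (fun z hz => ?_) (by simp)⟩
    have : z = 0 := by
      by_contra h
      exact hI ⟨_, z, hz, h, rfl⟩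
    simp [this]

theorem hex_hh {H : IQ} (ha : H.a = -1) (hb : H.b = 1) : H.hh = 1 := by
  have := hx_pid ha hb
  unfold hh
  rw [Nat.card_eq_fintype_card]
  exact card_classGroup_eq_one

theorem hx_ww_eq (F : IQ) (S : Finset (ℤ × ℤ))
    (hS : ∀ x y : ℤ, (x, y) ∈ S ↔ (2 * x + F.b * y) ^ 2 + F.D * y ^ 2 = 4) : F.ww = S.card := by
  unfold ww
  rw [← Fintype.card_coe S, ← Nat.card_eq_fintype_card]
  refine Nat.card_congr (Equiv.ofBijective (fun u => ⟨((u : F.O).re, (u : F.O).im), ?_⟩) ⟨?_, ?_⟩)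
  · have := F.four_nm u
    rw [F.nm_unit] at this
    rw [hS]; push_cast at this; linarith
  · intro u v h
    have h' := congrArg Subtype.val h
    simp only [Prod.mk.injEq] at h'
    exact Units.ext (QuadraticAlgebra.ext h'.1 h'.2)
  · rintro ⟨⟨x, y⟩, h⟩
    have h1 := F.four_nm ⟨x, y⟩
    have h2 := (hS x y).1 h
    have h3 : F.nm ⟨x, y⟩ = 1 := by
      have : (F.nm ⟨x, y⟩ : ℤ) = 1 := by simp only at h1; linarith
      exact_mod_cast this
    have h4 := F.mul_star_eq ⟨x, y⟩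
    rw [h3, Nat.cast_one] at h4
    exact ⟨⟨⟨x, y⟩, star ⟨x, y⟩, h4, by rw [mul_comm]; exact h4⟩, rfl⟩

theorem hex_ww {H : IQ} (ha : H.a = -1) (hb : H.b = 1) : H.ww = 6 := by
  rw [H.hx_ww_eq {(1, 0), (-1, 0), (0, 1), (0, -1), (1, -1), (-1, 1)}]
  · rfl
  intro x y
  rw [hx_D ha hb, hb]
  simp only [mem_insert, mem_singleton, Prod.mk.injEq]
  constructor
  · rintro (h | h | h | h | h | h) <;> (obtain ⟨rfl, rfl⟩ := h; norm_num)
  · intro h
    push_cast at h
    have y1 : y ≤ 1 := by nlinarith [sq_nonneg (2 * x + 1 * y)]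
    have y2 : -1 ≤ y := by nlinarith [sq_nonneg (2 * x + 1 * y)]
    have x1 : x ≤ 1 := by nlinarith [sq_nonneg (x + 2 * y)]
    have x2 : -1 ≤ x := by nlinarith [sq_nonneg (x + 2 * y)]
    interval_cases x <;> interval_cases y <;> simp_all

theorem hx_ww_two (F : IQ) (h : 4 < F.D) : F.ww = 2 := by
  rw [F.hx_ww_eq {(1, 0), (-1, 0)}]
  · rfl
  intro x y
  simp only [mem_insert, mem_singleton, Prod.mk.injEq]
  constructor
  · rintro (h | h) <;> (obtain ⟨rfl, rfl⟩ := h; norm_num)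
  · intro e
    have h' : (5 : ℤ) ≤ F.D := by exact_mod_cast h
    have y0 : y = 0 := by
      by_contra h0
      have : 0 < y ^ 2 := by positivity
      nlinarith [sq_nonneg (2 * x + F.b * y)]
    subst y0
    have x1 : x ≤ 1 := by nlinarith
    have x2 : -1 ≤ x := by nlinarith
    interval_cases x <;> simp_all

theorem hx_even (F : IQ) (h : 2 ∣ F.D) : F.b = 0 ∧ 4 ∣ F.D := by
  have e := F.D_eq
  rcases F.b_cases with hb | hb <;> rw [hb] at e
  · exact ⟨hb, by omega⟩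
  · omega

theorem hx_ww_four (F : IQ) (h : F.D = 4) : F.ww = 4 := by
  have hb := (F.hx_even (by omega)).1
  rw [F.hx_ww_eq {(1, 0), (-1, 0), (0, 1), (0, -1)}]
  · rfl
  intro x y
  rw [h, hb]
  simp only [mem_insert, mem_singleton, Prod.mk.injEq]
  constructor
  · rintro (h | h | h | h) <;> (obtain ⟨rfl, rfl⟩ := h; norm_num)
  · intro h
    push_cast at h
    have y1 : y ≤ 1 := by nlinarith [sq_nonneg x]
    have y2 : -1 ≤ y := by nlinarith [sq_nonneg x]
    have x1 : x ≤ 1 := by nlinarith [sq_nonneg y]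
    have x2 : -1 ≤ x := by nlinarith [sq_nonneg y]
    interval_cases x <;> interval_cases y <;> simp_all

noncomputable def hxG (p : ℕ) : ℝ :=
  (if p = 2 then 4 else (p : ℝ)) / ((1 - (p : ℝ)⁻¹) * 4) ^ 2

theorem hxG_nonneg (p : ℕ) : 0 ≤ hxG p := by
  unfold hxG
  split_ifs <;> positivity

theorem hxG_ge {p : ℕ} (hp : p.Prime) (h : p ∉ ({3, 5, 7, 11, 13} : Finset ℕ)) : 1 ≤ hxG p := by
  unfold hxG
  split_ifs with h2
  · subst h2; norm_num
  · have h16 : 16 ≤ p := by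
      by_contra hc
      have hc' : p < 16 := by omega
      interval_cases p <;> first | exact h2 rfl | exact h (by decide) | exact absurd hp (by norm_num)
    have h16' : (16 : ℝ) ≤ p := by exact_mod_cast h16
    have a1 : 0 < (p : ℝ)⁻¹ := by positivity
    have a2 : (p : ℝ)⁻¹ ≤ 1 / 2 := Zt.inv_le_half hp
    rw [le_div_iff₀ (by nlinarith)]
    nlinarith

theorem hxG_prod (T : Finset ℕ) (hT : ∀ p ∈ T, p.Prime) : (0.0973 : ℝ) ≤ ∏ p ∈ T, hxG p := by
  set A : Finset ℕ := {3, 5, 7, 11, 13} with hA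
  have h1 : 1 ≤ ∏ p ∈ T \ A, hxG p :=
    le_trans (by simp) (prod_le_prod (f := fun _ => (1 : ℝ)) (fun _ _ => zero_le_one)
      fun p hp => hxG_ge (hT p (mem_sdiff.1 hp).1) (mem_sdiff.1 hp).2)
  have h2 : ∏ p ∈ A \ T, hxG p ≤ 1 := prod_le_one (fun p _ => hxG_nonneg p) fun p hp => by
    have := (mem_sdiff.1 hp).1
    simp only [hA, mem_insert, mem_singleton] at this
    rcases this with rfl | rfl | rfl | rfl | rfl <;> norm_num [hxG]
  have h3 : (0.0973 : ℝ) ≤ ∏ p ∈ A, hxG p := by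
    rw [hA]; norm_num [hxG]
  have h4 : 0 ≤ ∏ p ∈ T ∩ A, hxG p := prod_nonneg fun p _ => hxG_nonneg p
  rw [← prod_inter_mul_prod_sdiff A T, inter_comm] at h3
  rw [← prod_inter_mul_prod_sdiff T A]
  nlinarith

theorem hx_D_ge (F : IQ) : ∏ p ∈ F.D.primeFactors, (if p = 2 then 4 else (p : ℝ)) ≤ F.D := by
  have h0 : F.D ≠ 0 := by have := F.three_le_D; omega
  by_cases h : 2 ∣ F.D
  · obtain ⟨k, hk⟩ := (F.hx_even h).2
    have hk0 : k ≠ 0 := by rintro rfl; exact h0 (by simpa using hk)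
    have e : F.D.primeFactors = (2 * k).primeFactors := by
      rw [hk, show 4 * k = 2 * (2 * k) by ring, Nat.primeFactors_mul two_ne_zero (by omega)]
      exact union_eq_right.2 (Nat.primeFactors_mono (dvd_mul_right 2 k) (by omega))
    have h2 : 2 ∈ (2 * k).primeFactors := by simp [hk0, Nat.prime_two]
    have h3 : ((∏ p ∈ (2 * k).primeFactors, p : ℕ) : ℝ) ≤ (2 * k : ℕ) := by
      exact_mod_cast Nat.le_of_dvd (by omega) (Nat.prod_primeFactors_dvd _)
    rw [Nat.cast_prod, ← mul_prod_erase _ _ h2] at h3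
    rw [e, ← mul_prod_erase _ _ h2, prod_congr rfl fun p hp => if_neg (ne_of_mem_erase hp), hk]
    push_cast at h3 ⊢
    linarith
  · rw [prod_congr rfl fun p hp => if_neg
      (fun e : p = 2 => h (e ▸ Nat.dvd_of_mem_primeFactors hp)), ← Nat.cast_prod]
    exact_mod_cast Nat.le_of_dvd (by omega) (Nat.prod_primeFactors_dvd _)

theorem hx_ratio (F : IQ) : (0.31 : ℝ) ≤ √(F.D : ℝ) / (F.ramP * 4 ^ F.D.primeFactors.card) := by
  have h4 := F.ramP_pos
  have h1 := hxG_prod F.D.primeFactors fun _ hp => Nat.prime_of_mem_primeFactors hp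
  unfold hxG at h1
  rw [prod_div_distrib, prod_pow, prod_mul_distrib, prod_const] at h1
  have h2 : (0.0973 : ℝ) ≤ F.D / (F.ramP * 4 ^ F.D.primeFactors.card) ^ 2 :=
    h1.trans (div_le_div_of_nonneg_right F.hx_D_ge (by positivity))
  refine le_of_pow_le_pow_left₀ two_ne_zero (by positivity) ?_
  rw [div_pow, Real.sq_sqrt F.hx_D_pos.le]
  refine le_trans (by norm_num) h2

theorem hx_II {H : IQ} (ha : H.a = -1) (hb : H.b = 1) : H.II ≤ 1.424 := by
  have h1 : H.II ≤ EE (fun p => True ∧ p ∉ ({3, 7, 13} : Finset ℕ)) 2 := by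
    refine EE_mono (fun p _ hp => ⟨trivial, fun h => hp.2 ?_⟩) (by norm_num)
    rw [ha, hb]
    simp only [mem_insert, mem_singleton] at h
    rcases h with rfl | rfl | rfl
    · exact ⟨2, by norm_num⟩
    · exact ⟨3, by norm_num⟩
    · exact ⟨4, by norm_num⟩
  rw [EE_sdiff (fun _ => True) _ {3, 7, 13} (fun p hp => by
    simp only [mem_insert, mem_singleton] at hp
    rcases hp with rfl | rfl | rfl <;> norm_num) (fun _ _ => Iff.rfl) (by norm_num),
    EE_true_two] at h1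
  have e : ∏ p ∈ ({3, 7, 13} : Finset ℕ), (1 - (p : ℝ) ^ (-2 : ℝ)) = 8 / 9 * (48 / 49 * (168 / 169)) := by
    have : ∀ x : ℝ, x ^ (-2 : ℝ) = (x ^ 2)⁻¹ := fun x => by
      rw [show (-2 : ℝ) = ((-2 : ℤ) : ℝ) by norm_num, Real.rpow_intCast]; rfl
    simp only [this]
    norm_num
  rw [e] at h1
  have h2 := Real.pi_lt_d4
  have h3 := Real.pi_pos
  nlinarith

theorem hx_ramP {H : IQ} (ha : H.a = -1) (hb : H.b = 1) : H.ramP = 2 / 3 := by
  unfold ramP
  rw [hx_D ha hb, Nat.prime_three.primeFactors]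
  norm_num

theorem kap_lt {H : IQ} (ha : H.a = -1) (hb : H.b = 1) {F : IQ} (hF : F.D ≠ 3) : H.kap < F.kap := by
  refine lt_of_pow_lt_pow_left₀ 2 F.kap_pos.le ?_
  have hc : (0 : ℝ) < 4 / Real.pi ^ 2 := by have := Real.pi_pos; positivity
  have h3 : √3 ≤ (1.7321 : ℝ) := Real.sqrt_le_iff.2 ⟨by norm_num, by norm_num⟩
  have e1 : H.kap ^ 2 ≤ 4 / Real.pi ^ 2 * 1.2333 := by
    rw [kap_sq, hex_hh ha hb, hex_ww ha hb, hx_ramP ha hb, hx_D ha hb,
      Nat.prime_three.primeFactors, card_singleton]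
    have h1 := hx_II ha hb
    have h2 := H.II_pos
    have h4 : √3 * H.II ≤ 1.7321 * 1.424 := mul_le_mul h3 h1 h2.le (by norm_num)
    have h5 := mul_le_mul_of_nonneg_left h4 hc.le
    push_cast
    generalize 4 / Real.pi ^ 2 = u at *
    have e : u * (8 * 1 / 6) * √3 * H.II / (2 / 3 * 4 ^ 1) = u * (√3 * H.II) / 2 := by ring
    rw [e]
    linarith
  have hh1 : (1 : ℝ) ≤ F.hh := by exact_mod_cast F.hh_pos
  have hI : 1 ≤ F.II := one_le_EE _ (by norm_num)
  have e2 : F.kap ^ 2 = 4 / Real.pi ^ 2 * (8 * (F.hh * F.II) / F.ww *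
      (√(F.D : ℝ) / (F.ramP * 4 ^ F.D.primeFactors.card))) := by
    rw [kap_sq]; ring
  have hhI : 1 ≤ F.hh * F.II := by nlinarith
  refine lt_of_le_of_lt e1 ?_
  rw [e2]
  refine mul_lt_mul_of_pos_left ?_ hc
  by_cases h4 : F.D = 4
  · have e3 : F.ramP = 1 / 2 ∧ F.D.primeFactors.card = 1 := by
      unfold ramP
      rw [h4, show 4 = 2 ^ 2 by rfl, Nat.primeFactors_prime_pow two_ne_zero Nat.prime_two]
      norm_num
    have e4 : √((4 : ℕ) : ℝ) = 2 := by
      rw [show ((4 : ℕ) : ℝ) = 2 ^ 2 by norm_num, Real.sqrt_sq (by norm_num)]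
    rw [e3.1, e3.2, F.hx_ww_four h4, h4, e4]
    push_cast
    nlinarith
  · have := F.three_le_D
    rw [F.hx_ww_two (by omega)]
    have h5 := F.hx_ratio
    push_cast
    nlinarith

theorem hx_spl {H : IQ} (ha : H.a = -1) (hb : H.b = 1) {p : ℕ} (h : H.Spl p) : p % 3 = 1 := by
  obtain ⟨hp, h3, r, hr⟩ := h
  rw [hx_D ha hb] at h3
  rw [ha, hb] at hr
  have := Fact.mk hp
  have := Fact.mk Nat.prime_three
  have e : (r : ZMod p) ^ 2 - r + 1 = 0 := by
    have := (ZMod.intCast_zmod_eq_zero_iff_dvd _ p).2 hr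
    push_cast at this
    linear_combination this
  have e3 : (-(r : ZMod p)) ^ 3 = 1 := by linear_combination (-(r : ZMod p) - 1) * e
  have n1 : -(r : ZMod p) ≠ 1 := fun h1 => h3 ((ZMod.natCast_eq_zero_iff 3 p).1 (by
    push_cast
    linear_combination e + ((r : ZMod p) - 2) * h1))
  have n0 : -(r : ZMod p) ≠ 0 := fun h0 => by
    rw [h0] at e3; simp at e3
  have := ZMod.orderOf_dvd_card_sub_one n0
  rw [orderOf_eq_prime e3 n1] at this
  have := hp.two_le
  omega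

theorem hx_nm_sub (F : IQ) {t : ℝ} {z w : F.O} (hz : z ∈ F.ball t) (hw : w ∈ F.ball t) :
    (F.nm (z - w) : ℝ) ≤ 4 * t := by
  rw [mem_ball, ← norm_emb_sq] at hz hw
  rw [← norm_emb_sq, map_sub]
  have h := norm_sub_le (F.emb z) (F.emb w)
  have h0 := norm_nonneg (F.emb z - F.emb w)
  nlinarith [sq_nonneg (‖F.emb z‖ - ‖F.emb w‖)]

theorem hex_upper {H : IQ} (ha : H.a = -1) (hb : H.b = 1) {ε : ℝ} (hε : 0 < ε) :
    ∀ᶠ n : ℕ in atTop, ∃ P : Finset H.O, P.card = n ∧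
      (H.Dn P : ℝ) ≤ (1 + ε) * H.kap * n / √(Real.log n) := by
  obtain ⟨δ, hδ, hδε⟩ : ∃ δ : ℝ, 0 < δ ∧ (1 + δ) * (1 + δ) ≤ 1 + ε := by
    refine ⟨min ε 1 / 3, by positivity, ?_⟩
    have h1 := min_le_left ε 1
    have h2 := min_le_right ε 1
    have h3 : 0 < min ε 1 := by positivity
    nlinarith
  have hpi := Real.pi_pos
  have hs3 : (0 : ℝ) < √3 := by positivity
  have hCE := H.CE_pos
  have hII := H.II_pos
  set c : ℝ := 2 * H.CE / √Real.pi / 2 with hc
  have hc0 : 0 < c := by positivity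
  set K : ℝ := c * (3 / 2) * EE H.Ine 2 with hK
  have hK0 : 0 < K := mul_pos (by positivity) hII
  have hkap : H.kap = K * (4 * (√3 / (2 * Real.pi))) := by
    unfold kap
    rw [hx_ramP ha hb, hx_D ha hb, Nat.prime_three.primeFactors, card_singleton, hK, hc]
    unfold II
    push_cast
    field_simp
    ring
  have h1 := wshape H.Spl H.Ine hc0.le (fun e he => wup H.Spl (karamata _ H.tendsto_CE)
    (fun p _ hp => hx_spl ha hb hp) he) (mul_pos hδ hK0)
  set α : ℝ := (1 + δ) * (√3 / (2 * Real.pi)) with hα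
  have hα0 : 0 < α := by positivity
  have hα1 : 1 ≤ 4 * α := by
    have a1 : (1.7 : ℝ) ≤ √3 := Real.le_sqrt_of_sq_le (by norm_num)
    have a2 := Real.pi_lt_d2
    have a3 : (1 / 4 : ℝ) ≤ √3 / (2 * Real.pi) := by
      rw [le_div_iff₀ (by positivity)]; nlinarith
    nlinarith
  have h2 : ∀ᶠ t : ℝ in atTop, α⁻¹ < ((H.ball t).card : ℝ) / t := by
    refine H.count_ball.eventually (lt_mem_nhds ?_)
    rw [hx_D ha hb, hα, mul_inv, inv_div]
    push_cast
    refine mul_lt_of_lt_one_left (by positivity) (inv_lt_one_of_one_lt₀ (by linarith))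
  have t1 : Tendsto (fun n : ℕ => α * n) atTop atTop :=
    tendsto_natCast_atTop_atTop.const_mul_atTop hα0
  have t2 : Tendsto (fun n : ℕ => 4 * (α * n)) atTop atTop := t1.const_mul_atTop (by norm_num)
  filter_upwards [t1.eventually h2, t2.eventually h1, eventually_ge_atTop 2] with n g1 g2 hn
  have hn' : (2 : ℝ) ≤ n := by exact_mod_cast hn
  have hcard : n ≤ (H.ball (α * n)).card := by
    rw [lt_div_iff₀ (by positivity), inv_mul_cancel_left₀ hα0.ne'] at g1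
    exact_mod_cast g1.le
  obtain ⟨P, hP, hPn⟩ := exists_subset_card_eq hcard
  refine ⟨P, hPn, le_trans ?_ (g2.trans ?_)⟩
  · unfold Dn
    refine Nat.cast_le.2 (card_le_card fun m hm => ?_)
    obtain ⟨⟨z, w⟩, hzw, rfl⟩ := mem_image.1 hm
    obtain ⟨hz, hw, hne⟩ := mem_offDiag.1 hzw
    have h0 : z - w ≠ 0 := sub_ne_zero.2 hne
    refine mem_filter.2 ⟨mem_Icc.2 ⟨Nat.pos_of_ne_zero fun h => h0 (H.nm_eq_zero.1 h),
      Nat.le_floor (H.hx_nm_sub (hP hz) (hP hw))⟩, ?_⟩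
    have := H.norm_shape (I := Ideal.span {z - w}) (by simpa using h0)
    rwa [hx_D ha hb, absNorm_span] at this
  · have l0 : 0 < √(Real.log n) := Real.sqrt_pos.2 (Real.log_pos (by linarith))
    have l1 : √(Real.log n) ≤ √(Real.log (4 * (α * n))) :=
      Real.sqrt_le_sqrt (Real.log_le_log (by linarith) (by nlinarith))
    refine div_le_div₀ (by have := H.kap_pos; positivity) ?_ l0 l1
    have e : (K + δ * K) * (4 * (α * n)) = (1 + δ) * (1 + δ) * H.kap * n := by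
      rw [hkap, hα]; ring
    rw [e]
    have := H.kap_pos
    gcongr

end IQ

end Pool.Agent.Lib.MP_ad7336_co
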