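import Pool.Agent.Lib.MP_ad7336_co.Key
import Pool.Agent.Lib.MP_ad7336_co.Hex

set_option autoImplicit false

namespace Pool.Agent.Lib.MP_ad7336_co

open QuadraticAlgebra Finset Filter Topology
open scoped Classical

theorem core_num {ε δ k K η ε₁ J n L E : ℝ} (hδ : δ = ε / 5) (hδ0 : 0 < δ) (hε1 : ε < 1)
    (hk : 0 < k) (hK1 : 1 ≤ K) (hη0 : 0 < η) (hη1 : η * (25 * K) ≤ δ) (hη2 : η * (25 * K) ≤ δ * k)
    (hε₁ : 0 < ε₁) (hJ : 25 * K / (δ * ε₁) < J) (n2 : 2 ≤ n) (L1 : 1 < L)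
    (hLL : L ^ 2 ≤ 25 * K * n) (g2 : Real.log (25 * K) ≤ δ * Real.log n) (hinc : E ≤ L ^ 2 / J) :
    (1 - ε) * k * n / √(Real.log n) ≤
      ((1 - δ) * k * (n - η * L ^ 2 - E / ε₁) - η * L ^ 2) / √(2 * Real.log L) := by
  have J0 : (0 : ℝ) < J := lt_trans (by positivity) hJ
  have l0 : 0 < Real.log n := Real.log_pos (by linarith)
  have l1 : 0 < √(2 * Real.log L) := Real.sqrt_pos.2 (by linarith [Real.log_pos L1])
  have n0 : 0 < n := by linarith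
  have l2 : √(2 * Real.log L) ≤ (1 + δ) * √(Real.log n) := by
    refine Real.sqrt_le_iff.2 ⟨by positivity, ?_⟩
    have b1 : 2 * Real.log L ≤ Real.log (25 * K) + Real.log n := by
      rw [← Real.log_mul (by positivity) (by positivity), ← Nat.cast_ofNat, ← Real.log_pow]
      exact Real.log_le_log (by positivity) hLL
    rw [mul_pow, Real.sq_sqrt l0.le]
    linarith [mul_pos hδ0 l0, mul_pos (mul_pos hδ0 hδ0) l0]
  have e0 := mul_le_mul_of_nonneg_left hLL hη0.le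
  have e1 : η * L ^ 2 ≤ δ * n := by linarith [mul_le_mul_of_nonneg_right hη1 n0.le]
  have e2 : η * L ^ 2 ≤ δ * k * n := by linarith [mul_le_mul_of_nonneg_right hη2 n0.le]
  have e3 : E / ε₁ ≤ δ * n := by
    rw [div_lt_iff₀ (by positivity)] at hJ
    rw [le_div_iff₀ J0] at hinc
    rw [div_le_iff₀ hε₁]
    refine le_of_mul_le_mul_right (hinc.trans (hLL.trans ?_)) J0
    linarith [mul_le_mul_of_nonneg_right hJ.le n0.le]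
  have e4 : (1 - δ) * k * ((1 - 2 * δ) * n) ≤ (1 - δ) * k * (n - η * L ^ 2 - E / ε₁) :=
    mul_le_mul_of_nonneg_left (by linarith) (mul_nonneg (by linarith) hk.le)
  have kn : 0 < k * n := by positivity
  have e5 : (1 - ε) * k * n * (1 + δ) ≤ (1 - δ) * k * (n - η * L ^ 2 - E / ε₁) - η * L ^ 2 := by
    have : ε = 5 * δ := by linarith
    rw [this]
    linarith [mul_pos (mul_pos hδ0 hδ0) kn]
  have e6 : 0 ≤ (1 - ε) * k * n := mul_nonneg (mul_nonneg (by linarith) hk.le) n0.le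
  rw [← mul_div_mul_right _ _ (show (1 + δ) ≠ 0 by linarith), mul_comm √_]
  exact div_le_div₀ (le_trans (by positivity) e5) e5 l1 l2

namespace IQ

variable (F : IQ)

theorem Dn_shift (P : Finset F.O) (w : F.O) : F.Dn (P.image (· + w)) = F.Dn P := by
  unfold Dn
  congr 1
  ext m
  simp only [mem_image, mem_offDiag, Prod.exists]
  constructor
  · rintro ⟨_, _, ⟨⟨x, hx, rfl⟩, ⟨y, hy, rfl⟩, h⟩, rfl⟩
    exact ⟨x, y, ⟨hx, hy, fun k => h (by rw [k])⟩, by rw [add_sub_add_right_eq_sub]⟩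
  · rintro ⟨x, y, ⟨hx, hy, h⟩, rfl⟩
    exact ⟨x + w, y + w, ⟨⟨x, hx, rfl⟩, ⟨y, hy, rfl⟩, fun k => h (add_right_cancel k)⟩,
      by rw [add_sub_add_right_eq_sub]⟩

theorem exists_box {P : Finset F.O} {r : ℝ} (hr : 0 ≤ r) {L : ℕ} (hL : 4 * r + 3 ≤ L)
    (hP : ∀ x ∈ P, ∀ y ∈ P, (F.nm (x - y) : ℝ) ≤ r ^ 2) :
    ∃ P' ⊆ F.bx 0 L, P'.card = P.card ∧ F.Dn P' = F.Dn P := by
  rcases P.eq_empty_or_nonempty with rfl | ⟨x₀, hx₀⟩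
  · exact ⟨∅, empty_subset _, rfl, rfl⟩
  obtain ⟨c, h3, h4⟩ : ∃ c : ℤ, 2 * r ≤ c ∧ c < 2 * r + 1 :=
    ⟨_, Int.le_ceil (2 * r), Int.ceil_lt_add_one (2 * r)⟩
  obtain ⟨w, w1, w2⟩ : ∃ w : F.O, w.re = c - x₀.re ∧ w.im = c - x₀.im := ⟨⟨_, _⟩, rfl, rfl⟩
  refine ⟨P.image (· + w), fun z hz => ?_,
    card_image_of_injective _ (add_left_injective _), F.Dn_shift _ _⟩
  obtain ⟨x, hx, rfl⟩ := mem_image.1 hz
  have h1 := F.abs_coord_le (x - x₀).re (x - x₀).im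
  rw [← emb_apply] at h1
  have h2 : ‖F.emb (x - x₀)‖ ≤ r := by
    refine abs_le_of_sq_le_sq' ?_ hr |>.2
    rw [F.norm_emb_sq]
    exact hP x hx x₀ hx₀
  obtain ⟨a1, a2⟩ := abs_le.1 h1.1
  obtain ⟨b1, b2⟩ := abs_le.1 h1.2
  simp only [re_sub, im_sub, Int.cast_sub] at a1 a2 b1 b2
  rw [mem_bx, re_add, im_add, w1, w2]
  generalize ‖F.emb (x - x₀)‖ = t at *
  refine ⟨⟨?_, ?_⟩, ?_, ?_⟩
  all_goals
    rify
    linarith

theorem core {ε : ℝ} (hε : 0 < ε) (C : ℝ) : ∀ᶠ n : ℕ in atTop, ∀ P : Finset F.O, P.card = n →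
    (∀ x ∈ P, ∀ y ∈ P, (F.nm (x - y) : ℝ) ≤ C * n) →
    (1 - ε) * F.kap * n / √(Real.log n) ≤ F.Dn P := by
  have hk := F.kap_pos
  by_cases hε1 : 1 ≤ ε
  · refine Eventually.of_forall fun n P _ _ => le_trans ?_ (Nat.cast_nonneg _)
    refine div_nonpos_of_nonpos_of_nonneg ?_ (Real.sqrt_nonneg _)
    exact mul_nonpos_of_nonpos_of_nonneg
      (mul_nonpos_of_nonpos_of_nonneg (by linarith) hk.le) (Nat.cast_nonneg _)
  rw [not_le] at hε1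
  obtain ⟨K, hK1, hKC⟩ : ∃ K : ℝ, 1 ≤ K ∧ C ≤ K := ⟨max C 1, le_max_right _ _, le_max_left _ _⟩
  obtain ⟨δ, hδ⟩ : ∃ δ : ℝ, δ = ε / 5 := ⟨_, rfl⟩
  have hδ0 : 0 < δ := by linarith
  obtain ⟨η, hη0, hη1, hη2⟩ : ∃ η : ℝ, 0 < η ∧ η * (25 * K) ≤ δ ∧ η * (25 * K) ≤ δ * F.kap := by
    refine ⟨δ * min 1 F.kap / (25 * K), by positivity, ?_, ?_⟩
    · rw [div_mul_cancel₀ _ (by positivity)]
      exact mul_le_of_le_one_right hδ0.le (min_le_left _ _)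
    · rw [div_mul_cancel₀ _ (by positivity)]
      exact mul_le_mul_of_nonneg_left (min_le_right _ _) hδ0.le
  obtain ⟨Q₀, ε₁, hQ₀, hε₁, hkey⟩ := F.key (ε := δ) hδ0 (by linarith) hη0
  have hstep : ∀ a : {a : ℕ × ℕ // a.1 ≠ 0 ∧ a.2 ≠ 0 ∧ Q₀ ∣ a.1},
      ∃ b : {a : ℕ × ℕ // a.1 ≠ 0 ∧ a.2 ≠ 0 ∧ Q₀ ∣ a.1},
      ∀ᶠ L : ℕ in atTop, b.1.1 * b.1.2 ∣ L → ∀ P ⊆ F.bx 0 L,
        ((1 - δ) * F.kap * (P.card - η * L ^ 2 -
          (F.En b.1.1 b.1.2 L P - F.En a.1.1 a.1.2 L P) / ε₁) - η * L ^ 2) /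
          √(2 * Real.log L) ≤ F.Dn P := by
    rintro ⟨⟨Q, T⟩, h1, h2, h3⟩
    obtain ⟨Q', T', k1, k2, k3, -, k5⟩ := hkey Q T h1 h2 h3
    exact ⟨⟨(Q', T'), k1, k2, h3.trans k3⟩, k5⟩
  choose nx hnx using hstep
  obtain ⟨s, hs⟩ : ∃ s : ℕ → {a : ℕ × ℕ // a.1 ≠ 0 ∧ a.2 ≠ 0 ∧ Q₀ ∣ a.1},
      ∀ j, s (j + 1) = nx (s j) :=
    ⟨fun j => nx^[j] ⟨(Q₀, 1), hQ₀, one_ne_zero, dvd_rfl⟩,
      fun j => Function.iterate_succ_apply' _ _ _⟩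
  obtain ⟨J, hJ⟩ := exists_nat_gt (25 * K / (δ * ε₁))
  have J0 : (0 : ℝ) < J := lt_trans (by positivity) hJ
  obtain ⟨M, hM0, hM⟩ : ∃ M : ℕ, 0 < M ∧ ∀ j ∈ range J, (s (j + 1)).1.1 * (s (j + 1)).1.2 ∣ M :=
    ⟨∏ j ∈ range J, (s (j + 1)).1.1 * (s (j + 1)).1.2,
      prod_pos fun j _ => Nat.pos_of_ne_zero (mul_ne_zero (s _).2.1 (s _).2.2.1),
      fun j hj => dvd_prod_of_mem (fun j => (s (j + 1)).1.1 * (s (j + 1)).1.2) hj⟩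
  obtain ⟨L₀, hL₀⟩ := eventually_atTop.1 ((eventually_all_finset (range J)).2 fun j _ => hnx (s j))
  have t0 : Tendsto (fun n : ℕ => (n : ℝ)) atTop atTop := tendsto_natCast_atTop_atTop
  have t1 : Tendsto (fun n : ℕ => √(K * n)) atTop atTop :=
    Real.tendsto_sqrt_atTop.comp (t0.const_mul_atTop (by linarith))
  have t2 : Tendsto (fun n : ℕ => δ * Real.log n) atTop atTop :=
    (Real.tendsto_log_atTop.comp t0).const_mul_atTop hδ0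
  filter_upwards [t1.eventually_ge_atTop (M + 4 + L₀ : ℝ),
    t2.eventually_ge_atTop (Real.log (25 * K)), eventually_ge_atTop 2] with n g1 g2 g3 P hPn hP
  have n2 : (2 : ℝ) ≤ n := by exact_mod_cast g3
  obtain ⟨r, hr⟩ : ∃ r : ℝ, r = √(K * n) := ⟨_, rfl⟩
  have r2 : r ^ 2 = K * n := by rw [hr, Real.sq_sqrt (by positivity)]
  rw [← hr] at g1
  have M0 : (0 : ℝ) ≤ M := Nat.cast_nonneg _
  have L0 : (0 : ℝ) ≤ L₀ := Nat.cast_nonneg _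
  obtain ⟨L, hML, hL1, hL2⟩ : ∃ L : ℕ, M ∣ L ∧ 4 * r + 3 ≤ L ∧ (L : ℝ) ≤ 5 * r := by
    have a1 := Nat.le_ceil (4 * r + 3)
    have a2 := Nat.ceil_lt_add_one (show 0 ≤ 4 * r + 3 by linarith)
    have a3 := Nat.div_add_mod ⌈4 * r + 3⌉₊ M
    have a4 := Nat.mod_lt ⌈4 * r + 3⌉₊ hM0
    refine ⟨M * (⌈4 * r + 3⌉₊ / M) + M, (dvd_mul_right _ _).add dvd_rfl, a1.trans ?_, ?_⟩
    · exact_mod_cast (by omega : ⌈4 * r + 3⌉₊ ≤ M * (⌈4 * r + 3⌉₊ / M) + M)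
    · have a5 : ((M * (⌈4 * r + 3⌉₊ / M) + M : ℕ) : ℝ) ≤ (⌈4 * r + 3⌉₊ + M : ℕ) := by
        exact_mod_cast (by omega : M * (⌈4 * r + 3⌉₊ / M) + M ≤ ⌈4 * r + 3⌉₊ + M)
      rw [Nat.cast_add ⌈4 * r + 3⌉₊] at a5
      linarith
  obtain ⟨P', hP', hc, hD⟩ := F.exists_box (P := P) (r := r) (by linarith) hL1 fun x hx y hy =>
    (hP x hx y hy).trans (r2 ▸ mul_le_mul_of_nonneg_right hKC (by linarith))
  have hLL : (L : ℝ) ^ 2 ≤ 25 * K * n := by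
    have : (L : ℝ) ^ 2 ≤ (5 * r) ^ 2 := pow_le_pow_left₀ (Nat.cast_nonneg _) hL2 2
    rw [mul_pow, r2] at this
    linarith
  obtain ⟨j, hj, hinc⟩ : ∃ j ∈ range J, F.En (s (j + 1)).1.1 (s (j + 1)).1.2 L P' -
      F.En (s j).1.1 (s j).1.2 L P' ≤ (L : ℝ) ^ 2 / J := by
    refine exists_le_of_sum_le (nonempty_range_iff.2 (by exact_mod_cast J0.ne')) ?_
    rw [sum_range_sub (fun j => F.En (s j).1.1 (s j).1.2 L P'), sum_const, card_range, nsmul_eq_mul,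
      mul_div_cancel₀ _ J0.ne']
    linarith [F.En_le (s J).1.1 (s J).1.2 L P', F.En_nonneg (s 0).1.1 (s 0).1.2 L P']
  have h := hL₀ L (by exact_mod_cast (by linarith : (L₀ : ℝ) ≤ L)) j hj
    (hs j ▸ (hM j hj).trans hML) P' hP'
  rw [← hs j, hc, hPn, hD] at h
  refine le_trans ?_ h
  exact core_num hδ hδ0 hε1 hk hK1 hη0 hη1 hη2 hε₁ hJ n2 (by linarith) hLL g2 hinc

end IQ

end Pool.Agent.Lib.MP_ad7336_co
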