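import Mathlib

set_option autoImplicit false

namespace Pool.Agent.Lib.MP_ad7336_co

open QuadraticAlgebra Finset Filter Topology
open scoped Classical

/-- An imaginary quadratic maximal order. -/
structure IQ where
  a : ℤ
  b : ℤ
  hneg : b ^ 2 + 4 * a < 0
  [ded : IsDedekindDomain (QuadraticAlgebra ℤ a b)]
  fin : Finite (ClassGroup (QuadraticAlgebra ℤ a b))
  fund : (b = 1 ∧ Squarefree (1 + 4 * a)) ∨ (b = 0 ∧ Squarefree a ∧ a % 4 ≠ 1)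

/-- All prime factors of `n` satisfy `S`. -/
def comp (S : ℕ → Prop) (n : ℕ) : Prop := n ≠ 0 ∧ ∀ p : ℕ, p.Prime → p ∣ n → S p

noncomputable def EE (S : ℕ → Prop) (s : ℝ) : ℝ :=
  ∑' n : ℕ, if comp S n then (n : ℝ) ^ (-s) else 0

noncomputable def SS (S : ℕ → Prop) (x : ℝ) : ℝ :=
  ∑ n ∈ Icc 1 ⌊x⌋₊, if comp S n then (n : ℝ)⁻¹ else 0

noncomputable def ee (t : ℝ) : ℂ := Complex.exp (2 * Real.pi * t * Complex.I)

/-- Major arcs. -/
def Maj (Q : ℕ) (B : ℝ) (L : ℕ) (θ : ℝ × ℝ) : Prop :=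
  ∃ k₁ k₂ : ℤ, |Q * θ.1 - k₁| ≤ B / L ∧ |Q * θ.2 - k₂| ≤ B / L

/-- Conditional expectation on the fibres of `κ` inside `B`. -/
noncomputable def av {α β : Type} (B : Finset α) (κ : α → β) (f : α → ℝ) (x : α) : ℝ :=
  (∑ y ∈ B.filter (fun y => κ y = κ x), f y) / (B.filter (fun y => κ y = κ x)).card

noncomputable def ind {α : Type} (P : Finset α) (x : α) : ℝ := if x ∈ P then 1 else 0

namespace IQ

variable (F : IQ)

abbrev O := QuadraticAlgebra ℤ F.a F.b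

instance : IsDedekindDomain F.O := F.ded

instance : Finite (ClassGroup F.O) := F.fin

/-- Absolute value of the discriminant. -/
def D : ℕ := (F.b ^ 2 + 4 * F.a).natAbs

def nm (z : F.O) : ℕ := z.norm.natAbs

noncomputable def om : ℂ := (F.b + √(F.D : ℝ) * Complex.I) / 2

theorem D_eq : (F.D : ℤ) = -(F.b ^ 2 + 4 * F.a) := by
  have := F.hneg
  unfold D
  omega

theorem om_sq : F.om * F.om = F.a + F.b * F.om := by
  have h1 : ((√(F.D : ℝ) : ℝ) : ℂ) * (√(F.D : ℝ) : ℝ) = -((F.b : ℂ) ^ 2 + 4 * F.a) := by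
    rw [← Complex.ofReal_mul, Real.mul_self_sqrt (Nat.cast_nonneg _)]
    exact_mod_cast F.D_eq
  unfold om
  linear_combination (-1 / 4 : ℂ) * h1 +
    ((√(F.D : ℝ) : ℝ) : ℂ) * (√(F.D : ℝ) : ℝ) / 4 * Complex.I_mul_I

noncomputable def emb : F.O →+* ℂ where
  toFun z := z.re + z.im * F.om
  map_one' := by simp
  map_mul' z w := by
    simp only [re_mul, im_mul]
    push_cast
    linear_combination (-(z.im : ℂ) * w.im) * F.om_sq
  map_zero' := by simp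
  map_add' z w := by
    simp only [re_add, im_add]
    push_cast
    ring

noncomputable def dir (z : F.O) : ℂ := F.emb z / ‖F.emb z‖

def cj (I : Ideal F.O) : Ideal F.O := I.map (starRingEnd F.O)

def Spl (p : ℕ) : Prop := p.Prime ∧ ¬ p ∣ F.D ∧ ∃ r : ℤ, (p : ℤ) ∣ r ^ 2 - F.b * r - F.a

def Ine (p : ℕ) : Prop := p.Prime ∧ ¬ ∃ r : ℤ, (p : ℤ) ∣ r ^ 2 - F.b * r - F.a

/-- A chosen prime ideal containing `p`. -/
noncomputable def pp (p : ℕ) : Ideal F.O :=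
  if h : ∃ P : Ideal F.O, Prime P ∧ (p : F.O) ∈ P then h.choose else ⊤

def cop (Q : ℕ) (I : Ideal F.O) : Prop := I ≠ ⊥ ∧ Nat.Coprime (Ideal.absNorm I) Q

/-- Hecke characters modulo `Q`. -/
structure Hk (Q : ℕ) (Ψ : Ideal F.O → ℂ) : Prop where
  mul : ∀ I J, F.cop Q I → F.cop Q J → Ψ (I * J) = Ψ I * Ψ J
  norm : ∀ I, F.cop Q I → ‖Ψ I‖ = 1
  form : ∃ (c : F.O → ℂ) (k : ℤ), (∀ z w, (Q : F.O) ∣ z - w → c z = c w) ∧
    ∀ z, F.cop Q (Ideal.span {z}) → Ψ (Ideal.span {z}) = c z * F.dir z ^ k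

def Striv (Q : ℕ) (Ψ : Ideal F.O → ℂ) : Prop := ∀ I, F.cop Q I → Ψ (F.cj I) = Ψ I

/-- Genus type characters modulo `Q`. -/
structure Gen (Q : ℕ) (Ψ : Ideal F.O → ℂ) : Prop where
  mul : ∀ I J, F.cop Q I → F.cop Q J → Ψ (I * J) = Ψ I * Ψ J
  ne : ∀ I, F.cop Q I → Ψ I ≠ 0
  triv : F.Striv Q Ψ
  cong : ∀ x y : F.O, F.cop Q (Ideal.span {x}) → F.cop Q (Ideal.span {y}) → (Q : F.O) ∣ x - y →
    Ψ (Ideal.span {x}) = Ψ (Ideal.span {y})

noncomputable def PP (Q y : ℕ) : Finset ℕ := (range (y + 1)).filter (fun p => F.Spl p ∧ ¬ p ∣ Q)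

def Lg (y : ℕ) (p : ℕ) : Prop := F.Spl p ∧ y < p

noncomputable def idl (T T₁ : Finset ℕ) : Ideal F.O :=
  (∏ p ∈ T₁, F.pp p) * ∏ p ∈ T \ T₁, F.cj (F.pp p)

noncomputable def can (n : ℕ) : Ideal F.O := (n.primeFactorsList.map F.pp).prod

/-- The box of points with both coordinates in `[lo, hi)`. -/
noncomputable def bx (lo hi : ℤ) : Finset F.O :=
  (Ico lo hi ×ˢ Ico lo hi).map ⟨fun p => ⟨p.1, p.2⟩, fun _ _ h => Prod.ext
    (congrArg QuadraticAlgebra.re h) (congrArg QuadraticAlgebra.im h)⟩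

theorem mem_bx {lo hi : ℤ} {z : F.O} :
    z ∈ F.bx lo hi ↔ (lo ≤ z.re ∧ z.re < hi) ∧ lo ≤ z.im ∧ z.im < hi := by
  simp only [bx, Finset.mem_map, mem_product, mem_Ico, Function.Embedding.coeFn_mk]
  exact ⟨fun ⟨p, h, e⟩ => e ▸ h, fun h => ⟨(z.re, z.im), h, rfl⟩⟩

theorem card_bx (lo hi : ℤ) : (F.bx lo hi).card = (hi - lo).toNat ^ 2 := by
  simp [bx, sq]

/-- Points of norm at most `t`. -/
noncomputable def ball (t : ℝ) : Finset F.O :=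
  (F.bx (-(2 * ⌈t⌉ + 2)) (2 * ⌈t⌉ + 2)).filter (fun z => (F.nm z : ℝ) ≤ t)

noncomputable def hh : ℕ := Nat.card (ClassGroup F.O)

noncomputable def ww : ℕ := Nat.card F.Oˣ

noncomputable def rho : ℝ := 2 * Real.pi * F.hh / (F.ww * √(F.D : ℝ))

noncomputable def II : ℝ := EE F.Ine 2

noncomputable def ramP : ℝ := ∏ p ∈ F.D.primeFactors, (1 - (p : ℝ)⁻¹)

noncomputable def CE : ℝ := √(F.rho * F.ramP / F.II)

noncomputable def kap : ℝ :=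
  2 * √(F.D : ℝ) / Real.pi * (2 / √Real.pi) * F.CE * F.II / F.ramP / 2 ^ F.D.primeFactors.card

noncomputable def eta (Q : ℕ) : ℝ :=
  ∏ p ∈ Q.primeFactors, if F.Spl p then 1 else if p ∣ F.D then 1 / 2 else (1 + (p : ℝ)⁻¹)⁻¹

noncomputable def Ey (Q y : ℕ) : ℝ := ∏ p ∈ F.PP Q y, (1 - (p : ℝ)⁻¹)

def Nr (x y : ℝ) : ℝ := x ^ 2 + F.b * x * y - F.a * y ^ 2

def lin (θ : ℝ × ℝ) (z : F.O) : ℝ := θ.1 * z.re + θ.2 * z.im

def sift (Q y : ℕ) (A : Ideal F.O) (z : F.O) : Prop :=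
  z ∈ A ∧ (∀ p ∈ F.PP Q y, z ∉ A * F.pp p ∧ z ∉ A * F.cj (F.pp p)) ∧
    ∀ p, F.Lg y p → z ∉ A * F.cj (F.pp p)

/-- Number of distinct norms of differences. -/
def Dn (P : Finset F.O) : ℕ := (P.offDiag.image (fun p => F.nm (p.1 - p.2))).card

/-- The cell of a point. -/
def cl (Q s : ℕ) (x : F.O) : ℤ × ℤ × ℤ × ℤ := (x.re % Q, x.im % Q, x.re / s, x.im / s)

noncomputable def avP (Q T L : ℕ) (P : Finset F.O) : F.O → ℝ :=
  av (F.bx 0 L) (F.cl Q (L / T)) (ind P)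

noncomputable def En (Q T L : ℕ) (P : Finset F.O) : ℝ := ∑ x ∈ F.bx 0 L, F.avP Q T L P x ^ 2

/-- The cell of `x` is dense and regular. -/
def good (Q T Q' T' L : ℕ) (η ε₁ : ℝ) (P : Finset F.O) (x : F.O) : Prop :=
  η ≤ F.avP Q T L P x ∧
    ∑ z ∈ (F.bx 0 L).filter (fun z => F.cl Q (L / T) z = F.cl Q (L / T) x),
      (F.avP Q' T' L P z - F.avP Q T L P z) ^ 2 ≤ ε₁ * (((L / T : ℕ) : ℝ) / Q) ^ 2

/-- The representative of the cell with class `ρ` and box `β`. -/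
def rep (s : ℕ) (ρ : F.O) (β : ℤ × ℤ) : F.O := ⟨β.1 * s + ρ.re, β.2 * s + ρ.im⟩

noncomputable def gb (Q T Q' T' L : ℕ) (η ε₁ : ℝ) (P : Finset F.O) (ρ : F.O) : Finset (ℤ × ℤ) :=
  (Ico (0 : ℤ) T ×ˢ Ico (0 : ℤ) T).filter
    (fun β => F.good Q T Q' T' L η ε₁ P (F.rep (L / T) ρ β))

end IQ

end Pool.Agent.Lib.MP_ad7336_co
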