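import Pool.Agent.Lib.MP_ad7336_co.Defs

set_option autoImplicit false

namespace Pool.Agent.Lib.MP_ad7336_co

open QuadraticAlgebra Finset Filter Topology
open scoped Classical

theorem comp_one (S : ℕ → Prop) : comp S 1 :=
  ⟨one_ne_zero, fun _ hp h => absurd (Nat.dvd_one.1 h) hp.ne_one⟩

theorem not_comp_zero (S : ℕ → Prop) : ¬ comp S 0 := fun h => h.1 rfl

theorem comp_mul (S : ℕ → Prop) (m n : ℕ) : comp S (m * n) ↔ comp S m ∧ comp S n := by
  constructor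
  · rintro ⟨h0, h⟩
    exact ⟨⟨left_ne_zero_of_mul h0, fun p hp hd => h p hp (hd.mul_right _)⟩,
      ⟨right_ne_zero_of_mul h0, fun p hp hd => h p hp (hd.mul_left _)⟩⟩
  · rintro ⟨⟨h0, h⟩, ⟨h0', h'⟩⟩
    exact ⟨mul_ne_zero h0 h0', fun p hp hd => ((Nat.Prime.dvd_mul hp).1 hd).elim (h p hp) (h' p hp)⟩

theorem comp_prime (S : ℕ → Prop) {p : ℕ} (hp : p.Prime) : comp S p ↔ S p :=
  ⟨fun h => h.2 p hp dvd_rfl, fun h => ⟨hp.ne_zero, fun q hq hd => by
    rwa [(Nat.prime_dvd_prime_iff_eq hq hp).1 hd]⟩⟩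

theorem comp_mono {S S' : ℕ → Prop} (h : ∀ p, p.Prime → S p → S' p) {n : ℕ} (hn : comp S n) :
    comp S' n := ⟨hn.1, fun p hp hd => h p hp (hn.2 p hp hd)⟩

/-- The completely multiplicative summand of `EE`. -/
noncomputable def eulF (S : ℕ → Prop) (s : ℝ) : ℕ →*₀ ℝ where
  toFun n := if comp S n then (n : ℝ) ^ (-s) else 0
  map_zero' := if_neg (not_comp_zero S)
  map_one' := by simp [comp_one S]
  map_mul' m n := by
    by_cases hm : comp S m <;> by_cases hn : comp S n <;>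
      simp [comp_mul, hm, hn, Real.mul_rpow]

theorem eulF_apply (S : ℕ → Prop) (s : ℝ) (n : ℕ) :
    eulF S s n = if comp S n then (n : ℝ) ^ (-s) else 0 := rfl

theorem eul_nonneg (S : ℕ → Prop) (s : ℝ) (n : ℕ) :
    (0 : ℝ) ≤ if comp S n then (n : ℝ) ^ (-s) else 0 := by
  split_ifs
  · positivity
  · exact le_rfl

theorem eul_le (S : ℕ → Prop) (s : ℝ) (n : ℕ) :
    (if comp S n then (n : ℝ) ^ (-s) else 0) ≤ (n : ℝ) ^ (-s) := by
  split_ifs
  · exact le_rfl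
  · positivity

theorem EE_summable (S : ℕ → Prop) {s : ℝ} (hs : 1 < s) :
    Summable (fun n : ℕ => if comp S n then (n : ℝ) ^ (-s) else 0) :=
  Summable.of_nonneg_of_le (eul_nonneg S s) (eul_le S s)
    (Real.summable_nat_rpow.2 (by linarith))

theorem eulF_norm_summable (S : ℕ → Prop) {s : ℝ} (hs : 1 < s) :
    Summable (fun n : ℕ => ‖eulF S s n‖) := (EE_summable S hs).norm

theorem eulF_factor (S : ℕ → Prop) (s : ℝ) {p : ℕ} (hp : p.Prime) :
    (1 - eulF S s p)⁻¹ = if S p then (1 - (p : ℝ) ^ (-s))⁻¹ else 1 := by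
  rw [eulF_apply, comp_prime S hp]
  split_ifs <;> simp

theorem EE_hasProd (S : ℕ → Prop) {s : ℝ} (hs : 1 < s) :
    HasProd (fun p : Nat.Primes => if S p then (1 - ((p : ℕ) : ℝ) ^ (-s))⁻¹ else 1) (EE S s) := by
  have h := EulerProduct.eulerProduct_completely_multiplicative_hasProd (eulF_norm_summable S hs)
  have e : (fun p : Nat.Primes => (1 - eulF S s p)⁻¹) =
      fun p : Nat.Primes => if S p then (1 - ((p : ℕ) : ℝ) ^ (-s))⁻¹ else 1 :=
    funext fun p => eulF_factor S s p.2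
  rw [e] at h
  exact h

theorem one_le_EE (S : ℕ → Prop) {s : ℝ} (hs : 1 < s) : 1 ≤ EE S s := by
  have h := (EE_summable S hs).le_tsum 1 (fun j _ => eul_nonneg S s j)
  simpa [comp_one S, EE] using h

theorem EE_partial (S : ℕ → Prop) {s : ℝ} (hs : 1 < s) :
    Tendsto (fun y : ℕ => ∏ p ∈ (range (y + 1)).filter (fun p => p.Prime ∧ S p),
      (1 - (p : ℝ) ^ (-s))⁻¹) atTop (𝓝 (EE S s)) := by
  have h := (EulerProduct.eulerProduct_completely_multiplicative (eulF_norm_summable S hs)).comp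
    (tendsto_add_atTop_nat 1)
  refine h.congr fun y => ?_
  simp only [Function.comp_apply, Nat.primesBelow]
  rw [← filter_filter, prod_filter (fun p => S p)]
  exact prod_congr rfl fun p hp => eulF_factor S s (mem_filter.1 hp).2

theorem rpow_neg_lt_one {p : ℕ} (hp : p.Prime) {s : ℝ} (hs : 0 < s) : (p : ℝ) ^ (-s) < 1 :=
  Real.rpow_lt_one_of_one_lt_of_neg (by exact_mod_cast hp.one_lt) (by linarith)

theorem EE_sdiff (S S' : ℕ → Prop) (T : Finset ℕ) (hT : ∀ p ∈ T, p.Prime ∧ S p)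
    (h : ∀ p, p.Prime → (S' p ↔ S p ∧ p ∉ T)) {s : ℝ} (hs : 1 < s) :
    EE S' s = EE S s * ∏ p ∈ T, (1 - (p : ℝ) ^ (-s)) := by
  refine tendsto_nhds_unique (EE_partial S' hs)
    (((EE_partial S hs).mul_const (∏ p ∈ T, (1 - (p : ℝ) ^ (-s)))).congr' ?_)
  filter_upwards [eventually_ge_atTop (T.sup id)] with y hy
  have hsub : T ⊆ (range (y + 1)).filter (fun p => p.Prime ∧ S p) := fun p hp =>
    mem_filter.2 ⟨mem_range.2 (Nat.lt_succ_of_le ((le_sup (f := id) hp).trans hy)), hT p hp⟩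
  have e : (range (y + 1)).filter (fun p => p.Prime ∧ S' p) =
      (range (y + 1)).filter (fun p => p.Prime ∧ S p) \ T := by
    ext p
    simp only [mem_filter, Finset.mem_sdiff]
    constructor
    · rintro ⟨h1, h2, h3⟩
      exact ⟨⟨h1, h2, ((h p h2).1 h3).1⟩, ((h p h2).1 h3).2⟩
    · rintro ⟨⟨h1, h2, h3⟩, h4⟩
      exact ⟨h1, h2, (h p h2).2 ⟨h3, h4⟩⟩
  rw [e, ← prod_sdiff hsub, mul_assoc, ← prod_mul_distrib]
  rw [prod_eq_one (s := T), mul_one]
  intro p hp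
  exact inv_mul_cancel₀ (sub_pos.2 (rpow_neg_lt_one (hT p hp).1 (by linarith))).ne'

theorem EE_mono {S S' : ℕ → Prop} (h : ∀ p, p.Prime → S p → S' p) {s : ℝ} (hs : 1 < s) :
    EE S s ≤ EE S' s := by
  refine (EE_summable S hs).tsum_le_tsum (fun n => ?_) (EE_summable S' hs)
  by_cases hn : comp S n
  · rw [if_pos hn, if_pos (comp_mono h hn)]
  · rw [if_neg hn]; exact eul_nonneg S' s n

theorem EE_fin (T : Finset ℕ) (S : ℕ → Prop) (h : ∀ p, p.Prime → (S p ↔ p ∈ T))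
    (hT : ∀ p ∈ T, p.Prime) {s : ℝ} (hs : 0 < s) :
    HasSum (fun n : ℕ => if comp S n then (n : ℝ) ^ (-s) else 0)
      (∏ p ∈ T, (1 - (p : ℝ) ^ (-s))⁻¹) := by
  have h1 := (EulerProduct.summable_and_hasSum_factoredNumbers_prod_filter_prime_geometric
    (f := (eulF S s).toMonoidHom) (fun {p} hp => by
      show ‖eulF S s p‖ < 1
      rw [eulF_apply, Real.norm_of_nonneg (eul_nonneg S s p)]
      exact (eul_le S s p).trans_lt (rpow_neg_lt_one hp hs)) T).2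
  have h2 : HasSum (fun m : Nat.factoredNumbers T => eulF S s m)
      (∏ p ∈ T, (1 - (p : ℝ) ^ (-s))⁻¹) := by
    rw [filter_true_of_mem hT] at h1
    have e : ∏ p ∈ T, (1 - (eulF S s).toMonoidHom p)⁻¹ = ∏ p ∈ T, (1 - (p : ℝ) ^ (-s))⁻¹ :=
      prod_congr rfl fun p hp => by
        show (1 - eulF S s p)⁻¹ = _
        rw [eulF_factor S s (hT p hp), if_pos ((h p (hT p hp)).2 hp)]
    rw [e] at h1
    exact h1
  refine (hasSum_subtype_iff_of_support_subset (s := Nat.factoredNumbers T) ?_).1 h2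
  intro n hn
  have hc : comp S n := by
    by_contra hc
    exact hn (if_neg hc)
  exact Nat.mem_factoredNumbers'.2 fun p hp hd => (h p hp).1 (hc.2 p hp hd)

theorem EE_two_cont (S : ℕ → Prop) :
    Tendsto (fun s : ℝ => EE S (2 * s)) (𝓝[>] 1) (𝓝 (EE S 2)) := by
  unfold EE
  refine tendsto_tsum_of_dominated_convergence
    (bound := fun n : ℕ => if comp S n then (n : ℝ) ^ (-(2 : ℝ)) else 0)
    (EE_summable S one_lt_two) (fun n => ?_) ?_
  · by_cases hn : comp S n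
    · simp only [if_pos hn]
      have hc : Continuous fun s : ℝ => (n : ℝ) ^ (-(2 * s)) :=
        continuous_const.rpow (by fun_prop) fun _ => Or.inl (Nat.cast_ne_zero.2 hn.1)
      have := (hc.tendsto 1).mono_left (nhdsWithin_le_nhds (s := Set.Ioi 1))
      simpa using this
    · simp only [if_neg hn]
      exact tendsto_const_nhds
  · filter_upwards [self_mem_nhdsWithin] with s hs n
    have hs' : 1 < s := hs
    rw [Real.norm_of_nonneg (eul_nonneg S _ n)]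
    split_ifs with hn
    · exact Real.rpow_le_rpow_of_exponent_le
        (by exact_mod_cast Nat.one_le_iff_ne_zero.2 hn.1) (by linarith)
    · exact le_rfl

theorem EE_true_two : EE (fun _ => True) 2 = Real.pi ^ 2 / 6 := by
  rw [← hasSum_zeta_two.tsum_eq]
  refine tsum_congr fun n => ?_
  rcases eq_or_ne n 0 with rfl | hn
  · simp [not_comp_zero]
  · rw [if_pos ⟨hn, fun _ _ _ => trivial⟩, Real.rpow_neg (Nat.cast_nonneg n), one_div]
    norm_num

theorem one_le_SS (S : ℕ → Prop) {x : ℝ} (hx : 1 ≤ x) : 1 ≤ SS S x := by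
  have h := single_le_sum (s := Icc 1 ⌊x⌋₊)
    (f := fun n : ℕ => if comp S n then (n : ℝ)⁻¹ else 0)
    (fun n _ => by split_ifs <;> positivity) (a := 1)
    (mem_Icc.2 ⟨le_rfl, Nat.le_floor (by simpa using hx)⟩)
  simpa [comp_one S, SS] using h

theorem sum_inv_fibre_le (T : Finset ℕ) (hT : ∀ p ∈ T, p.Prime) (A : Finset ℕ)
    (hA : ∀ n ∈ A, n ≠ 0 ∧ n.primeFactors = T) :
    ∑ n ∈ A, (n : ℝ)⁻¹ ≤ ∏ p ∈ T, ((p : ℝ) - 1)⁻¹ := by
  set r : ℕ := ∏ p ∈ T, p with hr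
  have hr0 : 0 < r := prod_pos fun p hp => (hT p hp).pos
  have hd : ∀ n ∈ A, r ∣ n := fun n hn => by
    rw [hr, ← (hA n hn).2]; exact Nat.prod_primeFactors_dvd n
  have hS := EE_fin T (fun p => p ∈ T) (fun _ _ => Iff.rfl) hT one_pos
  have h1 := sum_le_hasSum (A.image (· / r)) (fun n _ => eul_nonneg _ 1 n) hS
  rw [sum_image (fun a ha b hb hab => by
    have := congrArg (r * ·) hab
    simpa [Nat.mul_div_cancel' (hd a ha), Nat.mul_div_cancel' (hd b hb)] using this)] at h1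
  have h2 : ∑ n ∈ A, (n : ℝ)⁻¹ = (r : ℝ)⁻¹ * ∑ n ∈ A,
      if comp (fun p => p ∈ T) (n / r) then ((n / r : ℕ) : ℝ) ^ (-(1 : ℝ)) else 0 := by
    rw [mul_sum]
    refine sum_congr rfl fun n hn => ?_
    obtain ⟨m, rfl⟩ := hd n hn
    have hm : m ≠ 0 := right_ne_zero_of_mul (hA _ hn).1
    rw [Nat.mul_div_cancel_left m hr0, if_pos, Real.rpow_neg_one, Nat.cast_mul, mul_inv]
    refine ⟨hm, fun p hp hpd => ?_⟩
    rw [← (hA _ hn).2]
    exact Nat.mem_primeFactors.2 ⟨hp, hpd.mul_left _, (hA _ hn).1⟩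
  rw [h2]
  refine (mul_le_mul_of_nonneg_left h1 (by positivity)).trans_eq ?_
  rw [hr, Nat.cast_prod, ← prod_inv_distrib, ← prod_mul_distrib]
  refine prod_congr rfl fun p hp => ?_
  have hp0 : (p : ℝ) ≠ 0 := Nat.cast_ne_zero.2 (hT p hp).ne_zero
  rw [Real.rpow_neg_one, ← mul_inv, mul_sub, mul_one, mul_inv_cancel₀ hp0]

theorem SS_le (S : ℕ → Prop) (x : ℝ) (P : Finset ℕ) (hP : ∀ p ∈ P, p.Prime)
    (h : ∀ p : ℕ, p.Prime → S p → (p : ℝ) ≤ x → p ∈ P) :
    SS S x ≤ ∑ T ∈ P.powerset.filter (fun T => ((∏ p ∈ T, p : ℕ) : ℝ) ≤ x),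
      ∏ p ∈ T, ((p : ℝ) - 1)⁻¹ := by
  unfold SS
  rw [← sum_filter]
  have hx : ∀ n ∈ (Icc 1 ⌊x⌋₊).filter (comp S), ∀ d : ℕ, d ∣ n → (d : ℝ) ≤ x := by
    intro n hn d hd
    obtain ⟨h1, h2⟩ := mem_filter.1 hn
    obtain ⟨h3, h4⟩ := mem_Icc.1 h1
    have hx0 : 0 ≤ x := by
      by_contra hc
      rw [Nat.floor_of_nonpos (not_le.1 hc).le] at h4
      omega
    exact (Nat.cast_le.2 ((Nat.le_of_dvd h3 hd).trans h4)).trans (Nat.floor_le hx0)
  rw [← sum_fiberwise_of_maps_to (g := Nat.primeFactors)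
    (t := P.powerset.filter (fun T => ((∏ p ∈ T, p : ℕ) : ℝ) ≤ x))]
  · refine sum_le_sum fun T hT => sum_inv_fibre_le T
      (fun p hp => hP p (mem_powerset.1 (mem_filter.1 hT).1 hp)) _ fun n hn => ?_
    exact ⟨(mem_filter.1 (mem_filter.1 hn).1).2.1, (mem_filter.1 hn).2⟩
  · intro n hn
    refine mem_filter.2 ⟨mem_powerset.2 fun p hp => ?_, hx n hn _ (Nat.prod_primeFactors_dvd n)⟩
    obtain ⟨h1, h2, -⟩ := Nat.mem_primeFactors.1 hp
    exact h p h1 ((mem_filter.1 hn).2.2 p h1 h2) (hx n hn p h2)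

theorem one_sub_sum_le_prod (T : Finset ℕ) (f : ℕ → ℝ) (h0 : ∀ p ∈ T, 0 ≤ f p)
    (h1 : ∀ p ∈ T, f p ≤ 1) : 1 - ∑ p ∈ T, f p ≤ ∏ p ∈ T, (1 - f p) := by
  induction T using Finset.induction_on with
  | empty => simp
  | insert a T ha ih =>
    rw [sum_insert ha, prod_insert ha]
    have ih' := ih (fun p hp => h0 p (mem_insert_of_mem hp)) fun p hp => h1 p (mem_insert_of_mem hp)
    have a0 := h0 a (mem_insert_self _ _)
    have a1 := h1 a (mem_insert_self _ _)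
    have s0 : 0 ≤ ∑ p ∈ T, f p := sum_nonneg fun p hp => h0 p (mem_insert_of_mem hp)
    nlinarith [mul_le_mul_of_nonneg_left ih' (sub_nonneg.2 a1), mul_nonneg a0 s0]

theorem prod_one_sub_sq_ge (T : Finset ℕ) {y : ℕ} (hy : y ≠ 0) (h : ∀ p ∈ T, y < p) :
    1 - (y : ℝ)⁻¹ ≤ ∏ p ∈ T, (1 - ((p : ℝ)⁻¹) ^ 2) := by
  refine le_trans ?_ (one_sub_sum_le_prod T (fun p => ((p : ℝ)⁻¹) ^ 2)
    (fun p _ => by positivity) fun p hp => ?_)
  · have hsub : T ⊆ Ioc y (max y (T.sup id)) := fun p hp =>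
      mem_Ioc.2 ⟨h p hp, (le_sup (f := id) hp).trans (le_max_right _ _)⟩
    have h1 := sum_le_sum_of_subset_of_nonneg (f := fun p : ℕ => ((p : ℝ)⁻¹) ^ 2) hsub
      (fun p _ _ => by positivity)
    have h2 := sum_Ioc_inv_sq_le_sub (α := ℝ) hy (le_max_left y (T.sup id))
    have h3 : (0 : ℝ) ≤ ((max y (T.sup id) : ℕ) : ℝ)⁻¹ := by positivity
    simp only [inv_pow] at h1 ⊢
    linarith
  · have : (1 : ℝ) ≤ p := by
      have := h p hp
      exact_mod_cast (by omega : 1 ≤ p)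
    exact pow_le_one₀ (by positivity) (inv_le_one_of_one_le₀ this)

end Pool.Agent.Lib.MP_ad7336_co
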