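import Pool.Agent.Lib.MP_ad7336_co.Zeta

set_option autoImplicit false

namespace Pool.Agent.Lib.MP_ad7336_co

open QuadraticAlgebra Finset Filter Topology
open scoped Classical

namespace Fl

theorem exists_extend {Z S : Type} [CommMonoid Z] [CommMonoid S] [IsCancelMul S] (f : Z →* S)
    (ξ : Z →* Circle) (h : ∀ z z', f z = f z' → ξ z = ξ z') :
    ∃ Ψ : S →* Circle, ∀ z, Ψ (f z) = ξ z := by
  let φ := Algebra.GrothendieckGroup.lift ((Algebra.GrothendieckGroup.of (M := S)).comp f)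
  let ξ' := Algebra.GrothendieckGroup.lift ξ
  have hker : φ.ker ≤ ξ'.ker := by
    intro x hx
    rw [MonoidHom.mem_ker, Algebra.GrothendieckGroup.lift_apply, div_eq_one] at hx ⊢
    exact h _ _ (Algebra.GrothendieckGroup.of_injective hx)
  let : DivisibleBy (Additive Circle) ℤ := divisibleByOfSMulRightSurj _ _ (fun {n} hn w => by
    obtain ⟨t, ht⟩ := Circle.exp_surjective w.toMul
    refine ⟨Additive.ofMul (Circle.exp (t / n)), ?_⟩
    change Additive.ofMul (Circle.exp (t / n) ^ n) = w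
    rw [← Circle.exp_intCast_mul, mul_div_cancel₀ _ (by exact_mod_cast hn), ht]
    rfl)
  obtain ⟨g, hg⟩ := (Module.Baer.of_divisible (Additive Circle)).extension_property_addMonoidHom
    (MonoidHom.toAdditive (QuotientGroup.kerLift φ)) (QuotientGroup.kerLift_injective φ)
    (MonoidHom.toAdditive (QuotientGroup.lift φ.ker ξ' hker))
  refine ⟨(MonoidHom.toAdditive.symm g).comp Algebra.GrothendieckGroup.of, fun z => ?_⟩
  have h1 : φ (Algebra.GrothendieckGroup.of z) = Algebra.GrothendieckGroup.of (f z) :=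
    DFunLike.congr_fun (Algebra.GrothendieckGroup.lift.left_inv
      ((Algebra.GrothendieckGroup.of (M := S)).comp f)) z
  have h2 : ξ' (Algebra.GrothendieckGroup.of z) = ξ z :=
    DFunLike.congr_fun (Algebra.GrothendieckGroup.lift.left_inv ξ) z
  have h3 := DFunLike.congr_fun hg (Additive.ofMul (QuotientGroup.mk
    (Algebra.GrothendieckGroup.of z)))
  change g (Additive.ofMul (φ _)) = Additive.ofMul (ξ' _) at h3
  rw [h1, h2] at h3
  exact congrArg Additive.toMul h3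

theorem sum_mulChar {M : Type} [CommMonoid M] [Finite M] [Fintype (MulChar M ℂ)] (a : M) :
    ∑ χ : MulChar M ℂ, χ a = if a = 1 then (Nat.card Mˣ : ℂ) else 0 := by
  split_ifs with ha
  · simp only [ha, map_one, sum_const, card_univ, nsmul_eq_mul, mul_one,
      ← Nat.card_eq_fintype_card, MulChar.card_eq_card_units_of_hasEnoughRootsOfUnity]
  · obtain ⟨χ, hχ⟩ := MulChar.exists_apply_ne_one_of_hasEnoughRootsOfUnity M ℂ ha
    refine eq_zero_of_mul_eq_self_left hχ ?_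
    simp only [mul_sum, ← MulChar.mul_apply]
    exact Fintype.sum_bijective _ (Group.mulLeft_bijective χ) _ _ fun χ' ↦ rfl

theorem norm_mulChar {M : Type} [CommMonoid M] [Finite M] (χ : MulChar M ℂ) {a : M}
    (ha : IsUnit a) : ‖χ a‖ = 1 := by
  have h1 : ‖χ a‖ ^ Nat.card Mˣ = 1 := by
    obtain ⟨v, rfl⟩ := ha
    rw [← norm_pow, ← map_pow, ← Units.val_pow_eq_pow_val, pow_card_eq_one', Units.val_one, map_one,
      NormOneClass.norm_one]
  exact (pow_eq_one_iff_of_nonneg (norm_nonneg _) Nat.card_pos.ne').1 h1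

theorem geom_sq {w : ℂ} (hw : ‖w‖ = 1) (J : ℕ) :
    ‖∑ a ∈ range J, w ^ a‖ ^ 2 = (∑ a ∈ range J, ∑ b ∈ range J, w ^ ((a : ℤ) - b)).re := by
  have h0 : w ≠ 0 := by rintro rfl; simp at hw
  have h1 : (starRingEnd ℂ) w = w⁻¹ := (Complex.inv_eq_conj hw).symm
  have h2 : ∑ a ∈ range J, ∑ b ∈ range J, w ^ ((a : ℤ) - b) =
      (∑ a ∈ range J, w ^ a) * (starRingEnd ℂ) (∑ a ∈ range J, w ^ a) := by
    rw [map_sum, sum_mul_sum]
    refine sum_congr rfl fun a _ => sum_congr rfl fun b _ => ?_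
    rw [zpow_sub₀ h0, map_pow, h1, zpow_natCast, zpow_natCast, inv_pow, div_eq_mul_inv]
  rw [h2, Complex.mul_conj, Complex.ofReal_re, Complex.normSq_eq_norm_sq]

theorem geom_le {w : ℂ} (hw : ‖w‖ = 1) (J : ℕ) {γ : ℝ} (hγ : 0 < γ) :
    ‖∑ a ∈ range J, w ^ a‖ ^ 2 ≤ 4 / γ ^ 2 + if ‖w - 1‖ < γ then (J : ℝ) ^ 2 else 0 := by
  split_ifs with h
  · have h1 : ‖∑ a ∈ range J, w ^ a‖ ≤ J := (norm_sum_le _ _).trans (by simp [hw])
    have h2 := pow_le_pow_left₀ (norm_nonneg _) h1 2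
    have h3 : 0 ≤ 4 / γ ^ 2 := by positivity
    linarith
  · have h1 : ‖∑ a ∈ range J, w ^ a‖ * ‖w - 1‖ ≤ 2 := by
      rw [← norm_mul, geom_sum_mul]
      refine (norm_sub_le _ _).trans ?_
      rw [norm_pow, hw, one_pow, NormOneClass.norm_one]; norm_num
    have h2 : ‖∑ a ∈ range J, w ^ a‖ * γ ≤ 2 :=
      (mul_le_mul_of_nonneg_left (not_lt.1 h) (norm_nonneg _)).trans h1
    rw [add_zero, le_div_iff₀ (by positivity), ← mul_pow]
    nlinarith [mul_nonneg (norm_nonneg (∑ a ∈ range J, w ^ a)) hγ.le]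

theorem fejer {ι : Type} (s : Finset ι) (u : ι → ℂ) (hu : ∀ i ∈ s, ‖u i‖ = 1) {γ : ℝ}
    (hγ : 0 < γ) {J : ℕ} (hJ : 4 / γ ^ 2 + 1 ≤ J) {N e : ℝ} (hN : 0 ≤ N)
    (h : ∀ k : ℤ, |k| < J → ‖∑ i ∈ s, u i ^ k - (if k = 0 then (N : ℂ) else 0)‖ ≤ e) {v : ℂ}
    (hv : ‖v‖ = 1) :
    N - 2 * J ^ 2 * e ≤ J ^ 2 * (s.filter (fun i => ‖u i - v‖ < γ)).card := by
  have hβ : 0 ≤ 4 / γ ^ 2 := by positivity
  have hJ1 : (1 : ℝ) ≤ J := by linarith
  have hJ0 : |(0 : ℤ)| < J := by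
    have : (1 : ℤ) ≤ J := by exact_mod_cast hJ1
    simp only [abs_zero]; omega
  have hv0 : v ≠ 0 := by rintro rfl; simp at hv
  have he : 0 ≤ e := (norm_nonneg _).trans (h 0 hJ0)
  have hw : ∀ i ∈ s, ‖u i / v‖ = 1 := fun i hi => by rw [norm_div, hu i hi, hv, div_one]
  have h1 : ∀ k : ℤ, |k| < J → (if k = 0 then N else 0) - e ≤ (∑ i ∈ s, (u i / v) ^ k).re := by
    intro k hk
    have h2 := h k hk
    split_ifs at h2 ⊢ with h0
    · subst h0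
      have h3 := (Complex.abs_re_le_norm _).trans h2
      simp only [zpow_zero, Complex.sub_re, Complex.ofReal_re] at h3 ⊢
      linarith [(abs_le.1 h3).1]
    · have h3 : ‖∑ i ∈ s, (u i / v) ^ k‖ ≤ e := by
        simp only [div_zpow, ← sum_div]
        rw [norm_div, norm_zpow, hv, one_zpow, div_one]
        simpa using h2
      linarith [(abs_le.1 ((Complex.abs_re_le_norm _).trans h3)).1]
  have h2 : (s.card : ℝ) ≤ N + e := by
    have h3 := (Complex.abs_re_le_norm _).trans (h 0 hJ0)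
    simp only [zpow_zero, sum_const, nsmul_eq_mul, mul_one, if_true, Complex.sub_re,
      Complex.natCast_re, Complex.ofReal_re] at h3
    linarith [(abs_le.1 h3).2]
  have h3 : J * N - J ^ 2 * e ≤ ∑ i ∈ s, ‖∑ a ∈ range J, (u i / v) ^ a‖ ^ 2 := by
    rw [sum_congr rfl (fun i hi => geom_sq (hw i hi) J), ← Complex.re_sum, sum_comm,
      Complex.re_sum]
    have h4 : ∀ a ∈ range J, N - J * e ≤
        (∑ i ∈ s, ∑ b ∈ range J, (u i / v) ^ ((a : ℤ) - b)).re := by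
      intro a ha
      rw [sum_comm, Complex.re_sum]
      refine le_trans (le_of_eq ?_) (sum_le_sum fun b hb => h1 _ ?_)
      · simp only [sub_eq_zero, Nat.cast_inj, sum_sub_distrib, sum_ite_eq, ha, if_true, sum_const,
          card_range, nsmul_eq_mul]
      · have := mem_range.1 ha
        have := mem_range.1 hb
        rw [abs_lt]; omega
    refine le_trans (le_of_eq ?_) (sum_le_sum h4)
    rw [sum_const, card_range, nsmul_eq_mul]; ring
  have h4 : ∑ i ∈ s, ‖∑ a ∈ range J, (u i / v) ^ a‖ ^ 2 ≤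
      s.card * (4 / γ ^ 2) + J ^ 2 * (s.filter (fun i => ‖u i - v‖ < γ)).card := by
    refine (sum_le_sum fun i hi => geom_le (hw i hi) J hγ).trans (le_of_eq ?_)
    have h5 : ∀ i, ‖u i / v - 1‖ = ‖u i - v‖ := fun i => by
      rw [div_sub_one hv0, norm_div, hv, div_one]
    simp only [h5]
    rw [sum_add_distrib, sum_const, nsmul_eq_mul, ← sum_filter, sum_const, nsmul_eq_mul, mul_comm
      ((J : ℝ) ^ 2)]
  have h5 := mul_le_mul_of_nonneg_right h2 hβ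
  have h6 : 4 / γ ^ 2 ≤ (J : ℝ) ^ 2 := by nlinarith
  nlinarith [mul_le_mul_of_nonneg_right h6 he, mul_le_mul_of_nonneg_right hJ hN]

theorem markov (s : Finset (ℕ → ℝ)) (P : ℕ → Finset ℕ) (hP : ∀ y, ∀ p ∈ P y, p ≠ 0)
    (h0 : ∀ a ∈ s, ∀ y, ∀ p ∈ P y, 0 ≤ a p ∧ a p ≤ 1)
    (hd : ∀ a ∈ s, Tendsto (fun y => ∑ p ∈ P y, (1 - a p) / p) atTop atTop) {δ ε : ℝ}
    (hδ : 0 < δ) (hε : 0 < ε) : ∀ᶠ y : ℕ in atTop, ∃ A ⊆ (P y).powerset,
      (1 - ε) * ∏ p ∈ P y, (1 + (p : ℝ)⁻¹) ≤ ∑ T ∈ A, ∏ p ∈ T, (p : ℝ)⁻¹ ∧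
      ∀ T ∈ A, ∀ a ∈ s, ∏ p ∈ T, a p ≤ δ := by
  have h1 : Tendsto (fun y => ∑ a ∈ s, Real.exp (-((∑ p ∈ P y, (1 - a p) / p) / 2))) atTop
      (𝓝 0) := by
    have := tendsto_finsetSum s (fun a ha => Real.tendsto_exp_neg_atTop_nhds_zero.comp
      ((hd a ha).atTop_div_const two_pos))
    simpa using this
  filter_upwards [h1.eventually (gt_mem_nhds (mul_pos hε hδ))] with y hy
  refine ⟨(P y).powerset.filter (fun T => ∀ a ∈ s, ∏ p ∈ T, a p ≤ δ), filter_subset _ _, ?_,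
    fun T hT => (mem_filter.1 hT).2⟩
  set Z := ∏ p ∈ P y, (1 + (p : ℝ)⁻¹) with hZ
  have hZ0 : 0 ≤ Z := prod_nonneg fun p _ => by positivity
  have h2 : ∀ a ∈ s, ∑ T ∈ (P y).powerset, (∏ p ∈ T, (p : ℝ)⁻¹) * ∏ p ∈ T, a p ≤
      Z * Real.exp (-((∑ p ∈ P y, (1 - a p) / p) / 2)) := by
    intro a ha
    simp only [← prod_mul_distrib]
    rw [← prod_one_add, sum_div, ← sum_neg_distrib, Real.exp_sum, hZ, ← prod_mul_distrib]
    refine prod_le_prod (fun p hp => ?_) (fun p hp => ?_)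
    · have := (h0 a ha y p hp).1
      positivity
    · obtain ⟨a0, a1⟩ := h0 a ha y p hp
      have p1 : (1 : ℝ) ≤ p := by exact_mod_cast Nat.one_le_iff_ne_zero.2 (hP y p hp)
      have t0 : 0 < (p : ℝ)⁻¹ := by positivity
      have t1 : (p : ℝ)⁻¹ ≤ 1 := inv_le_one_of_one_le₀ p1
      have t2 := Real.add_one_le_exp (-((1 - a p) / p / 2))
      refine le_trans ?_ (mul_le_mul_of_nonneg_left t2 (by positivity))
      rw [div_eq_mul_inv (1 - a p)]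
      nlinarith [mul_nonneg (mul_nonneg t0.le (sub_nonneg.2 a1)) (sub_nonneg.2 t1)]
  have h3 : δ * ∑ T ∈ (P y).powerset.filter (fun T => ¬ ∀ a ∈ s, ∏ p ∈ T, a p ≤ δ),
      ∏ p ∈ T, (p : ℝ)⁻¹ ≤ Z * (ε * δ) := by
    refine le_trans ?_ ((mul_le_mul_of_nonneg_left hy.le hZ0).trans' (le_of_le_of_eq
      (sum_le_sum h2) (mul_sum _ _ _).symm))
    have hn : ∀ T ∈ (P y).powerset, ∀ a ∈ s, 0 ≤ (∏ p ∈ T, (p : ℝ)⁻¹) * ∏ p ∈ T, a p :=
      fun T hT a ha => mul_nonneg (prod_nonneg fun p _ => by positivity)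
        (prod_nonneg fun p hp => (h0 a ha y p (mem_powerset.1 hT hp)).1)
    rw [sum_comm, mul_sum]
    refine le_trans (sum_le_sum fun T hT => ?_) (sum_le_sum_of_subset_of_nonneg
      (filter_subset _ _) fun T hT _ => sum_nonneg (hn T hT))
    obtain ⟨hT1, hT2⟩ := mem_filter.1 hT
    push Not at hT2
    obtain ⟨a, ha, ha2⟩ := hT2
    refine le_trans ?_ (single_le_sum (hn T hT1) ha)
    rw [mul_comm]
    exact mul_le_mul_of_nonneg_left ha2.le (prod_nonneg fun p _ => by positivity)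
  have h4 := sum_filter_add_sum_filter_not (P y).powerset (fun T => ∀ a ∈ s, ∏ p ∈ T, a p ≤ δ)
    (fun T => ∏ p ∈ T, (p : ℝ)⁻¹)
  rw [← prod_one_add, ← hZ] at h4
  have h5 := le_of_mul_le_mul_left (h3.trans (le_of_eq (by ring : _ = δ * (Z * ε)))) hδ
  linarith

variable (F : IQ)

noncomputable def cls (I : Ideal F.O) : ClassGroup F.O :=
  if h : I ≠ ⊥ then ClassGroup.mk0 ⟨I, mem_nonZeroDivisors_of_ne_zero h⟩ else 1

theorem cls_mul {I J : Ideal F.O} (hI : I ≠ ⊥) (hJ : J ≠ ⊥) :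
    cls F (I * J) = cls F I * cls F J := by
  have h : I * J ≠ ⊥ := mul_ne_zero hI hJ
  rw [cls, cls, cls, dif_pos hI, dif_pos hJ, dif_pos h, ← map_mul]
  rfl

theorem cls_eq_one_iff {I : Ideal F.O} (hI : I ≠ ⊥) :
    cls F I = 1 ↔ ∃ z : F.O, Ideal.span {z} = I := by
  rw [cls, dif_pos hI, ClassGroup.mk0_eq_one_iff]
  exact ⟨fun h => let ⟨z, hz⟩ := h.principal; ⟨z, hz.symm⟩, fun ⟨z, hz⟩ => ⟨z, hz.symm⟩⟩

abbrev RQ (Q : ℕ) := F.O ⧸ Ideal.span {(Q : F.O)}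

theorem finite_quot {Q : ℕ} (hQ : Q ≠ 0) : Finite (RQ F Q) := by
  have h0 : Ideal.absNorm (Ideal.span {(Q : F.O)}) ≠ 0 := by
    rw [F.absNorm_nat]; positivity
  exact Nat.finite_of_card_ne_zero h0

theorem mk_eq {Q : ℕ} {x y : F.O} :
    (Ideal.Quotient.mk _ x : RQ F Q) = Ideal.Quotient.mk _ y ↔ (Q : F.O) ∣ x - y := by
  rw [Ideal.Quotient.eq, Ideal.mem_span_singleton]

theorem ne_of_cop {Q : ℕ} {z : F.O} (h : F.cop Q (Ideal.span {z})) : z ≠ 0 := (F.cop_span.1 h).1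

theorem isUnit_mk {Q : ℕ} {z : F.O} (h : F.cop Q (Ideal.span {z})) :
    IsUnit (Ideal.Quotient.mk _ z : RQ F Q) := by
  have h1 : (1 : F.O) ∈ Ideal.span {z} ⊔ Ideal.span {(Q : F.O)} := by
    rw [(F.cop_iff.1 h).2]; trivial
  obtain ⟨a, ha, b, hb, hab⟩ := Submodule.mem_sup.1 h1
  obtain ⟨c, rfl⟩ := Ideal.mem_span_singleton.1 ha
  refine isUnit_iff_exists_inv.2 ⟨Ideal.Quotient.mk _ c, ?_⟩
  rw [← map_mul, ← map_one (Ideal.Quotient.mk _), ← hab, map_add,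
    Ideal.Quotient.eq_zero_iff_mem.2 hb, add_zero]

theorem dir_one : F.dir 1 = 1 := by simpa using F.dir_natCast one_ne_zero

noncomputable def Xi {Q : ℕ} (χ : MulChar (RQ F Q) ℂ) (k : ℤ) : F.O →* ℂ where
  toFun z := χ (Ideal.Quotient.mk _ z) * F.dir z ^ k
  map_one' := by simp [dir_one]
  map_mul' z w := by
    rw [F.dir_mul, map_mul, map_mul, mul_zpow]
    ring

theorem Xi_apply {Q : ℕ} (χ : MulChar (RQ F Q) ℂ) (k : ℤ) (z : F.O) :
    Xi F χ k z = χ (Ideal.Quotient.mk _ z) * F.dir z ^ k := rfl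

def adm {Q : ℕ} (χ : MulChar (RQ F Q) ℂ) (k : ℤ) : Prop := ∀ u : F.Oˣ, Xi F χ k u = 1

theorem exists_hk {Q : ℕ} (hQ : Q ≠ 0) (χ : MulChar (RQ F Q) ℂ) (k : ℤ) (h : adm F χ k) :
    ∃ Ψ : Ideal F.O → ℂ, (∀ I J, F.cop Q I → F.cop Q J → Ψ (I * J) = Ψ I * Ψ J) ∧
      (∀ I, F.cop Q I → ‖Ψ I‖ = 1) ∧
      ∀ z, F.cop Q (Ideal.span {z}) → Ψ (Ideal.span {z}) = Xi F χ k z := by
  have := finite_quot F hQ
  let S : Submonoid (Ideal F.O) := ⟨⟨{I | F.cop Q I}, fun a b => F.cop_mul.2 ⟨a, b⟩⟩,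
    by simpa using F.cop_top Q⟩
  let Z : Submonoid F.O := ⟨⟨{z | F.cop Q (Ideal.span {z})}, fun {a b} ha hb => by
    have := F.cop_mul.2 ⟨ha, hb⟩
    rwa [Ideal.span_singleton_mul_span_singleton] at this⟩, by simpa using F.cop_top Q⟩
  have : IsLeftCancelMul S := ⟨fun a _ _ h => Subtype.ext
    (mul_left_cancel₀ a.2.1 (congrArg Subtype.val h))⟩
  have : IsCancelMul S := CommMagma.IsLeftCancelMul.toIsCancelMul S
  let f : Z →* S := ⟨⟨fun z => ⟨Ideal.span {z.1}, z.2⟩, Subtype.ext (by simp)⟩, fun a b =>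
    Subtype.ext (Ideal.span_singleton_mul_span_singleton _ _).symm⟩
  let ξ : Z →* Circle := ⟨⟨fun z => ⟨Xi F χ k z, mem_sphere_zero_iff_norm.2 (by
    rw [Xi_apply, norm_mul, norm_mulChar χ (isUnit_mk F z.2), norm_zpow,
      F.norm_dir (ne_of_cop F z.2), one_zpow, mul_one])⟩, Circle.ext (map_one (Xi F χ k))⟩,
    fun a b => Circle.ext (map_mul (Xi F χ k) _ _)⟩
  obtain ⟨Ψ, hΨ⟩ := exists_extend f ξ (fun z z' hz => by
    obtain ⟨γ, hγ⟩ := Ideal.span_singleton_eq_span_singleton.1 (congrArg Subtype.val hz)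
    refine Circle.ext ?_
    change Xi F χ k z = Xi F χ k z'
    rw [← hγ, map_mul, h, mul_one])
  refine ⟨fun I => if h : F.cop Q I then (Ψ ⟨I, h⟩ : ℂ) else 0, fun I J hI hJ => ?_,
    fun I hI => by simp only [dif_pos hI, Circle.norm_coe], fun z hz => ?_⟩
  · simp only [dif_pos hI, dif_pos hJ, dif_pos (F.cop_mul.2 ⟨hI, hJ⟩)]
    rw [← Circle.coe_mul, ← map_mul]
    rfl
  · simp only [dif_pos hz]
    exact congrArg Subtype.val (hΨ ⟨z, hz⟩)

/-- The data carried by the family of characters. -/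
structure Fam {Q : ℕ} (χ : MulChar (RQ F Q) ℂ) (k : ℤ) (Ψ : Ideal F.O → ℂ) : Prop where
  mul : ∀ I J, F.cop Q I → F.cop Q J → Ψ (I * J) = Ψ I * Ψ J
  norm : ∀ I, F.cop Q I → ‖Ψ I‖ = 1
  form : ∀ z, F.cop Q (Ideal.span {z}) → Ψ (Ideal.span {z}) = Xi F χ k z

variable {F}

theorem Fam.hk {Q : ℕ} {χ : MulChar (RQ F Q) ℂ} {k : ℤ} {Ψ : Ideal F.O → ℂ} (h : Fam F χ k Ψ) :
    F.Hk Q Ψ :=
  ⟨h.mul, h.norm, fun z => χ (Ideal.Quotient.mk _ z), k,
    fun _ _ hz => congrArg χ ((mk_eq F).2 hz), h.form⟩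

theorem Fam.twist {Q : ℕ} {χ : MulChar (RQ F Q) ℂ} {k : ℤ} {Ψ : Ideal F.O → ℂ} (h : Fam F χ k Ψ)
    (ψ : MulChar (ClassGroup F.O) ℂ) : Fam F χ k (fun I => Ψ I * ψ (cls F I)) := by
  refine ⟨fun I J hI hJ => ?_, fun I hI => ?_, fun z hz => ?_⟩
  · rw [h.mul I J hI hJ, cls_mul F hI.1 hJ.1, map_mul]; ring
  · rw [norm_mul, h.norm I hI, norm_mulChar ψ (Group.isUnit _), mul_one]
  · rw [(cls_eq_one_iff F hz.1).2 ⟨z, rfl⟩, map_one, mul_one, h.form z hz]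

theorem Fam.zero {Q : ℕ} (hQ : Q ≠ 0) {χ : MulChar (RQ F Q) ℂ} {k : ℤ} {Ψ : Ideal F.O → ℂ}
    (h : Fam F χ k Ψ) (hs : F.Striv Q Ψ) : k = 0 := by
  by_contra hk
  let z : ℕ → F.O := fun t => 1 + Q * ⟨0, t⟩
  have hz0 : ∀ t, z t ≠ 0 := fun t h0 => by
    have := congrArg QuadraticAlgebra.re h0
    simp [z] at this
  have hd : ∀ t, (Q : F.O) ∣ 1 - z t := fun t => ⟨-⟨0, t⟩, by simp only [z]; ring⟩
  have hd' : ∀ t, (Q : F.O) ∣ 1 - star (z t) := fun t => ⟨-star ⟨0, t⟩, by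
    simp only [z, star_add, star_one, star_mul, star_natCast]; ring⟩
  have h1 : F.cop Q (Ideal.span {1}) := by simpa using F.cop_top Q
  have h2 : ∀ t, F.dir (z t) ^ (2 * k).natAbs = 1 := by
    intro t
    have c1 := F.cop_congr (hz0 t) h1 (hd t)
    have c2 := F.cop_congr (star_ne_zero.2 (hz0 t)) h1 (hd' t)
    have h3 := hs _ c1
    have n1 := F.norm_dir (hz0 t)
    have n0 : F.dir (z t) ≠ 0 := by rw [← norm_ne_zero_iff, n1]; exact one_ne_zero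
    rw [F.cj_span, h.form _ c1, h.form _ c2, Xi_apply, Xi_apply, ← (mk_eq F).2 (hd t),
      ← (mk_eq F).2 (hd' t), map_one, map_one, one_mul, one_mul, F.dir_star,
      ← Complex.inv_eq_conj n1, inv_zpow] at h3
    have h4 : F.dir (z t) ^ (2 * k) = 1 := by
      rw [two_mul, zpow_add₀ n0]
      nth_rewrite 1 [← h3]
      exact inv_mul_cancel₀ (zpow_ne_zero _ n0)
    rcases Int.natAbs_eq (2 * k) with e | e
    · rw [← zpow_natCast, ← e, h4]
    · rw [e, zpow_neg, zpow_natCast] at h4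
      exact inv_eq_one.1 h4
  have h3 : Function.Injective fun t => F.dir (z t) := by
    intro s t hst
    have a0 := norm_pos_iff.2 (F.emb_ne (hz0 s))
    have b0 := norm_pos_iff.2 (F.emb_ne (hz0 t))
    have e : ∀ t, F.emb (z t) = 1 + (Q * t : ℝ) * F.om := fun t => by
      rw [F.emb_apply]; simp [z]
    simp only [IQ.dir] at hst
    generalize ‖F.emb (z s)‖ = a at a0 hst
    generalize ‖F.emb (z t)‖ = b at b0 hst
    rw [div_eq_div_iff (by exact_mod_cast a0.ne') (by exact_mod_cast b0.ne'), e, e] at hst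
    have e1 := congrArg Complex.re hst
    have e2 := congrArg Complex.im hst
    simp only [Complex.mul_re, Complex.mul_im, Complex.add_re, Complex.add_im, Complex.one_re,
      Complex.one_im, Complex.ofReal_re, Complex.ofReal_im, mul_zero, zero_mul, sub_zero, add_zero,
      zero_add] at e1 e2
    have i0 : F.om.im ≠ 0 := by rw [F.om_im]; have := F.sqrtD_pos; positivity
    have e3 : (Q * s : ℝ) * b = Q * t * a := mul_left_cancel₀ i0 (by linear_combination e2)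
    have e4 : b = a := by linear_combination e1 - F.om.re * e3
    rw [e4] at e3
    have e5 := mul_left_cancel₀ (Nat.cast_ne_zero.2 hQ) (mul_right_cancel₀ a0.ne' e3)
    exact_mod_cast e5
  refine Set.infinite_of_injective_forall_mem h3 (s := (Polynomial.nthRootsFinset
    (2 * k).natAbs (1 : ℂ) : Set ℂ)) (fun t => ?_) (Finset.finite_toSet _)
  exact mem_coe.2 ((Polynomial.mem_nthRootsFinset (by omega) _).2 (h2 t))

theorem Fam.gen {Q : ℕ} {χ : MulChar (RQ F Q) ℂ} {Ψ : Ideal F.O → ℂ}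
    (h : Fam F χ 0 Ψ) (hs : F.Striv Q Ψ) : F.Gen Q Ψ :=
  ⟨h.mul, fun I hI => by rw [← norm_ne_zero_iff, h.norm I hI]; exact one_ne_zero, hs,
    fun x y hx hy hxy => by
      rw [h.form x hx, h.form y hy, Xi_apply, Xi_apply, (mk_eq F).2 hxy, zpow_zero, zpow_zero]⟩

variable (F)

theorem exists_fam {Q : ℕ} (hQ : Q ≠ 0) : ∃ Ψ : MulChar (RQ F Q) ℂ → ℤ → Ideal F.O → ℂ,
    (∀ χ k, adm F χ k → Fam F χ k (Ψ χ k)) ∧ Ψ 1 0 = fun _ => 1 := by
  have key : ∀ (χ : MulChar (RQ F Q) ℂ) (k : ℤ), ∃ Ψ : Ideal F.O → ℂ,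
      (adm F χ k → Fam F χ k Ψ) ∧ (χ = 1 ∧ k = 0 → Ψ = fun _ => 1) := by
    intro χ k
    by_cases h : χ = 1 ∧ k = 0
    · obtain ⟨rfl, rfl⟩ := h
      refine ⟨fun _ => 1, fun _ => ⟨by simp, by simp, fun z hz => ?_⟩, fun _ => rfl⟩
      rw [Xi_apply, MulChar.one_apply (isUnit_mk F hz), zpow_zero, mul_one]
    · by_cases h' : adm F χ k
      · obtain ⟨Ψ, h1, h2, h3⟩ := exists_hk F hQ χ k h'
        exact ⟨Ψ, fun _ => ⟨h1, h2, h3⟩, fun e => absurd e h⟩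
      · exact ⟨fun _ => 1, fun e => absurd e h', fun _ => rfl⟩
  choose Ψ h1 h2 using key
  exact ⟨Ψ, h1, h2 1 0 ⟨rfl, rfl⟩⟩

theorem adm_one (Q : ℕ) : adm F (1 : MulChar (RQ F Q) ℂ) 0 := fun u => by
  rw [Xi_apply, MulChar.one_apply (u.isUnit.map _), zpow_zero, mul_one]

theorem hk_prod {Q : ℕ} {Ψ : Ideal F.O → ℂ} (h : F.Hk Q Ψ) (S : Finset ℕ) (I : ℕ → Ideal F.O)
    (hI : ∀ p ∈ S, F.cop Q (I p)) :
    F.cop Q (∏ p ∈ S, I p) ∧ Ψ (∏ p ∈ S, I p) = ∏ p ∈ S, Ψ (I p) := by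
  induction S using Finset.induction_on with
  | empty => simpa using ⟨F.cop_top Q, IQ.Zt.hk_top F h⟩
  | insert a s ha ih =>
    obtain ⟨h1, h2⟩ := ih fun p hp => hI p (mem_insert_of_mem hp)
    have h3 := hI a (mem_insert_self _ _)
    rw [prod_insert ha, prod_insert ha, h.mul _ _ h3 h1, h2]
    exact ⟨F.cop_mul.2 ⟨h3, h1⟩, rfl⟩

theorem hk_idl {Q : ℕ} {Ψ : Ideal F.O → ℂ} (h : F.Hk Q Ψ) {T T₁ : Finset ℕ}
    (hT : ∀ p ∈ T, F.cop Q (F.pp p)) (h1 : T₁ ⊆ T) {n : Ideal F.O} (hn : F.cop Q n) :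
    F.cop Q (n * F.idl T T₁) ∧ Ψ (n * F.idl T T₁) =
      Ψ n * ((∏ p ∈ T₁, Ψ (F.pp p)) * ∏ p ∈ T \ T₁, Ψ (F.cj (F.pp p))) := by
  obtain ⟨a1, a2⟩ := hk_prod F h T₁ F.pp fun p hp => hT p (h1 hp)
  obtain ⟨b1, b2⟩ := hk_prod F h (T \ T₁) (fun p => F.cj (F.pp p))
    fun p hp => F.cop_cj.2 (hT p (mem_sdiff.1 hp).1)
  have c := F.cop_mul.2 ⟨a1, b1⟩
  rw [IQ.idl, h.mul _ _ hn c, h.mul _ _ a1 b1, a2, b2]
  exact ⟨F.cop_mul.2 ⟨hn, c⟩, rfl⟩

theorem sum_idl {Q : ℕ} {Ψ : Ideal F.O → ℂ} (h : F.Hk Q Ψ) {T : Finset ℕ}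
    (hT : ∀ p ∈ T, F.cop Q (F.pp p)) {n : Ideal F.O} (hn : F.cop Q n) :
    ∑ T₁ ∈ T.powerset, Ψ (n * F.idl T T₁) =
      Ψ n * ∏ p ∈ T, (Ψ (F.pp p) + Ψ (F.cj (F.pp p))) := by
  rw [prod_add, mul_sum]
  exact sum_congr rfl fun T₁ h1 => (hk_idl F h hT (mem_powerset.1 h1) hn).2

theorem sum_idl_triv {Q : ℕ} {Ψ : Ideal F.O → ℂ} (h : F.Hk Q Ψ) (hs : F.Striv Q Ψ) {T : Finset ℕ}
    (hT : ∀ p ∈ T, F.cop Q (F.pp p)) {n : Ideal F.O} (hn : F.cop Q n) :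
    ∑ T₁ ∈ T.powerset, Ψ (n * F.idl T T₁) = 2 ^ T.card * Ψ (n * F.idl T T) := by
  rw [sum_idl F h hT hn, (hk_idl F h hT subset_rfl hn).2, sdiff_self, bot_eq_empty, prod_empty,
    prod_congr rfl (fun p hp => by rw [hs _ (hT p hp), ← two_mul]), prod_mul_distrib, prod_const]
  ring

noncomputable def gen (I : Ideal F.O) : F.O :=
  if h : ∃ z, Ideal.span {z} = I then h.choose else 0

theorem expand {Q : ℕ} (hQ : Q ≠ 0) [Fintype F.Oˣ] [Fintype (MulChar (RQ F Q) ℂ)]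
    [Fintype (MulChar (ClassGroup F.O) ℂ)] {Ψ : MulChar (RQ F Q) ℂ → ℤ → Ideal F.O → ℂ}
    (hΨ : ∀ χ k, adm F χ k → Fam F χ k (Ψ χ k)) {g : F.O} {g' : RQ F Q}
    (hg : Ideal.Quotient.mk _ g * g' = 1) {I : Ideal F.O} (hI : F.cop Q I) (k : ℤ) :
    ((Nat.card (RQ F Q)ˣ : ℂ) * Nat.card (ClassGroup F.O)ˣ) * ∑ u : F.Oˣ,
      (if Ideal.span {gen F I} = I ∧ (Q : F.O) ∣ gen F I * u - g then
        F.dir (gen F I * u) ^ k else 0) =
    F.ww * ∑ c : MulChar (RQ F Q) ℂ × MulChar (ClassGroup F.O) ℂ,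
      if adm F c.1 k then c.1 g' * (Ψ c.1 k I * c.2 (cls F I)) else 0 := by
  have := finite_quot F hQ
  rw [Fintype.sum_prod_type]
  simp only [sum_ite_irrel, ← mul_sum, sum_mulChar, sum_const_zero]
  by_cases h : ∃ z, Ideal.span {z} = I
  · have h1 : Ideal.span {gen F I} = I := by rw [gen, dif_pos h]; exact h.choose_spec
    generalize gen F I = x at h1
    subst h1
    have h2 : ∀ u : F.Oˣ, (Nat.card (RQ F Q)ˣ : ℂ) *
        (if (Q : F.O) ∣ x * u - g then F.dir (x * u) ^ k else 0) =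
        ∑ χ : MulChar (RQ F Q) ℂ, χ g' * Xi F χ k x * Xi F χ k u := by
      intro u
      have h3 : ∀ χ : MulChar (RQ F Q) ℂ, χ g' * Xi F χ k x * Xi F χ k u =
          χ (Ideal.Quotient.mk _ (x * u) * g') * F.dir (x * u) ^ k := fun χ => by
        rw [mul_assoc, ← map_mul, Xi_apply, map_mul χ _ g']; ring
      have h4 : Ideal.Quotient.mk _ (x * u) * g' = 1 ↔ (Q : F.O) ∣ x * u - g := by
        rw [← mk_eq, ← hg]
        exact (IsUnit.of_mul_eq_one_right _ hg).mul_left_inj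
      simp only [h3, ← sum_mul, sum_mulChar, h4]
      split_ifs <;> simp
    have h3 : ∀ χ : MulChar (RQ F Q) ℂ, ∑ u : F.Oˣ, Xi F χ k u =
        if adm F χ k then (F.ww : ℂ) else 0 := by
      intro χ
      split_ifs with ha
      · rw [sum_congr rfl fun u _ => ha u]
        simp [IQ.ww]
      · exact sum_hom_units_eq_zero ((Xi F χ k).comp (Units.coeHom _))
          (fun e => ha fun u => DFunLike.congr_fun e u)
    simp only [true_and, if_pos ((cls_eq_one_iff F hI.1).2 h)]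
    rw [mul_comm (Nat.card (RQ F Q)ˣ : ℂ), mul_assoc, mul_sum univ _ (Nat.card (RQ F Q)ˣ : ℂ)]
    simp only [h2]
    rw [sum_comm, mul_sum, mul_sum]
    refine sum_congr rfl fun χ _ => ?_
    rw [← mul_sum, h3]
    split_ifs with ha
    · rw [(hΨ χ k ha).form x hI]; ring
    · simp
  · have h1 : Ideal.span {gen F I} ≠ I := fun e => h ⟨_, e⟩
    have h2 : cls F I ≠ 1 := fun e => h ((cls_eq_one_iff F hI.1).1 e)
    simp [h1, h2]

theorem count {Q : ℕ} (hQ : Q ≠ 0) [Fintype (MulChar (RQ F Q) ℂ)]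
    [Fintype (MulChar (ClassGroup F.O) ℂ)] {Ψ : MulChar (RQ F Q) ℂ → ℤ → Ideal F.O → ℂ}
    (hΨ : ∀ χ k, adm F χ k → Fam F χ k (Ψ χ k)) (hone : Ψ 1 0 = fun _ => 1) {γ : ℝ} (hγ : 0 < γ)
    {J : ℕ} (hJ : 4 / γ ^ 2 + 1 ≤ J) {δ : ℝ} (hδ : 0 ≤ δ) {T : Finset ℕ}
    (hT : ∀ p ∈ T, F.cop Q (F.pp p))
    (hA : ∀ (c : MulChar (RQ F Q) ℂ × MulChar (ClassGroup F.O) ℂ) (k : ℤ), |k| < J →
      adm F c.1 k → ¬ F.Striv Q (fun I => Ψ c.1 k I * c.2 (cls F I)) →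
      ∏ p ∈ T, ‖Ψ c.1 k (F.pp p) * c.2 (cls F (F.pp p)) +
        Ψ c.1 k (F.cj (F.pp p)) * c.2 (cls F (F.cj (F.pp p)))‖ / 2 ≤ δ)
    {n : Ideal F.O} {g : F.O} {v : ℂ} (hn : F.cop Q n) (hg : F.cop Q (Ideal.span {g}))
    (hv : ‖v‖ = 1) (hG : ∀ Ψ, F.Gen Q Ψ → Ψ (n * F.idl T T) = Ψ (Ideal.span {g})) :
    (1 - 2 * J ^ 2 * (Fintype.card (MulChar (RQ F Q) ℂ × MulChar (ClassGroup F.O) ℂ) * δ)) *
      2 ^ T.card ≤ ((Nat.card (RQ F Q)ˣ : ℝ) * Nat.card (ClassGroup F.O)ˣ) * J ^ 2 *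
      (T.powerset.filter (fun T₁ => ∃ x : F.O,
          Ideal.span {x} = n * F.idl T T₁ ∧ (Q : F.O) ∣ x - g ∧ ‖F.dir x - v‖ < γ)).card := by
  have := finite_quot F hQ
  let _ : Fintype F.Oˣ := Fintype.ofFinite _
  obtain ⟨g', hg'⟩ := isUnit_iff_exists_inv.1 (isUnit_mk F hg)
  have hu' : IsUnit g' := IsUnit.of_mul_eq_one_right _ hg'
  set M : ℝ := (Nat.card (RQ F Q)ˣ : ℝ) * Nat.card (ClassGroup F.O)ˣ with hM
  have hM0 : 0 < M := mul_pos (Nat.cast_pos.2 Nat.card_pos) (Nat.cast_pos.2 Nat.card_pos)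
  have hw : (0 : ℝ) < F.ww := Nat.cast_pos.2 F.ww_pos
  set L : ℝ := (Fintype.card (MulChar (RQ F Q) ℂ × MulChar (ClassGroup F.O) ℂ) : ℝ) with hL
  let B := (univ : Finset (MulChar (RQ F Q) ℂ × MulChar (ClassGroup F.O) ℂ)).filter
    fun c => adm F c.1 0 ∧ F.Striv Q (fun I => Ψ c.1 0 I * c.2 (cls F I))
  have hB : (1 : ℝ) ≤ B.card := by
    have : (1, 1) ∈ B := mem_filter.2 ⟨mem_univ _, adm_one F Q, fun I _ => by
      have e : ∀ C : ClassGroup F.O, (1 : MulChar (ClassGroup F.O) ℂ) C = 1 :=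
        fun C => MulChar.one_apply (Group.isUnit C)
      simp only [hone, e]⟩
    exact_mod_cast card_pos.2 ⟨_, this⟩
  let x : Finset ℕ × F.Oˣ → F.O := fun i => gen F (n * F.idl T i.1) * i.2
  let s := (T.powerset ×ˢ (univ : Finset F.Oˣ)).filter fun i =>
    Ideal.span {gen F (n * F.idl T i.1)} = n * F.idl T i.1 ∧ (Q : F.O) ∣ x i - g
  have hc : ∀ T₁ ∈ T.powerset, F.cop Q (n * F.idl T T₁) := fun T₁ h1 =>
    (hk_idl F (hΨ 1 0 (adm_one F Q)).hk hT (mem_powerset.1 h1) hn).1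
  have hx : ∀ i ∈ s, Ideal.span {x i} = n * F.idl T i.1 := fun i hi => by
    rw [← (mem_filter.1 hi).2.1]
    exact Ideal.span_singleton_mul_right_unit i.2.isUnit _
  have key := fejer s (fun i => F.dir (x i)) (fun i hi => F.norm_dir (ne_of_cop F (Q := Q) (by
      rw [hx i hi]; exact hc _ (mem_product.1 (mem_filter.1 hi).1).1))) hγ hJ
    (N := F.ww * 2 ^ T.card * B.card / M) (e := F.ww * 2 ^ T.card * (L * δ) / M) (by positivity)
    (fun k hk => ?_) hv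
  · have h1 : ((s.filter fun i => ‖F.dir (x i) - v‖ < γ).card : ℝ) ≤
        (T.powerset.filter (fun T₁ => ∃ x : F.O, Ideal.span {x} = n * F.idl T T₁ ∧
          (Q : F.O) ∣ x - g ∧ ‖F.dir x - v‖ < γ)).card * F.ww := by
      rw [IQ.ww, Nat.card_eq_fintype_card, ← card_univ, ← Nat.cast_mul, ← card_product]
      refine Nat.cast_le.2 (card_le_card fun i hi => ?_)
      obtain ⟨h1, h2⟩ := mem_filter.1 hi
      exact mem_product.2 ⟨mem_filter.2 ⟨(mem_product.1 (mem_filter.1 h1).1).1, x i, hx i h1,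
        (mem_filter.1 h1).2.2, h2⟩, mem_univ _⟩
    have h2 := key.trans (mul_le_mul_of_nonneg_left h1 (by positivity))
    rw [← mul_div_assoc, ← sub_div, div_le_iff₀ hM0] at h2
    refine le_of_mul_le_mul_left ?_ hw
    have h3 : (0 : ℝ) < F.ww * 2 ^ T.card := by positivity
    nlinarith [mul_le_mul_of_nonneg_left hB h3.le]
  · have h1 : (M : ℂ) * ∑ i ∈ s, F.dir (x i) ^ k = F.ww *
        ∑ c : MulChar (RQ F Q) ℂ × MulChar (ClassGroup F.O) ℂ, if adm F c.1 k then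
          c.1 g' * ∑ T₁ ∈ T.powerset, Ψ c.1 k (n * F.idl T T₁) * c.2 (cls F (n * F.idl T T₁))
          else 0 := by
      rw [sum_filter, sum_product, mul_sum, hM]
      push_cast
      rw [sum_congr rfl fun T₁ h1 => expand F hQ hΨ hg' (hc T₁ h1) k, ← mul_sum, sum_comm]
      simp only [sum_ite_irrel, ← mul_sum, sum_const_zero]
    have h2 : (M : ℂ) * (if k = 0 then ((F.ww * 2 ^ T.card * B.card / M : ℝ) : ℂ) else 0) = F.ww *
        ∑ c : MulChar (RQ F Q) ℂ × MulChar (ClassGroup F.O) ℂ,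
          if k = 0 ∧ c ∈ B then (2 : ℂ) ^ T.card else 0 := by
      have : (M : ℂ) ≠ 0 := by exact_mod_cast hM0.ne'
      split_ifs with h0
      · simp only [h0, true_and, sum_ite_mem, univ_inter, sum_const, nsmul_eq_mul]
        push_cast
        field_simp
      · simp [h0]
    rw [le_div_iff₀ hM0]
    have h3 : ∀ z : ℂ, ‖z‖ * M = ‖(M : ℂ) * z‖ := fun z => by
      rw [norm_mul, Complex.norm_real, Real.norm_of_nonneg hM0.le, mul_comm]
    rw [h3, mul_sub, h1, h2, ← mul_sub, norm_mul, Complex.norm_natCast, mul_assoc,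
      ← sum_sub_distrib]
    refine mul_le_mul_of_nonneg_left ((norm_sum_le _ _).trans ((sum_le_card_nsmul _ _
      (2 ^ T.card * δ) fun c _ => ?_).trans (le_of_eq ?_))) hw.le
    swap
    · rw [card_univ, nsmul_eq_mul, hL]; ring
    by_cases ha : adm F c.1 k
    · have hf := (hΨ c.1 k ha).twist c.2
      by_cases hs : F.Striv Q (fun I => Ψ c.1 k I * c.2 (cls F I))
      · have hk0 := hf.zero hQ hs
        subst hk0
        have h4 := sum_idl_triv F hf.hk hs hT hn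
        have h5 := (hG _ (hf.gen hs)).trans (hf.form g hg)
        rw [if_pos ha, if_pos ⟨rfl, mem_filter.2 ⟨mem_univ _, ha, hs⟩⟩, h4, h5, Xi_apply, zpow_zero,
          mul_one, mul_left_comm, ← map_mul, mul_comm g', hg', map_one, mul_one, sub_self,
          _root_.norm_zero]
        positivity
      · have h4 := sum_idl F hf.hk hT hn
        have h5 := hA c k hk ha hs
        rw [if_pos ha, if_neg (fun h : k = 0 ∧ c ∈ B => hs (h.1 ▸ (mem_filter.1 h.2).2.2)), h4,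
          sub_zero, norm_mul,
          norm_mul, norm_mulChar c.1 hu', hf.norm n hn, one_mul, one_mul, norm_prod]
        rwa [prod_div_distrib, prod_const, div_le_iff₀' (by positivity)] at h5
    · rw [if_neg ha, if_neg (fun h : k = 0 ∧ c ∈ B => ha (h.1 ▸ (mem_filter.1 h.2).2.1)), sub_zero,
        _root_.norm_zero]
      positivity

theorem half_le {α β : ℂ} (ha : ‖α‖ = 1) (hb : ‖β‖ = 1) :
    ‖α + β‖ / 2 ≤ 1 ∧ (1 - (α * (starRingEnd ℂ) β).re) / 4 ≤ 1 - ‖α + β‖ / 2 := by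
  have h1 := norm_add_le α β
  have h2 : ‖α + β‖ ^ 2 = 2 + 2 * (α * (starRingEnd ℂ) β).re := by
    rw [← Complex.normSq_eq_norm_sq, Complex.normSq_add, Complex.normSq_eq_norm_sq,
      Complex.normSq_eq_norm_sq, ha, hb]
    ring
  constructor
  · linarith
  · nlinarith [sq_nonneg (‖α + β‖ - 2)]

end Fl

namespace IQ

variable (F : IQ)

theorem flip {Q : ℕ} (hQ : Q ≠ 0) {γ : ℝ} (hγ : 0 < γ) : ∃ c₀ : ℝ, 0 < c₀ ∧ ∀ ε : ℝ, 0 < ε →
    ∀ K : ℝ, ∀ᶠ y : ℕ in atTop, ∃ A ⊆ (F.PP Q y).powerset,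
      (1 - ε) * ∏ p ∈ F.PP Q y, (1 + (p : ℝ)⁻¹) ≤ ∑ T ∈ A, ∏ p ∈ T, (p : ℝ)⁻¹ ∧
      ∀ T ∈ A, K ≤ 2 ^ T.card ∧ ∀ (n : Ideal F.O) (g : F.O) (v : ℂ), F.cop Q n →
        F.cop Q (Ideal.span {g}) → ‖v‖ = 1 →
        (∀ Ψ, F.Gen Q Ψ → Ψ (n * F.idl T T) = Ψ (Ideal.span {g})) →
        c₀ * 2 ^ T.card ≤ (T.powerset.filter (fun T₁ => ∃ x : F.O,
          Ideal.span {x} = n * F.idl T T₁ ∧ (Q : F.O) ∣ x - g ∧ ‖F.dir x - v‖ < γ)).card := by
  have := Fl.finite_quot F hQ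
  let _ : Fintype (MulChar (Fl.RQ F Q) ℂ) := Fintype.ofFinite _
  let _ : Fintype (MulChar (ClassGroup F.O) ℂ) := Fintype.ofFinite _
  obtain ⟨Ψ, hΨ, hone⟩ := Fl.exists_fam F hQ
  obtain ⟨J, hJ⟩ := exists_nat_ge (4 / γ ^ 2 + 1)
  have hJ0 : (0 : ℝ) < J := lt_of_lt_of_le (by positivity) hJ
  set M : ℝ := (Nat.card (Fl.RQ F Q)ˣ : ℝ) * Nat.card (ClassGroup F.O)ˣ with hM
  have hM0 : 0 < M := mul_pos (Nat.cast_pos.2 Nat.card_pos) (Nat.cast_pos.2 Nat.card_pos)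
  set L : ℝ := (Fintype.card (MulChar (Fl.RQ F Q) ℂ × MulChar (ClassGroup F.O) ℂ) : ℝ) with hL
  have hL0 : 0 < L := Nat.cast_pos.2 Fintype.card_pos
  refine ⟨1 / (2 * M * J ^ 2), by positivity, fun ε hε K => ?_⟩
  have hpp : ∀ y, ∀ p ∈ F.PP Q y, p.Prime ∧ F.cop Q (F.pp p) := fun y p hp =>
    have h := F.mem_PP.1 hp
    ⟨h.2.1.1, (Zt.cop_pp F h.2.1.1).2 h.2.2⟩
  let a : (MulChar (Fl.RQ F Q) ℂ × MulChar (ClassGroup F.O) ℂ) × ℤ → ℕ → ℝ := fun c p =>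
    ‖Ψ c.1.1 c.2 (F.pp p) * c.1.2 (Fl.cls F (F.pp p)) +
      Ψ c.1.1 c.2 (F.cj (F.pp p)) * c.1.2 (Fl.cls F (F.cj (F.pp p)))‖ / 2
  let C := ((univ : Finset (MulChar (Fl.RQ F Q) ℂ × MulChar (ClassGroup F.O) ℂ)) ×ˢ
    Ioo (-J : ℤ) J).filter fun c => Fl.adm F c.1.1 c.2 ∧
      ¬ F.Striv Q (fun I => Ψ c.1.1 c.2 I * c.1.2 (Fl.cls F I))
  have hδ : 0 < min (1 / (4 * J ^ 2 * L)) (1 / (|K| + 1)) := lt_min (by positivity) (by positivity)
  have hm := Fl.markov (insert (fun _ => 1 / 2) (C.image a)) (F.PP Q)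
    (fun y p hp => (hpp y p hp).1.ne_zero) (fun b hb y p hp => ?_) (fun b hb => ?_) hδ hε
  · filter_upwards [hm] with y ⟨A, hA1, hA2, hA3⟩
    refine ⟨A, hA1, hA2, fun T hT => ⟨?_, fun n g v hn hg hv hG => ?_⟩⟩
    · have h1 := (hA3 T hT _ (mem_insert_self _ _)).trans (min_le_right _ _)
      rw [prod_const, one_div_pow, one_div_le_one_div (by positivity) (by positivity)] at h1
      linarith [le_abs_self K]
    · have h1 := Fl.count F hQ hΨ hone hγ hJ (δ := 1 / (4 * J ^ 2 * L)) (by positivity)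
        (fun p hp => (hpp y p (mem_powerset.1 (hA1 hT) hp)).2)
        (fun c k hk ha hs => (hA3 T hT (a (c, k)) (mem_insert_of_mem (mem_image_of_mem a
          (mem_filter.2 ⟨mem_product.2 ⟨mem_univ _, mem_Ioo.2 (abs_lt.1 hk)⟩, ha, hs⟩)))).trans
          (min_le_left _ _)) hn hg hv hG
      rw [← hM, ← hL, (by field_simp; norm_num : 1 - 2 * J ^ 2 * (L * (1 / (4 * J ^ 2 * L))) =
        (1 / 2 : ℝ))] at h1
      rw [div_mul_eq_mul_div, div_le_iff₀ (by positivity)]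
      linarith
  · rcases mem_insert.1 hb with rfl | hb
    · norm_num
    · obtain ⟨c, hc, rfl⟩ := mem_image.1 hb
      have hf := (hΨ _ _ (mem_filter.1 hc).2.1).twist c.1.2
      exact ⟨by positivity, (Fl.half_le (hf.norm _ (hpp y p hp).2)
        (hf.norm _ (F.cop_cj.2 (hpp y p hp).2))).1⟩
  · rcases mem_insert.1 hb with rfl | hb
    · refine ((F.sum_PP_atTop hQ).atTop_div_const two_pos).congr fun y => ?_
      rw [sum_div]
      exact sum_congr rfl fun p _ => by ring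
    · obtain ⟨c, hc, rfl⟩ := mem_image.1 hb
      have hf := (hΨ _ _ (mem_filter.1 hc).2.1).twist c.1.2
      refine tendsto_atTop_mono (fun y => ?_)
        ((F.diverge hQ hf.hk (mem_filter.1 hc).2.2).atTop_div_const four_pos)
      rw [sum_div]
      refine sum_le_sum fun p hp => ?_
      rw [div_right_comm]
      exact div_le_div_of_nonneg_right (Fl.half_le (hf.norm _ (hpp y p hp).2)
        (hf.norm _ (F.cop_cj.2 (hpp y p hp).2))).2 (Nat.cast_nonneg _)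

end IQ

end Pool.Agent.Lib.MP_ad7336_co
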