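import Pool.Agent.Lib.MP_ad7336_co.Setup

set_option autoImplicit false

namespace Pool.Agent.Lib.MP_ad7336_co

open QuadraticAlgebra Finset Filter Topology
open scoped Classical

namespace Fou

theorem ee_add (s t : ℝ) : ee (s + t) = ee s * ee t := by
  unfold ee
  rw [← Complex.exp_add]
  congr 1
  push_cast
  ring

theorem ee_int (k : ℤ) : ee k = 1 := by
  unfold ee
  rw [Complex.exp_eq_one_iff]
  exact ⟨k, by push_cast; ring⟩

theorem norm_ee (t : ℝ) : ‖ee t‖ = 1 := by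
  unfold ee
  have : (2 * Real.pi * t * Complex.I : ℂ) = ((2 * Real.pi * t : ℝ) : ℂ) * Complex.I := by
    push_cast; ring
  rw [this, Complex.norm_exp_ofReal_mul_I]

theorem conj_ee (t : ℝ) : (starRingEnd ℂ) (ee t) = ee (-t) := by
  unfold ee
  rw [← Complex.exp_conj]
  congr 1
  simp only [map_mul, Complex.conj_ofReal, Complex.conj_I, map_ofNat]
  push_cast
  ring

theorem norm_ee_sub_one (t : ℝ) : ‖ee t - 1‖ ≤ 2 * Real.pi * |t| := by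
  unfold ee
  have : (2 * Real.pi * t * Complex.I : ℂ) = Complex.I * ((2 * Real.pi * t : ℝ) : ℂ) := by
    push_cast; ring
  rw [this]
  refine Real.norm_exp_I_mul_ofReal_sub_one_le.trans (le_of_eq ?_)
  rw [Real.norm_eq_abs, abs_mul, abs_of_pos Real.two_pi_pos]

theorem ee_nat_mul (r : ℕ) (t : ℝ) : ee (r * t) = ee t ^ r := by
  unfold ee
  rw [← Complex.exp_nat_mul]
  congr 1
  push_cast
  ring

theorem orth1 {N : ℕ} (hN : N ≠ 0) {t : ℤ} (ht : |t| < N) :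
    ∑ r ∈ range N, ee ((r : ℝ) / N * t) = if t = 0 then (N : ℂ) else 0 := by
  have hN' : (N : ℝ) ≠ 0 := by exact_mod_cast hN
  have e : ∀ r : ℕ, ee ((r : ℝ) / N * t) = ee ((t : ℝ) / N) ^ r := fun r => by
    rw [← ee_nat_mul]; congr 1; ring
  simp only [e]
  split_ifs with h
  · subst h
    have : ee (((0 : ℤ) : ℝ) / N) = 1 := by rw [Int.cast_zero, zero_div]; simpa using ee_int 0
    simp only [this, one_pow, sum_const, card_range, nsmul_eq_mul, mul_one]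
  · have h1 : ee ((t : ℝ) / N) ≠ 1 := by
      intro h1
      unfold ee at h1
      rw [Complex.exp_eq_one_iff] at h1
      obtain ⟨n, hn⟩ := h1
      have h2 : ((t : ℝ) / N : ℝ) = n := by
        have h3 : (2 * Real.pi * Complex.I : ℂ) ≠ 0 := Complex.two_pi_I_ne_zero
        have h4 : (((t : ℝ) / N : ℝ) : ℂ) = n := by
          apply mul_right_cancel₀ h3
          rw [← hn]; ring
        exact_mod_cast h4
      have h5 : t = n * N := by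
        have : (t : ℝ) = n * N := by rw [← h2]; field_simp
        exact_mod_cast this
      have hn0 : n ≠ 0 := by rintro rfl; simp at h5; exact h h5
      rw [h5, abs_mul, Nat.abs_cast] at ht
      have : 1 ≤ |n| := Int.one_le_abs hn0
      nlinarith
    have h2 : ee ((t : ℝ) / N) ^ N = 1 := by
      rw [← ee_nat_mul, mul_div_cancel₀ _ hN', ee_int]
    rw [geom_sum_eq h1, h2, sub_self, zero_div]

theorem sum_av {α β V : Type} [AddCommGroup V] [Module ℝ V] (B : Finset α) (κ : α → β)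
    (f : α → ℝ) (G : α → V) (hG : ∀ x ∈ B, ∀ y ∈ B, κ x = κ y → G x = G y) :
    ∑ x ∈ B, av B κ f x • G x = ∑ x ∈ B, f x • G x := by
  have h1 : ∀ x ∈ B, av B κ f x • G x = ∑ y ∈ B, if κ y = κ x then
      (f y / (B.filter (fun z => κ z = κ y)).card) • G y else 0 := by
    intro x hx
    unfold av
    rw [Finset.sum_div, Finset.sum_smul, Finset.sum_filter]
    refine sum_congr rfl fun y hy => ?_
    split_ifs with h
    · rw [hG x hx y hy h.symm, h]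
    · rfl
  rw [sum_congr rfl h1, sum_comm]
  refine sum_congr rfl fun y hy => ?_
  have h2 : ∀ x ∈ B, (if κ y = κ x then (f y / (B.filter (fun z => κ z = κ y)).card) • G y else 0)
      = if κ x = κ y then (f y / (B.filter (fun z => κ z = κ y)).card) • G y else 0 := by
    intro x _
    by_cases h : κ x = κ y
    · rw [if_pos h, if_pos h.symm]
    · rw [if_neg h, if_neg (fun h' => h h'.symm)]
  rw [sum_congr rfl h2, ← Finset.sum_filter, sum_const, ← Nat.cast_smul_eq_nsmul ℝ, smul_smul]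
  have h3 : ((B.filter (fun z => κ z = κ y)).card : ℝ) ≠ 0 := by
    have : 0 < (B.filter (fun z => κ z = κ y)).card :=
      card_pos.2 ⟨y, mem_filter.2 ⟨hy, rfl⟩⟩
    exact_mod_cast this.ne'
  rw [mul_div_cancel₀ _ h3]

theorem av_congr {α β : Type} (B : Finset α) (κ : α → β) (f : α → ℝ) {x y : α} (h : κ x = κ y) :
    av B κ f x = av B κ f y := by
  unfold av
  rw [h]

theorem ind_nonneg {α : Type} (P : Finset α) (x : α) : 0 ≤ ind P x := by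
  unfold ind; split_ifs <;> norm_num

theorem ind_le {α : Type} (P : Finset α) (x : α) : ind P x ≤ 1 := by
  unfold ind; split_ifs <;> norm_num

theorem av_nonneg {α β : Type} (B : Finset α) (κ : α → β) (P : Finset α) (x : α) :
    0 ≤ av B κ (ind P) x :=
  div_nonneg (sum_nonneg fun _ _ => ind_nonneg _ _) (Nat.cast_nonneg _)

theorem av_le {α β : Type} (B : Finset α) (κ : α → β) (P : Finset α) (x : α) :
    av B κ (ind P) x ≤ 1 := by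
  unfold av
  refine div_le_one_of_le₀ ?_ (Nat.cast_nonneg _)
  refine (sum_le_card_nsmul _ _ 1 fun y _ => ind_le P y).trans ?_
  simp

theorem pyth {α β β' : Type} (B : Finset α) (κ : α → β) (κ' : α → β') (f : α → ℝ)
    (h : ∀ x y, κ' x = κ' y → κ x = κ y) :
    ∑ x ∈ B, (av B κ' f x - av B κ f x) ^ 2 =
      ∑ x ∈ B, av B κ' f x ^ 2 - ∑ x ∈ B, av B κ f x ^ 2 := by
  have h1 := sum_av B κ' f (av B κ f) fun x _ y _ e => av_congr B κ f (h x y e)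
  have h2 := sum_av B κ f (av B κ f) fun x _ y _ e => av_congr B κ f e
  simp only [smul_eq_mul] at h1 h2
  have h3 : ∀ x ∈ B, (av B κ' f x - av B κ f x) ^ 2 =
      av B κ' f x ^ 2 - 2 * (av B κ' f x * av B κ f x) + av B κ f x * av B κ f x := by
    intro x _; ring
  rw [sum_congr rfl h3, sum_add_distrib, sum_sub_distrib, ← mul_sum, h1, ← h2]
  simp only [sq]
  ring

variable (F : IQ)

/-- Frequencies. -/
noncomputable def th (N : ℕ) (r : ℕ × ℕ) : ℝ × ℝ := ((r.1 : ℝ) / N, (r.2 : ℝ) / N)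

noncomputable def hat (L : ℕ) (u : F.O → ℝ) (r : ℕ × ℕ) : ℂ :=
  ∑ x ∈ F.bx 0 L, u x • ee (F.lin (th (2 * L) r) x)

noncomputable def Bw (L : ℕ) (u v : F.O → ℝ) (w : F.O) : ℝ :=
  ∑ x ∈ F.bx 0 L, ∑ y ∈ F.bx 0 L, if x + w = y then u x * v y else 0

theorem lin_add (θ : ℝ × ℝ) (x y : F.O) : F.lin θ (x + y) = F.lin θ x + F.lin θ y := by
  unfold IQ.lin
  simp only [re_add, im_add]
  push_cast
  ring

theorem lin_sub (θ : ℝ × ℝ) (x y : F.O) : F.lin θ (x - y) = F.lin θ x - F.lin θ y := by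
  unfold IQ.lin
  simp only [re_sub, im_sub]
  push_cast
  ring

theorem orth2 {N : ℕ} (hN : N ≠ 0) {d : F.O} (h1 : |d.re| < N) (h2 : |d.im| < N) :
    ∑ r ∈ range N ×ˢ range N, ee (F.lin (th N r) d) = if d = 0 then (N : ℂ) ^ 2 else 0 := by
  have e : ∀ r : ℕ × ℕ, ee (F.lin (th N r) d) =
      ee ((r.1 : ℝ) / N * d.re) * ee ((r.2 : ℝ) / N * d.im) := fun r => by
    rw [← ee_add]; rfl
  simp only [e]
  rw [sum_product' (f := fun a b : ℕ => ee ((a : ℝ) / N * d.re) * ee ((b : ℝ) / N * d.im)),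
    ← sum_mul_sum, orth1 hN h1, orth1 hN h2]
  by_cases h : d = 0
  · subst h
    simp [sq]
  · rw [if_neg h]
    by_cases ha : d.re = 0
    · have hb : d.im ≠ 0 := fun hb => h (QuadraticAlgebra.ext ha hb)
      rw [if_neg hb, mul_zero]
    · rw [if_neg ha, zero_mul]

theorem corr {L : ℕ} (hL : L ≠ 0) (u v : F.O → ℝ) {w : F.O} (h1 : |w.re| ≤ L) (h2 : |w.im| ≤ L) :
    ∑ r ∈ range (2 * L) ×ˢ range (2 * L),
      hat F L u r * (starRingEnd ℂ) (hat F L v r) * ee (F.lin (th (2 * L) r) w) =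
      ((2 * L : ℕ) : ℂ) ^ 2 * (Bw F L u v w : ℝ) := by
  have e : ∀ r : ℕ × ℕ, hat F L u r * (starRingEnd ℂ) (hat F L v r) * ee (F.lin (th (2 * L) r) w)
      = ∑ x ∈ F.bx 0 L, ∑ y ∈ F.bx 0 L,
        ((u x * v y : ℝ) : ℂ) * ee (F.lin (th (2 * L) r) (x + w - y)) := by
    intro r
    unfold hat
    rw [map_sum, sum_mul_sum, sum_mul]
    refine sum_congr rfl fun x _ => ?_
    rw [sum_mul]
    refine sum_congr rfl fun y _ => ?_
    rw [lin_sub, lin_add, sub_eq_add_neg, ee_add, ee_add, Complex.real_smul, Complex.real_smul,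
      map_mul, conj_ee, Complex.conj_ofReal]
    push_cast
    ring
  simp only [e]
  unfold Bw
  rw [sum_comm, Complex.ofReal_sum, mul_sum]
  refine sum_congr rfl fun x hx => ?_
  rw [sum_comm, Complex.ofReal_sum, mul_sum]
  refine sum_congr rfl fun y hy => ?_
  rw [F.mem_bx] at hx hy
  rw [abs_le] at h1 h2
  rw [← mul_sum, orth2 F (mul_ne_zero two_ne_zero hL)]
  · by_cases h : x + w = y
    · rw [if_pos h, if_pos (sub_eq_zero.2 h)]; ring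
    · rw [if_neg h, if_neg (fun h' => h (sub_eq_zero.1 h'))]; simp
  · simp only [re_sub, re_add]
    rw [abs_lt]; push_cast; omega
  · simp only [im_sub, im_add]
    rw [abs_lt]; push_cast; omega

theorem parseval {L : ℕ} (hL : L ≠ 0) (u : F.O → ℝ) :
    ∑ r ∈ range (2 * L) ×ˢ range (2 * L), ‖hat F L u r‖ ^ 2 =
      (2 * L) ^ 2 * ∑ x ∈ F.bx 0 L, u x ^ 2 := by
  have h := corr F hL u u (w := 0) (by simp) (by simp)
  have e0 : ∀ r, ee (F.lin (th (2 * L) r) 0) = 1 := fun r => by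
    have : F.lin (th (2 * L) r) 0 = ((0 : ℤ) : ℝ) := by simp [IQ.lin]
    rw [this, ee_int]
  have e1 : Bw F L u u 0 = ∑ x ∈ F.bx 0 L, u x ^ 2 := by
    unfold Bw
    refine sum_congr rfl fun x hx => ?_
    simp only [add_zero]
    rw [sum_ite_eq, if_pos hx, sq]
  simp only [e0, mul_one, Complex.mul_conj, Complex.normSq_eq_norm_sq, e1] at h
  exact_mod_cast h

theorem Bw_le (L : ℕ) (u v : F.O → ℝ) (w : F.O) {t : ℝ} (ht : 0 < t) :
    |Bw F L u v w| ≤ (t * ∑ x ∈ F.bx 0 L, u x ^ 2 + (∑ x ∈ F.bx 0 L, v x ^ 2) / t) / 2 := by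
  unfold Bw
  have h1 : ∑ x ∈ F.bx 0 L, ∑ y ∈ F.bx 0 L, (if x + w = y then u x ^ 2 else 0) ≤
      ∑ x ∈ F.bx 0 L, u x ^ 2 := by
    refine sum_le_sum fun x _ => ?_
    rw [sum_ite_eq]
    split_ifs
    · exact le_rfl
    · exact sq_nonneg _
  have h2 : ∑ x ∈ F.bx 0 L, ∑ y ∈ F.bx 0 L, (if x + w = y then v y ^ 2 else 0) ≤
      ∑ x ∈ F.bx 0 L, v x ^ 2 := by
    rw [sum_comm]
    refine sum_le_sum fun y _ => ?_
    simp only [← eq_sub_iff_add_eq]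
    rw [sum_ite_eq']
    split_ifs
    · exact le_rfl
    · exact sq_nonneg _
  calc _ ≤ ∑ x ∈ F.bx 0 L, ∑ y ∈ F.bx 0 L, (t * (if x + w = y then u x ^ 2 else 0) +
        (if x + w = y then v y ^ 2 else 0) / t) / 2 := by
        refine (abs_sum_le_sum_abs _ _).trans (sum_le_sum fun x _ => ?_)
        refine (abs_sum_le_sum_abs _ _).trans (sum_le_sum fun y _ => ?_)
        split_ifs
        · rw [abs_mul, ← sq_abs (u x), ← sq_abs (v y), le_div_iff₀ two_pos]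
          have : t * |u x| ^ 2 + |v y| ^ 2 / t - |u x| * |v y| * 2 =
              (t * |u x| - |v y|) ^ 2 / t := by field_simp; ring
          have : 0 ≤ (t * |u x| - |v y|) ^ 2 / t := by positivity
          linarith
        · simp
    _ = (t * (∑ x ∈ F.bx 0 L, ∑ y ∈ F.bx 0 L, (if x + w = y then u x ^ 2 else 0)) +
        (∑ x ∈ F.bx 0 L, ∑ y ∈ F.bx 0 L, (if x + w = y then v y ^ 2 else 0)) / t) / 2 := by
        simp only [← sum_div, sum_add_distrib, ← mul_sum]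
    _ ≤ _ := by gcongr

theorem Bw_add_left (L : ℕ) (u u' v : F.O → ℝ) (w : F.O) :
    Bw F L (fun x => u x + u' x) v w = Bw F L u v w + Bw F L u' v w := by
  unfold Bw
  rw [← sum_add_distrib]
  refine sum_congr rfl fun x _ => ?_
  rw [← sum_add_distrib]
  refine sum_congr rfl fun y _ => ?_
  split_ifs <;> ring

theorem Bw_add_right (L : ℕ) (u v v' : F.O → ℝ) (w : F.O) :
    Bw F L u (fun x => v x + v' x) w = Bw F L u v w + Bw F L u v' w := by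
  unfold Bw
  rw [← sum_add_distrib]
  refine sum_congr rfl fun x _ => ?_
  rw [← sum_add_distrib]
  refine sum_congr rfl fun y _ => ?_
  split_ifs <;> ring

/-- The large sieve step. -/
theorem core {L Q' : ℕ} (hL : L ≠ 0) {B Φ m ε : ℝ} (hΦ0 : 0 ≤ Φ) (u v : F.O → ℝ)
    (hu : ∑ x ∈ F.bx 0 L, u x ^ 2 ≤ m) (hv : ∑ x ∈ F.bx 0 L, v x ^ 2 ≤ m)
    (hM : ∑ r ∈ (range (2 * L) ×ˢ range (2 * L)).filter (fun r => Maj Q' B L (th (2 * L) r)),
      ‖hat F L u r‖ * ‖hat F L v r‖ ≤ (2 * L) ^ 2 * (ε * m))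
    (Z Λ : Finset F.O) (hΛ : Λ.Nonempty) (w : F.O → F.O → F.O)
    (hw : ∀ z ∈ Z, ∀ μ ∈ Λ, |(w z μ).re| ≤ L ∧ |(w z μ).im| ≤ L)
    (hΦ : ∀ θ : ℝ × ℝ, ¬ Maj Q' B L θ →
      ∑ z ∈ Z, ‖∑ μ ∈ Λ, ee (F.lin θ (w z μ))‖ ^ 2 / Λ.card ^ 2 ≤ Φ) :
    ∑ z ∈ Z, ((∑ μ ∈ Λ, Bw F L u v (w z μ)) / Λ.card) ^ 2 ≤ m * (m * Φ + ε * m * Z.card) := by
  set R := range (2 * L) ×ˢ range (2 * L) with hR
  have hN : (0 : ℝ) < (2 * L) ^ 2 := by have := Nat.pos_of_ne_zero hL; positivity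
  have hc : (0 : ℝ) < Λ.card := by exact_mod_cast hΛ.card_pos
  set a : ℕ × ℕ → ℝ := fun r => ‖hat F L u r‖ * ‖hat F L v r‖ / (2 * L) ^ 2 with ha
  set σ : F.O → ℕ × ℕ → ℝ := fun z r =>
    ‖∑ μ ∈ Λ, ee (F.lin (th (2 * L) r) (w z μ))‖ / Λ.card with hσ
  have ha0 : ∀ r, 0 ≤ a r := fun r => by simp only [ha]; positivity
  have hσ0 : ∀ z r, 0 ≤ σ z r := fun z r => by simp only [hσ]; positivity
  have hσ1 : ∀ z r, σ z r ≤ 1 := fun z r => by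
    simp only [hσ]
    refine div_le_one_of_le₀ ((norm_sum_le _ _).trans ?_) hc.le
    simp [norm_ee]
  have hm : 0 ≤ m := (sum_nonneg fun _ _ => sq_nonneg _).trans hu
  have hA : ∑ r ∈ R, a r ≤ m := by
    simp only [ha]
    rw [← sum_div, div_le_iff₀ hN]
    have h1 := parseval F hL u
    have h2 := parseval F hL v
    have h3 : ∑ r ∈ R, ‖hat F L u r‖ * ‖hat F L v r‖ ≤
        ∑ r ∈ R, (‖hat F L u r‖ ^ 2 + ‖hat F L v r‖ ^ 2) / 2 :=
      sum_le_sum fun r _ => by nlinarith [sq_nonneg (‖hat F L u r‖ - ‖hat F L v r‖)]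
    rw [← sum_div, sum_add_distrib, h1, h2] at h3
    nlinarith
  have h1 : ∀ z ∈ Z, ((∑ μ ∈ Λ, Bw F L u v (w z μ)) / Λ.card) ^ 2 ≤
      m * ∑ r ∈ R, a r * σ z r ^ 2 := by
    intro z hz
    have e : (((2 * L) ^ 2 * ∑ μ ∈ Λ, Bw F L u v (w z μ) : ℝ) : ℂ) = ∑ r ∈ R,
        hat F L u r * (starRingEnd ℂ) (hat F L v r) *
          ∑ μ ∈ Λ, ee (F.lin (th (2 * L) r) (w z μ)) := by
      simp only [mul_sum]
      rw [sum_comm, Complex.ofReal_sum]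
      refine sum_congr rfl fun μ hμ => ?_
      rw [corr F hL u v (hw z hz μ hμ).1 (hw z hz μ hμ).2]
      push_cast
      ring
    have h2 : |(∑ μ ∈ Λ, Bw F L u v (w z μ)) / Λ.card| ≤ ∑ r ∈ R, a r * σ z r := by
      have h3 := congrArg (fun c : ℂ => ‖c‖) e
      rw [Complex.norm_real, Real.norm_eq_abs, abs_mul, abs_of_pos hN] at h3
      have h4 := h3.le.trans (norm_sum_le _ _)
      simp only [norm_mul, Complex.norm_conj] at h4
      have h5 : ∑ r ∈ R, a r * σ z r = (∑ r ∈ R, ‖hat F L u r‖ * ‖hat F L v r‖ *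
          ‖∑ μ ∈ Λ, ee (F.lin (th (2 * L) r) (w z μ))‖) / (2 * L) ^ 2 / Λ.card := by
        rw [sum_div, sum_div]
        refine sum_congr rfl fun r _ => ?_
        simp only [ha, hσ]
        ring
      rw [h5, abs_div, abs_of_pos hc]
      gcongr
      rw [le_div_iff₀ hN]
      linarith
    have h6 : (∑ r ∈ R, a r * σ z r) ^ 2 ≤ (∑ r ∈ R, a r) * ∑ r ∈ R, a r * σ z r ^ 2 :=
      sum_sq_le_sum_mul_sum_of_sq_le_mul R (fun r _ => ha0 r)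
        (fun r _ => mul_nonneg (ha0 r) (sq_nonneg _)) (fun r _ => le_of_eq (by ring))
    have h7 : 0 ≤ ∑ r ∈ R, a r * σ z r ^ 2 :=
      sum_nonneg fun r _ => mul_nonneg (ha0 r) (sq_nonneg _)
    calc _ = |(∑ μ ∈ Λ, Bw F L u v (w z μ)) / Λ.card| ^ 2 := (sq_abs _).symm
      _ ≤ (∑ r ∈ R, a r * σ z r) ^ 2 := by gcongr
      _ ≤ _ := h6.trans (by gcongr)
  refine (sum_le_sum h1).trans ?_
  rw [← mul_sum, sum_comm]
  refine mul_le_mul_of_nonneg_left ?_ hm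
  have h2 : ∀ r ∈ R, ∑ z ∈ Z, a r * σ z r ^ 2 ≤
      a r * Φ + (if Maj Q' B L (th (2 * L) r) then a r else 0) * Z.card := by
    intro r _
    rw [← mul_sum]
    split_ifs with h
    · have : ∑ z ∈ Z, σ z r ^ 2 ≤ Z.card := by
        refine (sum_le_card_nsmul _ _ 1 fun z _ => pow_le_one₀ (hσ0 z r) (hσ1 z r)).trans ?_
        simp
      have := mul_le_mul_of_nonneg_left this (ha0 r)
      have := mul_nonneg (ha0 r) hΦ0
      linarith
    · have := hΦ _ h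
      simp only [hσ, div_pow, zero_mul, add_zero]
      exact mul_le_mul_of_nonneg_left this (ha0 r)
  refine (sum_le_sum h2).trans ?_
  rw [sum_add_distrib, ← sum_mul, ← sum_mul, ← sum_filter]
  have h3 : ∑ r ∈ R.filter (fun r => Maj Q' B L (th (2 * L) r)), a r ≤ ε * m := by
    simp only [ha]
    rw [← sum_div, div_le_iff₀ hN]
    linarith
  gcongr

theorem card_maj1 {L Q' : ℕ} (hL : L ≠ 0) (hQ : Q' ≠ 0) {B : ℝ} (hB : 0 ≤ B) (hBL : B ≤ L) :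
    (((range (2 * L)).filter (fun r : ℕ =>
      ∃ k : ℤ, |Q' * ((r : ℝ) / (2 * L : ℕ)) - k| ≤ B / L)).card : ℝ) ≤ (Q' + 3) * (4 * B + 1) := by
  have hL' : (0 : ℝ) < L := by exact_mod_cast Nat.pos_of_ne_zero hL
  have hQ' : (1 : ℝ) ≤ Q' := by exact_mod_cast Nat.pos_of_ne_zero hQ
  have hB1 : B / L ≤ 1 := div_le_one_of_le₀ hBL hL'.le
  set S : ℤ → Finset ℕ := fun k => (range (2 * L)).filter (fun r : ℕ =>
      |Q' * ((r : ℝ) / (2 * L : ℕ)) - k| ≤ B / L) with hS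
  have h1 : (range (2 * L)).filter (fun r : ℕ =>
      ∃ k : ℤ, |Q' * ((r : ℝ) / (2 * L : ℕ)) - k| ≤ B / L) ⊆
      (Icc (-1 : ℤ) (Q' + 1)).biUnion S := by
    intro r hr
    obtain ⟨hr, k, hk⟩ := mem_filter.1 hr
    refine mem_biUnion.2 ⟨k, ?_, mem_filter.2 ⟨hr, hk⟩⟩
    have hr' : (r : ℝ) ≤ (2 * L : ℕ) := by exact_mod_cast (mem_range.1 hr).le
    have h2 : (r : ℝ) / (2 * L : ℕ) ≤ 1 := div_le_one_of_le₀ hr' (Nat.cast_nonneg _)
    have h3 : 0 ≤ (r : ℝ) / (2 * L : ℕ) := by positivity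
    rw [abs_le] at hk
    have h4 : (-1 : ℝ) ≤ k := by nlinarith
    have h5 : (k : ℝ) ≤ Q' + 1 := by nlinarith
    rw [mem_Icc]
    exact ⟨by exact_mod_cast h4, by exact_mod_cast h5⟩
  have h2 : ∀ k, ((S k).card : ℝ) ≤ 4 * B + 1 := by
    intro k
    set c : ℝ := k * (2 * L) / Q' with hc
    have h3 : (S k).card ≤ (Icc ⌈c - 2 * B⌉ ⌊c + 2 * B⌋).card := by
      refine card_le_card_of_injOn (fun r : ℕ => (r : ℤ)) (fun r hr => ?_)
        (fun a _ b _ h => Int.natCast_inj.1 h)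
      have hk := (mem_filter.1 (mem_coe.1 hr)).2
      have e : (r : ℝ) - c = (Q' * ((r : ℝ) / (2 * L : ℕ)) - k) * (2 * L / Q') := by
        rw [hc]; push_cast; field_simp
      have h4 : |(r : ℝ) - c| ≤ 2 * B := by
        rw [e, abs_mul, abs_of_pos (by positivity : (0 : ℝ) < 2 * L / Q')]
        calc _ ≤ B / L * (2 * L / 1) := by gcongr
          _ = 2 * B := by field_simp
      rw [abs_le] at h4
      simp only [coe_Icc, Set.mem_Icc, Int.ceil_le, Int.le_floor, Int.cast_natCast]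
      constructor <;> linarith
    rw [Int.card_Icc] at h3
    have h4 : (((⌊c + 2 * B⌋ + 1 - ⌈c - 2 * B⌉).toNat : ℕ) : ℝ) ≤ 4 * B + 1 := by
      rcases le_total 0 (⌊c + 2 * B⌋ + 1 - ⌈c - 2 * B⌉) with h | h
      · have : (((⌊c + 2 * B⌋ + 1 - ⌈c - 2 * B⌉).toNat : ℕ) : ℝ) =
            ((⌊c + 2 * B⌋ + 1 - ⌈c - 2 * B⌉ : ℤ) : ℝ) := by
          rw [← Int.cast_natCast, Int.toNat_of_nonneg h]
        rw [this]
        push_cast
        linarith [Int.floor_le (c + 2 * B), Int.le_ceil (c - 2 * B)]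
      · rw [Int.toNat_eq_zero.2 h]
        push_cast
        linarith
    exact le_trans (by exact_mod_cast h3) h4
  calc _ ≤ (((Icc (-1 : ℤ) (Q' + 1)).biUnion S).card : ℝ) := by exact_mod_cast card_le_card h1
    _ ≤ ∑ k ∈ Icc (-1 : ℤ) (Q' + 1), ((S k).card : ℝ) := by exact_mod_cast card_biUnion_le
    _ ≤ (Icc (-1 : ℤ) (Q' + 1)).card • (4 * B + 1) := sum_le_card_nsmul _ _ _ fun k _ => h2 k
    _ = _ := by
      rw [Int.card_Icc, nsmul_eq_mul]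
      have : ((Q' : ℤ) + 1 + 1 - -1).toNat = Q' + 3 := by omega
      rw [this]
      push_cast
      ring

theorem maj_sum {L Q' : ℕ} (hL : L ≠ 0) (hQ : Q' ≠ 0) {B : ℝ} (hB : 0 ≤ B) (hBL : B ≤ L)
    (v : F.O → ℝ) (hv : ∑ x ∈ F.bx 0 L, v x ^ 2 ≤ L ^ 2) :
    ∑ r ∈ (range (2 * L) ×ˢ range (2 * L)).filter (fun r => Maj Q' B L (th (2 * L) r)),
      ‖hat F L v r‖ ≤ (Q' + 3) * (4 * B + 1) * (2 * L) * L := by
  set M := (range (2 * L) ×ˢ range (2 * L)).filter (fun r => Maj Q' B L (th (2 * L) r)) with hM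
  set M1 := (range (2 * L)).filter (fun r : ℕ =>
      ∃ k : ℤ, |Q' * ((r : ℝ) / (2 * L : ℕ)) - k| ≤ B / L) with hM1
  have h1 : M ⊆ M1 ×ˢ M1 := by
    intro r hr
    obtain ⟨hr, k₁, k₂, h₁, h₂⟩ := mem_filter.1 hr
    rw [mem_product] at hr ⊢
    exact ⟨mem_filter.2 ⟨hr.1, k₁, h₁⟩, mem_filter.2 ⟨hr.2, k₂, h₂⟩⟩
  have h2 : (M.card : ℝ) ≤ ((Q' + 3) * (4 * B + 1)) ^ 2 := by
    have h3 := card_le_card h1
    rw [card_product] at h3
    have h4 := card_maj1 hL hQ hB hBL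
    calc (M.card : ℝ) ≤ (M1.card : ℝ) * M1.card := by exact_mod_cast h3
      _ ≤ _ := by rw [sq]; gcongr
  have h3 : ∑ r ∈ M, ‖hat F L v r‖ ^ 2 ≤ (2 * L) ^ 2 * L ^ 2 := by
    refine (sum_le_sum_of_subset_of_nonneg (filter_subset _ _) fun _ _ _ => sq_nonneg _).trans ?_
    rw [parseval F hL]
    gcongr
  refine (abs_le_of_sq_le_sq' ?_ (by positivity)).2
  calc _ ≤ M.card * ∑ r ∈ M, ‖hat F L v r‖ ^ 2 := sq_sum_le_card_mul_sum_sq
    _ ≤ ((Q' + 3) * (4 * B + 1)) ^ 2 * ((2 * L) ^ 2 * L ^ 2) := by gcongr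
    _ = _ := by ring

noncomputable def cell (Q s L : ℕ) (x : F.O) : Finset F.O :=
  (F.bx 0 L).filter (fun z => F.cl Q s z = F.cl Q s x)

theorem line_iff {Q m T : ℕ} (hQ : Q ≠ 0) (hm : m ≠ 0) {r b : ℤ} (hr : 0 ≤ r ∧ r < Q)
    (hb : 0 ≤ b ∧ b < T) (t : ℤ) :
    ((0 ≤ t ∧ t < (Q * m * T : ℕ)) ∧ t % Q = r ∧ t / (Q * m : ℕ) = b) ↔
      ∃ j : ℤ, (0 ≤ j ∧ j < m) ∧ t = b * (Q * m : ℕ) + r + Q * j := by
  have hQ' : (0 : ℤ) < Q := by exact_mod_cast Nat.pos_of_ne_zero hQ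
  have hm' : (0 : ℤ) < m := by exact_mod_cast Nat.pos_of_ne_zero hm
  have hs : (0 : ℤ) < Q * m := by positivity
  push_cast
  constructor
  · rintro ⟨-, h1, h2⟩
    have h3 := Int.emod_nonneg t hs.ne'
    have h4 := Int.emod_lt_of_pos t hs
    have h5 := Int.emod_add_mul_ediv t (Q * m)
    have h6 : t % (Q * m) % Q = r := by rw [Int.emod_emod_of_dvd _ (dvd_mul_right _ _), h1]
    have h7 := Int.emod_add_mul_ediv (t % (Q * m)) Q
    refine ⟨t % (Q * m) / Q, ⟨Int.ediv_nonneg h3 hQ'.le, ?_⟩, ?_⟩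
    · rw [Int.ediv_lt_iff_lt_mul hQ']; linarith
    · rw [h6] at h7; rw [h2] at h5; linarith
  · rintro ⟨j, ⟨h1, h2⟩, rfl⟩
    have h3 : (Q : ℤ) * j ≤ Q * (m - 1) := by gcongr; omega
    have h4 : 0 ≤ (Q : ℤ) * j := by positivity
    have h5 : b * (Q * m) ≤ (T - 1) * (Q * m) := by gcongr; omega
    have h6 : 0 ≤ b * (Q * m) := mul_nonneg hb.1 hs.le
    refine ⟨⟨by linarith, by nlinarith⟩, ?_, ?_⟩
    · have : b * (Q * m) + r + Q * j = r + Q * (b * m + j) := by ring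
      rw [this, Int.add_mul_emod_self_left, Int.emod_eq_of_lt hr.1 hr.2]
    · have : b * (Q * m) + r + Q * j = (r + Q * j) + (Q * m) * b := by ring
      rw [this, Int.add_mul_ediv_left _ _ hs.ne', Int.ediv_eq_zero_of_lt (by linarith)
        (by linarith), zero_add]

/-- Parametrisation of a cell. -/
def pt (Q s : ℕ) (ρ : F.O) (β : ℤ × ℤ) (j : ℤ × ℤ) : F.O :=
  ⟨β.1 * s + ρ.re + Q * j.1, β.2 * s + ρ.im + Q * j.2⟩

theorem pt_inj {Q : ℕ} (hQ : Q ≠ 0) (s : ℕ) (ρ : F.O) (β : ℤ × ℤ) :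
    Function.Injective (pt F Q s ρ β) := by
  intro i j h
  have hQ' : (Q : ℤ) ≠ 0 := by exact_mod_cast hQ
  have h1 := congrArg QuadraticAlgebra.re h
  have h2 := congrArg QuadraticAlgebra.im h
  simp only [pt, add_right_inj] at h1 h2
  exact Prod.ext (mul_left_cancel₀ hQ' h1) (mul_left_cancel₀ hQ' h2)

theorem idx_iff {Q m T : ℕ} (hQ : Q ≠ 0) (hm : m ≠ 0) {ρ : F.O} (hρ : ρ ∈ F.bx 0 Q) {β : ℤ × ℤ}
    (hβ : β ∈ Ico (0 : ℤ) T ×ˢ Ico (0 : ℤ) T) (z : F.O) :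
    (z ∈ F.bx 0 (Q * m * T : ℕ) ∧ F.cl Q (Q * m) z = (ρ.re, ρ.im, β.1, β.2)) ↔
      ∃ j ∈ Ico (0 : ℤ) m ×ˢ Ico (0 : ℤ) m, pt F Q (Q * m) ρ β j = z := by
  rw [F.mem_bx] at hρ ⊢
  simp only [mem_product, mem_Ico] at hβ ⊢
  have h1 := line_iff hQ hm hρ.1 hβ.1 z.re
  have h2 := line_iff hQ hm hρ.2 hβ.2 z.im
  simp only [IQ.cl, Prod.mk.injEq]
  constructor
  · rintro ⟨⟨a1, a2⟩, b1, b2, c1, c2⟩
    obtain ⟨i, hi, ei⟩ := h1.1 ⟨a1, b1, c1⟩
    obtain ⟨j, hj, ej⟩ := h2.1 ⟨a2, b2, c2⟩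
    exact ⟨(i, j), ⟨hi, hj⟩, QuadraticAlgebra.ext ei.symm ej.symm⟩
  · rintro ⟨j, ⟨hi, hj⟩, rfl⟩
    obtain ⟨a1, b1, c1⟩ := h1.2 ⟨j.1, hi, rfl⟩
    obtain ⟨a2, b2, c2⟩ := h2.2 ⟨j.2, hj, rfl⟩
    exact ⟨⟨a1, a2⟩, b1, b2, c1, c2⟩

theorem cl_rep {Q m T : ℕ} (hQ : Q ≠ 0) (hm : m ≠ 0) {ρ : F.O} (hρ : ρ ∈ F.bx 0 Q) {β : ℤ × ℤ}
    (hβ : β ∈ Ico (0 : ℤ) T ×ˢ Ico (0 : ℤ) T) :
    F.cl Q (Q * m) (F.rep (Q * m) ρ β) = (ρ.re, ρ.im, β.1, β.2) := by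
  refine ((idx_iff F hQ hm hρ hβ _).2 ⟨(0, 0), ?_, ?_⟩).2
  · simp [Nat.pos_of_ne_zero hm]
  · simp [pt, IQ.rep]

theorem idx_of {Q m T : ℕ} (hQ : Q ≠ 0) (hm : m ≠ 0) {x : F.O} (hx : x ∈ F.bx 0 (Q * m * T : ℕ)) :
    (⟨x.re % Q, x.im % Q⟩ : F.O) ∈ F.bx 0 Q ∧
      (x.re / (Q * m : ℕ), x.im / (Q * m : ℕ)) ∈ Ico (0 : ℤ) T ×ˢ Ico (0 : ℤ) T := by
  have hQ' : (0 : ℤ) < Q := by exact_mod_cast Nat.pos_of_ne_zero hQ
  have hs : (0 : ℤ) < (Q * m : ℕ) := by exact_mod_cast Nat.pos_of_ne_zero (mul_ne_zero hQ hm)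
  rw [F.mem_bx] at hx ⊢
  simp only [mem_product, mem_Ico]
  refine ⟨⟨⟨Int.emod_nonneg _ hQ'.ne', Int.emod_lt_of_pos _ hQ'⟩, Int.emod_nonneg _ hQ'.ne',
    Int.emod_lt_of_pos _ hQ'⟩, ⟨Int.ediv_nonneg hx.1.1 hs.le, ?_⟩, Int.ediv_nonneg hx.2.1 hs.le, ?_⟩
  · rw [Int.ediv_lt_iff_lt_mul hs]
    have := hx.1.2
    push_cast at this ⊢
    linarith
  · rw [Int.ediv_lt_iff_lt_mul hs]
    have := hx.2.2
    push_cast at this ⊢
    linarith

theorem card_idx {Q m T : ℕ} (hQ : Q ≠ 0) (hm : m ≠ 0) {ρ : F.O} (hρ : ρ ∈ F.bx 0 Q) {β : ℤ × ℤ}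
    (hβ : β ∈ Ico (0 : ℤ) T ×ˢ Ico (0 : ℤ) T) :
    ((F.bx 0 (Q * m * T : ℕ)).filter
      (fun z => F.cl Q (Q * m) z = (ρ.re, ρ.im, β.1, β.2))).card = m ^ 2 := by
  have : (F.bx 0 (Q * m * T : ℕ)).filter (fun z => F.cl Q (Q * m) z = (ρ.re, ρ.im, β.1, β.2)) =
      (Ico (0 : ℤ) m ×ˢ Ico (0 : ℤ) m).image (pt F Q (Q * m) ρ β) := by
    ext z
    rw [mem_filter, mem_image, idx_iff F hQ hm hρ hβ]
  rw [this, card_image_of_injective _ (pt_inj F hQ _ _ _)]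
  simp [sq]

theorem card_cell {Q m T : ℕ} (hQ : Q ≠ 0) (hm : m ≠ 0) {x : F.O}
    (hx : x ∈ F.bx 0 (Q * m * T : ℕ)) : (cell F Q (Q * m) (Q * m * T) x).card = m ^ 2 :=
  card_idx F hQ hm (idx_of F hQ hm hx).1 (idx_of F hQ hm hx).2

theorem cl_refine {Q Q' s' t : ℕ} (hQ : Q ∣ Q') (x y : F.O)
    (h : F.cl Q' s' x = F.cl Q' s' y) : F.cl Q (s' * t) x = F.cl Q (s' * t) y := by
  have hQ' : (Q : ℤ) ∣ Q' := by exact_mod_cast hQ
  simp only [IQ.cl, Prod.mk.injEq] at h ⊢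
  obtain ⟨h1, h2, h3, h4⟩ := h
  push_cast
  have hs : (0 : ℤ) ≤ s' := Nat.cast_nonneg _
  refine ⟨?_, ?_, ?_, ?_⟩
  · rw [← Int.emod_emod_of_dvd x.re hQ', h1, Int.emod_emod_of_dvd _ hQ']
  · rw [← Int.emod_emod_of_dvd x.im hQ', h2, Int.emod_emod_of_dvd _ hQ']
  · rw [← Int.ediv_ediv_of_nonneg hs, h3, Int.ediv_ediv_of_nonneg hs]
  · rw [← Int.ediv_ediv_of_nonneg hs, h4, Int.ediv_ediv_of_nonneg hs]

theorem shape {Q T Q' T' L : ℕ} (hL : L ≠ 0) (hQ : Q ∣ Q') (hT : T ∣ T') (hd : Q' * T' ∣ L) :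
    ∃ m c t : ℕ, Q ≠ 0 ∧ m ≠ 0 ∧ Q' ≠ 0 ∧ c ≠ 0 ∧ T ≠ 0 ∧ T' ≠ 0 ∧ L = Q * m * T ∧
      L = Q' * c * T' ∧ L / T = Q * m ∧ L / T' = Q' * c ∧ Q * m = Q' * c * t := by
  obtain ⟨q, rfl⟩ := hQ
  obtain ⟨t, rfl⟩ := hT
  obtain ⟨c, rfl⟩ := hd
  simp only [ne_eq, mul_eq_zero, not_or] at hL
  obtain ⟨⟨⟨h1, h2⟩, h3, h4⟩, h5⟩ := hL
  refine ⟨q * c * t, c, t, h1, by positivity, by positivity, h5, h3, by positivity, by ring,
    by ring, ?_, ?_, by ring⟩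
  · exact Nat.div_eq_of_eq_mul_left (Nat.pos_of_ne_zero h3) (by ring)
  · exact Nat.div_eq_of_eq_mul_left (by positivity) (by ring)

theorem near1 {Q' c : ℕ} (hQ : Q' ≠ 0) (hc : c ≠ 0) (t : ℤ) :
    ∃ j : ℤ, |(j : ℝ)| ≤ (Q' * c : ℕ) ∧ t = t / (Q' * c : ℕ) * (Q' * c : ℕ) + t % Q' + Q' * j := by
  have hQ' : (0 : ℤ) < Q' := by exact_mod_cast Nat.pos_of_ne_zero hQ
  have hs : (0 : ℤ) < (Q' * c : ℕ) := by exact_mod_cast Nat.pos_of_ne_zero (mul_ne_zero hQ hc)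
  have h3 := Int.emod_nonneg t hs.ne'
  have h4 := Int.emod_lt_of_pos t hs
  have h5 := Int.emod_add_mul_ediv t (Q' * c : ℕ)
  have h6 : t % (Q' * c : ℕ) % Q' = t % Q' :=
    Int.emod_emod_of_dvd _ (by push_cast; exact dvd_mul_right _ _)
  have h7 := Int.emod_add_mul_ediv (t % (Q' * c : ℕ)) Q'
  refine ⟨t % (Q' * c : ℕ) / Q', ?_, by rw [h6] at h7; linarith⟩
  have h8 : 0 ≤ t % (Q' * c : ℕ) / Q' := Int.ediv_nonneg h3 hQ'.le
  have h9 : t % (Q' * c : ℕ) / Q' ≤ (Q' * c : ℕ) := (Int.ediv_le_self _ h3).trans h4.le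
  rw [abs_of_nonneg (by exact_mod_cast h8)]
  exact_mod_cast h9

theorem hat_major {Q' c T' L : ℕ} (hQ : Q' ≠ 0) (hc : c ≠ 0) (hT : T' ≠ 0) (hL : L = Q' * c * T')
    {B : ℝ} (P : Finset F.O) (χ : F.O → ℝ) (hχ0 : ∀ x, 0 ≤ χ x)
    (hχ : ∀ x ∈ F.bx 0 L, ∀ y ∈ F.bx 0 L, F.cl Q' (Q' * c) x = F.cl Q' (Q' * c) y → χ x = χ y)
    {r : ℕ × ℕ}
    (hr : Maj Q' B L (th (2 * L) r)) :
    ‖hat F L (fun x => χ x * (ind P x - av (F.bx 0 L) (F.cl Q' (Q' * c)) (ind P) x)) r‖ ≤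
      4 * Real.pi * B / T' * ∑ x ∈ F.bx 0 L, χ x := by
  obtain ⟨k₁, k₂, h₁, h₂⟩ := hr
  set θ := th (2 * L) r with hθ
  set x0 : F.O → F.O := fun x => ⟨x.re / (Q' * c : ℕ) * (Q' * c : ℕ) + x.re % Q',
    x.im / (Q' * c : ℕ) * (Q' * c : ℕ) + x.im % Q'⟩ with hx0
  have hs : (0 : ℝ) < (Q' * c : ℕ) := by exact_mod_cast Nat.pos_of_ne_zero (mul_ne_zero hQ hc)
  have hT' : (0 : ℝ) < T' := by exact_mod_cast Nat.pos_of_ne_zero hT
  have hnear : ∀ x, ‖ee (F.lin θ x) - ee (F.lin θ (x0 x))‖ ≤ 4 * Real.pi * B / T' := by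
    intro x
    obtain ⟨i, hi, ei⟩ := near1 hQ hc x.re
    obtain ⟨j, hj, ej⟩ := near1 hQ hc x.im
    have e : F.lin θ x = F.lin θ (x0 x) + (((Q' * θ.1 - k₁) * i + (Q' * θ.2 - k₂) * j) +
        ((k₁ * i + k₂ * j : ℤ) : ℝ)) := by
      have e1 : (x.re : ℝ) = ((x0 x).re : ℝ) + Q' * i := by exact_mod_cast ei
      have e2 : (x.im : ℝ) = ((x0 x).im : ℝ) + Q' * j := by exact_mod_cast ej
      unfold IQ.lin
      rw [e1, e2]
      push_cast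
      ring
    rw [e, ee_add, ee_add, ee_int, mul_one, ← mul_sub_one, norm_mul, norm_ee, one_mul]
    refine (norm_ee_sub_one _).trans ?_
    have h0 : 0 ≤ B / L := (abs_nonneg _).trans h₁
    have h3 : |(Q' * θ.1 - k₁) * i + (Q' * θ.2 - k₂) * j| ≤
        B / L * (Q' * c : ℕ) + B / L * (Q' * c : ℕ) := by
      refine (abs_add_le _ _).trans ?_
      rw [abs_mul, abs_mul]
      gcongr
    have h4 : B / L * (Q' * c : ℕ) = B / T' := by
      have : (L : ℝ) = (Q' * c : ℕ) * T' := by rw [hL]; push_cast; ring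
      rw [this]
      field_simp
    rw [h4] at h3
    calc _ ≤ 2 * Real.pi * (B / T' + B / T') := by gcongr
      _ = _ := by ring
  have h0 := sum_av (F.bx 0 L) (F.cl Q' (Q' * c)) (ind P)
    (fun x => χ x • ee (F.lin θ (x0 x))) (fun x hx y hy h => by
      have h' := h
      simp only [IQ.cl, Prod.mk.injEq] at h'
      simp only [hx0, hχ x hx y hy h, h'.1, h'.2.1, h'.2.2.1, h'.2.2.2])
  have e : hat F L (fun x => χ x * (ind P x - av (F.bx 0 L) (F.cl Q' (Q' * c)) (ind P) x)) r =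
      ∑ x ∈ F.bx 0 L, (χ x * (ind P x - av (F.bx 0 L) (F.cl Q' (Q' * c)) (ind P) x)) •
        (ee (F.lin θ x) - ee (F.lin θ (x0 x))) := by
    unfold hat
    simp only [smul_sub, sum_sub_distrib]
    have : ∑ x ∈ F.bx 0 L, (χ x * (ind P x - av (F.bx 0 L) (F.cl Q' (Q' * c)) (ind P) x)) •
        ee (F.lin θ (x0 x)) = 0 := by
      rw [← sub_eq_zero.2 h0.symm, ← sum_sub_distrib]
      refine sum_congr rfl fun x _ => ?_
      rw [← sub_smul, smul_smul, mul_comm]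
    rw [this, sub_zero]
  rw [e, mul_sum]
  refine (norm_sum_le _ _).trans (sum_le_sum fun x _ => ?_)
  rw [norm_smul, Real.norm_eq_abs, abs_mul, abs_of_nonneg (hχ0 x), mul_comm]
  have h5 : |ind P x - av (F.bx 0 L) (F.cl Q' (Q' * c)) (ind P) x| ≤ 1 := by
    rw [abs_le]
    have := ind_nonneg P x
    have := ind_le P x
    have := av_nonneg (F.bx 0 L) (F.cl Q' (Q' * c)) P x
    have := av_le (F.bx 0 L) (F.cl Q' (Q' * c)) P x
    constructor <;> linarith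
  exact mul_le_mul (hnear x) (mul_le_of_le_one_right (hχ0 x) h5)
    (mul_nonneg (hχ0 x) (abs_nonneg _)) ((norm_nonneg _).trans (hnear x))

theorem shift1 {Q m : ℕ} (hQ : Q ≠ 0) {γ : ℝ} (hs : 2 * (Q : ℝ) ≤ γ * (Q * m : ℕ))
    {r r' b b' w : ℤ} (hr : 0 ≤ r ∧ r < Q) (hr' : 0 ≤ r' ∧ r' < Q) (hd : (Q : ℤ) ∣ w - (r' - r))
    (hw : |(w : ℝ) - (b' - b) * (Q * m : ℕ)| ≤ (1 - γ) * (Q * m : ℕ)) :
    ∃ (k : ℤ) (J : Finset ℤ), w = (b' - b) * (Q * m : ℕ) + (r' - r) + Q * k ∧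
      γ * m / 2 ≤ J.card ∧ ∀ j ∈ J, (0 ≤ j ∧ j < m) ∧ 0 ≤ j + k ∧ j + k < m := by
  obtain ⟨l, hl⟩ := hd
  have hQ' : (0 : ℝ) < Q := by exact_mod_cast Nat.pos_of_ne_zero hQ
  set k := l - (b' - b) * m with hk
  have e : w = (b' - b) * (Q * m : ℕ) + (r' - r) + Q * k := by
    rw [hk]; push_cast; linarith
  refine ⟨k, Ico (max 0 (-k)) (min m (m - k)), e, ?_, fun j hj => ?_⟩
  · have h1 : (m : ℤ) - |k| ≤ ((Ico (max 0 (-k)) (min (m : ℤ) (m - k))).card : ℕ) := by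
      rw [Int.card_Ico]
      rcases abs_cases k with h | h <;> omega
    have h2 : (m : ℝ) - |(k : ℝ)| ≤ ((Ico (max 0 (-k)) (min (m : ℤ) (m - k))).card : ℕ) := by
      exact_mod_cast h1
    have e' : (w : ℝ) - (b' - b) * (Q * m : ℕ) = (r' - r) + Q * k := by
      rw [e]; push_cast; ring
    rw [e'] at hw
    have h3 : |(r' : ℝ) - r| ≤ Q := by
      have : |r' - r| ≤ Q := by rw [abs_le]; omega
      exact_mod_cast this
    have h4 : Q * |(k : ℝ)| ≤ (1 - γ) * (Q * m : ℕ) + Q := by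
      have : (Q : ℝ) * k = ((r' - r) + Q * k) - (r' - r) := by ring
      rw [← abs_of_pos hQ', ← abs_mul, this, abs_of_pos hQ']
      exact (abs_sub _ _).trans (add_le_add hw h3)
    push_cast at h4 hs
    have h5 : |(k : ℝ)| ≤ (1 - γ) * m + 1 := by
      refine le_of_mul_le_mul_left ?_ hQ'
      linarith
    have h6 : 2 ≤ γ * m := by
      refine le_of_mul_le_mul_left ?_ hQ'
      linarith
    linarith
  · rw [mem_Ico] at hj
    omega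

theorem Bw_ge (L : ℕ) {u v : F.O → ℝ} (hu : ∀ x, 0 ≤ u x) (hv : ∀ x, 0 ≤ v x) (w : F.O)
    {S : Finset F.O} {d : ℝ}
    (hS : ∀ x ∈ S, x ∈ F.bx 0 L ∧ x + w ∈ F.bx 0 L ∧ d ≤ u x * v (x + w)) :
    S.card * d ≤ Bw F L u v w := by
  unfold Bw
  simp only [sum_ite_eq]
  rw [← nsmul_eq_mul]
  refine (card_nsmul_le_sum S (fun x => if x + w ∈ F.bx 0 L then u x * v (x + w) else 0) d
    fun x hx => ?_).trans (sum_le_sum_of_subset_of_nonneg (fun x hx => (hS x hx).1) fun x _ _ => ?_)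
  · rw [if_pos (hS x hx).2.1]
    exact (hS x hx).2.2
  · split_ifs
    · exact mul_nonneg (hu _) (hv _)
    · exact le_rfl

theorem sum_ind {α : Type} {B C : Finset α} (h : C ⊆ B) (g : α → ℝ) :
    ∑ x ∈ B, ind C x * g x = ∑ x ∈ C, g x := by
  rw [← sum_subset h fun x _ hx => by simp [ind, hx]]
  exact sum_congr rfl fun x hx => by simp [ind, hx]

theorem sum_ind_sq {α : Type} {B C : Finset α} (h : C ⊆ B) (g : α → ℝ) :
    ∑ x ∈ B, (ind C x * g x) ^ 2 = ∑ x ∈ C, g x ^ 2 := by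
  rw [← sum_ind h]
  refine sum_congr rfl fun x _ => ?_
  unfold ind
  split_ifs <;> simp

theorem sum_ind_sq_le {α : Type} {B C : Finset α} (h : C ⊆ B) {g : α → ℝ} (hg : ∀ x, |g x| ≤ 1) :
    ∑ x ∈ B, (ind C x * g x) ^ 2 ≤ C.card := by
  rw [sum_ind_sq h]
  refine (sum_le_card_nsmul _ _ 1 fun x _ => ?_).trans (by simp)
  rw [← sq_abs]
  exact pow_le_one₀ (abs_nonneg _) (hg x)

theorem good_congr {Q T Q' T' L : ℕ} {η ε₁ : ℝ} {P : Finset F.O} {x y : F.O}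
    (h : F.cl Q (L / T) x = F.cl Q (L / T) y) (hx : F.good Q T Q' T' L η ε₁ P x) :
    F.good Q T Q' T' L η ε₁ P y := by
  unfold IQ.good at hx ⊢
  rw [← h]
  exact ⟨hx.1.trans_eq (av_congr _ _ _ h), hx.2⟩

theorem abs_av (B : Finset F.O) {β : Type} (κ : F.O → β) (P : Finset F.O) (x : F.O) :
    |av B κ (ind P) x| ≤ 1 := by
  rw [abs_of_nonneg (av_nonneg _ _ _ _)]
  exact av_le _ _ _ _

theorem abs_ind (P : Finset F.O) (x : F.O) : |ind P x| ≤ 1 := by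
  rw [abs_of_nonneg (ind_nonneg _ _)]
  exact ind_le _ _

theorem abs_ind_sub (B : Finset F.O) {β : Type} (κ : F.O → β) (P : Finset F.O) (x : F.O) :
    |ind P x - av B κ (ind P) x| ≤ 1 := by
  rw [abs_le]
  have := ind_nonneg P x
  have := ind_le P x
  have := av_nonneg B κ P x
  have := av_le B κ P x
  constructor <;> linarith

theorem w_le {s T : ℕ} {γ : ℝ} (hγ : 0 < γ) {b b' w : ℤ} (hb : 0 ≤ b ∧ b < T)
    (hb' : 0 ≤ b' ∧ b' < T) (hw : |(w : ℝ) - (b' - b) * s| ≤ (1 - γ) * s) :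
    |w| ≤ (s * T : ℕ) := by
  have h1 : |(b' : ℝ) - b| ≤ T - 1 := by
    have : |b' - b| ≤ T - 1 := by rw [abs_le]; omega
    exact_mod_cast this
  have h2 : (0 : ℝ) ≤ s := Nat.cast_nonneg _
  have h3 : |(w : ℝ)| ≤ (1 - γ) * s + (T - 1) * s := by
    have : (w : ℝ) = (w - (b' - b) * s) + (b' - b) * s := by ring
    rw [this]
    refine (abs_add_le _ _).trans (add_le_add hw ?_)
    rw [abs_mul, abs_of_nonneg h2]
    gcongr
  have h4 : |(w : ℝ)| ≤ s * T := by nlinarith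
  exact_mod_cast h4

/-- The cell with class `ρ` and box `β`. -/
noncomputable def cix (Q s L : ℕ) (ρ : F.O) (β : ℤ × ℤ) : Finset F.O :=
  (F.bx 0 L).filter (fun z => F.cl Q s z = (ρ.re, ρ.im, β.1, β.2))

theorem main_term {Q m T : ℕ} (hQ : Q ≠ 0) (hm : m ≠ 0) {γ η : ℝ} (hγ : 0 < γ) (hη : 0 < η)
    (hs : 2 * (Q : ℝ) ≤ γ * (Q * m : ℕ)) {ρ ρ' : F.O} (hρ : ρ ∈ F.bx 0 Q) (hρ' : ρ' ∈ F.bx 0 Q)
    {β β' : ℤ × ℤ} (hβ : β ∈ Ico (0 : ℤ) T ×ˢ Ico (0 : ℤ) T)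
    (hβ' : β' ∈ Ico (0 : ℤ) T ×ˢ Ico (0 : ℤ) T) {w : F.O} (hd : (Q : F.O) ∣ w - (ρ' - ρ))
    (h1 : |(w.re : ℝ) - (β'.1 - β.1) * (Q * m : ℕ)| ≤ (1 - γ) * (Q * m : ℕ))
    (h2 : |(w.im : ℝ) - (β'.2 - β.2) * (Q * m : ℕ)| ≤ (1 - γ) * (Q * m : ℕ))
    {f : F.O → ℝ} (hf0 : ∀ x, 0 ≤ f x) (hf : ∀ x ∈ cix F Q (Q * m) (Q * m * T) ρ β, η ≤ f x)
    (hf' : ∀ x ∈ cix F Q (Q * m) (Q * m * T) ρ' β', η ≤ f x) :
    η ^ 2 * γ ^ 2 / 4 * m ^ 2 ≤ Bw F (Q * m * T)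
      (fun x => ind (cix F Q (Q * m) (Q * m * T) ρ β) x * f x)
      (fun x => ind (cix F Q (Q * m) (Q * m * T) ρ' β') x * f x) w := by
  rw [F.natCast_dvd_iff] at hd
  simp only [re_sub, im_sub] at hd
  obtain ⟨k, I, ek, hI, hI'⟩ := shift1 hQ hs (F.mem_bx.1 hρ).1 (F.mem_bx.1 hρ').1 hd.1 h1
  obtain ⟨l, J, el, hJ, hJ'⟩ := shift1 hQ hs (F.mem_bx.1 hρ).2 (F.mem_bx.1 hρ').2 hd.2 h2
  refine le_trans ?_ (Bw_ge F _ (fun x => mul_nonneg (ind_nonneg _ _) (hf0 x))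
    (fun x => mul_nonneg (ind_nonneg _ _) (hf0 x)) w
    (S := (I ×ˢ J).image (pt F Q (Q * m) ρ β)) (d := η * η) fun x hx => ?_)
  · rw [card_image_of_injective _ (pt_inj F hQ _ _ _), card_product]
    push_cast
    calc _ = (γ * m / 2) * (γ * m / 2) * (η * η) := by ring
      _ ≤ _ := by gcongr
  · obtain ⟨j, hj, rfl⟩ := mem_image.1 hx
    rw [mem_product] at hj
    have a1 : pt F Q (Q * m) ρ β j ∈ cix F Q (Q * m) (Q * m * T) ρ β :=
      mem_filter.2 ((idx_iff F hQ hm hρ hβ _).2 ⟨j, by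
        simp only [mem_product, mem_Ico]; exact ⟨(hI' _ hj.1).1, (hJ' _ hj.2).1⟩, rfl⟩)
    have a2 : pt F Q (Q * m) ρ β j + w ∈ cix F Q (Q * m) (Q * m * T) ρ' β' := by
      refine mem_filter.2 ((idx_iff F hQ hm hρ' hβ' _).2 ⟨(j.1 + k, j.2 + l), by
        simp only [mem_product, mem_Ico]; exact ⟨(hI' _ hj.1).2, (hJ' _ hj.2).2⟩, ?_⟩)
      apply QuadraticAlgebra.ext
      · simp only [pt, re_add, ek]; ring
      · simp only [pt, im_add, el]; ring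
    refine ⟨(mem_filter.1 a1).1, (mem_filter.1 a2).1, ?_⟩
    simp only [ind, if_pos a1, if_pos a2, one_mul]
    exact mul_le_mul (hf _ a1) (hf' _ a2) hη.le (hf0 _)

end Fou

namespace IQ

variable (F : IQ)

theorem En_nonneg (Q T L : ℕ) (P : Finset F.O) : 0 ≤ F.En Q T L P :=
  sum_nonneg (fun _ _ => sq_nonneg _)

theorem En_le (Q T L : ℕ) (P : Finset F.O) : F.En Q T L P ≤ L ^ 2 := by
  unfold En
  refine (sum_le_card_nsmul _ _ 1 fun x _ =>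
    pow_le_one₀ (Fou.av_nonneg _ _ _ _) (Fou.av_le _ _ _ _)).trans ?_
  rw [F.card_bx]
  simp

theorem good_mass {Q T Q' T' L : ℕ} (hL : L ≠ 0) (hQ : Q ∣ Q') (hT : T ∣ T') (hd : Q' * T' ∣ L)
    {η ε₁ : ℝ} (hη : 0 < η) (hε : 0 < ε₁) {P : Finset F.O} (hP : P ⊆ F.bx 0 L) :
    P.card - η * L ^ 2 - (F.En Q' T' L P - F.En Q T L P) / ε₁ ≤
      (∑ ρ ∈ F.bx 0 Q, ((F.gb Q T Q' T' L η ε₁ P ρ).card : ℝ)) * (((L / T : ℕ) : ℝ) / Q) ^ 2 := by
  obtain ⟨m, c, t, hQ0, hm, hQ', hc, hT0, hT0', e1, e2, e3, e4, e5⟩ := Fou.shape hL hQ hT hd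
  have hm' : (0 : ℝ) < m := by exact_mod_cast Nat.pos_of_ne_zero hm
  have em : ((L / T : ℕ) : ℝ) / Q = m := by
    have : (Q : ℝ) ≠ 0 := by exact_mod_cast hQ0
    rw [e3]; push_cast; field_simp
  set g : F.O → ℝ := fun z => (F.avP Q' T' L P z - F.avP Q T L P z) ^ 2 with hg
  have hcc : ∀ x ∈ F.bx 0 L, (Fou.cell F Q (L / T) L x).card = m ^ 2 := by
    intro x hx
    rw [e3]
    rw [e1] at hx ⊢
    exact Fou.card_cell F hQ0 hm hx
  have h1 : (P.card : ℝ) = ∑ x ∈ F.bx 0 L, F.avP Q T L P x := by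
    have h := Fou.sum_av (F.bx 0 L) (F.cl Q (L / T)) (ind P) (fun _ => (1 : ℝ))
      (fun _ _ _ _ _ => rfl)
    simp only [smul_eq_mul] at h
    rw [Fou.sum_ind hP] at h
    simpa [avP] using h.symm
  have h2 : ∀ x ∈ F.bx 0 L, F.avP Q T L P x ≤ η +
      (if F.good Q T Q' T' L η ε₁ P x then 1 else 0) +
      (∑ z ∈ Fou.cell F Q (L / T) L x, g z) / (ε₁ * m ^ 2) := by
    intro x _
    have a1 : F.avP Q T L P x ≤ 1 := Fou.av_le _ _ _ _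
    have a2 : 0 ≤ (∑ z ∈ Fou.cell F Q (L / T) L x, g z) / (ε₁ * m ^ 2) :=
      div_nonneg (sum_nonneg fun _ _ => sq_nonneg _) (by positivity)
    split_ifs with h
    · linarith
    · unfold good at h
      rw [not_and_or, not_le, not_le, em] at h
      rcases h with h | h
      · linarith
      · have : 1 ≤ (∑ z ∈ Fou.cell F Q (L / T) L x, g z) / (ε₁ * m ^ 2) :=
          (one_le_div (by positivity)).2 h.le
        linarith
  have h3 : ∑ x ∈ F.bx 0 L, ∑ z ∈ Fou.cell F Q (L / T) L x, g z =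
      m ^ 2 * ∑ z ∈ F.bx 0 L, g z := by
    rw [sum_comm' (t' := F.bx 0 L) (s' := fun z => Fou.cell F Q (L / T) L z), mul_sum]
    · refine sum_congr rfl fun z hz => ?_
      rw [sum_const, hcc z hz, nsmul_eq_mul]
      push_cast
      ring
    · intro x z
      simp only [Fou.cell, mem_filter]
      exact ⟨fun h => ⟨⟨h.1, h.2.2.symm⟩, h.2.1⟩, fun h => ⟨h.1.1, h.2, h.1.2.symm⟩⟩
  have h4 : ∑ z ∈ F.bx 0 L, g z = F.En Q' T' L P - F.En Q T L P := by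
    refine Fou.pyth (F.bx 0 L) (F.cl Q (L / T)) (F.cl Q' (L / T')) (ind P) fun x y h => ?_
    rw [e3, e5]
    rw [e4] at h
    exact Fou.cl_refine F hQ x y h
  have h5 : ((F.bx 0 L).filter (fun x => F.good Q T Q' T' L η ε₁ P x)).card ≤
      ∑ ρ ∈ F.bx 0 Q, (F.gb Q T Q' T' L η ε₁ P ρ).card * m ^ 2 := by
    have a : (F.bx 0 L).filter (fun x => F.good Q T Q' T' L η ε₁ P x) ⊆
        (F.bx 0 Q).biUnion fun ρ => (F.gb Q T Q' T' L η ε₁ P ρ).biUnion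
          fun β => Fou.cix F Q (L / T) L ρ β := by
      intro x hx
      obtain ⟨hx, hgx⟩ := mem_filter.1 hx
      have hx' : x ∈ F.bx 0 (Q * m * T : ℕ) := e1 ▸ hx
      obtain ⟨a1, a2⟩ := Fou.idx_of F hQ0 hm hx'
      have a3 := Fou.cl_rep F hQ0 hm a1 a2
      rw [← e3] at a2 a3
      exact mem_biUnion.2 ⟨_, a1, mem_biUnion.2 ⟨_, mem_filter.2
        ⟨a2, Fou.good_congr F a3.symm hgx⟩, mem_filter.2 ⟨hx, rfl⟩⟩⟩
    refine (card_le_card a).trans (card_biUnion_le.trans (sum_le_sum fun ρ hρ => ?_))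
    refine card_biUnion_le.trans ?_
    rw [← smul_eq_mul]
    refine sum_le_card_nsmul _ _ _ fun β hβ => le_of_eq ?_
    unfold Fou.cix
    rw [e3]
    have := Fou.card_idx F hQ0 hm hρ (mem_filter.1 hβ).1
    rwa [← e1] at this
  have h6 := sum_le_sum h2
  rw [← h1, sum_add_distrib, sum_add_distrib, ← sum_div, h3, h4, sum_const, F.card_bx,
    sum_boole] at h6
  have h7 : (m : ℝ) ^ 2 * (F.En Q' T' L P - F.En Q T L P) / (ε₁ * m ^ 2) =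
      (F.En Q' T' L P - F.En Q T L P) / ε₁ := by field_simp
  have h8 : (((F.bx 0 L).filter (fun x => F.good Q T Q' T' L η ε₁ P x)).card : ℝ) ≤
      (∑ ρ ∈ F.bx 0 Q, ((F.gb Q T Q' T' L η ε₁ P ρ).card : ℝ)) * m ^ 2 := by
    rw [sum_mul]
    exact_mod_cast h5
  rw [em]
  simp only [sub_zero, Int.toNat_natCast, nsmul_eq_mul, Nat.cast_pow] at h6
  linarith

theorem fail {Q T Q' T' L : ℕ} (hL : L ≠ 0) (hQ : Q ∣ Q') (hT : T ∣ T') (hd : Q' * T' ∣ L)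
    {η γ B Φ : ℝ} (hη : 0 < η) (hγ : 0 < γ) (hγ1 : γ ≤ 1) (hB : 0 ≤ B) (hBL : B ≤ L)
    (hs : 2 * (Q : ℝ) ≤ γ * (L / T : ℕ))
    (hT' : 16 * Real.pi * B * (Q' + 3) * (4 * B + 1) ≤ (η ^ 2 * γ ^ 2 / 8) ^ 2 * T')
    {P : Finset F.O} (hP : P ⊆ F.bx 0 L) {ρ ρ' : F.O} (hρ : ρ ∈ F.bx 0 Q) (hρ' : ρ' ∈ F.bx 0 Q)
    {β β' : ℤ × ℤ} (hβ : β ∈ F.gb Q T Q' T' L η ((η ^ 2 * γ ^ 2 / 16) ^ 2) P ρ)
    (hβ' : β' ∈ F.gb Q T Q' T' L η ((η ^ 2 * γ ^ 2 / 16) ^ 2) P ρ')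
    (Z Λ : Finset F.O) (hΛ : Λ.Nonempty) (w : F.O → F.O → F.O)
    (hw : ∀ z ∈ Z, ∀ μ ∈ Λ, (Q : F.O) ∣ w z μ - (ρ' - ρ) ∧
      |((w z μ).re : ℝ) - (β'.1 - β.1) * (L / T : ℕ)| ≤ (1 - γ) * (L / T : ℕ) ∧
      |((w z μ).im : ℝ) - (β'.2 - β.2) * (L / T : ℕ)| ≤ (1 - γ) * (L / T : ℕ) ∧
      ∀ x ∈ P, x + w z μ ∉ P)
    (hΦ : ∀ θ : ℝ × ℝ, ¬ Maj Q' B L θ →
      ∑ z ∈ Z, ‖∑ μ ∈ Λ, ee (F.lin θ (w z μ))‖ ^ 2 / Λ.card ^ 2 ≤ Φ) (hΦ0 : 0 ≤ Φ) :
    (Z.card : ℝ) ≤ 8 * Φ / (η ^ 2 * γ ^ 2 / 8) ^ 2 := by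
  obtain ⟨m, c, t, hQ0, hm, hQ', hc, hT0, hT0', e1, e2, e3, e4, e5⟩ := Fou.shape hL hQ hT hd
  have hm' : (0 : ℝ) < m := by exact_mod_cast Nat.pos_of_ne_zero hm
  have hL' : (0 : ℝ) < L := by exact_mod_cast Nat.pos_of_ne_zero hL
  have hT1 : (0 : ℝ) < T' := by exact_mod_cast Nat.pos_of_ne_zero hT0'
  have em : ((L / T : ℕ) : ℝ) / Q = m := by
    have : (Q : ℝ) ≠ 0 := by exact_mod_cast hQ0
    rw [e3]; push_cast; field_simp
  have hmL : (m : ℝ) ^ 2 ≤ L ^ 2 := by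
    have : m ≤ L := Nat.le_of_dvd (Nat.pos_of_ne_zero hL) ⟨Q * T, by rw [e1]; ring⟩
    gcongr
  set b : ℝ := η ^ 2 * γ ^ 2 / 8 with hb
  have hb0 : 0 < b := by positivity
  set f := F.avP Q T L P with hf
  set f' := F.avP Q' T' L P with hf'
  have cellf : ∀ {ρ : F.O} {β : ℤ × ℤ}, ρ ∈ F.bx 0 Q →
      β ∈ F.gb Q T Q' T' L η ((η ^ 2 * γ ^ 2 / 16) ^ 2) P ρ →
      ((Fou.cix F Q (L / T) L ρ β).card : ℝ) = m ^ 2 ∧
      (∀ x ∈ Fou.cix F Q (L / T) L ρ β, η ≤ f x) ∧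
      ∑ x ∈ F.bx 0 L, (ind (Fou.cix F Q (L / T) L ρ β) x * (f' x - f x)) ^ 2 ≤
        (b / 2) ^ 2 * m ^ 2 ∧
      (∀ g : F.O → ℝ, (∀ x, |g x| ≤ 1) →
        ∑ x ∈ F.bx 0 L, (ind (Fou.cix F Q (L / T) L ρ β) x * g x) ^ 2 ≤ m ^ 2) ∧
      ∀ r, Maj Q' B L (Fou.th (2 * L) r) →
        ‖Fou.hat F L (fun x => ind (Fou.cix F Q (L / T) L ρ β) x * (ind P x - f' x)) r‖ ≤
          4 * Real.pi * B / T' * m ^ 2 := by
    intro ρ β hρ hβ
    obtain ⟨hβ, hg1, hg2⟩ := mem_filter.1 hβ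
    have a1 := Fou.cl_rep F hQ0 hm hρ hβ
    have a2 := Fou.card_idx F hQ0 hm hρ hβ
    rw [← e1] at a2
    rw [← e3] at a1 a2
    have a3 : ((Fou.cix F Q (L / T) L ρ β).card : ℝ) = m ^ 2 := by exact_mod_cast a2
    have a4 : Fou.cix F Q (L / T) L ρ β ⊆ F.bx 0 L := filter_subset _ _
    refine ⟨a3, fun x hx => hg1.trans_eq (Fou.av_congr _ _ _ ?_), ?_, fun g hg => ?_,
      fun r hr => ?_⟩
    · rw [a1, (mem_filter.1 hx).2]
    · rw [Fou.sum_ind_sq a4]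
      rw [a1, em] at hg2
      refine hg2.trans (le_of_eq ?_)
      rw [hb]; ring
    · exact (Fou.sum_ind_sq_le a4 hg).trans a3.le
    · have a5 := Fou.hat_major F hQ' hc hT0' e2 P (ind (Fou.cix F Q (L / T) L ρ β))
        (Fou.ind_nonneg _) (fun x hx y hy h => by
          have h' := Fou.cl_refine F (t := t) hQ x y h
          rw [← e5, ← e3] at h'
          simp only [ind, Fou.cix, mem_filter, hx, hy, h']) hr
      have a6 := Fou.sum_ind a4 (fun _ => 1)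
      simp only [mul_one, sum_const, nsmul_eq_mul, a3] at a6
      rw [a6, ← e4] at a5
      exact a5
  obtain ⟨-, c1, d1, n1, m1⟩ := cellf hρ hβ
  obtain ⟨-, c2, d2, n2, m2⟩ := cellf hρ' hβ'
  set C₁ := Fou.cix F Q (L / T) L ρ β with hC₁
  set C₂ := Fou.cix F Q (L / T) L ρ' β' with hC₂
  have hβ1 := (mem_filter.1 hβ).1
  have hβ2 := (mem_filter.1 hβ').1
  have af : ∀ x, |f x| ≤ 1 := Fou.abs_av F _ _ P
  have af' : ∀ x, |f' x| ≤ 1 := Fou.abs_av F _ _ P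
  have ah : ∀ x, |ind P x - f' x| ≤ 1 := Fou.abs_ind_sub F _ _ P
  have key : ∀ z ∈ Z, ∀ μ ∈ Λ,
      Fou.Bw F L (fun x => ind C₁ x * (ind P x - f' x)) (fun x => ind C₂ x * f' x) (w z μ) +
      Fou.Bw F L (fun x => ind C₁ x * ind P x) (fun x => ind C₂ x * (ind P x - f' x)) (w z μ) ≤
        -(b * m ^ 2) := by
    intro z hz μ hμ
    obtain ⟨w1, w2, w3, w4⟩ := hw z hz μ hμ
    have k0 : Fou.Bw F L (fun x => ind C₁ x * ind P x) (fun x => ind C₂ x * ind P x) (w z μ)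
        = 0 := by
      unfold Fou.Bw
      refine sum_eq_zero fun x _ => sum_eq_zero fun y _ => ?_
      split_ifs with h
      · by_cases hx : x ∈ P
        · have : y ∉ P := h ▸ w4 x hx
          simp [ind, this]
        · simp [ind, hx]
      · rfl
    have k1 := Fou.Bw_add_right F L (fun x => ind C₁ x * ind P x) (fun x => ind C₂ x * f' x)
      (fun x => ind C₂ x * (ind P x - f' x)) (w z μ)
    have k2 := Fou.Bw_add_left F L (fun x => ind C₁ x * f' x)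
      (fun x => ind C₁ x * (ind P x - f' x)) (fun x => ind C₂ x * f' x) (w z μ)
    have k3 := Fou.Bw_add_left F L (fun x => ind C₁ x * f x)
      (fun x => ind C₁ x * (f' x - f x)) (fun x => ind C₂ x * f' x) (w z μ)
    have k4 := Fou.Bw_add_right F L (fun x => ind C₁ x * f x) (fun x => ind C₂ x * f x)
      (fun x => ind C₂ x * (f' x - f x)) (w z μ)
    simp only [← mul_add, add_sub_cancel] at k1 k2 k3 k4
    have k5 : η ^ 2 * γ ^ 2 / 4 * m ^ 2 ≤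
        Fou.Bw F L (fun x => ind C₁ x * f x) (fun x => ind C₂ x * f x) (w z μ) := by
      have := Fou.main_term F (T := T) hQ0 hm hγ hη (e3 ▸ hs) hρ hρ' hβ1 hβ2 w1 (e3 ▸ w2)
        (e3 ▸ w3) (f := f) (Fou.av_nonneg _ _ P)
      rw [← e1, ← e3] at this
      exact this c1 c2
    have k6 := Fou.Bw_le F L (fun x => ind C₁ x * f x) (fun x => ind C₂ x * (f' x - f x))
      (w z μ) (t := b / 2) (by positivity)
    have k7 := Fou.Bw_le F L (fun x => ind C₁ x * (f' x - f x)) (fun x => ind C₂ x * f' x)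
      (w z μ) (t := 2 / b) (by positivity)
    have k8 : (b / 2 * ∑ x ∈ F.bx 0 L, (ind C₁ x * f x) ^ 2 +
        (∑ x ∈ F.bx 0 L, (ind C₂ x * (f' x - f x)) ^ 2) / (b / 2)) / 2 ≤ b * m ^ 2 / 2 := by
      calc _ ≤ (b / 2 * m ^ 2 + (b / 2) ^ 2 * m ^ 2 / (b / 2)) / 2 := by
            gcongr
            exact n1 f af
        _ = _ := by field_simp; ring
    have k9 : (2 / b * ∑ x ∈ F.bx 0 L, (ind C₁ x * (f' x - f x)) ^ 2 +
        (∑ x ∈ F.bx 0 L, (ind C₂ x * f' x) ^ 2) / (2 / b)) / 2 ≤ b * m ^ 2 / 2 := by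
      calc _ ≤ (2 / b * ((b / 2) ^ 2 * m ^ 2) + m ^ 2 / (2 / b)) / 2 := by
            gcongr
            exact n2 f' af'
        _ = _ := by field_simp; ring
    have k10 := (abs_le.1 (k6.trans k8)).1
    have k11 := (abs_le.1 (k7.trans k9)).1
    have k12 : η ^ 2 * γ ^ 2 / 4 * m ^ 2 = 2 * (b * m ^ 2) := by rw [hb]; ring
    linarith
  have hwL : ∀ z ∈ Z, ∀ μ ∈ Λ, |(w z μ).re| ≤ L ∧ |(w z μ).im| ≤ L := by
    intro z hz μ hμ
    obtain ⟨-, w2, w3, -⟩ := hw z hz μ hμ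
    simp only [mem_product, mem_Ico] at hβ1 hβ2
    have e6 : L / T * T = L := by rw [e3, ← e1]
    have a1 := Fou.w_le hγ hβ1.1 hβ2.1 w2
    have a2 := Fou.w_le hγ hβ1.2 hβ2.2 w3
    rw [e6] at a1 a2
    exact ⟨a1, a2⟩
  have hK : 4 * Real.pi * B / T' * m ^ 2 * ((Q' + 3) * (4 * B + 1) * (2 * L) * L) ≤
      (2 * L) ^ 2 * (b ^ 2 / 8 * m ^ 2) := by
    have a : 16 * Real.pi * B * (Q' + 3) * (4 * B + 1) / T' ≤ b ^ 2 := (div_le_iff₀ hT1).2 hT'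
    calc _ = (2 * L) ^ 2 * (16 * Real.pi * B * (Q' + 3) * (4 * B + 1) / T' / 8 * m ^ 2) := by
          ring
      _ ≤ _ := by gcongr
  have hp : 0 ≤ 4 * Real.pi * B / T' * m ^ 2 := by positivity
  have s1 := Fou.core F (Q' := Q') (B := B) (ε := b ^ 2 / 8) hL hΦ0
    (fun x => ind C₁ x * (ind P x - f' x)) (fun x => ind C₂ x * f' x) (n1 _ ah) (n2 _ af')
    (by
      refine le_trans ?_ hK
      refine le_trans ?_ (mul_le_mul_of_nonneg_left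
        (Fou.maj_sum F hL hQ' hB hBL _ ((n2 _ af').trans hmL)) hp)
      rw [mul_sum]
      exact sum_le_sum fun r hr =>
        mul_le_mul_of_nonneg_right (m1 r (mem_filter.1 hr).2) (norm_nonneg _))
    Z Λ hΛ w hwL hΦ
  have s2 := Fou.core F (Q' := Q') (B := B) (ε := b ^ 2 / 8) hL hΦ0
    (fun x => ind C₁ x * ind P x) (fun x => ind C₂ x * (ind P x - f' x))
    (n1 _ (Fou.abs_ind F P)) (n2 _ ah)
    (by
      refine le_trans ?_ hK
      refine le_trans ?_ (mul_le_mul_of_nonneg_left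
        (Fou.maj_sum F hL hQ' hB hBL _ ((n1 _ (Fou.abs_ind F P)).trans hmL)) hp)
      rw [mul_sum]
      exact sum_le_sum fun r hr => (mul_comm _ _).trans_le
        (mul_le_mul_of_nonneg_right (m2 r (mem_filter.1 hr).2) (norm_nonneg _)))
    Z Λ hΛ w hwL hΦ
  have hc' : (0 : ℝ) < Λ.card := by exact_mod_cast hΛ.card_pos
  have s3 : ∀ z ∈ Z, (b * m ^ 2) ^ 2 ≤ 2 * (((∑ μ ∈ Λ, Fou.Bw F L
      (fun x => ind C₁ x * (ind P x - f' x)) (fun x => ind C₂ x * f' x) (w z μ)) / Λ.card) ^ 2 +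
      ((∑ μ ∈ Λ, Fou.Bw F L (fun x => ind C₁ x * ind P x)
        (fun x => ind C₂ x * (ind P x - f' x)) (w z μ)) / Λ.card) ^ 2) := by
    intro z hz
    have a1 := sum_le_card_nsmul _ _ _ (key z hz)
    rw [sum_add_distrib, nsmul_eq_mul, ← div_le_iff₀' hc', add_div] at a1
    have a2 : 0 < b * m ^ 2 := by positivity
    generalize (∑ μ ∈ Λ, Fou.Bw F L (fun x => ind C₁ x * (ind P x - f' x))
      (fun x => ind C₂ x * f' x) (w z μ)) / Λ.card = X at a1 ⊢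
    generalize (∑ μ ∈ Λ, Fou.Bw F L (fun x => ind C₁ x * ind P x)
        (fun x => ind C₂ x * (ind P x - f' x)) (w z μ)) / Λ.card = Y at a1 ⊢
    nlinarith [sq_nonneg (X - Y)]
  have s4 := card_nsmul_le_sum _ _ _ s3
  rw [← mul_sum, sum_add_distrib, nsmul_eq_mul] at s4
  rw [le_div_iff₀ (by positivity)]
  refine le_of_mul_le_mul_left ?_ (by positivity : (0 : ℝ) < (m ^ 2) ^ 2)
  nlinarith

end IQ

end Pool.Agent.Lib.MP_ad7336_co
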