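import Pool.Agent.Lib.MP_ad7336_co.Setup

set_option autoImplicit false

namespace Pool.Agent.Lib.MP_ad7336_co

open QuadraticAlgebra Finset Filter Topology
open scoped Classical

theorem legendre {d m : ℕ} (hd : d ≠ 0) (hm : Squarefree m) (hc : Nat.Coprime d m)
    (h₁ : ∃ s : ℤ, (d : ℤ) ∣ s ^ 2 - m) (h₂ : ∃ t : ℤ, (m : ℤ) ∣ t ^ 2 + d) :
    ∃ x y u v : ℤ, (u ≠ 0 ∨ v ≠ 0) ∧ x ^ 2 + d * y ^ 2 = m * (u ^ 2 + d * v ^ 2) := by
  obtain ⟨s, hs⟩ := h₁
  obtain ⟨t, ht⟩ := h₂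
  have hm0 : m ≠ 0 := hm.ne_zero
  by_cases h1 : m = 1
  · exact ⟨1, 0, 1, 0, Or.inl one_ne_zero, by simp [h1]⟩
  have : NeZero d := ⟨hd⟩
  have : NeZero m := ⟨hm0⟩
  set a := Nat.sqrt (d * m)
  set b := Nat.sqrt m
  set c := Nat.sqrt (d - 1)
  have a1 : d * m < (a + 1) ^ 2 := Nat.lt_succ_sqrt' _
  have b1 : m < (b + 1) ^ 2 := Nat.lt_succ_sqrt' _
  have c1 : d ≤ (c + 1) ^ 2 := by
    have : d - 1 < (c + 1) ^ 2 := Nat.lt_succ_sqrt' _
    omega
  have a2 : a ^ 2 ≤ d * m := Nat.sqrt_le' _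
  have b2 : b ^ 2 < m := by
    refine lt_of_le_of_ne (Nat.sqrt_le' _) (fun h => h1 ?_)
    have h3 := Nat.isUnit_iff.1 (hm b (by rw [← sq, h]))
    rw [← h, h3, one_pow]
  have c2 : c ^ 2 < d := by
    have : c ^ 2 ≤ d - 1 := Nat.sqrt_le' _
    omega
  have hcard : Fintype.card (ZMod d × ZMod m) <
      Fintype.card (Fin (a + 1) × Fin (b + 1) × Fin (c + 1)) := by
    simp only [Fintype.card_prod, ZMod.card, Fintype.card_fin]
    refine lt_of_pow_lt_pow_left₀ 2 (Nat.zero_le _) ?_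
    calc (d * m) ^ 2 = d * m * (m * d) := by ring
      _ < (a + 1) ^ 2 * ((b + 1) ^ 2 * (c + 1) ^ 2) :=
        Nat.mul_lt_mul_of_lt_of_le a1 (Nat.mul_le_mul b1.le c1) (by positivity)
      _ = _ := by ring
  obtain ⟨p, q, hpq, he⟩ := Fintype.exists_ne_map_eq_of_card_lt
    (fun p : Fin (a + 1) × Fin (b + 1) × Fin (c + 1) =>
      (((((p.1 : ℕ) : ℤ) - s * (p.2.2 : ℕ) : ℤ) : ZMod d),
        ((((p.1 : ℕ) : ℤ) - t * (p.2.1 : ℕ) : ℤ) : ZMod m))) hcard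
  rw [Prod.mk.injEq, ZMod.intCast_eq_intCast_iff_dvd_sub, ZMod.intCast_eq_intCast_iff_dvd_sub] at he
  obtain ⟨e1, e2⟩ := he
  obtain ⟨x, hx⟩ : ∃ x : ℤ, x = ((q.1 : ℕ) : ℤ) - (p.1 : ℕ) := ⟨_, rfl⟩
  obtain ⟨y, hy⟩ : ∃ x : ℤ, x = ((q.2.1 : ℕ) : ℤ) - (p.2.1 : ℕ) := ⟨_, rfl⟩
  obtain ⟨w, hw⟩ : ∃ x : ℤ, x = ((q.2.2 : ℕ) : ℤ) - (p.2.2 : ℕ) := ⟨_, rfl⟩
  have sq_le : ∀ (k : ℕ) (i j : Fin (k + 1)), (((j : ℕ) : ℤ) - (i : ℕ)) ^ 2 ≤ ((k ^ 2 : ℕ) : ℤ) :=
    fun k i j => by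
      have := i.2
      have := j.2
      push_cast
      exact sq_le_sq' (by omega) (by omega)
  have x2 : x ^ 2 ≤ d * m := by
    rw [hx]; exact (sq_le a _ _).trans (by exact_mod_cast a2)
  have y2 : y ^ 2 < m := by
    rw [hy]; exact (sq_le b _ _).trans_lt (by exact_mod_cast b2)
  have w2 : w ^ 2 < d := by
    rw [hw]; exact (sq_le c _ _).trans_lt (by exact_mod_cast c2)
  have f1 : (d : ℤ) ∣ x - s * w := by
    convert e1 using 1; rw [hx, hw]; ring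
  have f2 : (m : ℤ) ∣ x - t * y := by
    convert e2 using 1; rw [hx, hy]; ring
  have g1 : (d : ℤ) ∣ x ^ 2 + d * y ^ 2 - m * w ^ 2 := by
    have : x ^ 2 + d * y ^ 2 - m * w ^ 2 =
        (x - s * w) * (x + s * w) + (s ^ 2 - m) * w ^ 2 + d * y ^ 2 := by ring
    rw [this]
    exact dvd_add (dvd_add (f1.mul_right _) (hs.mul_right _)) (dvd_mul_right _ _)
  have g2 : (m : ℤ) ∣ x ^ 2 + d * y ^ 2 - m * w ^ 2 := by
    have : x ^ 2 + d * y ^ 2 - m * w ^ 2 =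
        (x - t * y) * (x + t * y) + (t ^ 2 + d) * y ^ 2 - m * w ^ 2 := by ring
    rw [this]
    exact dvd_sub (dvd_add (f2.mul_right _) (ht.mul_right _)) (dvd_mul_right _ _)
  obtain ⟨k, hk⟩ := (Nat.isCoprime_iff_coprime.2 hc).mul_dvd g1 g2
  have d0 : (0 : ℤ) < d := by omega
  have m0 : (0 : ℤ) < m := by omega
  have dm : (0 : ℤ) < d * m := mul_pos d0 m0
  have k1 : -1 < k := by
    refine lt_of_mul_lt_mul_left ?_ dm.le
    have := mul_lt_mul_of_pos_left w2 m0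
    have : 0 ≤ x ^ 2 + d * y ^ 2 := by positivity
    linarith
  have k2 : k < 2 := by
    refine lt_of_mul_lt_mul_left ?_ dm.le
    have := mul_lt_mul_of_pos_left y2 d0
    have : 0 ≤ m * w ^ 2 := by positivity
    linarith
  have k3 : k = 0 ∨ k = 1 := by omega
  rcases k3 with rfl | rfl
  · refine ⟨x, y, w, 0, Or.inl (fun h => hpq ?_), by linarith⟩
    rw [h] at hk
    have i1 : 0 ≤ x ^ 2 := sq_nonneg _
    have i2 : 0 ≤ d * y ^ 2 := by positivity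
    have i3 : x = 0 := pow_eq_zero_iff two_ne_zero |>.1 (by linarith)
    have i4 : y = 0 := pow_eq_zero_iff two_ne_zero |>.1
      ((mul_eq_zero.1 (by linarith : (d : ℤ) * y ^ 2 = 0)).resolve_left d0.ne')
    exact Prod.ext (Fin.ext (by omega)) (Prod.ext (Fin.ext (by omega)) (Fin.ext (by omega)))
  · exact ⟨x, y, w, 1, Or.inr one_ne_zero, by linarith⟩

theorem sqf_root (d : ℤ) (m : ℕ) (hm : Squarefree m)
    (h : ∀ p : ℕ, p.Prime → p ∣ m → ∃ t : ℤ, (p : ℤ) ∣ t ^ 2 + d) : ∃ t : ℤ, (m : ℤ) ∣ t ^ 2 + d := by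
  induction m using Nat.recOnMul with
  | zero => exact absurd rfl hm.ne_zero
  | one => exact ⟨0, by simp⟩
  | prime p hp => exact h p hp dvd_rfl
  | mul a b iha ihb =>
    obtain ⟨h1, h2, h3⟩ := Nat.squarefree_mul_iff.1 hm
    obtain ⟨t1, a1⟩ := iha h2 (fun p hp hd => h p hp (hd.mul_right _))
    obtain ⟨t2, a2⟩ := ihb h3 (fun p hp hd => h p hp (hd.mul_left _))
    have h4 := Nat.isCoprime_iff_coprime.2 h1
    obtain ⟨u, v, huv⟩ := h4
    refine ⟨t1 + (t2 - t1) * (u * a), ?_⟩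
    push_cast
    refine (Nat.isCoprime_iff_coprime.2 h1).mul_dvd ?_ ?_
    · have : (t1 + (t2 - t1) * (u * a)) ^ 2 + d =
          t1 ^ 2 + d + a * (u * (t2 - t1) * (2 * t1 + (t2 - t1) * (u * a))) := by ring
      rw [this]
      exact dvd_add a1 (dvd_mul_right _ _)
    · have : (t1 + (t2 - t1) * (u * a)) ^ 2 + d =
          t2 ^ 2 + d + b * (v * (t1 - t2) * (2 * t2 + (t1 - t2) * (v * b))) := by
        rw [(by linear_combination huv : u * a = 1 - v * b)]; ring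
      rw [this]
      exact dvd_add a2 (dvd_mul_right _ _)

namespace IQ

variable (F : IQ)

theorem split_gcd {X Y : Ideal F.O} (hX : X ≠ ⊥) :
    ∃ G A B : Ideal F.O, G ≠ ⊥ ∧ G = X ⊔ Y ∧ X = G * A ∧ Y = G * B ∧ IsCoprime A B := by
  obtain ⟨A, hA⟩ : X ⊔ Y ∣ X := Ideal.dvd_iff_le.2 le_sup_left
  obtain ⟨B, hB⟩ : X ⊔ Y ∣ Y := Ideal.dvd_iff_le.2 le_sup_right
  have hG : X ⊔ Y ≠ ⊥ := fun h => hX (le_bot_iff.1 (h ▸ le_sup_left))
  refine ⟨X ⊔ Y, A, B, hG, rfl, hA, hB, Ideal.isCoprime_iff_sup_eq.2 ?_⟩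
  refine mul_left_cancel₀ hG ?_
  rw [Ideal.mul_sup, ← hA, ← hB, Ideal.mul_top]

theorem eq_norm {X Y : Ideal F.O} (hX : X ≠ ⊥) (h : Ideal.absNorm X = Ideal.absNorm Y) :
    ∃ G B : Ideal F.O, B ≠ ⊥ ∧ X = G * F.cj B ∧ Y = G * B := by
  obtain ⟨G, A, B, hG, -, hA, hB, hc⟩ := F.split_gcd (Y := Y) hX
  have hA0 : A ≠ ⊥ := by
    rintro rfl
    exact hX (by rw [hA, Ideal.mul_bot])
  have h1 : Ideal.absNorm A = Ideal.absNorm B := by
    rw [hA, hB, map_mul, map_mul] at h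
    exact mul_left_cancel₀ (F.absNorm_ne hG) h
  have h2 : A ∣ B * F.cj B := by
    rw [mul_cj, ← h1, ← mul_cj]; exact dvd_mul_right _ _
  obtain ⟨K, hK⟩ := hc.dvd_of_dvd_mul_left h2
  have h3 := congrArg Ideal.absNorm hK
  rw [absNorm_cj, map_mul, ← h1] at h3
  have h4 : Ideal.absNorm K = 1 := (mul_eq_left₀ (F.absNorm_ne hA0)).1 h3.symm
  rw [Ideal.absNorm_eq_one_iff.1 h4, Ideal.mul_top] at hK
  refine ⟨G, B, fun h5 => F.absNorm_ne hA0 ?_, by rw [hK]; exact hA, hB⟩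
  rw [h1, h5, Ideal.absNorm_bot]

theorem transfer {Q : ℕ} (hQ : Q ≠ 0) {x y : F.O} (hx : x ≠ 0) {G A B : Ideal F.O}
    (h1 : Ideal.span {x} = G * A) (h2 : Ideal.span {y} = G * B) :
    ∃ (x' y' : F.O) (K : Ideal F.O), F.cop Q K ∧ Ideal.span {x'} = A * K ∧
      Ideal.span {y'} = B * K ∧ x * y' = y * x' := by
  have h0 : Ideal.span {x} ≠ ⊥ := by rwa [Ne, Ideal.span_singleton_eq_bot]
  have hA : A ≠ ⊥ := by
    rintro rfl
    exact h0 (by rw [h1, Ideal.mul_bot])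
  obtain ⟨x', K, hK, h3⟩ := F.exists_span_mul hQ hA
  have h4 : Ideal.span {y * x'} = Ideal.span {x} * (B * K) := by
    rw [← Ideal.span_singleton_mul_span_singleton, h1, h2, h3]; ring
  obtain ⟨y', hy⟩ : x ∣ y * x' := by
    rw [← Ideal.mem_span_singleton, ← F.dvd_span_iff, h4]; exact dvd_mul_right _ _
  refine ⟨x', y', K, hK, h3, mul_left_cancel₀ h0 ?_, hy.symm⟩
  rw [← h4, hy, Ideal.span_singleton_mul_span_singleton]

theorem cop_of_dvd {Q : ℕ} {I J : Ideal F.O} (h : I ∣ J) (hJ : F.cop Q J) : F.cop Q I := by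
  obtain ⟨K, rfl⟩ := h
  exact (F.cop_mul.1 hJ).1

theorem cj_sup (I J : Ideal F.O) : F.cj (I ⊔ J) = F.cj I ⊔ F.cj J := Ideal.map_sup _ _ _

theorem exists_inv {M : ℕ} {u : F.O} (hu : F.cop M (Ideal.span {u})) :
    ∃ a b : F.O, a * u + b * M = 1 := by
  have h := (F.cop_iff.1 hu).2
  rw [Ideal.eq_top_iff_one, Submodule.mem_sup] at h
  obtain ⟨x, hx, y, hy, h⟩ := h
  obtain ⟨a, rfl⟩ := Ideal.mem_span_singleton'.1 hx
  obtain ⟨b, rfl⟩ := Ideal.mem_span_singleton'.1 hy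
  exact ⟨a, b, h⟩

theorem cj_inv {M : ℕ} {u n v : F.O} (hu : F.cop M (Ideal.span {u}))
    (h : (M : F.O) ∣ u * star v - n * v) :
    F.cj (Ideal.span {v} ⊔ Ideal.span {(M : F.O)}) = Ideal.span {v} ⊔ Ideal.span {(M : F.O)} := by
  have key : F.cj (Ideal.span {v} ⊔ Ideal.span {(M : F.O)}) ≤
      Ideal.span {v} ⊔ Ideal.span {(M : F.O)} := by
    rw [cj_sup, cj_span, cj_span, star_natCast]
    refine sup_le ?_ le_sup_right
    obtain ⟨a, b, hab⟩ := F.exists_inv hu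
    obtain ⟨w, hw⟩ := h
    rw [Ideal.span_singleton_le_iff_mem,
      (by linear_combination (-star v) * hab + a * hw :
        star v = a * n * v + (a * w + b * star v) * M)]
    exact add_mem (Ideal.mem_sup_left (Ideal.mul_mem_left _ _ (Ideal.mem_span_singleton_self _)))
      (Ideal.mem_sup_right (Ideal.mul_mem_left _ _ (Ideal.mem_span_singleton_self _)))
  refine le_antisymm key (fun z hz => ?_)
  rw [mem_cj]
  exact key (by rwa [mem_cj, star_star])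

theorem exists_v {Q : ℕ} (hQ : Q ≠ 0) (hD : F.D ∣ Q) {u : F.O} {n : ℕ}
    (hu : F.cop Q (Ideal.span {u})) (hn : Nat.Coprime n Q) (hc : F.nm u ≡ n ^ 2 [MOD Q ^ 4]) :
    ∃ v : F.O, ((Q ^ 4 : ℕ) : F.O) ∣ u * star v - n * v ∧
      (Q : F.O) ∈ Ideal.span {v} ⊔ Ideal.span {((Q ^ 4 : ℕ) : F.O)} := by
  have hu4 : F.cop (Q ^ 4) (Ideal.span {u}) := ⟨hu.1, hu.2.pow_right 4⟩
  have k1 : ∀ τ : F.O, ((Q ^ 4 : ℕ) : F.O) ∣ u * star (n * τ + u * star τ) - n * (n * τ + u * star τ) :=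
    fun τ => by
      obtain ⟨c, hc'⟩ := (Nat.modEq_iff_dvd.1 hc.symm)
      have h1 : (F.nm u : F.O) - (n : F.O) ^ 2 = ((Q ^ 4 : ℕ) : F.O) * (c : F.O) := by
        exact_mod_cast congrArg (Int.cast : ℤ → F.O) hc'
      refine ⟨c * τ, ?_⟩
      rw [star_add, star_mul', star_mul', star_star, star_natCast]
      linear_combination τ * F.mul_star_eq u + τ * h1
  set M := Ideal.span {((Q ^ 4 : ℕ) : F.O)} with hM
  obtain ⟨v1, hv1⟩ : ∃ v1 : F.O, v1 = n * 1 + u * star 1 := ⟨_, rfl⟩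
  obtain ⟨v2, hv2⟩ : ∃ v2 : F.O, v2 = n * (omega : F.O) + u * star (omega : F.O) := ⟨_, rfl⟩
  obtain ⟨J, hJ⟩ : ∃ J, J = (Ideal.span {v1} ⊔ M) ⊔ (Ideal.span {v2} ⊔ M) := ⟨_, rfl⟩
  have j0 : F.cj J = J := by
    rw [hJ, cj_sup, hv1, hv2, F.cj_inv hu4 (k1 _), F.cj_inv hu4 (k1 _)]
  have j1 : v1 ∈ J := hJ ▸ Ideal.mem_sup_left (Ideal.mem_sup_left (Ideal.mem_span_singleton_self _))
  have j2 : v2 ∈ J := hJ ▸ Ideal.mem_sup_right (Ideal.mem_sup_left (Ideal.mem_span_singleton_self _))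
  have j3 : M ≤ J := hJ ▸ le_sup_of_le_left le_sup_right
  have j4 : (Q : F.O) ∈ J := by
    have a1 : (n : F.O) * (omega - star omega : F.O) ∈ J := by
      have := J.sub_mem j2 (J.mul_mem_left (star omega) j1)
      rw [hv1, hv2, star_one] at this
      convert this using 1; ring
    obtain ⟨a, b, hab⟩ := Nat.isCoprime_iff_coprime.2 (hn.pow_right 4)
    have a2 : (a : F.O) * n + b * ((Q ^ 4 : ℕ) : F.O) = 1 := by
      exact_mod_cast congrArg (Int.cast : ℤ → F.O) hab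
    have a3 : (omega - star omega : F.O) ∈ J := by
      have := J.add_mem (J.mul_mem_left (a : F.O) a1) (J.mul_mem_left
        ((b : F.O) * (omega - star omega : F.O))
        (j3 (Ideal.mem_span_singleton_self _)))
      convert this using 1
      linear_combination (-(omega - star omega : F.O)) * a2
    have a4 : (omega - star omega : F.O) * (star omega - omega : F.O) = (F.D : F.O) := by
      have := F.D_eq
      ext <;> simp
      · linarith
      · ring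
    obtain ⟨c, rfl⟩ := hD
    push_cast
    rw [← a4]
    exact J.mul_mem_right _ (J.mul_mem_right _ a3)
  have j5 : J ≠ ⊥ := by
    rintro rfl
    exact hQ (by exact_mod_cast (Ideal.mem_bot.1 j4))
  set S := Q.primeFactors.filter (fun p => v1 ∉ J * F.pp p)
  obtain ⟨y, hy⟩ : ∃ y : ℕ, y = ∏ p ∈ S, p := ⟨_, rfl⟩
  have k2 : ∀ p : ℕ, p.Prime → p ∣ Q → v1 + y * v2 ∉ J * F.pp p := fun p hp hpQ hv => by
    have pm : ∀ (c : ℕ) (z : F.O), p ∣ c → z ∈ J → (c : F.O) * z ∈ J * F.pp p := by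
      rintro _ z ⟨c, rfl⟩ hz
      push_cast
      rw [(by ring : (p : F.O) * c * z = c * z * p)]
      exact Ideal.mul_mem_mul (J.mul_mem_left _ hz) (F.pp_mem hp)
    by_cases h1 : v1 ∈ J * F.pp p
    · have b1 : (y : F.O) * v2 ∈ J * F.pp p := by simpa using Ideal.sub_mem _ hv h1
      have b2 : Nat.Coprime y p := by
        rw [hy]
        refine Nat.Coprime.prod_left (fun q hq => ?_)
        rw [mem_filter] at hq
        refine (Nat.coprime_primes (Nat.prime_of_mem_primeFactors hq.1) hp).2 ?_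
        rintro rfl
        exact hq.2 h1
      obtain ⟨a, b, hab⟩ := Nat.isCoprime_iff_coprime.2 b2
      have b3 : (a : F.O) * y + b * p = 1 := by
        exact_mod_cast congrArg (Int.cast : ℤ → F.O) hab
      have b4 : v2 ∈ J * F.pp p := by
        have := Ideal.add_mem _ (Ideal.mul_mem_left _ (a : F.O) b1)
          (Ideal.mul_mem_left _ (b : F.O) (pm p v2 dvd_rfl j2))
        convert this using 1
        linear_combination (-v2) * b3
      have b5 : M ≤ J * F.pp p := by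
        rw [hM, Ideal.span_singleton_le_iff_mem]
        have := pm (Q ^ 3) Q (dvd_pow hpQ three_ne_zero) j4
        convert this using 1
        push_cast; ring
      have b6 : J ≤ J * F.pp p := by
        conv_lhs => rw [hJ]
        exact sup_le (sup_le ((Ideal.span_singleton_le_iff_mem _).2 h1) b5)
          (sup_le ((Ideal.span_singleton_le_iff_mem _).2 b4) b5)
      have b7 : J * F.pp p ∣ J * 1 := by rw [mul_one]; exact Ideal.dvd_iff_le.2 b6
      exact (F.pp_prime hp).not_dvd_one ((mul_dvd_mul_iff_left j5).1 b7)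
    · have b1 : p ∣ y := hy ▸ dvd_prod_of_mem (fun q : ℕ => q)
        (mem_filter.2 ⟨Nat.mem_primeFactors.2 ⟨hp, hpQ, hQ⟩, h1⟩)
      exact h1 (by simpa using Ideal.sub_mem _ hv (pm y v2 b1 j2))
  have k3 : ((Q ^ 4 : ℕ) : F.O) ∣ u * star (v1 + y * v2) - n * (v1 + y * v2) := by
    have e : v1 + y * v2 = n * (1 + y * (omega : F.O)) + u * star (1 + y * (omega : F.O)) := by
      rw [hv1, hv2, star_add, star_mul', star_natCast]; ring
    rw [e]
    exact k1 _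
  refine ⟨v1 + y * v2, k3, ?_⟩
  obtain ⟨K, hK⟩ : J ∣ Ideal.span {v1 + y * v2} ⊔ M := Ideal.dvd_iff_le.2 (sup_le
    ((Ideal.span_singleton_le_iff_mem _).2 (J.add_mem j1 (J.mul_mem_left _ j2))) j3)
  have c1 : F.cj K = K := by
    have := F.cj_inv hu4 k3
    rw [hK, cj_mul, j0] at this
    exact mul_left_cancel₀ j5 this
  have c2 : Nat.Coprime (Ideal.absNorm K) Q := by
    refine Nat.coprime_of_dvd (fun p hp h1 h2 => k2 p hp h2 ?_)
    obtain ⟨P, hP, h3, h4⟩ := F.exists_prime_dvd hp h1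
    have h5 : F.pp p ∣ K := by
      rcases F.eq_pp hp hP h3 with h6 | h6
      · rwa [← h6]
      · have := F.cj_dvd h4
        rwa [h6, cj_cj, c1] at this
    refine Ideal.le_of_dvd (mul_dvd_mul_left J h5) ?_
    rw [← hK]
    exact Ideal.mem_sup_left (Ideal.mem_span_singleton_self _)
  have c3 : Ideal.absNorm K ∣ (Q ^ 4) ^ 2 := by
    rw [← F.nm_natCast]
    refine F.absNorm_dvd_nm (Ideal.mul_le_right (I := J) ?_)
    rw [← hK]
    exact Ideal.mem_sup_right (Ideal.mem_span_singleton_self _)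
  have c4 := Nat.Coprime.eq_one_of_dvd ((c2.pow_right 4).pow_right 2) c3
  rw [hK, Ideal.absNorm_eq_one_iff.1 c4, Ideal.mul_top]
  exact j4

theorem h90 {Q : ℕ} (hQ : Q ≠ 0) (hD : 2 * F.D ∣ Q) {Ψ : Ideal F.O → ℂ} (h : F.Gen Q Ψ) {u : F.O}
    {n : ℕ} (hu : F.cop Q (Ideal.span {u})) (hn : Nat.Coprime n Q)
    (hc : F.nm u ≡ n ^ 2 [MOD Q ^ 4]) : Ψ (Ideal.span {u}) = Ψ (Ideal.span {(n : F.O)}) := by
  have hD3 := F.three_le_D
  have hQ1 : Q ≠ 1 := by
    rintro rfl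
    have := Nat.le_of_dvd one_pos hD
    omega
  have hn0 : n ≠ 0 := by
    rintro rfl
    exact hQ1 (by simpa using hn)
  have hn' := F.cop_nat hn0 hn
  obtain ⟨v, ⟨w, hw⟩, hv⟩ := F.exists_v hQ ((dvd_mul_left _ _).trans hD) hu hn hc
  have hu4 : F.cop (Q ^ 4) (Ideal.span {u}) := ⟨hu.1, hu.2.pow_right 4⟩
  have hi := F.cj_inv hu4 ⟨w, hw⟩
  have hQ' : (Q : F.O) ≠ 0 := by exact_mod_cast hQ
  have hv0 : v ≠ 0 := by
    rintro rfl
    rw [Ideal.span_singleton_eq_bot.2 rfl, bot_sup_eq] at hv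
    have h1 := F.absNorm_dvd_nm hv
    rw [absNorm_nat, nm_natCast] at h1
    have h2 := Nat.le_of_dvd (by positivity) h1
    rw [← pow_mul] at h2
    have := (Nat.pow_le_pow_iff_right (by omega : 1 < Q)).1 h2
    omega
  obtain ⟨G, V, W, hG, e0, e1, e2, hco⟩ := F.split_gcd (Y := Ideal.span {((Q ^ 4 : ℕ) : F.O)})
    (X := Ideal.span {v}) (by rwa [Ne, Ideal.span_singleton_eq_bot])
  rw [← e0] at hi hv
  have e3 : Ideal.span {star v} = G * F.cj V := by rw [← cj_span, e1, cj_mul, hi]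
  have hV : F.cop Q V := by
    refine F.cop_iff.2 ⟨?_, ?_⟩
    · rintro rfl
      rw [Ideal.mul_bot, Ideal.span_singleton_eq_bot] at e1
      exact hv0 e1
    · obtain ⟨H, hH⟩ := F.dvd_span_iff.2 hv
      have a1 : W = Ideal.span {(Q : F.O)} * (H * Ideal.span {(Q : F.O) ^ 2}) := by
        refine mul_left_cancel₀ hG ?_
        rw [← e2, mul_left_comm, ← mul_assoc G, ← hH, Ideal.span_singleton_mul_span_singleton,
          Ideal.span_singleton_mul_span_singleton]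
        push_cast
        congr 2; ring
      rw [a1] at hco
      exact Ideal.isCoprime_iff_sup_eq.1 hco.of_mul_right_left
  obtain ⟨x, y, K, hK, f1, f2, f3⟩ := F.transfer hQ hv0 e1 e3
  obtain ⟨z, hz⟩ : v ∣ Q * x := by
    rw [← Ideal.mem_span_singleton, e1]
    exact Ideal.mul_mem_mul hv (F.dvd_span_iff.1 ⟨_, f1⟩)
  have g1 : (Q : F.O) ∣ u * y - n * x := by
    refine ⟨Q ^ 2 * w * z, mul_left_cancel₀ hv0 ?_⟩
    push_cast at hw
    linear_combination u * f3 + x * hw + (Q : F.O) ^ 3 * w * hz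
  have hV' := F.cop_cj.2 hV
  have c1 := F.cop_mul.2 ⟨hV, hK⟩
  have c2 := F.cop_mul.2 ⟨hV', hK⟩
  have g2 := h.cong (u * y) (n * x)
  rw [← Ideal.span_singleton_mul_span_singleton, ← Ideal.span_singleton_mul_span_singleton,
    f1, f2] at g2
  have g3 := g2 (F.cop_mul.2 ⟨hu, c2⟩) (F.cop_mul.2 ⟨hn', c1⟩) g1
  rw [h.mul _ _ hu c2, h.mul _ _ hn' c1, h.mul _ _ hV' hK, h.mul _ _ hV hK, h.triv V hV] at g3
  exact mul_right_cancel₀ (mul_ne_zero (h.ne V hV) (h.ne K hK)) g3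

theorem exists_eq_norm {Q : ℕ} (hD : 2 * F.D ∣ Q) {I : Ideal F.O} (hI : F.cop Q I) {n : ℕ}
    (hc : Ideal.absNorm I ≡ n ^ 2 [MOD F.D]) :
    ∃ α β : F.O, β ≠ 0 ∧ F.nm α = Ideal.absNorm I * F.nm β := by
  have hD3 := F.three_le_D
  obtain ⟨s, t, r, hs, ht, hr, he⟩ := F.norm_shape hI.1
  have h1 : Nat.Coprime (s * t * r ^ 2) F.D :=
    he ▸ hI.2.coprime_dvd_right ((dvd_mul_left _ _).trans hD)
  have h2 : t = 1 := Nat.eq_one_iff_not_exists_prime_dvd.2 (fun p hp h => hp.not_dvd_one (by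
    rw [← h1]
    exact Nat.dvd_gcd ((h.mul_left _).mul_right _) (ht.2 p hp h)))
  subst h2
  obtain ⟨m, c, hmc, hm⟩ := Nat.sq_mul_squarefree s
  have h3 : s * 1 * r ^ 2 = m * (c * r) ^ 2 := by rw [← hmc]; ring
  rw [h3] at he h1
  obtain ⟨x, y, u, v, h4, h5⟩ := legendre (d := F.D) (m := m) (by omega) hm
    h1.coprime_mul_right.symm (by
      obtain ⟨a, b, hab⟩ := Nat.isCoprime_iff_coprime.2
        (h1.coprime_mul_left.coprime_dvd_left (dvd_pow_self _ two_ne_zero))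
      obtain ⟨k, hk⟩ := Nat.modEq_iff_dvd.1 hc
      rw [he] at hk
      push_cast at hk hab
      refine ⟨n * a, k * a ^ 2 - m * b * (2 - b * F.D), ?_⟩
      linear_combination a ^ 2 * hk + m * (a * (c * r) + 1 - b * F.D) * hab)
    (sqf_root _ m hm (fun p hp h => by
      obtain ⟨-, -, ρ, hρ⟩ := hs.2 p hp (hmc ▸ h.mul_left _)
      refine ⟨2 * ρ - F.b, ?_⟩
      rw [F.disc_eq ρ, add_sub_cancel]
      exact hρ.mul_left 4))
  have nd : ∀ x y : ℤ, (F.nm ⟨x - F.b * y, 2 * y⟩ : ℤ) = x ^ 2 + F.D * y ^ 2 := fun x y => by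
    rw [nm_cast, norm_def, D_eq]; ring
  refine ⟨(c * r : ℕ) * ⟨x - F.b * y, 2 * y⟩, ⟨u - F.b * v, 2 * v⟩, fun h => ?_, ?_⟩
  · have a1 : u - F.b * v = 0 := congrArg QuadraticAlgebra.re h
    have a2 : 2 * v = 0 := congrArg QuadraticAlgebra.im h
    have a3 : v = 0 := by omega
    rw [a3] at a1
    omega
  · rw [nm_mul, nm_natCast, he]
    zify
    rw [nd, nd, h5]; ring

theorem genus {Q : ℕ} (hQ : Q ≠ 0) (hD : 2 * F.D ∣ Q) {Ψ : Ideal F.O → ℂ} (h : F.Gen Q Ψ)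
    {I : Ideal F.O} (hI : F.cop Q I) {n : ℕ} (hn : Nat.Coprime n Q)
    (hc : Ideal.absNorm I ≡ n ^ 2 [MOD Q ^ 4]) : Ψ I = Ψ (Ideal.span {(n : F.O)}) := by
  have hD3 := F.three_le_D
  have hn0 : n ≠ 0 := by
    rintro rfl
    have h1 : Q = 1 := by simpa using hn
    have := Nat.le_of_dvd (by omega) hD
    omega
  have hn' := F.cop_nat hn0 hn
  obtain ⟨α, β, hβ, e⟩ := F.exists_eq_norm hD hI
    (hc.of_dvd (((dvd_mul_left _ _).trans hD).trans (dvd_pow_self Q four_ne_zero)))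
  have hα : α ≠ 0 := fun h0 => mul_ne_zero (F.absNorm_ne hI.1) (mt F.nm_eq_zero.1 hβ)
    (by rw [← e, F.nm_eq_zero.2 h0])
  obtain ⟨G, B, hB, e1, e2⟩ := F.eq_norm (X := Ideal.span {α}) (Y := I * Ideal.span {β})
    (by rwa [Ne, Ideal.span_singleton_eq_bot]) (by rw [map_mul, absNorm_span, absNorm_span, e])
  obtain ⟨z, J, hJ, e3⟩ := F.exists_span_mul hQ hB
  have hz : z ≠ 0 := by
    rintro rfl
    exact mul_ne_zero hB hJ.1 (by rw [← e3]; simp)
  have e4 : Ideal.span {α * z} * F.cj J = Ideal.span {β * star z} * (I * J) := by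
    rw [← Ideal.span_singleton_mul_span_singleton, ← Ideal.span_singleton_mul_span_singleton,
      ← cj_span, e3, cj_mul, e1]
    calc _ = G * B * (F.cj B * F.cj J * J) := by ring
      _ = _ := by rw [← e2]; ring
  obtain ⟨H, A, C, hH, -, f1, f2, hco⟩ := F.split_gcd (X := Ideal.span {α * z})
    (Y := Ideal.span {β * star z})
    (by rw [Ne, Ideal.span_singleton_eq_bot]; exact mul_ne_zero hα hz)
  have e5 : A * F.cj J = C * (I * J) := by
    refine mul_left_cancel₀ hH ?_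
    rw [← mul_assoc, ← mul_assoc, ← f1, ← f2, e4]
  have hJ' := F.cop_cj.2 hJ
  have hIJ := F.cop_mul.2 ⟨hI, hJ⟩
  have hA : F.cop Q A := F.cop_of_dvd (hco.dvd_of_dvd_mul_left ⟨_, e5.symm⟩) hIJ
  have hC : F.cop Q C := F.cop_of_dvd (hco.symm.dvd_of_dvd_mul_left ⟨_, e5⟩) hJ'
  obtain ⟨x, y, K, hK, g1, g2, -⟩ := F.transfer hQ (mul_ne_zero hα hz) f1 f2
  have n1 : Ideal.absNorm A = Ideal.absNorm C * Ideal.absNorm I := by
    have := congrArg Ideal.absNorm e5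
    rw [map_mul, map_mul, map_mul, absNorm_cj, ← mul_assoc] at this
    exact mul_right_cancel₀ (F.absNorm_ne hJ.1) this
  have p1 : Ψ A = Ψ C * Ψ I := by
    have := congrArg Ψ e5
    rw [h.mul _ _ hA hJ', h.mul _ _ hC hIJ, h.mul _ _ hI hJ, h.triv J hJ, ← mul_assoc] at this
    exact mul_right_cancel₀ (h.ne J hJ) this
  have hAK := F.cop_mul.2 ⟨hA, hK⟩
  have hCK := F.cop_mul.2 ⟨hC, hK⟩
  have hCK' := F.cop_cj.2 hCK
  have s1 : Ideal.span {x * star y} = A * K * F.cj (C * K) := by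
    rw [← Ideal.span_singleton_mul_span_singleton, ← cj_span, g1, g2]
  have s2 : Ideal.span {((n * Ideal.absNorm (C * K) : ℕ) : F.O)} =
      Ideal.span {(n : F.O)} * (C * K * F.cj (C * K)) := by
    rw [mul_cj, Ideal.span_singleton_mul_span_singleton, Nat.cast_mul]
  have p2 := F.h90 hQ hD h (u := x * star y) (n := n * Ideal.absNorm (C * K))
    (s1 ▸ F.cop_mul.2 ⟨hAK, hCK'⟩) (Nat.Coprime.mul_left hn hCK.2) (by
      rw [← absNorm_span, s1, map_mul, absNorm_cj, map_mul, map_mul, n1]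
      have := hc.mul_right ((Ideal.absNorm C * Ideal.absNorm K) ^ 2)
      convert this using 1 <;> ring)
  rw [s1, s2, h.mul _ _ hAK hCK', h.mul _ _ hn' (F.cop_mul.2 ⟨hCK, hCK'⟩), h.mul _ _ hCK hCK',
    h.mul _ _ hA hK, h.mul _ _ hC hK, p1] at p2
  refine mul_right_cancel₀ (mul_ne_zero (mul_ne_zero (h.ne C hC) (h.ne K hK)) (h.ne _ hCK')) ?_
  linear_combination p2

end IQ

end Pool.Agent.Lib.MP_ad7336_co
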