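import Pool.Agent.Lib.MP_ad7336_co.Setup
import Pool.Agent.Lib.MP_229ad9_gt.PL

set_option autoImplicit false

namespace Pool.Agent.Lib.MP_ad7336_co

open QuadraticAlgebra Finset Filter Topology
open scoped Classical

section GeoAux

open MeasureTheory
open scoped ENNReal

def geoSq (r : ℝ) (c : ℤ × ℤ) : Set (Fin 2 → ℝ) :=
  Set.pi Set.univ fun i => Set.Ico ((![(c.1 : ℝ), c.2] : Fin 2 → ℝ) i - r / 2)
    ((![(c.1 : ℝ), c.2] : Fin 2 → ℝ) i + r / 2)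

theorem geoSq_mem {r : ℝ} {c : ℤ × ℤ} {p : Fin 2 → ℝ} : p ∈ geoSq r c ↔
    (c.1 - r / 2 ≤ p 0 ∧ p 0 < c.1 + r / 2) ∧ (c.2 - r / 2 ≤ p 1 ∧ p 1 < c.2 + r / 2) := by
  simp [geoSq, Set.mem_pi, Fin.forall_fin_two]

theorem geoSq_meas (r : ℝ) (c : ℤ × ℤ) : MeasurableSet (geoSq r c) :=
  MeasurableSet.univ_pi fun _ => measurableSet_Ico

theorem geoSq_vol {r : ℝ} (hr : 0 ≤ r) (c : ℤ × ℤ) :
    volume (geoSq r c) = ENNReal.ofReal (r ^ 2) := by
  rw [geoSq, Real.volume_pi_Ico, Fin.prod_univ_two, ← ENNReal.ofReal_mul (by linarith)]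
  congr 1
  ring

theorem geoSq_union {r : ℝ} (hr : 0 ≤ r) (hr1 : r ≤ 1) (B : Finset (ℤ × ℤ)) :
    volume (⋃ c ∈ B, geoSq r c) = ENNReal.ofReal (B.card * r ^ 2) := by
  rw [measure_biUnion_finset _ fun c _ => geoSq_meas r c]
  · simp only [geoSq_vol hr, Finset.sum_const, nsmul_eq_mul]
    rw [ENNReal.ofReal_mul (by positivity), ENNReal.ofReal_natCast]
  · intro c _ d _ hcd
    refine Set.disjoint_left.2 fun p hc hd => hcd ?_
    rw [geoSq_mem] at hc hd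
    obtain ⟨⟨a1, a2⟩, a3, a4⟩ := hc
    obtain ⟨⟨b1, b2⟩, b3, b4⟩ := hd
    have e1 : (c.1 : ℝ) < d.1 + 1 := by linarith
    have e2 : (d.1 : ℝ) < c.1 + 1 := by linarith
    have e3 : (c.2 : ℝ) < d.2 + 1 := by linarith
    have e4 : (d.2 : ℝ) < c.2 + 1 := by linarith
    have f1 : c.1 < d.1 + 1 := by exact_mod_cast e1
    have f2 : d.1 < c.1 + 1 := by exact_mod_cast e2
    have f3 : c.2 < d.2 + 1 := by exact_mod_cast e3
    have f4 : d.2 < c.2 + 1 := by exact_mod_cast e4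
    exact Prod.ext (by omega) (by omega)

theorem geoDisc {t : ℝ} (ht : 0 ≤ t) :
    volume {p : Fin 2 → ℝ | p 0 ^ 2 + p 1 ^ 2 < t} = ENNReal.ofReal (t * Real.pi) := by
  have hm : MeasurableSet {p : Fin 2 → ℝ | p 0 ^ 2 + p 1 ^ 2 < t} :=
    measurableSet_lt (by fun_prop) measurable_const
  rw [← Complex.volume_preserving_equiv_pi.measure_preimage hm.nullMeasurableSet]
  have : Complex.measurableEquivPi ⁻¹' {p : Fin 2 → ℝ | p 0 ^ 2 + p 1 ^ 2 < t} =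
      Metric.ball 0 √t := by
    ext z
    simp only [Set.mem_preimage, Complex.measurableEquivPi_apply, Set.mem_ofPred_eq,
      Matrix.cons_val_zero, Matrix.cons_val_one, mem_ball_zero_iff]
    rw [Real.lt_sqrt (norm_nonneg _), Complex.sq_norm, Complex.normSq_apply]
    constructor <;> intro h <;> nlinarith
  rw [this, Complex.volume_ball, ← ENNReal.ofReal_pow (Real.sqrt_nonneg _), Real.sq_sqrt ht,
    ENNReal.ofReal_mul ht, ← NNReal.coe_real_pi, ENNReal.ofReal_coe_nnreal]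

theorem geoEll (b : ℝ) {D t : ℝ} (hD : 0 < D) (ht : 0 ≤ t) :
    volume {p : Fin 2 → ℝ | (2 * p 0 + b * p 1) ^ 2 + D * p 1 ^ 2 < t} =
      ENNReal.ofReal (t * (Real.pi / (2 * √D))) := by
  have hs : 0 < √D := Real.sqrt_pos.2 hD
  have hdet : LinearMap.det (Matrix.toLin' !![2, b; 0, √D]) = 2 * √D := by
    rw [LinearMap.det_toLin', Matrix.det_fin_two_of]
    ring
  have : {p : Fin 2 → ℝ | (2 * p 0 + b * p 1) ^ 2 + D * p 1 ^ 2 < t} =
      Matrix.toLin' !![2, b; 0, √D] ⁻¹' {p : Fin 2 → ℝ | p 0 ^ 2 + p 1 ^ 2 < t} := by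
    ext p
    simp [Matrix.toLin'_apply, Matrix.mulVec, dotProduct, Fin.sum_univ_two, mul_pow,
      Real.sq_sqrt hD.le]
  rw [this, Measure.addHaar_preimage_linearMap volume (by rw [hdet]; positivity), hdet, geoDisc ht,
    ← ENNReal.ofReal_mul (abs_nonneg _), abs_of_pos (by positivity)]
  congr 1
  field_simp

theorem geoAnn (b : ℝ) {D s t : ℝ} (hD : 0 < D) (hs : 0 ≤ s) (hst : s ≤ t) :
    volume {p : Fin 2 → ℝ | s ≤ (2 * p 0 + b * p 1) ^ 2 + D * p 1 ^ 2 ∧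
      (2 * p 0 + b * p 1) ^ 2 + D * p 1 ^ 2 < t} =
      ENNReal.ofReal ((t - s) * (Real.pi / (2 * √D))) := by
  have : {p : Fin 2 → ℝ | s ≤ (2 * p 0 + b * p 1) ^ 2 + D * p 1 ^ 2 ∧
      (2 * p 0 + b * p 1) ^ 2 + D * p 1 ^ 2 < t} =
      {p : Fin 2 → ℝ | (2 * p 0 + b * p 1) ^ 2 + D * p 1 ^ 2 < t} \
        {p : Fin 2 → ℝ | (2 * p 0 + b * p 1) ^ 2 + D * p 1 ^ 2 < s} := by
    ext p
    simp only [Set.mem_ofPred_eq, Set.mem_sdiff, not_lt]
    exact and_comm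
  have hm : MeasurableSet {p : Fin 2 → ℝ | (2 * p 0 + b * p 1) ^ 2 + D * p 1 ^ 2 < s} :=
    measurableSet_lt (by fun_prop) measurable_const
  have hsub : {p : Fin 2 → ℝ | (2 * p 0 + b * p 1) ^ 2 + D * p 1 ^ 2 < s} ⊆
      {p : Fin 2 → ℝ | (2 * p 0 + b * p 1) ^ 2 + D * p 1 ^ 2 < t} :=
    fun p hp => lt_of_lt_of_le hp hst
  rw [this, measure_sdiff hsub hm.nullMeasurableSet
    (by rw [geoEll b hD hs]; exact ENNReal.ofReal_ne_top), geoEll b hD hs,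
    geoEll b hD (hs.trans hst), ← ENNReal.ofReal_sub _ (by positivity)]
  congr 1
  ring

theorem geoAnn_meas (b D s t : ℝ) :
    MeasurableSet {p : Fin 2 → ℝ | s ≤ (2 * p 0 + b * p 1) ^ 2 + D * p 1 ^ 2 ∧
      (2 * p 0 + b * p 1) ^ 2 + D * p 1 ^ 2 < t} := by
  have h : Measurable fun p : Fin 2 → ℝ => (2 * p 0 + b * p 1) ^ 2 + D * p 1 ^ 2 := by fun_prop
  exact h measurableSet_Ico

theorem geoBM {X Y S : Set (Fin 2 → ℝ)} (hX : MeasurableSet X) (hY : MeasurableSet Y)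
    (hS : MeasurableSet S) (h : ∀ x ∈ X, ∀ y ∈ Y, (fun i => (x i + y i) / 2) ∈ S) :
    volume X * volume Y ≤ volume S ^ 2 := by
  have := Pool.Agent.Lib.MP_229ad9_gt.pl_pi 2 (f := X.indicator 1) (g := Y.indicator 1)
    (H := S.indicator 1) (measurable_one.indicator hX) (measurable_one.indicator hY)
    (measurable_one.indicator hS) fun x y => by
      by_cases hx : x ∈ X
      · by_cases hy : y ∈ Y
        · simp [hx, hy, h x hx y hy]
        · simp [hy]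
      · simp [hx]
  rwa [lintegral_indicator_one hX, lintegral_indicator_one hY, lintegral_indicator_one hS] at this

end GeoAux

namespace IQ

variable (F : IQ)

theorem geo (B B' : Finset (ℤ × ℤ)) {r ι : ℝ} (hr : 0 ≤ r) (hr1 : r ≤ 1) (hι : 0 < ι)
    (J : Finset ℕ) (hJ : ∀ (i : ℕ), ∀ β ∈ B, ∀ β' ∈ B', ∀ x y : ℝ, |x - (β'.1 - β.1)| ≤ r →
      |y - (β'.2 - β.2)| ≤ r → i * ι ≤ F.Nr x y → F.Nr x y < (i + 1) * ι → i ∈ J) :
    4 * r ^ 2 * (min B.card B'.card : ℕ) * (√(F.D : ℝ) / (2 * Real.pi)) ≤ J.card * ι := by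
  have hDr : (F.D : ℝ) = -(F.b ^ 2 + 4 * F.a) := by exact_mod_cast F.D_eq
  have hD : (0 : ℝ) < F.D := by
    have := F.hneg
    have h : ((F.b ^ 2 + 4 * F.a : ℤ) : ℝ) < 0 := by exact_mod_cast this
    push_cast at h
    linarith
  have hs : 0 < √(F.D : ℝ) := Real.sqrt_pos.2 hD
  obtain ⟨A, hA⟩ : ∃ A : ℕ → Set (Fin 2 → ℝ), ∀ i, A i =
      {p | i * ι ≤ (2 * p 0 + F.b * p 1) ^ 2 + F.D * p 1 ^ 2 ∧
        (2 * p 0 + F.b * p 1) ^ 2 + F.D * p 1 ^ 2 < (i + 1) * ι} := ⟨_, fun _ => rfl⟩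
  have hAm : ∀ i, MeasurableSet (A i) := fun i => by
    rw [hA]
    exact geoAnn_meas _ _ _ _
  have hS : MeasureTheory.volume (⋃ i ∈ J, A i) ≤
      ENNReal.ofReal (J.card * (ι * (Real.pi / (2 * √(F.D : ℝ))))) := by
    have h1 : ∀ i ∈ J, MeasureTheory.volume (A i) =
        ENNReal.ofReal (ι * (Real.pi / (2 * √(F.D : ℝ)))) := fun i _ => by
      rw [hA, geoAnn _ hD (by positivity) (by nlinarith)]
      congr 2
      ring
    have h2 := MeasureTheory.measure_biUnion_finset_le (μ := MeasureTheory.volume) J A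
    rwa [Finset.sum_congr rfl h1, Finset.sum_const, nsmul_eq_mul, ← ENNReal.ofReal_natCast,
      ← ENNReal.ofReal_mul (Nat.cast_nonneg _)] at h2
  have key := geoBM (X := ⋃ c ∈ B', geoSq r c) (Y := ⋃ c ∈ B.image (fun c => -c), geoSq r c)
    (S := ⋃ i ∈ J, A i) (B'.measurableSet_biUnion fun c _ => geoSq_meas r c)
    ((B.image (fun c => -c)).measurableSet_biUnion fun c _ => geoSq_meas r c)
    (J.measurableSet_biUnion fun i _ => hAm i) fun x hx y hy => by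
      simp only [Set.mem_iUnion, exists_prop, Finset.mem_image] at hx hy
      obtain ⟨c, hc, hx⟩ := hx
      obtain ⟨_, ⟨d, hd, rfl⟩, hy⟩ := hy
      rw [geoSq_mem] at hx hy
      simp only [Prod.fst_neg, Prod.snd_neg, Int.cast_neg] at hy
      obtain ⟨⟨a1, a2⟩, a3, a4⟩ := hx
      obtain ⟨⟨b1, b2⟩, b3, b4⟩ := hy
      have e : F.Nr (x 0 + y 0) (x 1 + y 1) =
          (2 * ((x 0 + y 0) / 2) + F.b * ((x 1 + y 1) / 2)) ^ 2 + F.D * ((x 1 + y 1) / 2) ^ 2 := by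
        rw [hDr, Nr]
        ring
      have h0 : 0 ≤ F.Nr (x 0 + y 0) (x 1 + y 1) / ι := by
        rw [e]
        positivity
      have l1 : (⌊F.Nr (x 0 + y 0) (x 1 + y 1) / ι⌋₊ : ℝ) * ι ≤ F.Nr (x 0 + y 0) (x 1 + y 1) :=
        (le_div_iff₀ hι).1 (Nat.floor_le h0)
      have l2 : F.Nr (x 0 + y 0) (x 1 + y 1) < ((⌊F.Nr (x 0 + y 0) (x 1 + y 1) / ι⌋₊ : ℝ) + 1) * ι :=
        (div_lt_iff₀ hι).1 (Nat.lt_floor_add_one _)
      have u1 : |x 0 + y 0 - (c.1 - d.1)| ≤ r := abs_le.2 ⟨by linarith, by linarith⟩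
      have u2 : |x 1 + y 1 - (c.2 - d.2)| ≤ r := abs_le.2 ⟨by linarith, by linarith⟩
      have hi := hJ _ d hd c hc _ _ u1 u2 l1 l2
      generalize ⌊F.Nr (x 0 + y 0) (x 1 + y 1) / ι⌋₊ = i at hi l1 l2
      have hm : (fun i => (x i + y i) / 2) ∈ A i := by
        rw [hA]
        exact ⟨l1.trans e.le, e.ge.trans_lt l2⟩
      exact Set.mem_biUnion (Finset.mem_coe.2 hi) hm
  rw [geoSq_union hr hr1, geoSq_union hr hr1, Finset.card_image_of_injective _ neg_injective,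
    ← ENNReal.ofReal_mul (by positivity)] at key
  have k2 := key.trans (pow_le_pow_left' hS 2)
  rw [← ENNReal.ofReal_pow (by positivity), ENNReal.ofReal_le_ofReal_iff (by positivity)] at k2
  have m1 : ((min B.card B'.card : ℕ) : ℝ) ≤ B.card := by exact_mod_cast min_le_left _ _
  have m2 : ((min B.card B'.card : ℕ) : ℝ) ≤ B'.card := by exact_mod_cast min_le_right _ _
  have k3 : ((min B.card B'.card : ℕ) * r ^ 2 : ℝ) ^ 2 ≤
      (J.card * (ι * (Real.pi / (2 * √(F.D : ℝ))))) ^ 2 := by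
    have h1 : ((min B.card B'.card : ℕ) * r ^ 2 : ℝ) ^ 2 ≤
        B'.card * r ^ 2 * (B.card * r ^ 2) := by
      rw [sq]
      gcongr
    exact h1.trans k2
  have k4 := (pow_le_pow_iff_left₀ (by positivity) (by positivity) two_ne_zero).1 k3
  have hpi := Real.pi_pos
  calc 4 * r ^ 2 * (min B.card B'.card : ℕ) * (√(F.D : ℝ) / (2 * Real.pi))
      = ((min B.card B'.card : ℕ) * r ^ 2 : ℝ) * (2 * √(F.D : ℝ) / Real.pi) := by
        field_simp
        ring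
    _ ≤ (J.card * (ι * (Real.pi / (2 * √(F.D : ℝ))))) * (2 * √(F.D : ℝ) / Real.pi) := by gcongr
    _ = J.card * ι := by field_simp

end IQ

end Pool.Agent.Lib.MP_ad7336_co
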