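import Pool.Agent.Lib.MP_ad7336_co.Key1
import Pool.Agent.Lib.MP_ad7336_co.Zeta

set_option autoImplicit false

namespace Pool.Agent.Lib.MP_ad7336_co

open QuadraticAlgebra Finset Filter Topology
open scoped Classical

noncomputable def tq (Q : ℕ) : ℝ := ∏ p ∈ Q.primeFactors, (1 - (p : ℝ)⁻¹)

theorem inv_lt_one {p : ℕ} (hp : p.Prime) : (p : ℝ)⁻¹ < 1 :=
  inv_lt_one_of_one_lt₀ (by exact_mod_cast hp.one_lt)

theorem tq_pos (Q : ℕ) : 0 < tq Q :=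
  prod_pos (fun _ hp => sub_pos.2 (inv_lt_one (Nat.prime_of_mem_primeFactors hp)))

theorem totient_real (n : ℕ) : (n.totient : ℝ) = n * tq n := by
  have := congrArg (Rat.cast : ℚ → ℝ) (Nat.totient_eq_mul_prod_factors n)
  simpa [tq] using this

theorem small_pow {c : ℝ} (hc : 0 < c) :
    ∀ᶠ L : ℕ in atTop, (L : ℝ) ^ (19 / 10 : ℝ) * √(2 * Real.log L) ≤ c * L ^ 2 := by
  have h := (isLittleO_log_rpow_atTop (r := 1 / 10) (by norm_num)).bound (half_pos hc)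
  filter_upwards [tendsto_natCast_atTop_atTop.eventually h,
    (Real.tendsto_log_atTop.comp tendsto_natCast_atTop_atTop).eventually_ge_atTop 1,
    eventually_gt_atTop 0] with L h1 h2 h3
  have h4 : (0 : ℝ) < L := by exact_mod_cast h3
  have h2' : 1 ≤ Real.log L := h2
  rw [Real.norm_of_nonneg (by linarith), Real.norm_of_nonneg (by positivity)] at h1
  have h5 : √(2 * Real.log L) ≤ 2 * Real.log L := by
    rw [Real.sqrt_le_left (by linarith)]; nlinarith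
  have h6 : (L : ℝ) ^ (19 / 10 : ℝ) * (L : ℝ) ^ (1 / 10 : ℝ) = L ^ 2 := by
    rw [← Real.rpow_add h4]; norm_num
  have h7 : 0 ≤ (L : ℝ) ^ (19 / 10 : ℝ) := by positivity
  rw [← h6]
  nlinarith [mul_le_mul_of_nonneg_left (h5.trans (by linarith : _ ≤ c * (L : ℝ) ^ (1 / 10 : ℝ))) h7]

namespace IQ

variable (F : IQ)

noncomputable def sQ (Q : ℕ) : ℝ := ∏ p ∈ Q.primeFactors.filter F.Spl, (1 - (p : ℝ)⁻¹)

theorem sQ_pos (Q : ℕ) : 0 < F.sQ Q :=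
  prod_pos (fun _ hp => sub_pos.2 (inv_lt_one (mem_filter.1 hp).2.1))

theorem sQ_le (Q : ℕ) : F.sQ Q ≤ 1 :=
  prod_le_one (fun _ hp => (sub_pos.2 (inv_lt_one (mem_filter.1 hp).2.1)).le)
    (fun _ _ => sub_le_self _ (by positivity))

theorem Ey_pos (Q y : ℕ) : 0 < F.Ey Q y :=
  prod_pos (fun _ hp => sub_pos.2 (inv_lt_one (F.mem_PP.1 hp).2.1.1))

theorem Ey_one {Q y : ℕ} (hQ : Q ≠ 0) (hy : Q ≤ y) : F.Ey 1 y = F.Ey Q y * F.sQ Q := by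
  rw [Ey, Ey, sQ, ← prod_union]
  · congr 1
    ext p
    simp only [mem_union, mem_PP, mem_filter, Nat.mem_primeFactors]
    constructor
    · rintro ⟨h1, h2, -⟩
      by_cases h : p ∣ Q
      · exact Or.inr ⟨⟨h2.1, h, hQ⟩, h2⟩
      · exact Or.inl ⟨h1, h2, h⟩
    · rintro (⟨h1, h2, -⟩ | ⟨⟨h1, h2, -⟩, h3⟩)
      · exact ⟨h1, h2, h2.1.not_dvd_one⟩
      · exact ⟨(Nat.le_of_dvd (Nat.pos_of_ne_zero hQ) h2).trans hy, h3, h1.not_dvd_one⟩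
  · rw [disjoint_left]
    intro p h1 h2
    exact (F.mem_PP.1 h1).2.2 (Nat.dvd_of_mem_primeFactors (mem_filter.1 h2).1)

theorem prod_Ey {Q y y₀ : ℕ} (hy : y₀ ≠ 0) (hQ : y₀.factorial ∣ Q) :
    1 - (y₀ : ℝ)⁻¹ ≤ (∏ p ∈ F.PP Q y, (1 + (p : ℝ)⁻¹)) * F.Ey Q y ∧
      (∏ p ∈ F.PP Q y, (1 + (p : ℝ)⁻¹)) * F.Ey Q y ≤ 1 := by
  have e : (∏ p ∈ F.PP Q y, (1 + (p : ℝ)⁻¹)) * F.Ey Q y =
      ∏ p ∈ F.PP Q y, (1 - ((p : ℝ)⁻¹) ^ 2) := by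
    rw [Ey, ← prod_mul_distrib]
    exact prod_congr rfl (fun _ _ => by ring)
  rw [e]
  refine ⟨prod_one_sub_sq_ge _ hy (fun p hp => not_le.1 (fun h => (F.mem_PP.1 hp).2.2
    (((F.mem_PP.1 hp).2.1.1.dvd_factorial.2 h).trans hQ))), prod_le_one (fun p hp => ?_)
    (fun _ _ => sub_le_self _ (by positivity))⟩
  have h1 := inv_lt_one (F.mem_PP.1 hp).2.1.1
  have h2 : (0 : ℝ) ≤ (p : ℝ)⁻¹ := by positivity
  nlinarith

theorem const_lb {e : ℝ} (he : 0 < e) : ∃ y₀ : ℕ, y₀ ≠ 0 ∧ (y₀ : ℝ)⁻¹ ≤ e ∧ ∀ Q : ℕ, Q ≠ 0 →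
    F.D ∣ Q → y₀.factorial ∣ Q → (1 - e) * F.II / F.ramP / 2 ^ F.D.primeFactors.card ≤
      F.eta Q * F.sQ Q / tq Q := by
  have h1 := (EE_partial F.Ine (s := 2) (by norm_num)).eventually
    (lt_mem_nhds (show (1 - e) * F.II < EE F.Ine 2 by have := F.II_pos; rw [II] at *; nlinarith))
  have h2 := (tendsto_inv_atTop_zero.comp (tendsto_natCast_atTop_atTop (R := ℝ))).eventually
    (ge_mem_nhds he)
  obtain ⟨y₀, h3, h4, h5⟩ := (h1.and (h2.and (eventually_ne_atTop 0))).exists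
  refine ⟨y₀, h5, h4, fun Q hQ hD hy => ?_⟩
  have hs : F.D.primeFactors ⊆ Q.primeFactors := Nat.primeFactors_mono hD hQ
  set g : ℕ → ℝ := fun p => (if F.Spl p then 1 else if p ∣ F.D then 1 / 2 else (1 + (p : ℝ)⁻¹)⁻¹) *
    (if F.Spl p then (1 - (p : ℝ)⁻¹) else 1) / (1 - (p : ℝ)⁻¹) with hg
  have e1 : F.eta Q * F.sQ Q / tq Q = ∏ p ∈ Q.primeFactors, g p := by
    rw [eta, sQ, tq, prod_filter, ← prod_mul_distrib, ← prod_div_distrib]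
  have e2 : ∏ p ∈ F.D.primeFactors, g p = 1 / F.ramP / 2 ^ F.D.primeFactors.card := by
    rw [ramP, div_div, ← prod_const, ← prod_mul_distrib, one_div, ← prod_inv_distrib]
    refine prod_congr rfl (fun p hp => ?_)
    have a1 := Nat.dvd_of_mem_primeFactors hp
    simp only [hg]
    rw [if_neg (fun h : F.Spl p => h.2.1 a1), if_neg (fun h : F.Spl p => h.2.1 a1), if_pos a1]
    rw [mul_inv]; ring
  have e3 : ∀ p, F.Ine p → g p = (1 - (p : ℝ) ^ (-2 : ℝ))⁻¹ := fun p hp => by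
    simp only [hg]
    rw [if_neg hp.not_spl, if_neg hp.not_spl, if_neg hp.not_dvd, mul_one, div_eq_mul_inv, ← mul_inv,
      Real.rpow_neg (Nat.cast_nonneg _), Real.rpow_two]
    congr 1; ring
  have e4 : ∀ p ∈ Q.primeFactors \ F.D.primeFactors, 1 ≤ g p := fun p hp => by
    have a1 := Nat.prime_of_mem_primeFactors (mem_sdiff.1 hp).1
    have a2 := inv_lt_one a1
    have a3 : (0 : ℝ) ≤ (p : ℝ)⁻¹ := by positivity
    rcases F.tri a1 with h | h | h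
    · simp only [hg]
      rw [if_pos h, if_pos h, one_mul, div_self (by linarith)]
    · rw [e3 p h, Real.rpow_neg (Nat.cast_nonneg _), Real.rpow_two, ← inv_pow]
      exact (one_le_inv₀ (by nlinarith)).2 (by nlinarith)
    · exact absurd (Nat.mem_primeFactors.2 ⟨a1, h, by have := F.three_le_D; omega⟩)
        (mem_sdiff.1 hp).2
  have e5 : (1 - e) * F.II ≤ ∏ p ∈ Q.primeFactors \ F.D.primeFactors, g p := by
    refine h3.le.trans ?_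
    rw [← prod_congr rfl (fun p hp => e3 p (mem_filter.1 hp).2.2)]
    have hsub : (range (y₀ + 1)).filter (fun p => p.Prime ∧ F.Ine p) ⊆
        Q.primeFactors \ F.D.primeFactors := fun p hp => by
      obtain ⟨a1, a2, a3⟩ := mem_filter.1 hp
      exact mem_sdiff.2 ⟨Nat.mem_primeFactors.2 ⟨a2, (a2.dvd_factorial.2
        (Nat.lt_succ_iff.1 (mem_range.1 a1))).trans hy, hQ⟩,
        fun h => a3.not_dvd (Nat.dvd_of_mem_primeFactors h)⟩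
    exact prod_le_prod_of_subset_of_one_le hsub (fun p hp => zero_le_one.trans (e4 p (hsub hp)))
      (fun p hp _ => e4 p hp)
  rw [e1, ← prod_sdiff hs, e2]
  have := F.ramP_pos
  calc _ = (1 - e) * F.II * (1 / F.ramP / 2 ^ F.D.primeFactors.card) := by ring
    _ ≤ _ := mul_le_mul_of_nonneg_right e5 (by positivity)

theorem SS_lb (y : ℕ) : ∀ᶠ L : ℕ in atTop, 2 * (F.CE * F.Ey 1 y) / √Real.pi * √(2 * Real.log L) ≤
    14 * SS (F.Lg y) ((L : ℝ) ^ (1 / 20 : ℝ)) := by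
  have h0 : 0 < 2 * (F.CE * F.Ey 1 y) / √Real.pi := by
    have := F.CE_pos
    have := F.Ey_pos 1 y
    have := Real.pi_pos
    positivity
  have h1 := ((F.tendsto_Lg y).comp ((tendsto_rpow_atTop (y := 1 / 20) (by norm_num)).comp
    (tendsto_natCast_atTop_atTop (R := ℝ)))).eventually (lt_mem_nhds (half_lt_self h0))
  filter_upwards [h1, eventually_gt_atTop 1] with L h2 h3
  have h4 : (1 : ℝ) < L := by exact_mod_cast h3
  have h5 := Real.log_pos h4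
  simp only [Function.comp] at h2
  rw [Real.log_rpow (by linarith), lt_div_iff₀ (Real.sqrt_pos.2 (by positivity))] at h2
  have h6 : √(2 * Real.log L) ≤ 7 * √(1 / 20 * Real.log L) := by
    rw [Real.sqrt_le_left (by positivity), mul_pow, Real.sq_sqrt (by positivity)]; linarith
  nlinarith [mul_le_mul_of_nonneg_left h6 h0.le]

/-- The class of a norm. -/
def RR (Q y M : ℕ) (c : ℝ) (u i : ℕ) (T₀ : Finset ℕ) (m : ℕ) : Prop :=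
  m % M = u ∧ i * c < m ∧ m ≤ (i + 1) * c ∧ (F.PP Q y).filter (fun p => p ∣ m) = T₀

theorem k5 {Q T Q' T' L y k k₀ : ℕ} (hL : L ≠ 0) (hQ : Q ∣ Q') (hT : T ∣ T') (hd : Q' * T' ∣ L)
    {η γ B Φ γ' c₀ R : ℝ} (hη : 0 < η) (hγ : 0 < γ) (hγ1 : γ ≤ 1) (hB : 0 ≤ B) (hBL : B ≤ L)
    (hs : 2 * (Q : ℝ) ≤ γ * (L / T : ℕ))
    (hT' : 16 * Real.pi * B * (Q' + 3) * (4 * B + 1) ≤ (η ^ 2 * γ ^ 2 / 8) ^ 2 * T')
    {P : Finset F.O} (hP : P ⊆ F.bx 0 L) {ρ ρ' : F.O} (hρ : ρ ∈ F.bx 0 Q) (hρ' : ρ' ∈ F.bx 0 Q)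
    {β β' : ℤ × ℤ} (hβ : β ∈ F.gb Q T Q' T' L η ((η ^ 2 * γ ^ 2 / 16) ^ 2) P ρ)
    (hβ' : β' ∈ F.gb Q T Q' T' L η ((η ^ 2 * γ ^ 2 / 16) ^ 2) P ρ')
    (hD : 2 * F.D ∣ Q) (hy : Q ≤ y) {T₀ : Finset ℕ} (hT₀ : T₀ ⊆ F.PP Q y)
    (hf : F.FlipP Q γ' c₀ T₀) (hc₀ : 0 < c₀) (hk0 : k ≠ 0) (hk : (k : ℝ) ≤ c₀ * 2 ^ T₀.card)
    {u : ℕ} (hu : u < Q ^ (4 + k₀)) (hg : Nat.gcd u (Q ^ (4 + k₀)) ∣ Q ^ k₀)
    {zu : F.O} (hz : F.nm zu ≡ u [MOD Q ^ (4 + k₀)]) (hzρ : (Q : F.O) ∣ zu - (ρ' - ρ))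
    (hΦ : ∀ (I : Ideal F.O) (Λ Z : Finset F.O) (θ : ℝ × ℝ), (∏ p ∈ T₀, p) ≤ Ideal.absNorm I →
      Ideal.absNorm I ≤ Q ^ (4 + k₀) * ∏ p ∈ T₀, p → Λ.card = k →
      (∀ μ ∈ Λ, F.nm μ = (∏ p ∈ T₀, p) ^ 2) → Z ⊆ F.bx (-L) L → (∀ z ∈ Z, F.sift Q y I z) →
      ¬ Maj Q' B L θ →
      ∑ z ∈ Z, ‖∑ μ ∈ Λ, ee (F.lin θ (μ * z) / (∏ p ∈ T₀, p : ℕ))‖ ^ 2 / k ^ 2 ≤ Φ) (hΦ0 : 0 ≤ Φ)
    {x x' : ℝ} (hx : |x - (β'.1 - β.1)| ≤ 1 - 2 * γ) (hx' : |x' - (β'.2 - β.2)| ≤ 1 - 2 * γ)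
    (hR : ‖(x : ℂ) + x' * F.om‖ ≤ R) (hγ' : R * γ' ≤ γ / 8) {i : ℕ}
    (hi : i * (γ ^ 2 / 16) ≤ F.Nr x x') (hi' : F.Nr x x' < (i + 1) * (γ ^ 2 / 16))
    {A C ε V : ℝ} (hA : (i + 1) * (γ ^ 2 / 16) ≤ A)
    (hW : ∀ M ∈ (Q ^ (4 + k₀)).divisors, ∀ (h : ℕ) (x₁ x₂ : ℝ), Nat.Coprime h M →
      (∀ m p : ℕ, comp (F.Lg y) m → p.Prime → y < p → m * p ≡ h [MOD M] → F.Lg y p) →
      0 ≤ x₁ → x₁ ≤ x₂ → x₂ ≤ A * L ^ 2 → ((x₂ - x₁) * C / M.totient - ε) / V ≤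
        ((Ioc ⌊x₁⌋₊ ⌊x₂⌋₊).filter (fun b => comp (F.Lg y) b ∧ b ≡ h [MOD M])).card) :
    (γ ^ 2 / 16 * ((L / T : ℕ) : ℝ) ^ 2 * C * (∏ p ∈ T₀, (p : ℝ)⁻¹) / (Q ^ (4 + k₀)).totient - ε) / V -
      8 * Φ / (η ^ 2 * γ ^ 2 / 8) ^ 2 / c₀ ≤
      (((P.offDiag.image (fun p => F.nm (p.1 - p.2))).filter (F.RR Q y (Q ^ (4 + k₀))
        (γ ^ 2 / 16 * ((L / T : ℕ) : ℝ) ^ 2) u i T₀)).card : ℝ) := by
  have hQ0 : Q ≠ 0 := by
    rintro rfl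
    exact hL (Nat.eq_zero_of_zero_dvd ((hQ.mul_right _).trans hd))
  have hsp : ∀ p ∈ T₀, F.Spl p := fun _ hp => (F.mem_PP.1 (hT₀ hp)).2.1
  obtain ⟨ha0, hac⟩ := F.prod_cop hT₀
  have hw : ∏ p ∈ T₀, (p : ℝ)⁻¹ = ((∏ p ∈ T₀, p : ℕ) : ℝ)⁻¹ := by
    rw [prod_inv_distrib, Nat.cast_prod]
  rw [hw]
  set a := ∏ p ∈ T₀, p with ha
  have hsL : ((L / T : ℕ) : ℝ) ≤ L := by exact_mod_cast Nat.div_le_self _ _
  have s0 : (0 : ℝ) ≤ ((L / T : ℕ) : ℝ) := Nat.cast_nonneg _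
  set s : ℝ := ((L / T : ℕ) : ℝ) with hsd
  set M := Q ^ (4 + k₀) with hM
  have hM0 : M ≠ 0 := pow_ne_zero _ hQ0
  have hgz : Nat.gcd (F.nm zu) M = Nat.gcd u M := hz.gcd_eq
  set a₁ := Nat.gcd u M
  obtain ⟨n, hn⟩ : a₁ ∣ F.nm zu := hgz ▸ Nat.gcd_dvd_left _ _
  obtain ⟨j, hj⟩ := hg
  have hMe : M = a₁ * (Q ^ 4 * j) := by rw [hM, pow_add, hj]; ring
  set M' := Q ^ 4 * j with hM'
  have a10 : a₁ ≠ 0 := left_ne_zero_of_mul (hMe ▸ hM0)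
  have hM'0 : M' ≠ 0 := right_ne_zero_of_mul (hMe ▸ hM0)
  have hnM : Nat.Coprime n M' := by
    rw [hn, hMe, Nat.gcd_mul_left] at hgz
    exact (mul_eq_left₀ a10).1 hgz
  have hQM : Q ∣ M' := (dvd_pow_self Q (by norm_num)).mul_right _
  have hnQ : Nat.Coprime n Q := hnM.coprime_dvd_right hQM
  have ha₁M : a₁ ∣ M := ⟨_, hMe⟩
  have hM'M : M' ∣ M := ⟨a₁, by rw [hMe, mul_comm]⟩
  have hn0 : n ≠ 0 := by
    rintro rfl
    have h1 := F.three_le_D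
    have h2 := Nat.le_of_dvd (Nat.pos_of_ne_zero hQ0) hD
    rw [Nat.coprime_zero_left] at hnQ
    omega
  have hz0 : zu ≠ 0 := fun h => mul_ne_zero a10 hn0 (hn.symm.trans (F.nm_eq_zero.2 h))
  obtain ⟨A₁, B₁, e1, e2, e3⟩ := F.exists_split hz0 hn
    ((hnQ.pow_right _).coprime_dvd_right ha₁M).symm
  have hB₁ := F.cop_of_absNorm e3 hn0 hnQ
  have haM : Nat.Coprime a M' := (hac.pow_right _).coprime_dvd_right hM'M
  obtain ⟨h, -, hh⟩ := Nat.exists_mul_mod_eq_of_coprime n haM hM'0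
  have hh' : a * h ≡ n [MOD M'] := hh
  have hhM : Nat.Coprime h M' := by
    have : Nat.Coprime (a * h) M' := by rw [Nat.Coprime, hh'.gcd_eq]; exact hnM
    exact this.coprime_mul_left
  have aa : (0 : ℝ) < (a₁ * a : ℕ) := by exact_mod_cast Nat.pos_of_ne_zero (mul_ne_zero a10 ha0)
  have aa1 : (1 : ℝ) ≤ (a₁ * a : ℕ) := by exact_mod_cast Nat.pos_of_ne_zero (mul_ne_zero a10 ha0)
  set c := γ ^ 2 / 16 * s ^ 2 with hc
  have c0 : 0 ≤ c := by positivity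
  have h1 := hW M' (Nat.mem_divisors.2 ⟨hM'M, hM0⟩) h (i * c / (a₁ * a : ℕ))
    ((i + 1) * c / (a₁ * a : ℕ)) hhM (fun m p h1 h2 h3 h4 => ⟨?_, h3⟩) (by positivity)
    (by gcongr; linarith) (by
      refine (div_le_self (by positivity) aa1).trans ?_
      rw [hc, ← mul_assoc]
      exact mul_le_mul hA (by gcongr) (by positivity) (le_trans (by positivity) hA))
  swap
  · refine F.spl_of_cong h2 (I := B₁) (J := F.idl T₀ T₀ * F.can m)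
      ⟨hB₁.1, hB₁.2.coprime_dvd_right hD⟩ ?_
    rw [map_mul, F.absNorm_idl hsp subset_rfl, F.absNorm_can ⟨h1.1, fun p hp h => (h1.2 p hp h).1⟩,
      e3, ← ha, (by ring : p * (a * m) = a * (m * p))]
    refine ((h4.mul_left a).trans hh').of_dvd (Dvd.dvd.mul_right ?_ _)
    obtain ⟨t, rfl⟩ := hD
    exact ⟨4 * F.D ^ 3 * t ^ 4, by ring⟩
  have e4 : ((i + 1) * c / (a₁ * a : ℕ) - i * c / (a₁ * a : ℕ)) * C / M'.totient =
      c * C * (a : ℝ)⁻¹ / M.totient := by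
    have t1 : tq M' = tq M := by
      unfold tq
      rw [subset_antisymm (Nat.primeFactors_mono hM'M hM0) (by
        rw [hM, Nat.primeFactors_pow _ (by omega)]; exact Nat.primeFactors_mono hQM hM'0)]
    have t2 := tq_pos M
    have t3 : (M : ℝ) = a₁ * M' := by exact_mod_cast hMe
    have t4 : (a₁ : ℝ) ≠ 0 := by exact_mod_cast a10
    have t5 : (a : ℝ) ≠ 0 := by exact_mod_cast ha0
    have t6 : (M' : ℝ) ≠ 0 := by exact_mod_cast hM'0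
    rw [totient_real, totient_real, t1, t3]
    push_cast
    field_simp
    ring
  rw [e4] at h1
  set C₀ := (Ioc ⌊i * c / (a₁ * a : ℕ)⌋₊ ⌊(i + 1) * c / (a₁ * a : ℕ)⌋₊).filter
    (fun b => comp (F.Lg y) b ∧ b ≡ h [MOD M'])
  have hC₀ : ∀ b ∈ C₀, comp (F.Lg y) b ∧ a * b ≡ n [MOD M'] ∧ i * c < (a₁ * a * b : ℕ) ∧
      (a₁ * a * b : ℕ) ≤ (i + 1) * c := fun b hb => by
    obtain ⟨b1, b2, b3⟩ := mem_filter.1 hb
    rw [mem_Ioc, Nat.floor_lt (by positivity), Nat.le_floor_iff (by positivity), div_lt_iff₀ aa,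
      le_div_iff₀ aa] at b1
    refine ⟨b2, (b3.mul_left a).trans hh', ?_, ?_⟩
    · rw [mul_comm _ b, Nat.cast_mul b]; exact b1.1
    · rw [mul_comm _ b, Nat.cast_mul b]; exact b1.2
  have h2 := card_filter_add_card_filter_not (s := C₀)
    (fun b => ∀ p ∈ P, ∀ q ∈ P, F.nm (p - q) ≠ a₁ * a * b)
  have h3 := F.k4 hL hQ hT hd hη hγ hγ1 hB hBL hs hT' hP hρ hρ' hβ hβ' hD hy hT₀ hf hk0 hk e1 hz0
    hB₁ hzρ (fun I Λ Z θ hI => hΦ I Λ Z θ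
      (by rw [hI, e2]; exact Nat.le_mul_of_pos_left _ (Nat.pos_of_ne_zero a10))
      (by rw [hI, e2]; exact Nat.mul_le_mul_right _ (Nat.le_of_dvd (Nat.pos_of_ne_zero hM0) ha₁M)))
    hΦ0 hx hx' hR hγ' (C₀.filter (fun b => ∀ p ∈ P, ∀ q ∈ P, F.nm (p - q) ≠ a₁ * a * b))
    (fun b hb => by
      obtain ⟨b1, b2, b3, b4⟩ := hC₀ b (mem_filter.1 hb).1
      rw [e2, e3]
      refine ⟨b1, b2.of_dvd (dvd_mul_right _ _), ?_, (mem_filter.1 hb).2⟩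
      have b5 := mul_le_mul_of_nonneg_left hi (sq_nonneg s)
      have b6 := mul_le_mul_of_nonneg_left hi'.le (sq_nonneg s)
      rw [hc] at b3 b4
      rw [abs_le]
      constructor <;> linarith)
  have h4 : (C₀.filter (fun b => ¬ ∀ p ∈ P, ∀ q ∈ P, F.nm (p - q) ≠ a₁ * a * b)).card ≤
      ((P.offDiag.image (fun p => F.nm (p.1 - p.2))).filter (F.RR Q y M c u i T₀)).card := by
    refine card_le_card_of_injOn (fun b => a₁ * a * b) (fun b hb => ?_)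
      (fun b _ b' _ h => mul_left_cancel₀ (mul_ne_zero a10 ha0) h)
    obtain ⟨b0, b5⟩ := mem_filter.1 (mem_coe.1 hb)
    obtain ⟨b1, b2, b3, b4⟩ := hC₀ b b0
    push Not at b5
    obtain ⟨p, hp, q, hq, b6⟩ := b5
    refine mem_coe.2 (mem_filter.2 ⟨mem_image.2 ⟨(p, q), mem_offDiag.2 ⟨hp, hq, ?_⟩, b6⟩,
      ?_, b3, b4, ?_⟩)
    · rintro (rfl : p = q)
      rw [sub_self, F.nm_eq_zero.2 rfl] at b6
      exact mul_ne_zero (mul_ne_zero a10 ha0) b1.1 b6.symm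
    · have b7 : a₁ * (a * b) ≡ a₁ * n [MOD a₁ * M'] := b2.mul_left' _
      rw [← hMe, ← hn, ← mul_assoc] at b7
      exact Eq.trans (b7.trans hz) (Nat.mod_eq_of_lt hu)
    · ext p
      rw [mem_filter]
      refine ⟨fun ⟨d1, d2⟩ => ?_, fun d => ⟨hT₀ d, ((dvd_prod_of_mem _ d).mul_left _).mul_right _⟩⟩
      obtain ⟨d3, d4, d5⟩ := F.mem_PP.1 d1
      rcases (Nat.Prime.dvd_mul d4.1).1 d2 with d6 | d6
      · rcases (Nat.Prime.dvd_mul d4.1).1 d6 with d7 | d7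
        · exact absurd (d4.1.dvd_of_dvd_pow (d7.trans ha₁M)) d5
        · obtain ⟨q, d8, d9⟩ := (d4.1.prime.dvd_finsetProd_iff _).1 d7
          rwa [(Nat.prime_dvd_prime_iff_eq d4.1 (hsp q d8).1).1 d9]
      · exact absurd (b1.2 p d4.1 d6).2 (not_lt.2 d3)
  rw [← le_div_iff₀' hc₀] at h3
  have h5 := Nat.cast_le (α := ℝ).2 h4
  rw [← h2, Nat.cast_add] at h1
  linarith

end IQ

end Pool.Agent.Lib.MP_ad7336_co
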