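import Pool.Agent.Lib.MP_ad7336_co.Setup
import Pool.Agent.Lib.MP_ad7336_co.Eul

set_option autoImplicit false

namespace Pool.Agent.Lib.MP_ad7336_co

open QuadraticAlgebra Finset Filter Topology
open scoped Classical

namespace Sv

theorem ee_add (s t : ℝ) : ee (s + t) = ee s * ee t := by
  unfold ee
  rw [← Complex.exp_add]
  congr 1
  push_cast
  ring

theorem ee_eq (t : ℝ) : ee t = Complex.exp (Complex.I * ((2 * Real.pi * t : ℝ) : ℂ)) := by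
  unfold ee
  congr 1
  push_cast
  ring

theorem norm_ee (t : ℝ) : ‖ee t‖ = 1 := by
  rw [ee_eq, mul_comm, Complex.norm_exp_ofReal_mul_I]

theorem ee_int (n : ℤ) : ee n = 1 := by
  unfold ee
  rw [← Complex.exp_int_mul_two_pi_mul_I n]
  congr 1
  push_cast
  ring

theorem ee_zero : ee 0 = 1 := by simp [ee]

theorem ee_conj (t : ℝ) : (starRingEnd ℂ) (ee t) = ee (-t) := by
  unfold ee
  rw [← Complex.exp_conj]
  congr 1
  simp [map_ofNat]

theorem norm_ee_sub (t : ℝ) : ‖ee t - 1‖ = 2 * |Real.sin (Real.pi * t)| := by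
  rw [ee_eq, Complex.norm_exp_I_mul_ofReal_sub_one, Real.norm_eq_abs, abs_mul, abs_two]
  congr 3
  ring

theorem ee_up (t : ℝ) : ‖ee t - 1‖ ≤ 7 * |t| := by
  rw [norm_ee_sub]
  have h := Real.abs_sin_le_abs (x := Real.pi * t)
  rw [abs_mul, abs_of_pos Real.pi_pos] at h
  nlinarith [Real.pi_lt_d2, abs_nonneg t]

theorem ee_low {t : ℝ} (h : |t| ≤ 1 / 2) : 4 * |t| ≤ ‖ee t - 1‖ := by
  rw [norm_ee_sub]
  have hp := Real.pi_pos
  have h1 := Real.mul_abs_le_abs_sin (x := Real.pi * t) (by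
    rw [abs_mul, abs_of_pos hp]; nlinarith)
  rw [abs_mul, abs_of_pos hp, ← mul_assoc, div_mul_cancel₀ _ hp.ne'] at h1
  linarith

theorem ee_far {t κ : ℝ} (h : ∀ n : ℤ, κ ≤ |t - n|) : 4 * κ ≤ ‖ee t - 1‖ := by
  have h1 := ee_low (abs_sub_round t)
  have h2 : ee t = ee (t - round t) := by
    conv_lhs => rw [← sub_add_cancel t (round t), ee_add, ee_int, mul_one]
  rw [h2]
  linarith [h (round t)]

theorem ee_eq_one {t : ℝ} (h : ee t = 1) : ∃ n : ℤ, t = n := by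
  refine ⟨round t, ?_⟩
  have h1 := ee_low (abs_sub_round t)
  have h2 : ee t = ee (t - round t) := by
    conv_lhs => rw [← sub_add_cancel t (round t), ee_add, ee_int, mul_one]
  rw [← h2, h, sub_self, _root_.norm_zero] at h1
  exact sub_eq_zero.1 (abs_nonpos_iff.1 (by linarith))

theorem dual {α β : Type} [DecidableEq β] {s Z : Finset α} (Λ : Finset β) {w : α → ℝ} (φ : β → α → ℝ)
    {G D O : ℝ} (hZ : Z ⊆ s) (hpos : ∀ z, 0 ≤ w z) (hone : ∀ z ∈ Z, w z = G)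
    (hpair : ∀ μ ∈ Λ, ∀ ν ∈ Λ, ‖∑ z ∈ s, (w z : ℂ) * ee (φ μ z - φ ν z)‖ ≤
      (if μ = ν then D else 0) + O) :
    G * ∑ z ∈ Z, ‖∑ μ ∈ Λ, ee (φ μ z)‖ ^ 2 ≤ Λ.card * D + Λ.card ^ 2 * O := by
  have h1 : ((∑ z ∈ s, w z * ‖∑ μ ∈ Λ, ee (φ μ z)‖ ^ 2 : ℝ) : ℂ) =
      ∑ μ ∈ Λ, ∑ ν ∈ Λ, ∑ z ∈ s, (w z : ℂ) * ee (φ μ z - φ ν z) := by
    rw [sum_congr rfl fun μ _ => sum_comm, sum_comm]
    push_cast
    refine sum_congr rfl fun z _ => ?_
    rw [← Complex.mul_conj', map_sum, sum_mul_sum, mul_sum]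
    refine sum_congr rfl fun μ _ => ?_
    rw [mul_sum]
    refine sum_congr rfl fun ν _ => ?_
    rw [ee_conj, ← ee_add, sub_eq_add_neg]
  calc _ = ∑ z ∈ Z, w z * ‖∑ μ ∈ Λ, ee (φ μ z)‖ ^ 2 := by
        rw [mul_sum]
        exact sum_congr rfl fun z hz => by rw [hone z hz]
    _ ≤ ∑ z ∈ s, w z * ‖∑ μ ∈ Λ, ee (φ μ z)‖ ^ 2 :=
        sum_le_sum_of_subset_of_nonneg hZ fun z _ _ => mul_nonneg (hpos z) (sq_nonneg _)
    _ ≤ ‖((∑ z ∈ s, w z * ‖∑ μ ∈ Λ, ee (φ μ z)‖ ^ 2 : ℝ) : ℂ)‖ := by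
        rw [Complex.norm_real]
        exact le_abs_self _
    _ ≤ ∑ μ ∈ Λ, ∑ ν ∈ Λ, ((if μ = ν then D else 0) + O) := by
        rw [h1]
        exact norm_sum_le_of_le _ fun μ h => norm_sum_le_of_le _ fun ν h' => hpair μ h ν h'
    _ = _ := by
        rw [sum_congr rfl fun μ h => by rw [sum_add_distrib, sum_ite_eq, if_pos h]]
        simp only [sum_const, nsmul_eq_mul]
        ring

/-- The normalising sum of the sieve. -/
noncomputable def GG (x : ℝ) (P : Finset ℕ) : ℝ :=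
  ∑ T ∈ P.powerset.filter (fun T => ((∏ p ∈ T, p : ℕ) : ℝ) ≤ x), ∏ p ∈ T, ((p : ℝ) - 1)⁻¹

theorem w_nonneg {P T : Finset ℕ} (hP : ∀ p ∈ P, p.Prime) (h : T ⊆ P) :
    0 ≤ ∏ p ∈ T, ((p : ℝ) - 1)⁻¹ :=
  prod_nonneg fun p hp => inv_nonneg.2 (sub_nonneg.2 (by exact_mod_cast (hP p (h hp)).one_lt.le))

theorem GG_one {x : ℝ} (hx : 1 ≤ x) {P : Finset ℕ} (hP : ∀ p ∈ P, p.Prime) : 1 ≤ GG x P := by
  have h := single_le_sum (s := P.powerset.filter (fun T => ((∏ p ∈ T, p : ℕ) : ℝ) ≤ x))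
    (f := fun T : Finset ℕ => ∏ p ∈ T, ((p : ℝ) - 1)⁻¹)
    (fun T hT => w_nonneg hP (mem_powerset.1 (mem_filter.1 hT).1)) (a := ∅) (by simpa using hx)
  simpa [GG] using h

theorem GG_erase (x : ℝ) {y : ℕ} (hy : y ≠ 0) {P : Finset ℕ} (hP : ∀ p ∈ P, p.Prime ∧ y < p)
    (q : ℕ) : GG x P ≤ (1 + (y : ℝ)⁻¹) * GG x (P.erase q) := by
  have hP' : ∀ p ∈ P.erase q, p.Prime := fun p hp => (hP p (mem_of_mem_erase hp)).1
  have h0 : 0 ≤ GG x (P.erase q) :=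
    sum_nonneg fun T hT => w_nonneg hP' (mem_powerset.1 (mem_filter.1 hT).1)
  have hy' : (0 : ℝ) < y := by positivity
  by_cases hq : q ∈ P
  · conv_lhs => rw [← insert_erase hq]
    rw [add_mul, one_mul]
    unfold GG
    rw [sum_filter, sum_filter, sum_powerset_insert (notMem_erase q P), mul_sum]
    refine add_le_add le_rfl (sum_le_sum fun T hT => ?_)
    have hT' := mem_powerset.1 hT
    have hqT : q ∉ T := fun h => notMem_erase q P (hT' h)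
    have hw := w_nonneg hP' hT'
    rw [prod_insert hqT, prod_insert hqT]
    by_cases h1 : ((q * ∏ p ∈ T, p : ℕ) : ℝ) ≤ x
    · rw [if_pos h1, if_pos (le_trans (by
        exact_mod_cast Nat.le_mul_of_pos_left _ (hP q hq).1.pos) h1)]
      refine mul_le_mul_of_nonneg_right (inv_anti₀ hy' ?_) hw
      have : (y : ℝ) + 1 ≤ q := by exact_mod_cast (hP q hq).2
      linarith
    · rw [if_neg h1]
      split_ifs <;> positivity
  · rw [erase_eq_of_notMem hq] at h0 ⊢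
    nlinarith [inv_pos.2 hy']

theorem GG_sdiff (x : ℝ) {y : ℕ} (hy : y ≠ 0) {P : Finset ℕ} (hP : ∀ p ∈ P, p.Prime ∧ y < p)
    (E : Finset ℕ) : GG x P ≤ (1 + (y : ℝ)⁻¹) ^ E.card * GG x (P \ E) := by
  induction E using Finset.induction_on with
  | empty => simp
  | insert q E hq ih =>
    rw [card_insert_of_notMem hq, sdiff_insert, pow_succ, mul_assoc]
    exact ih.trans (mul_le_mul_of_nonneg_left
      (GG_erase x hy (fun p hp => hP p (sdiff_subset hp)) q) (by positivity))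

theorem pow_le_three {y n : ℕ} (hy : y ≠ 0) (h : n ≤ y) : (1 + (y : ℝ)⁻¹) ^ n ≤ 3 := by
  have hy' : (0 : ℝ) < y := by positivity
  have h1 : 1 + (y : ℝ)⁻¹ ≤ Real.exp (y : ℝ)⁻¹ := by linarith [Real.add_one_le_exp (y : ℝ)⁻¹]
  refine (pow_le_pow_left₀ (by positivity) h1 n).trans ?_
  rw [← Real.exp_nat_mul]
  refine (Real.exp_le_exp.2 (?_ : _ ≤ (1 : ℝ))).trans (by linarith [Real.exp_one_lt_d9])
  rw [← div_eq_mul_inv, div_le_one hy']
  exact_mod_cast h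

theorem card_TT {x : ℝ} (hx : 0 ≤ x) {P : Finset ℕ} (hP : ∀ p ∈ P, p.Prime) :
    ((P.powerset.filter (fun T => ((∏ p ∈ T, p : ℕ) : ℝ) ≤ x)).card : ℝ) ≤ x := by
  refine le_trans ?_ (Nat.floor_le hx)
  have h := card_le_card_of_injOn (s := P.powerset.filter (fun T => ((∏ p ∈ T, p : ℕ) : ℝ) ≤ x))
    (t := Icc 1 ⌊x⌋₊) (fun T : Finset ℕ => ∏ p ∈ T, p) (fun T hT => by
      obtain ⟨h1, h2⟩ := mem_filter.1 (mem_coe.1 hT)
      exact mem_coe.2 (mem_Icc.2 ⟨prod_pos fun p hp => (hP p (mem_powerset.1 h1 hp)).pos,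
        Nat.le_floor h2⟩)) (fun T hT T' hT' h => by
      have h1 := mem_powerset.1 (mem_filter.1 (mem_coe.1 hT)).1
      have h2 := mem_powerset.1 (mem_filter.1 (mem_coe.1 hT')).1
      rw [← Nat.primeFactors_prod (fun p hp => hP p (h1 hp)),
        ← Nat.primeFactors_prod (fun p hp => hP p (h2 hp))]
      exact congrArg _ h)
  simpa using h

theorem exists_p0 {t : ℝ} {n : ℕ} (hn : n ≠ 0) (h1 : ∃ a : ℤ, n * t = a) (h2 : ¬ ∃ a : ℤ, t = a) :
    ∃ p : ℕ, p.Prime ∧ ∀ m : ℕ, (∃ a : ℤ, m * t = a) → p ∣ m := by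
  have H : ∃ j : ℕ, j ≠ 0 ∧ ∃ a : ℤ, j * t = a := ⟨n, hn, h1⟩
  obtain ⟨h3, a, ha⟩ := Nat.find_spec H
  refine ⟨(Nat.find H).minFac, Nat.minFac_prime (fun h => h2 ⟨a, by simpa [h] using ha⟩),
    fun m ⟨b, hb⟩ => (Nat.minFac_dvd _).trans (Nat.dvd_of_mod_eq_zero (by_contra fun h => ?_))⟩
  refine Nat.find_min H (Nat.mod_lt m (Nat.pos_of_ne_zero h3))
    ⟨h, b - (m / Nat.find H : ℕ) * a, ?_⟩
  have h4 : ((m % Nat.find H : ℕ) : ℝ) + Nat.find H * (m / Nat.find H : ℕ) = m := by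
    exact_mod_cast Nat.mod_add_div m (Nat.find H)
  rw [Int.cast_sub, Int.cast_mul, Int.cast_natCast, ← ha, ← hb]
  linear_combination t * h4

end Sv

namespace IQ

variable (F : IQ)

open Sv

theorem lin_add (θ : ℝ × ℝ) (z w : F.O) : F.lin θ (z + w) = F.lin θ z + F.lin θ w := by
  simp only [lin, re_add, im_add]
  push_cast
  ring

theorem sv_shift {g : F.O → ℂ} {c : ℝ} (hg : ∀ z, ‖g z‖ ≤ c) (L W : ℕ) {v : F.O}
    (hv : v ∈ F.bx 0 (W + 1)) :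
    ‖∑ z ∈ F.bx (-L) L, g (z + v) - ∑ z ∈ F.bx (-L) L, g z‖ ≤ c * (8 * L * W) := by
  have hc : 0 ≤ c := (norm_nonneg _).trans (hg 0)
  rw [mem_bx] at hv
  have key : ∀ S : Finset F.O, F.bx (-L + W) L ⊆ S → S.card = (F.bx (-L) L).card →
      ‖∑ z ∈ S \ F.bx (-L + W) L, g z‖ ≤ c * (4 * L * W) := fun S h1 h2 => by
    refine (norm_sum_le _ _).trans ((sum_le_card_nsmul _ _ c fun z _ => hg z).trans ?_)
    rw [nsmul_eq_mul, mul_comm]
    refine mul_le_mul_of_nonneg_left ?_ hc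
    rw [card_sdiff_of_subset h1, h2, card_bx, card_bx]
    have h3 : ((L : ℤ) - -L).toNat = 2 * L := by omega
    have h4 : ((L : ℤ) - (-L + W)).toNat = 2 * L - W := by omega
    rw [h3, h4]
    have h5 : (2 * L) ^ 2 - (2 * L - W) ^ 2 ≤ 4 * L * W := by
      rcases le_total W (2 * L) with h | h
      · obtain ⟨d, hd⟩ := Nat.exists_eq_add_of_le h
        have : 2 * L - W = d := by omega
        rw [this, tsub_le_iff_right]
        nlinarith
      · refine (Nat.sub_le _ _).trans ?_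
        nlinarith
    exact_mod_cast h5
  have s1 : F.bx (-L + W) L ⊆ (F.bx (-L) L).map (addRightEmbedding v) := fun z hz => by
    rw [mem_bx] at hz
    refine Finset.mem_map.2 ⟨z - v, F.mem_bx.2 ?_, by simp⟩
    simp only [re_sub, im_sub]
    omega
  have s2 : F.bx (-L + W) L ⊆ F.bx (-L) L := fun z hz => by
    rw [mem_bx] at hz ⊢
    omega
  have e1 : ∑ z ∈ F.bx (-L) L, g (z + v) = ∑ z ∈ (F.bx (-L) L).map (addRightEmbedding v), g z := by
    rw [sum_map]; rfl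
  rw [e1, ← sum_sdiff s1, ← sum_sdiff s2, add_sub_add_right_eq_sub]
  refine (norm_sub_le _ _).trans ?_
  linarith [key _ s1 (card_map _), key _ s2 rfl]

theorem sv_twist {g : F.O → ℂ} (hg : ∀ z, ‖g z‖ ≤ 1) (L W : ℕ) {v : F.O}
    (hv : v ∈ F.bx 0 (W + 1)) {c : ℂ} (h : ∀ z, g (z + v) = c * g z) :
    ‖c - 1‖ * ‖∑ z ∈ F.bx (-L) L, g z‖ ≤ 8 * L * W := by
  have h1 := F.sv_shift hg L W hv
  simp only [h] at h1
  rwa [← mul_sum, ← sub_one_mul, norm_mul, one_mul] at h1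

/-- Periodic functions. -/
def Per {β : Type} (n : ℕ) (g : F.O → β) : Prop := ∀ z w, (n : F.O) ∣ z - w → g z = g w

theorem Per.of_dvd {F : IQ} {β : Type} {n m : ℕ} {g : F.O → β} (h : F.Per n g) (hd : n ∣ m) :
    F.Per m g := fun z w hz => h z w ((Nat.cast_dvd_cast hd).trans hz)

theorem sv_inv {W : ℕ} (hW : W ≠ 0) {g : F.O → ℂ} (hg : F.Per W g) (x : F.O) :
    ∑ v ∈ F.bx 0 W, g (x + v) = ∑ v ∈ F.bx 0 W, g v := by
  choose r hr hd using F.exists_rep hW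
  refine sum_nbij' (fun v => r (x + v)) (fun v => r (v - x)) (fun v _ => hr _) (fun v _ => hr _)
    (fun v hv => F.eq_of_rep (hr _) hv ?_) (fun v hv => F.eq_of_rep (hr _) hv ?_)
    (fun v _ => hg _ _ (hd _))
  · have := (dvd_add (hd (r (x + v) - x)) (hd (x + v))).neg_right
    rwa [(by ring : -(r (x + v) - x - r (r (x + v) - x) + (x + v - r (x + v))) =
      r (r (x + v) - x) - v)] at this
  · have := (dvd_add (hd (x + r (v - x))) (hd (v - x))).neg_right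
    rwa [(by ring : -(x + r (v - x) - r (x + r (v - x)) + (v - x - r (v - x))) =
      r (x + r (v - x)) - v)] at this

theorem sv_card (L : ℕ) : ((F.bx (-L) L).card : ℝ) = 4 * L ^ 2 := by
  rw [card_bx, (by omega : ((L : ℤ) - -L).toNat = 2 * L)]
  push_cast
  ring

theorem sv_card0 (W : ℕ) : (F.bx 0 W).card = W ^ 2 := by
  rw [card_bx]; simp

theorem sv_per {g : F.O → ℂ} {c κ : ℝ} (hg : ∀ z, ‖g z‖ ≤ c) (L : ℕ) {W V : ℕ} (hV : V ≠ 0)
    (hd : W ∣ V) (hp : F.Per W g) (h0 : ∑ v ∈ F.bx 0 V, g v = 0) {β : ℝ × ℝ} (h1 : |β.1| ≤ κ)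
    (h2 : |β.2| ≤ κ) :
    ‖∑ z ∈ F.bx (-L) L, g z * ee (F.lin β z)‖ ≤ c * (8 * L * W + 56 * L ^ 2 * κ * W) := by
  have hc : 0 ≤ c := (norm_nonneg _).trans (hg 0)
  have hκ : 0 ≤ κ := (abs_nonneg _).trans h1
  have hW : W ≠ 0 := fun h => hV (by simpa [h] using hd)
  set S := ∑ z ∈ F.bx (-L) L, g z * ee (F.lin β z) with hS
  have hn : ∀ z, ‖g z * ee (F.lin β z)‖ ≤ c := fun z => by rw [norm_mul, norm_ee, mul_one]; exact hg z
  have hS0 : ‖S‖ ≤ c * (4 * L ^ 2) := by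
    refine (norm_sum_le _ _).trans ((sum_le_card_nsmul _ _ c fun z _ => hn z).trans ?_)
    rw [nsmul_eq_mul, sv_card, mul_comm]
  have key : ∀ v, ‖S - ∑ z ∈ F.bx (-L) L, g (z + v) * ee (F.lin β z)‖ ≤
      c * (8 * L * W + 56 * L ^ 2 * κ * W) := fun v => by
    obtain ⟨r, hr, hrd⟩ := F.exists_rep hW v
    have hr' := F.mem_bx.1 hr
    have h3 := F.sv_shift hn L W (v := r) (F.mem_bx.2 (by omega))
    have h4 : ∑ z ∈ F.bx (-L) L, g (z + r) * ee (F.lin β (z + r)) =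
        ee (F.lin β r) * ∑ z ∈ F.bx (-L) L, g (z + v) * ee (F.lin β z) := by
      rw [mul_sum]
      refine sum_congr rfl fun z _ => ?_
      rw [lin_add, ee_add, hp (z + v) (z + r) (by simpa using hrd)]
      ring
    rw [h4, ← hS] at h3
    have h5 : ‖ee (F.lin β r) - 1‖ ≤ 14 * κ * W := by
      refine (ee_up _).trans ?_
      have a1 : |(r.re : ℝ)| ≤ W := by exact_mod_cast (abs_le.2 ⟨by omega, by omega⟩ : |r.re| ≤ W)
      have a2 : |(r.im : ℝ)| ≤ W := by exact_mod_cast (abs_le.2 ⟨by omega, by omega⟩ : |r.im| ≤ W)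
      have a3 := abs_add_le (β.1 * r.re) (β.2 * r.im)
      rw [abs_mul, abs_mul] at a3
      have a4 := mul_le_mul h1 a1 (abs_nonneg _) hκ
      have a5 := mul_le_mul h2 a2 (abs_nonneg _) hκ
      unfold lin
      linarith
    set U := ∑ z ∈ F.bx (-L) L, g (z + v) * ee (F.lin β z)
    have h6 : ‖S - U‖ = ‖(ee (F.lin β r) - 1) * S - (ee (F.lin β r) * U - S)‖ := by
      rw [(by ring : (ee (F.lin β r) - 1) * S - (ee (F.lin β r) * U - S) =
        ee (F.lin β r) * (S - U)), norm_mul, norm_ee, one_mul]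
    rw [h6]
    refine (norm_sub_le _ _).trans ?_
    rw [norm_mul]
    have h7 := mul_le_mul h5 hS0 (norm_nonneg _) (by positivity)
    linarith
  have h3 : ∑ v ∈ F.bx 0 V, (S - ∑ z ∈ F.bx (-L) L, g (z + v) * ee (F.lin β z)) = (V ^ 2 : ℕ) * S := by
    rw [sum_sub_distrib, sum_const, sum_comm, sv_card0, nsmul_eq_mul, sum_eq_zero, sub_zero]
    intro z _
    rw [← sum_mul, F.sv_inv hV (hp.of_dvd hd), h0, zero_mul]
  have h4 := (norm_sum_le _ _).trans (sum_le_card_nsmul (F.bx 0 V) _ _ fun v _ => key v)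
  rw [h3, norm_mul, sv_card0, nsmul_eq_mul, Complex.norm_natCast] at h4
  exact le_of_mul_le_mul_left h4 (by positivity)

theorem lin_nat (θ : ℝ × ℝ) (n : ℕ) (z : F.O) : F.lin θ (n * z) = n * F.lin θ z := by
  simp [lin]
  ring

theorem lin_one (θ : ℝ × ℝ) : F.lin θ 1 = θ.1 := by simp [lin]

theorem lin_om (θ : ℝ × ℝ) : F.lin θ omega = θ.2 := by simp [lin]

theorem bas_mem (n : ℕ) {e : F.O} (he : e = 1 ∨ e = omega) : (n : F.O) * e ∈ F.bx 0 (n + 1) := by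
  rw [mem_bx]
  rcases he with rfl | rfl <;> simp

theorem per_ee {n : ℕ} {α : ℝ × ℝ} {k₁ k₂ : ℤ} (h1 : n * α.1 = k₁) (h2 : n * α.2 = k₂) :
    F.Per n (fun z => ee (F.lin α z)) := by
  rintro z w ⟨u, hu⟩
  have : F.lin α z = F.lin α w + (k₁ * u.re + k₂ * u.im : ℤ) := by
    rw [(by linear_combination hu : z = w + n * u), lin_add, lin_nat, lin]
    push_cast
    rw [← h1, ← h2, lin]
    ring
  simp only [this, ee_add, ee_int, mul_one]

/-- A bounded family of periodic functions with nonnegative sum of mean `E`. -/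
structure Fam (M R : ℕ) (X E : ℝ) (J : Finset (Finset ℕ × Finset ℕ))
    (f : Finset ℕ × Finset ℕ → F.O → ℝ) (m : Finset ℕ × Finset ℕ → ℕ) : Prop where
  hR : R ≠ 0
  card : (J.card : ℝ) ≤ X
  dvd : ∀ j ∈ J, m j ∣ R
  le : ∀ j ∈ J, (m j : ℝ) ≤ X
  per : ∀ j ∈ J, F.Per (M * m j) (f j)
  bd : ∀ j ∈ J, ∀ z, |f j z| ≤ 1
  pos : ∀ z, 0 ≤ ∑ j ∈ J, f j z
  mean : ∀ c : ℕ, c ≠ 0 → ∑ v ∈ F.bx 0 (M * R * c : ℕ), ∑ j ∈ J, f j v = (M * R * c : ℕ) ^ 2 * E

variable {F}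
variable {M R : ℕ} {X E : ℝ} {J : Finset (Finset ℕ × Finset ℕ)}
  {f : Finset ℕ × Finset ℕ → F.O → ℝ} {m : Finset ℕ × Finset ℕ → ℕ}

theorem Fam.nonneg (H : F.Fam M R X E J f m) (hM : M ≠ 0) : 0 ≤ E := by
  have h := sum_nonneg (s := F.bx 0 (M * R * 1 : ℕ)) fun v _ => H.pos v
  rw [H.mean 1 one_ne_zero] at h
  have := H.hR
  exact le_of_mul_le_mul_left (by rwa [mul_zero]) (by positivity : (0 : ℝ) < (M * R * 1 : ℕ) ^ 2)

theorem Fam.main (H : F.Fam M R X E J f m) (hM : M ≠ 0) {L n : ℕ} {κ : ℝ} (hn : n ≠ 0)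
    (hX : (n : ℝ) ≤ M * X) (hκ : 1 ≤ L * κ) {α β : ℝ × ℝ} {k₁ k₂ : ℤ} (h1 : n * α.1 = k₁)
    (h2 : n * α.2 = k₂) (b1 : |β.1| ≤ κ) (b2 : |β.2| ≤ κ) :
    ‖∑ z ∈ F.bx (-L) L, ((∑ j ∈ J, f j z : ℝ) : ℂ) * ee (F.lin (α + β) z) -
      (∑ j ∈ J, ∑ v ∈ F.bx 0 (M * R * n : ℕ), f j v * ee (F.lin α v)) / (M * R * n : ℕ) ^ 2 *
        ∑ z ∈ F.bx (-L) L, ee (F.lin β z)‖ ≤ 128 * M ^ 2 * X ^ 3 * (L ^ 2 * κ) := by
  have hV : M * R * n ≠ 0 := mul_ne_zero (mul_ne_zero hM H.hR) hn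
  have hκ0 : 0 ≤ κ := (abs_nonneg _).trans b1
  have hX0 : 0 ≤ X := (Nat.cast_nonneg _).trans H.card
  generalize hVe : M * R * n = V at hV ⊢
  have hV' : ((V : ℂ)) ^ 2 ≠ 0 := pow_ne_zero 2 (by exact_mod_cast hV)
  have e1 : ∑ z ∈ F.bx (-L) L, ((∑ j ∈ J, f j z : ℝ) : ℂ) * ee (F.lin (α + β) z) -
      (∑ j ∈ J, ∑ v ∈ F.bx 0 V, f j v * ee (F.lin α v)) / V ^ 2 *
        ∑ z ∈ F.bx (-L) L, ee (F.lin β z) = ∑ j ∈ J, ∑ z ∈ F.bx (-L) L,
      (f j z * ee (F.lin α z) - (∑ v ∈ F.bx 0 V, f j v * ee (F.lin α v)) / V ^ 2) *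
        ee (F.lin β z) := by
    rw [sum_comm (s := J) (t := F.bx (-L) L), mul_sum, ← sum_sub_distrib]
    refine sum_congr rfl fun z _ => ?_
    rw [← sum_mul, sum_sub_distrib, ← sum_mul, ← sum_div,
      (by simp only [lin, Prod.fst_add, Prod.snd_add]; ring :
        F.lin (α + β) z = F.lin α z + F.lin β z), ee_add]
    push_cast
    ring
  rw [e1]
  have key : ∀ j ∈ J, ‖∑ z ∈ F.bx (-L) L,
      (f j z * ee (F.lin α z) - (∑ v ∈ F.bx 0 V, f j v * ee (F.lin α v)) / V ^ 2) *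
        ee (F.lin β z)‖ ≤ 128 * M ^ 2 * X ^ 2 * (L ^ 2 * κ) := fun j hj => by
    have a1 : ∀ z, ‖(f j z : ℂ) * ee (F.lin α z)‖ ≤ 1 := fun z => by
      rw [norm_mul, norm_ee, mul_one, Complex.norm_real]; exact H.bd j hj z
    have a2 : ‖(∑ v ∈ F.bx 0 V, (f j v : ℂ) * ee (F.lin α v)) / V ^ 2‖ ≤ 1 := by
      rw [norm_div, norm_pow, Complex.norm_natCast, div_le_one (by positivity)]
      refine (norm_sum_le _ _).trans ((sum_le_card_nsmul _ _ 1 fun z _ => a1 z).trans ?_)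
      rw [sv_card0]; simp
    refine (F.sv_per (c := 2) (W := M * m j * n) (fun z => (norm_sub_le _ _).trans
      (by linarith [a1 z])) L hV ?_ (fun z w h => ?_) ?_ b1 b2).trans ?_
    · rw [← hVe]
      exact mul_dvd_mul_right (mul_dvd_mul_left M (H.dvd j hj)) n
    · have a3 := (H.per j hj).of_dvd (dvd_mul_right _ n) z w h
      have a4 := (F.per_ee h1 h2).of_dvd (dvd_mul_left n (M * m j)) z w h
      simp only at a4 ⊢
      rw [a3, a4]
    · rw [sum_sub_distrib, sum_const, sv_card0, nsmul_eq_mul]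
      push_cast
      rw [mul_div_cancel₀ _ hV', sub_self]
    · have a3 : ((M * m j * n : ℕ) : ℝ) ≤ M ^ 2 * X ^ 2 := by
        push_cast
        have := mul_le_mul (mul_le_mul_of_nonneg_left (H.le j hj) (Nat.cast_nonneg M)) hX
          (Nat.cast_nonneg _) (by positivity)
        linarith
      generalize ((M * m j * n : ℕ) : ℝ) = W at a3
      have a4 : (L : ℝ) ≤ L ^ 2 * κ := by nlinarith [(Nat.cast_nonneg L : (0 : ℝ) ≤ L)]
      have a5 := mul_le_mul_of_nonneg_left a3 (Nat.cast_nonneg (α := ℝ) L)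
      have a6 := mul_le_mul_of_nonneg_left a3 (by positivity : (0 : ℝ) ≤ L ^ 2 * κ)
      have a7 := mul_le_mul_of_nonneg_right a4 (by positivity : (0 : ℝ) ≤ M ^ 2 * X ^ 2)
      linarith
  refine (norm_sum_le _ _).trans ((sum_le_card_nsmul _ _ _ key).trans ?_)
  rw [nsmul_eq_mul]
  exact (mul_le_mul_of_nonneg_right H.card (by positivity)).trans (le_of_eq (by ring))

theorem Fam.mean_le (H : F.Fam M R X E J f m) (hM : M ≠ 0) {n : ℕ} (hn : n ≠ 0) (α : ℝ × ℝ) :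
    ‖(∑ j ∈ J, ∑ v ∈ F.bx 0 (M * R * n : ℕ), f j v * ee (F.lin α v)) / (M * R * n : ℕ) ^ 2‖ ≤ E := by
  have := H.hR
  rw [norm_div, norm_pow, Complex.norm_natCast, div_le_iff₀ (by positivity), mul_comm E,
    ← H.mean n hn, sum_comm]
  refine (norm_sum_le _ _).trans (sum_le_sum fun v _ => ?_)
  rw [← sum_mul, norm_mul, norm_ee, mul_one, ← Complex.ofReal_sum, Complex.norm_real,
    Real.norm_of_nonneg (H.pos v)]

theorem Fam.diag (H : F.Fam M R X E J f m) (hM : M ≠ 0) {L : ℕ} {κ : ℝ} (hX : 1 ≤ X)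
    (hκ : 1 ≤ L * κ) (hκ0 : 0 ≤ κ) :
    ‖∑ z ∈ F.bx (-L) L, ((∑ j ∈ J, f j z : ℝ) : ℂ) * ee (F.lin 0 z)‖ ≤
      E * (4 * L ^ 2) + 128 * M ^ 2 * X ^ 3 * (L ^ 2 * κ) := by
  have hM1 : (1 : ℝ) ≤ M := by exact_mod_cast Nat.pos_of_ne_zero hM
  have h := H.main hM (n := 1) (α := 0) (β := 0) (k₁ := 0) (k₂ := 0) one_ne_zero
    (by push_cast; nlinarith) hκ (by simp) (by simp) (by simpa using hκ0) (by simpa using hκ0)
  rw [add_zero] at h
  refine (norm_le_insert' _ _).trans (add_le_add ?_ h)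
  rw [norm_mul]
  refine mul_le_mul (H.mean_le hM one_ne_zero 0) ?_ (norm_nonneg _) (H.nonneg hM)
  refine (norm_sum_le _ _).trans ((sum_le_card_nsmul _ _ 1 fun z _ => (norm_ee _).le).trans ?_)
  rw [nsmul_eq_mul, sv_card, mul_one]

variable (F)

theorem sv_off (hM : M ≠ 0) {L : ℕ} {κ B : ℝ} (hX : 1 ≤ X) (hκ : κ ^ 2 * L = 1) (hκ0 : 0 < κ)
    (hκ1 : κ ≤ 1 / 2) (hB : 0 < B) (θ : ℝ × ℝ)
    (far : ¬ ∃ k₁ k₂ : ℤ, |M * θ.1 - k₁| ≤ M * (2 * B / L) ∧ |M * θ.2 - k₂| ≤ M * (2 * B / L)) :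
    ∃ p : ℕ, p.Prime ∧ ∀ (R : ℕ) (E : ℝ) (J : Finset (Finset ℕ × Finset ℕ))
      (f : Finset ℕ × Finset ℕ → F.O → ℝ) (m : Finset ℕ × Finset ℕ → ℕ), F.Fam M R X E J f m →
      (∀ j ∈ J, ¬ p ∣ m j) → ‖∑ z ∈ F.bx (-L) L, ((∑ j ∈ J, f j z : ℝ) : ℂ) * ee (F.lin θ z)‖ ≤
        E * (L ^ 2 / B) + 128 * M ^ 2 * X ^ 3 * (L ^ 2 * κ) := by
  have hM1 : (1 : ℝ) ≤ M := by exact_mod_cast Nat.pos_of_ne_zero hM
  have hL : (0 : ℝ) < L := by
    rcases (Nat.cast_nonneg L : (0 : ℝ) ≤ L).eq_or_lt with h | h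
    · rw [← h] at hκ; simp at hκ
    · exact h
  have hLκ : 1 ≤ L * κ := by nlinarith
  by_cases hb : ∃ n : ℕ, n ≠ 0 ∧ (n : ℝ) ≤ M * X ∧
      ∀ e : F.O, e = 1 ∨ e = omega → ∃ k : ℤ, |n * F.lin θ e - k| < κ
  · obtain ⟨n, hn, hnX, hk⟩ := hb
    obtain ⟨k₁, h1⟩ := hk 1 (Or.inl rfl)
    obtain ⟨k₂, h2⟩ := hk omega (Or.inr rfl)
    rw [lin_one] at h1
    rw [lin_om] at h2
    have hn1 : (1 : ℝ) ≤ n := by exact_mod_cast Nat.pos_of_ne_zero hn
    obtain ⟨α, a1, a2⟩ : ∃ α : ℝ × ℝ, n * α.1 = k₁ ∧ n * α.2 = k₂ :=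
      ⟨(k₁ / n, k₂ / n), mul_div_cancel₀ _ (by positivity), mul_div_cancel₀ _ (by positivity)⟩
    obtain ⟨β, rfl⟩ : ∃ β, θ = α + β := ⟨θ - α, by ring⟩
    have bb : ∀ a b : ℝ, |n * (a + b) - n * a| < κ → |b| ≤ κ := fun a b h => by
      rw [mul_add, add_sub_cancel_left, abs_mul, abs_of_nonneg (by positivity)] at h
      nlinarith [abs_nonneg b]
    have b1 : |β.1| ≤ κ := bb α.1 _ (by rwa [← a1] at h1)
    have b2 : |β.2| ≤ κ := bb α.2 _ (by rwa [← a2] at h2)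
    by_cases hc : ∀ e : F.O, e = 1 ∨ e = omega → ∃ a : ℤ, M * F.lin α e = a
    · obtain ⟨c₁, d1⟩ := hc 1 (Or.inl rfl)
      obtain ⟨c₂, d2⟩ := hc omega (Or.inr rfl)
      rw [lin_one] at d1
      rw [lin_om] at d2
      have h3 : ∃ e : F.O, (e = 1 ∨ e = omega) ∧ 2 * B / L ≤ |F.lin β e| ∧ |F.lin β e| ≤ κ := by
        by_contra h
        push Not at h
        have g1 := h 1 (Or.inl rfl)
        have g2 := h omega (Or.inr rfl)
        rw [lin_one] at g1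
        rw [lin_om] at g2
        refine far ⟨c₁, c₂, ?_, ?_⟩
        · rw [← d1, Prod.fst_add, mul_add, add_sub_cancel_left, abs_mul, Nat.abs_cast]
          exact mul_le_mul_of_nonneg_left (le_of_not_ge fun h => (g1 h).not_ge b1) (by positivity)
        · rw [← d2, Prod.snd_add, mul_add, add_sub_cancel_left, abs_mul, Nat.abs_cast]
          exact mul_le_mul_of_nonneg_left (le_of_not_ge fun h => (g2 h).not_ge b2) (by positivity)
      obtain ⟨e, he, g1, g2⟩ := h3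
      have h4 := F.sv_twist (g := fun z => ee (F.lin β z)) (fun z => (norm_ee _).le) L 1
        (v := e) (by simpa using F.bas_mem 1 he) (c := ee (F.lin β e))
        (fun z => by simp only [lin_add, ee_add, mul_comm])
      have h5 := mul_le_mul_of_nonneg_right ((mul_le_mul_of_nonneg_left g1 (by norm_num)).trans
        (ee_low (g2.trans hκ1))) (norm_nonneg (∑ z ∈ F.bx (-L) L, ee (F.lin β z)))
      refine ⟨2, Nat.prime_two, fun R E J f m H _ => ?_⟩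
      refine (norm_le_insert' _ _).trans (add_le_add ?_ (H.main hM hn hnX hLκ a1 a2 b1 b2))
      rw [norm_mul]
      refine mul_le_mul (H.mean_le hM hn α) ?_ (norm_nonneg _) (H.nonneg hM)
      have h6 := h5.trans h4
      rw [le_div_iff₀ hB]
      rw [← mul_div_assoc, div_mul_eq_mul_div, div_le_iff₀ hL] at h6
      push_cast at h6
      linarith
    · push Not at hc
      obtain ⟨e, he, hc⟩ := hc
      obtain ⟨p, hp, hp'⟩ := exists_p0 (t := M * F.lin α e) hn (by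
        rcases he with rfl | rfl
        · exact ⟨M * k₁, by rw [lin_one]; push_cast; rw [← a1]; ring⟩
        · exact ⟨M * k₂, by rw [lin_om]; push_cast; rw [← a2]; ring⟩) (fun ⟨a, ha⟩ => hc a ha)
      refine ⟨p, hp, fun R E J f m H hm => ?_⟩
      have h3 := H.main hM hn hnX hLκ a1 a2 b1 b2
      rw [sum_eq_zero (s := J), zero_div, zero_mul, sub_zero] at h3
      · exact h3.trans (le_add_of_nonneg_left (mul_nonneg (H.nonneg hM) (by positivity)))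
      intro j hj
      by_contra h4
      have h5 := F.sv_inv (W := M * R * n) (g := fun v => f j v * ee (F.lin α v))
        (mul_ne_zero (mul_ne_zero hM H.hR) hn) (fun z w h => by
          have a3 := (H.per j hj).of_dvd
            ((mul_dvd_mul_left M (H.dvd j hj)).trans (dvd_mul_right _ n)) z w h
          have a4 := (F.per_ee a1 a2).of_dvd (dvd_mul_left n (M * R)) z w h
          simp only at a4 ⊢
          rw [a3, a4]) ((M * m j : ℕ) * e)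
      have h6 : ∀ v, (f j ((M * m j : ℕ) * e + v) : ℂ) * ee (F.lin α ((M * m j : ℕ) * e + v)) =
          ee (m j * (M * F.lin α e)) * (f j v * ee (F.lin α v)) := fun v => by
        rw [H.per j hj _ v ⟨e, by ring⟩, lin_add, ee_add, lin_nat, Nat.cast_mul, mul_comm (M : ℝ),
          mul_assoc]
        ring
      simp only [h6] at h5
      rw [← mul_sum, mul_eq_right₀ h4] at h5
      exact hm j hj (hp' _ (ee_eq_one h5))
  · push Not at hb
    refine ⟨2, Nat.prime_two, fun R E J f m H _ => ?_⟩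
    have key : ∀ j ∈ J, ‖∑ z ∈ F.bx (-L) L, (f j z : ℂ) * ee (F.lin θ z)‖ ≤
        2 * (M * X) * (L ^ 2 * κ) := fun j hj => by
      have a0 : ((M * m j : ℕ) : ℝ) ≤ M * X := by
        push_cast; exact mul_le_mul_of_nonneg_left (H.le j hj) (by positivity)
      obtain ⟨e, he, hk⟩ := hb (M * m j)
        (mul_ne_zero hM (ne_zero_of_dvd_ne_zero H.hR (H.dvd j hj))) a0
      have a1 := F.sv_twist (g := fun z => (f j z : ℂ) * ee (F.lin θ z)) (fun z => by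
        rw [norm_mul, norm_ee, mul_one, Complex.norm_real]; exact H.bd j hj z) L (M * m j)
        (F.bas_mem _ he) (c := ee ((M * m j : ℕ) * F.lin θ e)) (fun z => by
          rw [H.per j hj _ z ⟨e, by ring⟩, lin_add, ee_add, lin_nat]
          ring)
      have a2 := (mul_le_mul_of_nonneg_right (ee_far hk) (norm_nonneg _)).trans a1
      have a3 := mul_le_mul_of_nonneg_left a0 hL.le
      refine le_of_mul_le_mul_left ?_ hκ0
      rw [(by ring : κ * (2 * (M * X) * (L ^ 2 * κ)) = 2 * (L * (M * X)) * (κ ^ 2 * L)), hκ]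
      linarith
    simp only [Complex.ofReal_sum, sum_mul]
    rw [sum_comm]
    refine (norm_sum_le _ _).trans ((sum_le_card_nsmul _ _ _ key).trans ?_)
    rw [nsmul_eq_mul]
    refine (mul_le_mul_of_nonneg_right H.card (by positivity)).trans
      (le_add_of_nonneg_of_le (mul_nonneg (H.nonneg hM) (by positivity)) ?_)
    rw [← mul_assoc]
    refine mul_le_mul_of_nonneg_right ?_ (by positivity)
    have a1 : (1 : ℝ) ≤ M * X := by nlinarith
    have a2 := mul_le_mul_of_nonneg_left a1 (by positivity : (0 : ℝ) ≤ M * X ^ 2)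
    nlinarith [(by positivity : (0 : ℝ) ≤ M * X ^ 2)]

theorem sv_mean {ι : Type} (s : Finset ι) (P : ι → Ideal F.O) (hinj : Set.InjOn P s)
    (hp : ∀ i ∈ s, Prime (P i)) {A : Ideal F.O} (hA : A ≠ ⊥) {W : ℕ} (hW : W ≠ 0)
    (h0 : (W : F.O) ∈ A) (h1 : ∀ i ∈ s, (W : F.O) ∈ A * P i) (u w : ι → ℝ) :
    ∑ z ∈ F.bx 0 W, (if z ∈ A then 1 else 0) * ∏ i ∈ s, (if z ∈ A * P i then u i else w i) =
      W ^ 2 * ((Ideal.absNorm A : ℝ)⁻¹ * ∏ i ∈ s, ((u i - w i) / Ideal.absNorm (P i) + w i)) := by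
  have e1 : ∀ z i, (if z ∈ A * P i then u i else w i) =
      (u i - w i) * (if z ∈ A * P i then 1 else 0) + w i := fun z i => by split_ifs <;> ring
  simp only [e1, prod_add, mul_sum]
  rw [sum_comm]
  refine sum_congr rfl fun t ht => ?_
  have ht' := mem_powerset.1 ht
  have hm : ∀ z, z ∈ A * ∏ i ∈ t, P i ↔ z ∈ A ∧ ∀ i ∈ t, z ∈ A * P i := fun z => by
    rw [← prod_image (f := fun K : Ideal F.O => K) (hinj.mono (coe_subset.2 ht')),
      F.mem_mul_prod hA (forall_mem_image.2 fun i hi => hp i (ht' hi)), forall_mem_image]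
  have hc := F.card_mem hW ((hm _).2 ⟨h0, fun i hi => h1 i (ht' hi)⟩)
  have e2 : ∀ z, (if z ∈ A then (1 : ℝ) else 0) * ((∏ i ∈ t, (u i - w i) *
      (if z ∈ A * P i then 1 else 0)) * ∏ i ∈ s \ t, w i) = ((∏ i ∈ t, (u i - w i)) *
        ∏ i ∈ s \ t, w i) * if z ∈ A * ∏ i ∈ t, P i then 1 else 0 := fun z => by
    rw [prod_mul_distrib, prod_boole]
    simp only [hm, ite_and]
    split_ifs <;> simp
  simp only [e2]
  rw [← mul_sum, sum_boole, prod_div_distrib, ← Nat.cast_pow, ← hc, map_mul, map_prod]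
  have n1 : (Ideal.absNorm A : ℝ) ≠ 0 := by exact_mod_cast F.absNorm_ne hA
  have n2 : ∏ i ∈ t, (Ideal.absNorm (P i) : ℝ) ≠ 0 := prod_ne_zero_iff.2 fun i hi => by
    exact_mod_cast F.absNorm_ne (hp i (ht' hi)).ne_zero
  push_cast
  field_simp

theorem mem_per {K : Ideal F.O} {n : ℕ} (h : (n : F.O) ∈ K) {z w : F.O} (hd : (n : F.O) ∣ z - w) :
    z ∈ K ↔ w ∈ K := by
  obtain ⟨u, hu⟩ := hd
  rw [(by linear_combination hu : z = w + n * u)]
  exact K.add_mem_iff_left (K.mul_mem_right u h)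

theorem nat_mem_mul {I P : Ideal F.O} {a p n : ℕ} (h1 : (a : F.O) ∈ I) (h2 : (p : F.O) ∈ P)
    (h : a * p ∣ n) : (n : F.O) ∈ I * P := by
  obtain ⟨c, rfl⟩ := h
  push_cast
  exact Ideal.mul_mem_right _ _ (Ideal.mul_mem_mul h1 h2)

/-- The exact sieve by the small primes. -/
noncomputable def sm (Q y : ℕ) (I : Ideal F.O) (z : F.O) : ℝ :=
  if z ∈ I ∧ ∀ p ∈ F.PP Q y, z ∉ I * F.pp p ∧ z ∉ I * F.cj (F.pp p) then 1 else 0

/-- The orthogonal functions of the large primes. -/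
noncomputable def lam (I : Ideal F.O) (T : Finset ℕ) (z : F.O) : ℝ :=
  ∏ p ∈ T, if z ∈ I * F.cj (F.pp p) then -1 else ((p : ℝ) - 1)⁻¹

theorem lam_le (I : Ideal F.O) {T : Finset ℕ} (hT : ∀ p ∈ T, p.Prime) (z : F.O) :
    |F.lam I T z| ≤ 1 := by
  rw [lam, abs_prod]
  refine prod_le_one (fun _ _ => abs_nonneg _) fun p hp => ?_
  have : (2 : ℝ) ≤ p := by exact_mod_cast (hT p hp).two_le
  split_ifs
  · simp
  · rw [abs_inv, abs_of_nonneg (by linarith)]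
    exact inv_le_one_of_one_le₀ (by linarith)

theorem sv_orth {Q y a : ℕ} {I : Ideal F.O} (hI : I ≠ ⊥) (ha : (a : F.O) ∈ I) {P : Finset ℕ}
    (hP : ∀ p ∈ P, F.Lg y p) {T T' : Finset ℕ} (hT : T ⊆ P) (hT' : T' ⊆ P) {W : ℕ} (hW : W ≠ 0)
    (h1 : ∀ p ∈ F.PP Q y, a * p ∣ W) (h2 : ∀ p ∈ P, a * p ∣ W) (h3 : a ∣ W) :
    ∑ z ∈ F.bx 0 W, F.sm Q y I z * (F.lam I T z * F.lam I T' z) = W ^ 2 *
      ((Ideal.absNorm I : ℝ)⁻¹ * F.Ey Q y ^ 2 *
        if T = T' then ∏ p ∈ T, ((p : ℝ) - 1)⁻¹ else 0) := by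
  have sp : ∀ p ∈ F.PP Q y, F.Spl p := fun p hp => (F.mem_PP.1 hp).2.1
  have cji : ∀ p q, F.Spl p → F.Spl q → F.cj (F.pp p) = F.cj (F.pp q) → p = q :=
    fun p q hp hq h => F.pp_inj hp hq (by rw [← F.cj_cj (F.pp p), h, cj_cj])
  have dj : ∀ p ∈ F.PP Q y, ∀ q ∈ P, F.cj (F.pp p) ≠ F.cj (F.pp q) := fun p hp q hq h => by
    have := cji p q (sp p hp) (hP q hq).1 h
    have := (F.mem_PP.1 hp).1
    have := (hP q hq).2
    omega
  have h := F.sv_mean ((F.PP Q y).disjSum ((F.PP Q y).disjSum P))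
    (Sum.elim F.pp (Sum.elim (fun p => F.cj (F.pp p)) (fun p => F.cj (F.pp p)))) ?_ ?_ hI hW
    (by obtain ⟨c, rfl⟩ := h3; push_cast; exact I.mul_mem_right _ ha) ?_
    (Sum.elim 0 (Sum.elim 0 fun p => (if p ∈ T then -1 else 1) * if p ∈ T' then -1 else 1))
    (Sum.elim 1 (Sum.elim 1 fun p => (if p ∈ T then ((p : ℝ) - 1)⁻¹ else 1) *
      if p ∈ T' then ((p : ℝ) - 1)⁻¹ else 1))
  · simp only [prod_disjSum, Sum.elim_inl, Sum.elim_inr, Pi.zero_apply, Pi.one_apply] at h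
    refine (sum_congr rfl fun z _ => ?_).trans (h.trans ?_)
    · have e1 : ∀ S ⊆ P, F.lam I S z = ∏ p ∈ P, if p ∈ S then
          (if z ∈ I * F.cj (F.pp p) then -1 else ((p : ℝ) - 1)⁻¹) else 1 := fun S hS => by
        rw [prod_ite_mem, inter_eq_right.2 hS, lam]
      have e2 : ∀ K : ℕ → Ideal F.O, (∏ p ∈ F.PP Q y, if z ∈ K p then (0 : ℝ) else 1) =
          if ∀ p ∈ F.PP Q y, z ∉ K p then 1 else 0 := fun K => by
        rw [← prod_boole]
        exact prod_congr rfl fun p _ => (ite_not _ _ _).symm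
      rw [e1 T hT, e1 T' hT', ← prod_mul_distrib, e2, e2, ← mul_assoc, ← mul_assoc, sm]
      congr 1
      · simp only [imp_and, forall_and, ite_and]
        split_ifs <;> simp
      · exact prod_congr rfl fun p _ => by split_ifs <;> rfl
    · have e1 : ∏ p ∈ F.PP Q y, (((0 : ℝ) - 1) / Ideal.absNorm (F.pp p) + 1) = F.Ey Q y :=
        prod_congr rfl fun p hp => by rw [(sp p hp).absNorm]; ring
      simp only [absNorm_cj]
      rw [e1, mul_assoc, sq (F.Ey Q y), mul_assoc]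
      congr 4
      have e2 : ∀ p ∈ P, (p : ℝ) ≠ 0 ∧ (p : ℝ) - 1 ≠ 0 := fun p hp => by
        have : (2 : ℝ) ≤ p := by exact_mod_cast (hP p hp).1.1.two_le
        constructor <;> linarith
      split_ifs with h4
      · subst h4
        rw [← inter_eq_right.2 hT, ← prod_ite_mem, inter_eq_right.2 hT]
        refine prod_congr rfl fun p hp => ?_
        obtain ⟨g1, g2⟩ := e2 p hp
        rw [(hP p hp).1.absNorm]
        split_ifs
        · field_simp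
          ring
        · simp
      · obtain ⟨p, hp⟩ := not_forall.1 (fun h5 => h4 (Finset.ext h5))
        have hpP : p ∈ P := by_contra fun h5 => hp (iff_of_false (h5 <| hT ·) (h5 <| hT' ·))
        obtain ⟨g1, g2⟩ := e2 p hpP
        refine prod_eq_zero hpP ?_
        rw [(hP p hpP).1.absNorm]
        split_ifs with g3 g4 g4
        · exact absurd (iff_of_true g3 g4) hp
        · field_simp
          ring
        · field_simp
          ring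
        · exact absurd (iff_of_false g3 g4) hp
  · rintro (p | p | p) hp (q | q | q) hq h <;>
      simp only [mem_coe, inl_mem_disjSum, inr_mem_disjSum, Sum.elim_inl, Sum.elim_inr] at hp hq h
    · rw [F.pp_inj (sp p hp) (sp q hq) h]
    · exact absurd h (F.pp_ne_cj (sp p hp) (sp q hq))
    · exact absurd h (F.pp_ne_cj (sp p hp) (hP q hq).1)
    · exact absurd h.symm (F.pp_ne_cj (sp q hq) (sp p hp))
    · rw [cji p q (sp p hp) (sp q hq) h]
    · exact absurd h (dj p hp q hq)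
    · exact absurd h.symm (F.pp_ne_cj (sp q hq) (hP p hp).1)
    · exact absurd h.symm (dj q hq p hp)
    · rw [cji p q (hP p hp).1 (hP q hq).1 h]
  · rintro (p | p | p) hp <;>
      simp only [inl_mem_disjSum, inr_mem_disjSum, Sum.elim_inl, Sum.elim_inr] at hp ⊢
    · exact F.pp_prime (sp p hp).1
    · exact F.cj_prime (F.pp_prime (sp p hp).1)
    · exact F.cj_prime (F.pp_prime (hP p hp).1.1)
  · rintro (p | p | p) hp <;>
      simp only [inl_mem_disjSum, inr_mem_disjSum, Sum.elim_inl, Sum.elim_inr] at hp ⊢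
    · exact F.nat_mem_mul ha (F.pp_mem (sp p hp).1) (h1 p hp)
    · exact F.nat_mem_mul ha (F.nat_mem_cj (F.pp_mem (sp p hp).1)) (h1 p hp)
    · exact F.nat_mem_mul ha (F.nat_mem_cj (F.pp_mem (hP p hp).1.1)) (h2 p hp)

/-- The index set of the sieve. -/
noncomputable def TT (x : ℝ) (P : Finset ℕ) : Finset (Finset ℕ) :=
  P.powerset.filter (fun T => ((∏ p ∈ T, p : ℕ) : ℝ) ≤ x)

theorem sv_sum (Q y : ℕ) (I : Ideal F.O) (S : Finset (Finset ℕ)) (z : F.O) :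
    ∑ j ∈ S ×ˢ S, F.sm Q y I z * (F.lam I j.1 z * F.lam I j.2 z) =
      F.sm Q y I z * (∑ T ∈ S, F.lam I T z) ^ 2 := by
  rw [← mul_sum, sq, sum_mul_sum, sum_product]

theorem sv_fam {Q y a : ℕ} (ha0 : a ≠ 0) {I : Ideal F.O} (hI : I ≠ ⊥) (ha : (a : F.O) ∈ I)
    {P : Finset ℕ} (hP : ∀ p ∈ P, F.Lg y p) {x : ℝ} (hx : 0 ≤ x) :
    F.Fam (a * ∏ p ∈ F.PP Q y, p) ((∏ p ∈ P, p) * ∏ p ∈ P, p) (x ^ 2)
      ((Ideal.absNorm I : ℝ)⁻¹ * F.Ey Q y ^ 2 * GG x P) (TT x P ×ˢ TT x P)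
      (fun j z => F.sm Q y I z * (F.lam I j.1 z * F.lam I j.2 z))
      (fun j => (∏ p ∈ j.1, p) * ∏ p ∈ j.2, p) := by
  have hP' : ∀ p ∈ P, p.Prime := fun p hp => (hP p hp).1.1
  have sp : ∀ p ∈ F.PP Q y, p.Prime := fun p hp => (F.mem_PP.1 hp).2.1.1
  have hR : ∏ p ∈ P, p ≠ 0 := prod_ne_zero_iff.2 fun p hp => (hP' p hp).ne_zero
  have sub : ∀ T ∈ TT x P, T ⊆ P := fun T hT => mem_powerset.1 (mem_filter.1 hT).1
  have hsm : ∀ z, 0 ≤ F.sm Q y I z ∧ F.sm Q y I z ≤ 1 := fun z => by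
    unfold sm
    split_ifs <;> simp
  refine ⟨mul_ne_zero hR hR, ?_, fun j hj => ?_, fun j hj => ?_, fun j hj z w h => ?_,
    fun j hj z => ?_, fun z => ?_, fun c hc => ?_⟩
  · rw [card_product, Nat.cast_mul, sq]
    exact mul_le_mul (card_TT hx hP') (card_TT hx hP') (Nat.cast_nonneg _) hx
  · exact mul_dvd_mul (prod_dvd_prod_of_subset _ _ _ (sub _ (mem_product.1 hj).1))
      (prod_dvd_prod_of_subset _ _ _ (sub _ (mem_product.1 hj).2))
  · rw [Nat.cast_mul, sq]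
    exact mul_le_mul (mem_filter.1 (mem_product.1 hj).1).2 (mem_filter.1 (mem_product.1 hj).2).2
      (Nat.cast_nonneg _) hx
  · have e1 : ∀ T ⊆ P, (∏ p ∈ T, p) ∣ (∏ p ∈ j.1, p) * ∏ p ∈ j.2, p →
        F.lam I T z = F.lam I T w := fun T hT hd => prod_congr rfl fun p hp => by
      rw [F.mem_per (F.nat_mem_mul ha (F.nat_mem_cj (F.pp_mem (hP' p (hT hp))))
        (mul_dvd_mul (dvd_mul_right _ _) ((dvd_prod_of_mem _ hp).trans hd))) h]
    have e2 : ∀ p ∈ F.PP Q y, a * p ∣ (a * ∏ p ∈ F.PP Q y, p) * ((∏ p ∈ j.1, p) * ∏ p ∈ j.2, p) :=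
      fun p hp => (mul_dvd_mul_left a (dvd_prod_of_mem _ hp)).trans (dvd_mul_right _ _)
    rw [e1 _ (sub _ (mem_product.1 hj).1) (dvd_mul_right _ _),
      e1 _ (sub _ (mem_product.1 hj).2) (dvd_mul_left _ _)]
    congr 1
    refine if_congr (and_congr (F.mem_per ?_ h) (forall₂_congr fun p hp => ?_)) rfl rfl
    · rw [mul_assoc, Nat.cast_mul]
      exact I.mul_mem_right _ ha
    · rw [F.mem_per (F.nat_mem_mul ha (F.pp_mem (sp p hp)) (e2 p hp)) h,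
        F.mem_per (F.nat_mem_mul ha (F.nat_mem_cj (F.pp_mem (sp p hp))) (e2 p hp)) h]
  · rw [abs_mul, abs_mul, abs_of_nonneg (hsm z).1]
    exact mul_le_one₀ (hsm z).2 (by positivity) (mul_le_one₀
      (F.lam_le I (fun p hp => hP' p (sub _ (mem_product.1 hj).1 hp)) z) (abs_nonneg _)
      (F.lam_le I (fun p hp => hP' p (sub _ (mem_product.1 hj).2 hp)) z))
  · rw [sv_sum]
    exact mul_nonneg (hsm z).1 (sq_nonneg _)
  · rw [sum_comm, sum_product, GG, mul_sum, mul_sum]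
    refine sum_congr rfl fun T hT => ?_
    rw [sum_congr rfl fun T' hT' => F.sv_orth hI ha hP (sub T hT) (sub T' hT') (mul_ne_zero
      (mul_ne_zero (mul_ne_zero ha0 (prod_ne_zero_iff.2 fun p hp => (sp p hp).ne_zero))
        (mul_ne_zero hR hR)) hc)
      (fun p hp => ((mul_dvd_mul_left a (dvd_prod_of_mem _ hp)).mul_right _).mul_right _)
      (fun p hp => (mul_dvd_mul (dvd_mul_right _ _) ((dvd_prod_of_mem _ hp).mul_right _)).mul_right _)
      (((dvd_mul_right _ _).mul_right _).mul_right _), ← mul_sum, ← mul_sum, sum_ite_eq,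
      if_pos (show T ∈ TT x P from hT)]

theorem lin_mul (θ : ℝ × ℝ) (δ z : F.O) (a : ℝ) :
    F.lin θ (δ * z) / a = F.lin (F.lin θ δ / a, F.lin θ (δ * omega) / a) z := by
  simp [lin]
  ring

theorem sv_far {A a₂ M L : ℕ} {B : ℝ} (hB : 0 ≤ B) (θ : ℝ × ℝ) {δ : F.O} (hδ : δ ≠ 0)
    (hn : F.nm δ ≤ 4 * A ^ 2) (h0 : a₂ ≠ 0) (hA : a₂ ≤ A) {k₁ k₂ : ℤ}
    (h1 : |M * (F.lin θ δ / a₂) - k₁| ≤ M * (2 * B / L))
    (h2 : |M * (F.lin θ (δ * omega) / a₂) - k₂| ≤ M * (2 * B / L)) :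
    Maj (M * (4 * A ^ 2).factorial) ((4 * A ^ 2).factorial * A * (M * (2 * B)) *
      (4 * (4 * A ^ 2 * (1 + F.nm omega) : ℕ))) L θ := by
  obtain ⟨c, hc⟩ := Nat.dvd_factorial (Nat.pos_of_ne_zero (mt F.nm_eq_zero.1 hδ)) hn
  have hc1 : (c : ℝ) ≤ (4 * A ^ 2).factorial := by
    exact_mod_cast Nat.le_of_dvd (Nat.factorial_pos _) ⟨F.nm δ, by rw [hc, mul_comm]⟩
  have ha : (a₂ : ℝ) ≠ 0 := by exact_mod_cast h0
  have key : ∀ e : F.O, F.nm e ≤ 1 + F.nm omega → ∃ k : ℤ,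
      |(M * (4 * A ^ 2).factorial : ℕ) * F.lin θ e - k| ≤ (4 * A ^ 2).factorial * A *
        (M * (2 * B)) * (4 * (4 * A ^ 2 * (1 + F.nm omega) : ℕ)) / L := fun e he => by
    have a1 := F.lin_mul θ δ (star δ * e) a₂
    rw [← mul_assoc, mul_star_eq, lin_nat, div_eq_iff ha] at a1
    have a2 : F.nm (star δ * e) ≤ 4 * A ^ 2 * (1 + F.nm omega) := by
      rw [nm_mul, nm_star]; exact Nat.mul_le_mul hn he
    obtain ⟨a3, a4⟩ := F.coord_le (star δ * e)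
    generalize star δ * e = u at a1 a2 a3 a4
    generalize 4 * A ^ 2 * (1 + F.nm omega) = C at a2 ⊢
    have a5 : |(u.re : ℝ)| ≤ 2 * C := by exact_mod_cast (by omega : |u.re| ≤ 2 * C)
    have a6 : |(u.im : ℝ)| ≤ 2 * C := by exact_mod_cast (by omega : |u.im| ≤ 2 * C)
    refine ⟨c * a₂ * (k₁ * u.re + k₂ * u.im), ?_⟩
    have a7 : (M * (4 * A ^ 2).factorial : ℕ) * F.lin θ e -
        (c * a₂ * (k₁ * u.re + k₂ * u.im) : ℤ) = c * a₂ * ((M * (F.lin θ δ / a₂) - k₁) * u.re +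
          (M * (F.lin θ (δ * omega) / a₂) - k₂) * u.im) := by
      rw [hc]
      rw [lin.eq_1 F (F.lin θ δ / a₂, F.lin θ (δ * omega) / a₂)] at a1
      simp only at a1
      push_cast
      linear_combination (M * c : ℝ) * a1
    have a8 := (abs_add_le _ _).trans (add_le_add
      ((abs_mul _ _).trans_le (mul_le_mul h1 a5 (abs_nonneg _) (by positivity)))
      ((abs_mul _ _).trans_le (mul_le_mul h2 a6 (abs_nonneg _) (by positivity))))
    rw [a7, abs_mul, abs_of_nonneg (by positivity)]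
    exact (mul_le_mul (mul_le_mul hc1 (Nat.cast_le.2 hA) (by positivity) (by positivity)) a8
      (abs_nonneg _) (by positivity)).trans (le_of_eq (by ring))
  obtain ⟨c₁, d1⟩ := key 1 (by rw [← Nat.cast_one, nm_natCast]; simp)
  obtain ⟨c₂, d2⟩ := key omega (by omega)
  rw [lin_one] at d1
  rw [lin_om] at d2
  exact ⟨c₁, c₂, d1, d2⟩

theorem nm_sub_le {A : ℕ} {μ ν : F.O} (h1 : F.nm μ ≤ A ^ 2) (h2 : F.nm ν ≤ A ^ 2) :
    F.nm (μ - ν) ≤ 4 * A ^ 2 := by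
  have key : ∀ z : F.O, F.nm z ≤ A ^ 2 → ‖F.emb z‖ ≤ A := fun z h =>
    abs_le_of_sq_le_sq' (by rw [norm_emb_sq]; exact_mod_cast h) (Nat.cast_nonneg A) |>.2
  have h3 := norm_sub_le (F.emb μ) (F.emb ν)
  rw [← map_sub] at h3
  have h4 := pow_le_pow_left₀ (norm_nonneg _) (h3.trans (add_le_add (key μ h1) (key ν h2))) 2
  rw [norm_emb_sq] at h4
  exact_mod_cast h4.trans (le_of_eq (by ring : ((A : ℝ) + A) ^ 2 = 4 * A ^ 2))

theorem sieve (Q y A k : ℕ) (hk : k ≠ 0) (hy : k ^ 2 ≤ y) {B₀ : ℝ} (hB₀ : 0 < B₀) :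
    ∃ (Q₁ : ℕ) (B₁ : ℝ), Q₁ ≠ 0 ∧ 0 ≤ B₁ ∧ ∀ᶠ L : ℕ in atTop, ∀ (I : Ideal F.O) (a₂ : ℕ)
      (Λ Z : Finset F.O) (θ : ℝ × ℝ), I ≠ ⊥ → Ideal.absNorm I ≤ A → a₂ ≠ 0 → a₂ ≤ A →
      Λ.card = k → (∀ μ ∈ Λ, F.nm μ ≤ A ^ 2) → Z ⊆ F.bx (-L) L → (∀ z ∈ Z, F.sift Q y I z) →
      ¬ Maj Q₁ B₁ L θ →
      ∑ z ∈ Z, ‖∑ μ ∈ Λ, ee (F.lin θ (μ * z) / a₂)‖ ^ 2 / k ^ 2 ≤
        3 * F.Ey Q y ^ 2 / (Ideal.absNorm I * SS (F.Lg y) ((L : ℝ) ^ (1 / 20 : ℝ))) *
          (4 / k + 1 / B₀) * L ^ 2 + (L : ℝ) ^ (19 / 10 : ℝ) := by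
  have hM : A.factorial * ∏ p ∈ F.PP Q y, p ≠ 0 := mul_ne_zero (Nat.factorial_ne_zero A)
    (prod_ne_zero_iff.2 fun p hp => (F.mem_PP.1 hp).2.1.1.ne_zero)
  have hfam := fun (I : Ideal F.O) => F.sv_fam (Q := Q) (y := y) (I := I) (Nat.factorial_ne_zero A)
  generalize A.factorial * ∏ p ∈ F.PP Q y, p = M at hM hfam
  have hy0 : y ≠ 0 := by have := pow_ne_zero 2 hk; omega
  refine ⟨_, (4 * A ^ 2).factorial * A * (M * (2 * B₀)) * (4 * (4 * A ^ 2 * (1 + F.nm omega) : ℕ)),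
    mul_ne_zero hM (Nat.factorial_ne_zero (4 * A ^ 2)), by positivity, ?_⟩
  filter_upwards [((tendsto_rpow_atTop (by norm_num : (0 : ℝ) < 1 / 20)).comp
    tendsto_natCast_atTop_atTop).eventually_ge_atTop (12 * M)] with L hL I a₂ Λ Z θ hI hIA ha0 haA
    hΛ hμ hZ hs hmaj
  have hM1 : (1 : ℝ) ≤ M := by exact_mod_cast Nat.pos_of_ne_zero hM
  have e20 : ((L : ℝ) ^ (1 / 20 : ℝ)) ^ 20 = L := by
    rw [← Real.rpow_natCast, ← Real.rpow_mul (Nat.cast_nonneg L)]; norm_num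
  have e38 : (L : ℝ) ^ (19 / 10 : ℝ) = ((L : ℝ) ^ (1 / 20 : ℝ)) ^ 38 := by
    rw [← Real.rpow_natCast, ← Real.rpow_mul (Nat.cast_nonneg L)]; norm_num
  rw [e38]
  simp only [Function.comp] at hL
  generalize (L : ℝ) ^ (1 / 20 : ℝ) = t at hL e20
  have ht : 2 ≤ t := by linarith
  have ht10 : 2 ≤ t ^ 10 := ht.trans (le_self_pow₀ (by linarith) (by norm_num))
  have hX : 1 ≤ t ^ 2 := one_le_pow₀ (by linarith)
  have herr : 128 * M ^ 2 * (t ^ 2) ^ 3 * (L ^ 2 * (t ^ 10)⁻¹) ≤ t ^ 38 := by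
    rw [← e20, (by field_simp : 128 * M ^ 2 * (t ^ 2) ^ 3 * ((t ^ 20) ^ 2 * (t ^ 10)⁻¹) =
      128 * M ^ 2 * t ^ 36), (by ring : t ^ 38 = t ^ 2 * t ^ 36)]
    exact mul_le_mul_of_nonneg_right (by nlinarith) (by positivity)
  have hoff := fun (μ ν : F.O) (h1 : μ ∈ Λ) (h2 : ν ∈ Λ) (h3 : μ ≠ ν) => F.sv_off hM (L := L)
    (κ := (t ^ 10)⁻¹) hX (by rw [← e20]; field_simp) (by positivity)
    (by rw [one_div]; exact inv_anti₀ two_pos ht10) hB₀
    (F.lin θ (μ - ν) / a₂, F.lin θ ((μ - ν) * omega) / a₂) (fun ⟨k₁, k₂, g1, g2⟩ => hmaj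
      (F.sv_far hB₀.le θ (sub_ne_zero.2 h3) (F.nm_sub_le (hμ μ h1) (hμ ν h2)) ha0 haA g1 g2))
  choose! p0 hp0 hoff using hoff
  set P₀ := (range (⌊t⌋₊ + 1)).filter (F.Lg y)
  set P := P₀ \ (Λ ×ˢ Λ).image (fun j => p0 j.1 j.2) with hPe
  have hP₀ : ∀ p ∈ P₀, p.Prime ∧ y < p := fun p hp =>
    ⟨(mem_filter.1 hp).2.1.1, (mem_filter.1 hp).2.2⟩
  have hP : ∀ p ∈ P, F.Lg y p := fun p hp => (mem_filter.1 (sdiff_subset hp)).2
  have hP' : ∀ p ∈ P, p.Prime := fun p hp => (hP p hp).1.1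
  have hG1 := GG_one (by linarith : 1 ≤ t) hP'
  have hS1 := one_le_SS (F.Lg y) (by linarith : 1 ≤ t)
  have hSG : SS (F.Lg y) t ≤ 3 * GG t P := (SS_le _ t P₀ (fun p hp => (hP₀ p hp).1) fun p _ h1 h2 =>
    mem_filter.2 ⟨mem_range.2 (Nat.lt_succ_of_le (Nat.le_floor h2)), h1⟩).trans
    ((GG_sdiff t hy0 hP₀ _).trans (mul_le_mul_of_nonneg_right (pow_le_three hy0
      (card_image_le.trans (by rwa [card_product, hΛ, ← sq]))) (by linarith)))
  have hN := Nat.pos_of_ne_zero (F.absNorm_ne hI)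
  have H := hfam I hI (by
    obtain ⟨c, hc⟩ := Nat.dvd_factorial hN hIA
    rw [hc, Nat.cast_mul]
    exact I.mul_mem_right _ (Ideal.absNorm_mem I)) hP (by linarith : 0 ≤ t)
  have hE := H.nonneg hM
  have hpos := H.pos
  have hone : ∀ z ∈ Z, ∑ j ∈ TT t P ×ˢ TT t P, F.sm Q y I z * (F.lam I j.1 z * F.lam I j.2 z) =
      GG t P ^ 2 := fun z hz => by
    rw [sv_sum, sm, if_pos ⟨(hs z hz).1, (hs z hz).2.1⟩, one_mul]
    congr 1
    exact sum_congr rfl fun T hT => prod_congr rfl fun p hp =>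
      if_neg ((hs z hz).2.2 p (hP p (mem_powerset.1 (mem_filter.1 hT).1 hp)))
  have hpair : ∀ μ ∈ Λ, ∀ ν ∈ Λ, ‖∑ z ∈ F.bx (-L) L, ((∑ j ∈ TT t P ×ˢ TT t P,
      F.sm Q y I z * (F.lam I j.1 z * F.lam I j.2 z) : ℝ) : ℂ) * ee (F.lin θ ((μ - ν) * z) / a₂)‖ ≤
      (if μ = ν then (Ideal.absNorm I : ℝ)⁻¹ * F.Ey Q y ^ 2 * GG t P * (4 * L ^ 2) else 0) +
      ((Ideal.absNorm I : ℝ)⁻¹ * F.Ey Q y ^ 2 * GG t P * (L ^ 2 / B₀) + t ^ 38) :=
      fun μ h1 ν h2 => by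
    split_ifs with h3
    · have h4 := H.diag hM (L := L) (κ := (t ^ 10)⁻¹) hX (by
        rw [← e20, (by field_simp : t ^ 20 * (t ^ 10)⁻¹ = t ^ 10)]; linarith) (by positivity)
      have h5 : ∀ z, F.lin θ ((μ - ν) * z) / a₂ = F.lin 0 z := fun z => by simp [h3, lin]
      simp only [h5]
      linarith [mul_nonneg hE (by positivity : (0 : ℝ) ≤ L ^ 2 / B₀)]
    · rw [sum_congr rfl fun z _ => by rw [F.lin_mul θ (μ - ν) z], zero_add]
      refine (hoff μ ν h1 h2 h3 _ _ _ _ _ H fun j hj h4 => ?_).trans (add_le_add le_rfl herr)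
      have h5 : ∀ T ∈ TT t P, ¬ p0 μ ν ∣ ∏ p ∈ T, p := fun T hT h => by
        obtain ⟨p, hp, h6⟩ := ((hp0 μ ν h1 h2 h3).prime.dvd_finsetProd_iff _).1 h
        have h7 := mem_powerset.1 (mem_filter.1 hT).1 hp
        exact (mem_sdiff.1 h7).2 (mem_image.2 ⟨(μ, ν), mem_product.2 ⟨h1, h2⟩,
          (Nat.prime_dvd_prime_iff_eq (hp0 μ ν h1 h2 h3) (hP' p h7)).1 h6⟩)
      exact ((hp0 μ ν h1 h2 h3).dvd_mul.1 h4).elim (h5 _ (mem_product.1 hj).1)
        (h5 _ (mem_product.1 hj).2)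
  have hd := dual Λ (fun μ z => F.lin θ (μ * z) / a₂) hZ hpos hone fun μ h1 ν h2 => by
    refine le_of_eq_of_le (congrArg _ (sum_congr rfl fun z _ => ?_)) (hpair μ h1 ν h2)
    congr 2
    rw [← sub_div, ← sub_add_cancel μ ν, add_mul, lin_add, add_sub_cancel_right,
      add_sub_cancel_right]
  rw [hΛ] at hd
  rw [← sum_div]
  have hk' : (0 : ℝ) < k := by positivity
  have hN' : (0 : ℝ) < Ideal.absNorm I := by exact_mod_cast hN
  generalize ∑ z ∈ Z, ‖∑ μ ∈ Λ, ee (F.lin θ (μ * z) / a₂)‖ ^ 2 = Y at hd ⊢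
  generalize SS (F.Lg y) t = S at hS1 hSG ⊢
  generalize GG t P = G at hG1 hSG hd
  generalize (Ideal.absNorm I : ℝ) = N at hN' hd ⊢
  have g1 : Y / k ^ 2 ≤ F.Ey Q y ^ 2 / (N * G) * (4 / k + 1 / B₀) * L ^ 2 + t ^ 38 / G ^ 2 := by
    rw [div_le_iff₀ (by positivity), ← mul_le_mul_iff_right₀ (by positivity : 0 < G ^ 2)]
    refine hd.trans (le_of_eq ?_)
    field_simp
    ring
  refine g1.trans (add_le_add ?_ (div_le_self (by positivity) (one_le_pow₀ hG1)))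
  refine mul_le_mul_of_nonneg_right (mul_le_mul_of_nonneg_right ?_ (by positivity)) (by positivity)
  rw [div_le_div_iff₀ (by positivity) (by positivity)]
  nlinarith [mul_le_mul_of_nonneg_left hSG (by positivity : 0 ≤ F.Ey Q y ^ 2 * N)]

end IQ

end Pool.Agent.Lib.MP_ad7336_co
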