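import Pool.Agent.Lib.MP_ad7336_co.Wirs
import Pool.Agent.Lib.MP_ad7336_co.Flip
import Pool.Agent.Lib.MP_ad7336_co.Adel
import Pool.Agent.Lib.MP_ad7336_co.Geo
import Pool.Agent.Lib.MP_ad7336_co.Sieve
import Pool.Agent.Lib.MP_ad7336_co.Key2

set_option autoImplicit false

namespace Pool.Agent.Lib.MP_ad7336_co

open QuadraticAlgebra Finset Filter Topology
open scoped Classical

theorem Maj.mul {Q₁ : ℕ} {B₁ : ℝ} {L : ℕ} {θ : ℝ × ℝ} (h : Maj Q₁ B₁ L θ) (Q : ℕ) :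
    Maj (Q * Q₁) (Q * B₁) L θ := by
  obtain ⟨k₁, k₂, h₁, h₂⟩ := h
  have e : ∀ (t : ℝ) (k : ℤ), |Q₁ * t - k| ≤ B₁ / L →
      |(Q * Q₁ : ℕ) * t - (Q * k : ℤ)| ≤ Q * B₁ / L := fun t k h => by
    push_cast
    rw [mul_assoc, ← mul_sub, abs_mul, Nat.abs_cast, mul_div_assoc]
    exact mul_le_mul_of_nonneg_left h (Nat.cast_nonneg _)
  exact ⟨_, _, e _ _ h₁, e _ _ h₂⟩

theorem fin_aux {ε e r G a b W κ X Y Z : ℝ} (he : e = ε / 10) (hr : r = 1 - 2 * (ε / 20))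
    (hε : 0 < ε) (hε1 : ε ≤ 1) (hG : 0 ≤ G) (ha : 0 ≤ a) (hκ : 0 ≤ κ)
    (h1 : (1 - e) * κ ≤ X) (h2 : (1 - e) * (1 - e) ≤ W) (hW : W ≤ 1) (hY : 0 ≤ Y)
    (h3 : r ^ 2 * (X * G - Y) ≤ Z) (h4 : a * Y ≤ b) :
    (1 - ε) * (a * κ) * G - b ≤ a * Z * W := by
  have e0 : 0 ≤ 1 - e := by linarith
  have r0 : 0 ≤ r := by linarith
  have r1 : r ^ 2 ≤ 1 := by nlinarith
  have r2 : 1 - ε / 5 ≤ r ^ 2 := by nlinarith
  have W0 : 0 ≤ W := le_trans (by positivity) h2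
  have e1 : 1 - ε / 5 ≤ W := by nlinarith
  have e2 : 1 - ε ≤ r ^ 2 * (1 - e) * W := by
    have : (1 - ε / 5) * (1 - e) * (1 - ε / 5) ≤ r ^ 2 * (1 - e) * W :=
      mul_le_mul (mul_le_mul_of_nonneg_right r2 e0) e1 (by linarith) (by positivity)
    nlinarith [mul_nonneg hε.le hε.le, mul_nonneg (mul_nonneg hε.le hε.le) (sub_nonneg.2 hε1)]
  have e3 : (1 - ε) * (κ * G) ≤ r ^ 2 * (X * G) * W := by
    calc _ ≤ r ^ 2 * (1 - e) * W * (κ * G) := mul_le_mul_of_nonneg_right e2 (by positivity)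
      _ = r ^ 2 * W * G * ((1 - e) * κ) := by ring
      _ ≤ r ^ 2 * W * G * X := mul_le_mul_of_nonneg_left h1 (by positivity)
      _ = _ := by ring
  have e4 : r ^ 2 * W * Y ≤ Y := mul_le_of_le_one_left hY (mul_le_one₀ r1 W0 hW)
  have e5 := mul_le_mul_of_nonneg_right h3 W0
  have e6 : (1 - ε) * (κ * G) - Y ≤ Z * W := by linarith
  have e7 := mul_le_mul_of_nonneg_left e6 ha
  linarith

theorem pos_of_mul_pos_of_pos_left' {S : ℝ} (h : 0 < 14 * S) : 0 < S := by linarith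

theorem err_aux {X δ L2 V n Φ W Lp b c₀ C S k CE sQ Ey : ℝ} (V0 : 0 < V) (n0 : 0 ≤ n) (δ0 : 0 < δ)
    (L0 : 0 ≤ L2) (b0 : 0 < b) (hc₀ : 0 < c₀) (S0 : 0 < S) (k0 : 0 < k) (CE0 : 0 < CE) (sQ0 : 0 < sQ)
    (Ey0 : 0 < Ey) (W0 : 0 ≤ W) (Lp0 : 0 ≤ Lp) (W1 : W * Ey ≤ 1)
    (hC : C = 2 * (CE * (Ey * sQ)) / √Real.pi) (hΦ : Φ = 3 * Ey ^ 2 / S * (4 / k + 1 / k) * L2)
    (hsm : Lp * V ≤ δ * b * c₀ / (8 * (n + 1)) * L2) (hSS : C * V ≤ 14 * S)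
    (hk : 840 * √Real.pi / (b * c₀ * CE * sQ * δ) < k) :
    (X - 3 * δ * L2) / V ≤ (X - δ / (n + 1) * (n * L2)) / V - 8 * (Φ * W + n * Lp) / b / c₀ := by
  have pi0 := Real.pi_pos
  have C0 : 0 < C := by rw [hC]; positivity
  have Φ0 : 0 ≤ Φ := by rw [hΦ]; positivity
  have e1 : δ / (n + 1) * (n * L2) ≤ δ * L2 := by
    rw [← mul_assoc, div_mul_eq_mul_div]
    exact mul_le_mul_of_nonneg_right ((div_le_iff₀ (by positivity)).2 (by linarith)) L0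
  have e2 : 8 * (n * Lp) / b / c₀ * V ≤ δ * L2 := by
    calc _ = 8 * n / (b * c₀) * (Lp * V) := by field_simp
      _ ≤ 8 * (n + 1) / (b * c₀) * (δ * b * c₀ / (8 * (n + 1)) * L2) := by
        gcongr; linarith
      _ = _ := by field_simp
  have e3 : 8 * (Φ * W) / b / c₀ * V ≤ δ * L2 := by
    have e4 : V ≤ 14 * S / C := by rw [le_div_iff₀' C0]; exact hSS
    rw [div_lt_iff₀ (by positivity)] at hk
    calc _ ≤ 8 * (Φ * W) / b / c₀ * (14 * S / C) := by gcongr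
      _ = 840 * √Real.pi * (W * Ey) / (k * (b * c₀ * CE * sQ)) * L2 := by
        rw [hΦ, hC]; field_simp; ring
      _ ≤ k * (b * c₀ * CE * sQ * δ) * 1 / (k * (b * c₀ * CE * sQ)) * L2 := by gcongr
      _ = _ := by field_simp
  rw [div_le_iff₀ V0, sub_mul, div_mul_cancel₀ _ V0.ne', mul_add, add_div, add_div, add_mul]
  linarith

theorem fin2 {ε η γ G a κ L T s M I δ N W Ey C CE D sQ tQ et Q K l l' nb φ : ℝ} (hγd : γ = ε / 20)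
    (hε : 0 < ε) (hε1 : ε ≤ 1) (hη : 0 < η) (hG : 0 ≤ G) (κ0 : 0 ≤ κ) (D0 : 0 < D) (CE0 : 0 < CE)
    (ha : a = 2 * √D / Real.pi * (2 / √Real.pi) * CE) (hC : C = 2 * (CE * (Ey * sQ)) / √Real.pi)
    (hL : L = T * s) (M0 : 0 < M) (I0 : 0 < I) (hδ : δ = η / (4 * (M * I))) (sQ0 : 0 < sQ)
    (tq0 : 0 < tQ) (e0 : 0 < et) (Q0 : 0 < Q) (K0 : 0 < K) (Ey0 : 0 < Ey) (W0 : 0 ≤ W)
    (hφ : φ = M * tQ) (hcl : (1 - ε / 10) * κ ≤ et * sQ / tQ)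
    (hk₀ : a * (sQ / tQ * Q) / (η / 4) < K) (W1 : W * Ey ≤ 1)
    (W2 : (1 - ε / 10) * (1 - ε / 10) ≤ W * Ey) (N1 : N ≤ M * I)
    (N2 : 4 * (1 - 2 * γ) ^ 2 * l * (√D / (2 * Real.pi)) ≤ N * (γ ^ 2 / 16))
    (N3 : l' ≤ l + Q * M / K * T ^ 2) (hgm : G ≤ nb * (s / Q) ^ 2) (hl' : et * M / Q ^ 2 * nb ≤ l') :
    (1 - ε) * (a * κ) * G - η * L ^ 2 ≤ N * (γ ^ 2 / 16 * s ^ 2 * C * W / φ - 3 * δ * L ^ 2) := by
  have pi0 := Real.pi_pos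
  have a0 : 0 < a := by rw [ha]; positivity
  have C0 : 0 < C := by rw [hC]; positivity
  have δ0 : 0 < δ := by rw [hδ]; positivity
  have N4 : M * (et * G) ≤ s ^ 2 * l' := by
    calc _ ≤ M * (et * (nb * (s / Q) ^ 2)) := by gcongr
      _ = s ^ 2 * (et * M / Q ^ 2 * nb) := by field_simp
      _ ≤ _ := mul_le_mul_of_nonneg_left hl' (by positivity)
  have N5 := fin_aux (G := G) (a := a) (b := η / 4 * L ^ 2) (W := W * Ey)
    (X := et * sQ / tQ) (Y := sQ / tQ * Q / K * L ^ 2)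
    (Z := (1 - 2 * γ) ^ 2 * (s ^ 2 * l) * (sQ / tQ / M)) rfl
    (show 1 - 2 * γ = _ by rw [hγd]) hε hε1 hG a0.le κ0 hcl W2 W1 (by positivity) (by
      rw [mul_assoc ((1 - 2 * γ) ^ 2)]
      refine mul_le_mul_of_nonneg_left ?_ (by positivity)
      have e1 := mul_le_mul_of_nonneg_left N3 (sq_nonneg s)
      calc _ = (M * (et * G) - s ^ 2 * (Q * M / K * T ^ 2)) * (sQ / tQ / M) := by
            rw [hL]; field_simp
        _ ≤ _ := mul_le_mul_of_nonneg_right (by linarith) (by positivity)) (by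
      rw [div_lt_iff₀ (by positivity)] at hk₀
      rw [← mul_assoc, ← mul_div_assoc]
      exact mul_le_mul_of_nonneg_right ((div_le_iff₀ K0).2 (by linarith)) (by positivity))
  have N6 : N * (3 * δ * L ^ 2) ≤ 3 * η / 4 * L ^ 2 := by
    calc _ ≤ M * I * (3 * δ * L ^ 2) := by gcongr
      _ = _ := by rw [hδ]; field_simp
  have N7 : a * ((1 - 2 * γ) ^ 2 * (s ^ 2 * l) * (sQ / tQ / M)) * (W * Ey) ≤
      N * (γ ^ 2 / 16 * s ^ 2 * C * W / φ) := by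
    calc _ = 4 * (1 - 2 * γ) ^ 2 * l * (√D / (2 * Real.pi)) * (s ^ 2 * C * W / φ) := by
          rw [hφ, ha, hC]; field_simp; ring
      _ ≤ N * (γ ^ 2 / 16) * (s ^ 2 * C * W / φ) :=
          mul_le_mul_of_nonneg_right N2 (by rw [hφ]; positivity)
      _ = _ := by ring
  rw [mul_sub N]
  linarith

theorem sum_good {Q M k₀ T : ℕ} (hQ : Q ≠ 0) (hM : M = Q ^ (4 + k₀)) (l : ℕ → ℕ)
    (hl : ∀ u, l u ≤ T * T) : ∑ u ∈ range M, (l u : ℝ) ≤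
      ∑ u ∈ (range M).filter (fun u => l u ≠ 0 ∧ Nat.gcd u M ∣ Q ^ k₀), (l u : ℝ) +
        Q * M / 2 ^ k₀ * T ^ 2 := by
  rw [← sum_filter_add_sum_filter_not (range M) (fun u => Nat.gcd u M ∣ Q ^ k₀)]
  refine add_le_add (le_of_eq ?_) ?_
  · symm
    refine sum_subset (fun u hu => mem_filter.2 ⟨(mem_filter.1 hu).1, (mem_filter.1 hu).2.2⟩)
      (fun u h1 h2 => ?_)
    by_contra h3
    exact h2 (mem_filter.2 ⟨(mem_filter.1 h1).1, fun h => h3 (by simp [h]), (mem_filter.1 h1).2⟩)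
  · refine (sum_le_card_nsmul _ _ ((T : ℝ) ^ 2) (fun u _ => ?_)).trans ?_
    · rw [sq]
      exact_mod_cast hl u
    · rw [nsmul_eq_mul]
      refine mul_le_mul_of_nonneg_right ?_ (by positivity)
      have := card_bad_le hQ k₀
      rw [← Nat.cast_pow, ← hM] at this
      exact this

namespace IQ

variable (F : IQ)

theorem gb_bound {Q T Q' T' L : ℕ} {η ε₁ : ℝ} {P : Finset F.O} {ρ ρ' : F.O} {β β' : ℤ × ℤ}
    (hβ : β ∈ F.gb Q T Q' T' L η ε₁ P ρ) (hβ' : β' ∈ F.gb Q T Q' T' L η ε₁ P ρ') {x x' r : ℝ}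
    (hr : r ≤ 1) (hx : |x - (β'.1 - β.1)| ≤ r) (hx' : |x' - (β'.2 - β.2)| ≤ r) :
    ‖(x : ℂ) + x' * F.om‖ ≤ T * (1 + ‖F.om‖) := by
  simp only [gb, mem_filter, mem_product, mem_Ico] at hβ hβ'
  have e : ∀ (t : ℝ) (c c' : ℤ), 0 ≤ c → c < T → 0 ≤ c' → c' < T → |t - (c' - c)| ≤ r → |t| ≤ T :=
    fun t c c' a1 a2 a3 a4 h => by
      have a5 : (c' : ℝ) - c ≤ T - 1 := by exact_mod_cast (by omega : c' - c ≤ T - 1)
      have a6 : 1 - (T : ℝ) ≤ (c' : ℝ) - c := by exact_mod_cast (by omega : 1 - T ≤ c' - c)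
      rw [abs_le] at h ⊢
      constructor <;> linarith [h.1, h.2]
  have h1 := e _ _ _ hβ.1.1.1 hβ.1.1.2 hβ'.1.1.1 hβ'.1.1.2 hx
  have h2 := e _ _ _ hβ.1.2.1 hβ.1.2.2 hβ'.1.2.1 hβ'.1.2.2 hx'
  refine (norm_add_le _ _).trans ?_
  rw [norm_mul, Complex.norm_real, Complex.norm_real, Real.norm_eq_abs, Real.norm_eq_abs]
  nlinarith [mul_le_mul_of_nonneg_right h2 (norm_nonneg F.om)]

theorem sum_RR (S : Finset ℕ) (Q y M : ℕ) {c : ℝ} (hc : 0 ≤ c) (G : Finset ℕ) (J : ℕ → Finset ℕ)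
    (A : Finset (Finset ℕ)) : ∑ u ∈ G, ∑ i ∈ J u, ∑ T ∈ A,
      ((S.filter (F.RR Q y M c u i T)).card : ℝ) ≤ S.card := by
  have h := sum_card_le (G.sigma (fun u => J u ×ˢ A)) S
    (fun t m => F.RR Q y M c t.1 t.2.1 t.2.2 m) (by
      rintro m - ⟨u, i, T⟩ - ⟨u', i', T'⟩ - ⟨a1, a2, a3, a4⟩ ⟨b1, b2, b3, b4⟩
      simp only at a1 a2 a3 a4 b1 b2 b3 b4
      have e1 : (i : ℝ) < i' + 1 := lt_of_mul_lt_mul_right (a2.trans_le b3) hc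
      have e2 : (i' : ℝ) < i + 1 := lt_of_mul_lt_mul_right (b2.trans_le a3) hc
      have e3 : i < i' + 1 := by exact_mod_cast e1
      have e4 : i' < i + 1 := by exact_mod_cast e2
      obtain rfl : i = i' := by omega
      rw [← a1, ← a4, ← b1, ← b4])
  rw [sum_sigma] at h
  simp only [sum_product] at h
  exact_mod_cast h

theorem key {ε η : ℝ} (hε : 0 < ε) (hε1 : ε ≤ 1) (hη : 0 < η) : ∃ (Q₀ : ℕ) (ε₁ : ℝ), Q₀ ≠ 0 ∧ 0 < ε₁ ∧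
    ∀ Q T : ℕ, Q ≠ 0 → T ≠ 0 → Q₀ ∣ Q → ∃ Q' T' : ℕ, Q' ≠ 0 ∧ T' ≠ 0 ∧ Q ∣ Q' ∧ T ∣ T' ∧
      ∀ᶠ L : ℕ in atTop, Q' * T' ∣ L → ∀ P ⊆ F.bx 0 L,
        ((1 - ε) * F.kap * (P.card - η * L ^ 2 - (F.En Q' T' L P - F.En Q T L P) / ε₁) - η * L ^ 2) /
          √(2 * Real.log L) ≤ F.Dn P := by
  obtain ⟨γ, hγd⟩ : ∃ γ : ℝ, γ = ε / 20 := ⟨_, rfl⟩
  have hγ : 0 < γ := by linarith
  obtain ⟨y₀, hy₀, hy₀e, hcl⟩ := F.const_lb (e := ε / 10) (by linarith)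
  have hD3 := F.three_le_D
  refine ⟨2 * F.D * y₀.factorial, (η ^ 2 * γ ^ 2 / 16) ^ 2,
    mul_ne_zero (by omega) y₀.factorial_ne_zero, by positivity, fun Q T hQ hT hQ₀ => ?_⟩
  have hD : 2 * F.D ∣ Q := (dvd_mul_right _ _).trans hQ₀
  have hyQ : y₀.factorial ∣ Q := (dvd_mul_left _ _).trans hQ₀
  replace hcl := hcl Q hQ ((dvd_mul_left _ _).trans hD) hyQ
  have pi0 := Real.pi_pos
  have CE0 := F.CE_pos
  have sQ0 := F.sQ_pos Q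
  have sQ1 := F.sQ_le Q
  have tq0 := tq_pos Q
  have Q0 : (0 : ℝ) < Q := by exact_mod_cast Nat.pos_of_ne_zero hQ
  have T0 : (0 : ℝ) < T := by exact_mod_cast Nat.pos_of_ne_zero hT
  obtain ⟨a, ha⟩ : ∃ a : ℝ, a = 2 * √(F.D : ℝ) / Real.pi * (2 / √Real.pi) * F.CE := ⟨_, rfl⟩
  have a0 : 0 < a := by rw [ha]; positivity
  obtain ⟨k₀, hk₀⟩ := pow_unbounded_of_one_lt (a * (F.sQ Q / tq Q * Q) / (η / 4)) one_lt_two
  obtain ⟨M, hM⟩ : ∃ M, M = Q ^ (4 + k₀) := ⟨_, rfl⟩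
  have hM0 : M ≠ 0 := hM ▸ pow_ne_zero _ hQ
  have M0 : (0 : ℝ) < M := by exact_mod_cast Nat.pos_of_ne_zero hM0
  have hMp : M.primeFactors = Q.primeFactors := hM ▸ Nat.primeFactors_pow _ (by omega)
  obtain ⟨R, hR⟩ : ∃ R : ℝ, R = T * (1 + ‖F.om‖) := ⟨_, rfl⟩
  have R0 : 0 < R := by rw [hR]; positivity
  obtain ⟨I, hI⟩ := exists_nat_gt (R ^ 2 / (γ ^ 2 / 16))
  have I0 : (0 : ℝ) < I := lt_trans (by positivity) hI
  obtain ⟨c₀, hc₀, hfl⟩ := F.flip hQ (γ := γ / (8 * R)) (by positivity)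
  obtain ⟨b, hb⟩ : ∃ b : ℝ, b = (η ^ 2 * γ ^ 2 / 8) ^ 2 := ⟨_, rfl⟩
  have b0 : 0 < b := by rw [hb]; positivity
  obtain ⟨δ, hδ⟩ : ∃ δ : ℝ, δ = η / (4 * (M * I)) := ⟨_, rfl⟩
  have δ0 : 0 < δ := by rw [hδ]; positivity
  obtain ⟨k, hk⟩ := exists_nat_gt (840 * √Real.pi / (b * c₀ * F.CE * F.sQ Q * δ))
  have k0 : (0 : ℝ) < k := lt_trans (by positivity) hk
  have hk0 : k ≠ 0 := by rintro rfl; simp at k0
  obtain ⟨y, ⟨A, hA, hAW, hAf⟩, hyk, hy⟩ := ((hfl (ε / 10) (by linarith) (k / c₀)).and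
    ((eventually_ge_atTop (k ^ 2)).and (eventually_ge_atTop Q))).exists
  obtain ⟨Q₁, B₁, hQ₁, hB₁, hsv⟩ := F.sieve Q y (M * ∏ p ∈ F.PP Q y, p) k hk0 hyk k0
  obtain ⟨t, ht⟩ := exists_nat_ge
    (16 * Real.pi * (Q * B₁) * ((Q * Q₁ : ℕ) + 3) * (4 * (Q * B₁) + 1) / b)
  refine ⟨Q * Q₁, T * (t + 1), mul_ne_zero hQ hQ₁, mul_ne_zero hT (by omega), dvd_mul_right _ _,
    dvd_mul_right _ _, ?_⟩
  have hT' : 16 * Real.pi * (Q * B₁) * ((Q * Q₁ : ℕ) + 3) * (4 * (Q * B₁) + 1) ≤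
      (η ^ 2 * γ ^ 2 / 8) ^ 2 * (T * (t + 1) : ℕ) := by
    rw [div_le_iff₀' b0] at ht
    rw [← hb]
    refine ht.trans (mul_le_mul_of_nonneg_left (Nat.cast_le.2 ?_) b0.le)
    exact (Nat.le_succ t).trans (Nat.le_mul_of_pos_left _ (Nat.pos_of_ne_zero hT))
  have Ey0 := F.Ey_pos Q y
  obtain ⟨hP1, hP2⟩ := F.prod_Ey (Q := Q) (y := y) hy₀ hyQ
  have nA : (0 : ℝ) < A.card + 1 := by positivity
  have hw := (eventually_all_finset M.divisors).2 (fun M' hM' =>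
    ((tendsto_pow_atTop two_ne_zero).comp (tendsto_natCast_atTop_atTop (R := ℝ))).eventually
      (wlow (F.Lg y) (F.tendsto_Lg y) (M := M') (Nat.pos_of_mem_divisors hM').ne' (fun p hp h1 h2 => by
        have h3 := hp.dvd_of_dvd_pow (hM ▸ h2.trans (Nat.dvd_of_mem_divisors hM'))
        have := Nat.le_of_dvd (Nat.pos_of_ne_zero hQ) h3
        have := h1.2
        omega) y (A := I * (γ ^ 2 / 16)) (ε := δ / (A.card + 1)) (by positivity) (by positivity)))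
  filter_upwards [hw, hsv, F.SS_lb y, small_pow (c := δ * b * c₀ / (8 * (A.card + 1))) (by positivity),
    tendsto_natCast_atTop_atTop.eventually_ge_atTop (Q * B₁),
    tendsto_natCast_atTop_atTop.eventually_ge_atTop (2 * Q * T / γ),
    eventually_gt_atTop 1] with L hw hsv hSS hsm hBL hLs hL1 hd P hP
  have hL : L ≠ 0 := by omega
  have L1 : (1 : ℝ) < L := by exact_mod_cast hL1
  have V0 : 0 < √(2 * Real.log L) := Real.sqrt_pos.2 (by have := Real.log_pos L1; positivity)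
  simp only [Function.comp, Real.log_pow, Nat.cast_ofNat] at hw
  rw [F.Ey_one hQ hy] at hw hSS
  obtain ⟨V, hV⟩ : ∃ V, V = √(2 * Real.log L) := ⟨_, rfl⟩
  rw [← hV] at hw hSS hsm V0 ⊢
  have hTL : T ∣ L := ((dvd_mul_right _ _).mul_left _).trans hd
  have hLs' : (L : ℝ) = T * ((L / T : ℕ) : ℝ) := by exact_mod_cast (Nat.mul_div_cancel' hTL).symm
  have hs : 2 * (Q : ℝ) ≤ γ * (L / T : ℕ) := by
    rw [div_le_iff₀ hγ] at hLs
    refine le_of_mul_le_mul_right ?_ T0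
    calc _ ≤ L * γ := hLs
      _ = _ := by conv_lhs => rw [hLs']
                  ring
  have hgm := F.good_mass hL (dvd_mul_right Q Q₁) (dvd_mul_right T (t + 1)) hd hη
    (ε₁ := (η ^ 2 * γ ^ 2 / 16) ^ 2) (by positivity) hP
  set G := P.card - η * L ^ 2 - (F.En (Q * Q₁) (T * (t + 1)) L P - F.En Q T L P) /
    (η ^ 2 * γ ^ 2 / 16) ^ 2
  have hkap : F.kap = a * (F.II / F.ramP / 2 ^ F.D.primeFactors.card) := by rw [ha, kap]; ring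
  have κ0 : 0 ≤ F.II / F.ramP / 2 ^ F.D.primeFactors.card := by
    have := F.II_pos
    have := F.ramP_pos
    positivity
  rcases lt_or_ge G 0 with hG | hG
  · refine le_trans (div_nonpos_of_nonpos_of_nonneg ?_ V0.le) (Nat.cast_nonneg _)
    have := mul_nonneg (mul_nonneg (sub_nonneg.2 hε1) (hkap ▸ mul_nonneg a0.le κ0)) (neg_pos.2 hG).le
    have : 0 ≤ η * L ^ 2 := by positivity
    linarith
  set gb := F.gb Q T (Q * Q₁) (T * (t + 1)) L η ((η ^ 2 * γ ^ 2 / 16) ^ 2) P with hgb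
  obtain ⟨ρ, ρ', z, l, hl, hl'⟩ := F.adel_layer hM0 (hM ▸ dvd_pow_self Q (by omega)) hMp
    (fun x => (gb x).card)
  set U := (range M).filter (fun u => l u ≠ 0 ∧ Nat.gcd u M ∣ Q ^ k₀)
  set J : ℕ → Finset ℕ := fun u => (range I).filter (fun i => ∃ β ∈ gb (ρ u), ∃ β' ∈ gb (ρ' u),
    ∃ x x' : ℝ, |x - (β'.1 - β.1)| ≤ 1 - 2 * γ ∧ |x' - (β'.2 - β.2)| ≤ 1 - 2 * γ ∧
      i * (γ ^ 2 / 16) ≤ F.Nr x x' ∧ F.Nr x x' < (i + 1) * (γ ^ 2 / 16))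
  obtain ⟨s, hsd⟩ : ∃ s : ℝ, s = ((L / T : ℕ) : ℝ) := ⟨_, rfl⟩
  obtain ⟨C, hC⟩ : ∃ C, C = 2 * (F.CE * (F.Ey Q y * F.sQ Q)) / √Real.pi := ⟨_, rfl⟩
  rw [← hC] at hw hSS
  have C0 : 0 < C := by rw [hC]; positivity
  obtain ⟨S, hS⟩ : ∃ S, S = SS (F.Lg y) ((L : ℝ) ^ (1 / 20 : ℝ)) := ⟨_, rfl⟩
  rw [← hS] at hsv hSS
  have S0 : 0 < S := pos_of_mul_pos_of_pos_left' ((mul_pos C0 V0).trans_le hSS)
  obtain ⟨Φ, hΦ⟩ : ∃ Φ, Φ = 3 * F.Ey Q y ^ 2 / S * (4 / k + 1 / k) * L ^ 2 := ⟨_, rfl⟩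
  have Φ0 : 0 ≤ Φ := by rw [hΦ]; positivity
  have h1 : ∀ u ∈ U, ∀ i ∈ J u, ∀ T₀ ∈ A,
      (γ ^ 2 / 16 * s ^ 2 * C * (∏ p ∈ T₀, (p : ℝ)⁻¹) / M.totient - δ / (A.card + 1) * L ^ 2) / V -
        8 * (Φ * (∏ p ∈ T₀, (p : ℝ)⁻¹) + (L : ℝ) ^ (19 / 10 : ℝ)) / b / c₀ ≤
      (((P.offDiag.image (fun p => F.nm (p.1 - p.2))).filter
        (F.RR Q y M (γ ^ 2 / 16 * s ^ 2) u i T₀)).card : ℝ) := by
    intro u hu i hi T₀ hT₀
    obtain ⟨u1, u2, u3⟩ := mem_filter.1 hu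
    obtain ⟨i1, β, hβ, β', hβ', x, x', hx, hx', i2, i3⟩ := mem_filter.1 hi
    obtain ⟨l1, l2, -, -, l3, l4⟩ := hl u u2
    have hT₁ := mem_powerset.1 (hA hT₀)
    obtain ⟨ha0, -⟩ := F.prod_cop hT₁
    have hle : ∏ p ∈ T₀, p ≤ ∏ p ∈ F.PP Q y, p :=
      Nat.le_of_dvd (Nat.pos_of_ne_zero (F.prod_cop subset_rfl).1) (prod_dvd_prod_of_subset _ _ _ hT₁)
    have hle' := hle.trans (Nat.le_mul_of_pos_left _ (Nat.pos_of_ne_zero hM0))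
    subst hM hb hsd
    refine F.k5 hL (dvd_mul_right Q Q₁) (dvd_mul_right T (t + 1)) hd hη hγ (by linarith)
      (by positivity) hBL hs hT' hP l1 l2 hβ hβ' hD hy hT₁ (hAf T₀ hT₀).2 hc₀ hk0
      ((div_le_iff₀' hc₀).1 (hAf T₀ hT₀).1) (mem_range.1 u1) u3 l4 l3
      (fun I' Λ Z θ b1 b2 b3 b4 b5 b6 b7 => ?_) (by positivity) hx hx'
      (hR ▸ F.gb_bound hβ hβ' (by linarith) hx hx') (le_of_eq (by field_simp)) i2 i3
      (mul_le_mul_of_nonneg_right (by exact_mod_cast mem_range.1 i1) (by positivity)) hw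
    have b8 : (0 : ℝ) < (∏ p ∈ T₀, p : ℕ) := by exact_mod_cast Nat.pos_of_ne_zero ha0
    refine (hsv I' _ Λ Z θ (by rintro rfl; simp only [Ideal.absNorm_bot] at b1; omega)
      (b2.trans (Nat.mul_le_mul_left _ hle)) ha0 hle' b3
      (fun μ h => (b4 μ h).trans_le (Nat.pow_le_pow_left hle' 2)) b5 b6
      (fun h => b7 (h.mul Q))).trans (add_le_add_left ?_ _)
    rw [prod_inv_distrib, ← Nat.cast_prod, hΦ]
    calc _ ≤ 3 * F.Ey Q y ^ 2 / ((∏ p ∈ T₀, p : ℕ) * S) * (4 / k + 1 / k) * L ^ 2 := by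
          gcongr
      _ = _ := by field_simp
  obtain ⟨W, hW⟩ : ∃ W, W = ∑ T₀ ∈ A, ∏ p ∈ T₀, (p : ℝ)⁻¹ := ⟨_, rfl⟩
  have W0 : 0 ≤ W := hW ▸ sum_nonneg (fun _ _ => prod_nonneg (fun _ _ => inv_nonneg.2 (Nat.cast_nonneg _)))
  have W1 : W * F.Ey Q y ≤ 1 := by
    refine le_trans (mul_le_mul_of_nonneg_right ?_ Ey0.le) hP2
    rw [hW, prod_one_add]
    exact sum_le_sum_of_subset_of_nonneg hA (fun _ _ _ => by positivity)
  have W2 : (1 - ε / 10) * (1 - ε / 10) ≤ W * F.Ey Q y := by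
    rw [← hW] at hAW
    calc _ ≤ (1 - ε / 10) * ((∏ p ∈ F.PP Q y, (1 + (p : ℝ)⁻¹)) * F.Ey Q y) :=
          mul_le_mul_of_nonneg_left (by linarith) (by linarith)
      _ ≤ _ := by rw [← mul_assoc]; exact mul_le_mul_of_nonneg_right hAW Ey0.le
  have h2 : ∀ u ∈ U, ∀ i ∈ J u,
      (γ ^ 2 / 16 * s ^ 2 * C * W / M.totient - 3 * δ * L ^ 2) / V ≤ ∑ T₀ ∈ A,
      (((P.offDiag.image (fun p => F.nm (p.1 - p.2))).filter
        (F.RR Q y M (γ ^ 2 / 16 * s ^ 2) u i T₀)).card : ℝ) := by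
    intro u hu i hi
    refine le_trans ?_ (sum_le_sum (h1 u hu i hi))
    simp only [sum_sub_distrib, ← sum_div, ← mul_sum, sum_add_distrib, sum_const, nsmul_eq_mul, ← hW]
    exact err_aux V0 (Nat.cast_nonneg _) δ0 (sq_nonneg _) b0 hc₀ S0 k0 CE0 sQ0 Ey0 W0
      (Real.rpow_nonneg (Nat.cast_nonneg _) _) W1 hC hΦ hsm hSS hk
  have h3 := (sum_le_sum (fun u hu => card_nsmul_le_sum _ _ _ (h2 u hu))).trans
    (F.sum_RR _ Q y M (c := γ ^ 2 / 16 * s ^ 2) (by positivity) U J A)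
  simp only [nsmul_eq_mul, ← sum_mul] at h3
  refine le_trans ?_ h3
  rw [← mul_div_assoc]
  refine div_le_div_of_nonneg_right ?_ V0.le
  obtain ⟨N, hN⟩ : ∃ N, N = ∑ u ∈ U, ((J u).card : ℝ) := ⟨_, rfl⟩
  rw [← hN]
  have N1 : N ≤ M * I := by
    rw [hN]
    refine (sum_le_card_nsmul _ _ (I : ℝ) (fun u _ => Nat.cast_le.2
      ((card_filter_le _ _).trans (card_range I).le))).trans ?_
    rw [nsmul_eq_mul]
    exact mul_le_mul_of_nonneg_right (Nat.cast_le.2 ((card_filter_le _ _).trans (card_range M).le))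
      I0.le
  have N2 : 4 * (1 - 2 * γ) ^ 2 * (∑ u ∈ U, (l u : ℝ)) * (√(F.D : ℝ) / (2 * Real.pi)) ≤
      N * (γ ^ 2 / 16) := by
    rw [hN, sum_mul, mul_sum, sum_mul]
    refine sum_le_sum (fun u hu => le_trans ?_ (F.geo (gb (ρ u)) (gb (ρ' u)) (r := 1 - 2 * γ)
      (by linarith) (by linarith) (by positivity) (J u)
      (fun i β hβ β' hβ' x x' hx hx' i1 i2 => mem_filter.2
        ⟨mem_range.2 ?_, β, hβ, β', hβ', x, x', hx, hx', i1, i2⟩)))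
    · obtain ⟨-, -, l1, l2, -⟩ := hl u (mem_filter.1 hu).2.1
      gcongr
      exact le_min l1 l2
    · have e1 := hR ▸ F.gb_bound hβ hβ' (by linarith) hx hx'
      have e2 : F.Nr x x' ≤ R ^ 2 := by rw [← norm_real_sq]; gcongr
      have e3 : (i : ℝ) < I := ((le_div_iff₀ (by positivity)).2 (i1.trans e2)).trans_lt hI
      exact_mod_cast e3
  have N3 := sum_good (T := T) hQ hM l (fun u => by
    by_cases h : l u = 0
    · exact h ▸ Nat.zero_le _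
    · have e1 := (hl u h).2.2.1.trans (card_filter_le _ _)
      simpa only [card_product, Int.card_Ico, sub_zero, Int.toNat_natCast] using e1)
  rw [← hsd] at hgm hLs'
  rw [hkap]
  exact fin2 hγd hε hε1 hη hG κ0 (Nat.cast_pos.2 (by omega)) CE0 ha hC hLs' M0 I0 hδ sQ0 tq0
    (F.eta_pos Q) Q0 (pow_pos two_pos k₀) Ey0 W0 (by rw [totient_real, tq, tq, hMp])
    (by simpa only [mul_div_assoc] using hcl) hk₀ W1 W2 N1 N2 N3 hgm hl'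

end IQ

end Pool.Agent.Lib.MP_ad7336_co
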