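import Pool.Agent.Lib.MP_ad7336_co.Genus
import Pool.Agent.Lib.MP_ad7336_co.Fou

set_option autoImplicit false

namespace Pool.Agent.Lib.MP_ad7336_co

open QuadraticAlgebra Finset Filter Topology
open scoped Classical

theorem sum_card_le {α β : Type} (T : Finset β) (S : Finset α) (R : β → α → Prop)
    (h : ∀ m ∈ S, ∀ t ∈ T, ∀ t' ∈ T, R t m → R t' m → t = t') :
    ∑ t ∈ T, (S.filter (R t)).card ≤ S.card := by
  simp only [card_filter]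
  rw [sum_comm, card_eq_sum_ones]
  refine sum_le_sum (fun m hm => ?_)
  rw [← card_filter]
  exact card_le_one.2 (fun a ha b hb => h m hm a (mem_filter.1 ha).1 b (mem_filter.1 hb).1
    (mem_filter.1 ha).2 (mem_filter.1 hb).2)

theorem tg_aux {w x s γ d : ℝ} (hs : 0 ≤ s) (h1 : |w - x * s| ≤ γ * s) (h2 : |x - d| ≤ 1 - 2 * γ) :
    |w - d * s| ≤ (1 - γ) * s := by
  rw [abs_le] at *
  have a1 := mul_le_mul_of_nonneg_right h2.1 hs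
  have a2 := mul_le_mul_of_nonneg_right h2.2 hs
  constructor <;> linarith [h1.1, h1.2]

theorem bx_aux {γ s : ℝ} {L T : ℕ} (hγ : 0 < γ) (s0 : 0 < s) (hLs : (L : ℝ) = T * s) {t c c' : ℤ}
    (a1 : 0 ≤ c) (a2 : c < T) (a3 : 0 ≤ c') (a4 : c' < T)
    (h : |(t : ℝ) - (c' - c) * s| ≤ (1 - γ) * s) : -(L : ℤ) ≤ t ∧ t < L := by
  have a5 : (c' : ℝ) - c ≤ T - 1 := by exact_mod_cast (by omega : c' - c ≤ T - 1)
  have a6 : 1 - (T : ℝ) ≤ (c' : ℝ) - c := by exact_mod_cast (by omega : 1 - T ≤ c' - c)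
  rw [abs_le] at h
  have a7 := mul_pos hγ s0
  have a8 := mul_le_mul_of_nonneg_right a5 s0.le
  have a9 := mul_le_mul_of_nonneg_right a6 s0.le
  constructor
  · have : -(L : ℝ) ≤ t := by rw [hLs]; linarith [h.1]
    exact_mod_cast this
  · have : (t : ℝ) < L := by rw [hLs]; linarith [h.2]
    exact_mod_cast this

namespace IQ

variable (F : IQ)

/-- The conclusion of the flip lemma. -/
def FlipP (Q : ℕ) (γ c₀ : ℝ) (T : Finset ℕ) : Prop :=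
  ∀ (n : Ideal F.O) (g : F.O) (v : ℂ), F.cop Q n → F.cop Q (Ideal.span {g}) → ‖v‖ = 1 →
    (∀ Ψ, F.Gen Q Ψ → Ψ (n * F.idl T T) = Ψ (Ideal.span {g})) →
    c₀ * 2 ^ T.card ≤ (T.powerset.filter (fun T₁ => ∃ x : F.O,
      Ideal.span {x} = n * F.idl T T₁ ∧ (Q : F.O) ∣ x - g ∧ ‖F.dir x - v‖ < γ)).card

theorem prod_cop {Q y : ℕ} {T : Finset ℕ} (hT : T ⊆ F.PP Q y) :
    (∏ p ∈ T, p) ≠ 0 ∧ Nat.Coprime (∏ p ∈ T, p) Q :=
  ⟨prod_ne_zero_iff.2 (fun _ hp => (F.mem_PP.1 (hT hp)).2.1.1.ne_zero),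
    Nat.Coprime.prod_left (fun _ hp => (Nat.Prime.coprime_iff_not_dvd
      (F.mem_PP.1 (hT hp)).2.1.1).2 (F.mem_PP.1 (hT hp)).2.2)⟩

theorem cop_of_absNorm {Q n : ℕ} {I : Ideal F.O} (h : Ideal.absNorm I = n) (hn : n ≠ 0)
    (hc : Nat.Coprime n Q) : F.cop Q I :=
  ⟨by rintro rfl; simp at h; exact hn h.symm, h ▸ hc⟩

theorem cop_idl {Q y : ℕ} {T T₁ : Finset ℕ} (hT : T ⊆ F.PP Q y) (h : T₁ ⊆ T) :
    F.cop Q (F.idl T T₁) :=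
  F.cop_of_absNorm (F.absNorm_idl (fun _ hp => (F.mem_PP.1 (hT hp)).2.1) h) (F.prod_cop hT).1
    (F.prod_cop hT).2

theorem comp_cop {Q y b : ℕ} (hQ : Q ≠ 0) (hy : Q ≤ y) (hb : comp (F.Lg y) b) : Nat.Coprime b Q :=
  Nat.coprime_of_dvd (fun p hp h1 h2 => by
    have := (hb.2 p hp h1).2
    have := Nat.le_of_dvd (Nat.pos_of_ne_zero hQ) h2
    omega)

theorem dvd_cancel {Q n : ℕ} (h : Nat.Coprime n Q) {z : F.O} (hz : (Q : F.O) ∣ n * z) :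
    (Q : F.O) ∣ z := by
  obtain ⟨u, v, huv⟩ := Nat.isCoprime_iff_coprime.2 h
  have h1 : (u : F.O) * n + v * Q = 1 := by exact_mod_cast congrArg (Int.cast : ℤ → F.O) huv
  rw [(by linear_combination (-z) * h1 : z = u * (n * z) + Q * (v * z))]
  exact dvd_add (hz.mul_left _) (dvd_mul_right _ _)

theorem k1 {Q y : ℕ} (hQ : Q ≠ 0) (hD : 2 * F.D ∣ Q) (hy : Q ≤ y) {γ c₀ : ℝ} {T : Finset ℕ}
    (hT : T ⊆ F.PP Q y) (hf : F.FlipP Q γ c₀ T) {zu : F.O} {A B : Ideal F.O}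
    (hz : Ideal.span {zu} = A * B) (hz0 : zu ≠ 0) (hB : F.cop Q B) {b : ℕ} (hb : comp (F.Lg y) b)
    (hc : (∏ p ∈ T, p) * b ≡ Ideal.absNorm B [MOD Q ^ 4]) {v : ℂ} (hv : ‖v‖ = 1) :
    c₀ * 2 ^ T.card ≤ (T.powerset.filter (fun T₁ => ∃ z : F.O,
      Ideal.span {z} = A * F.idl T T₁ * F.can b ∧ (Q : F.O) ∣ z - zu ∧ ‖F.dir z - v‖ < γ)).card := by
  have hb' : comp F.Spl b := ⟨hb.1, fun p hp h => (hb.2 p hp h).1⟩
  have hcan := F.cop_of_absNorm (F.absNorm_can hb') hb.1 (F.comp_cop hQ hy hb)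
  have hn0 := F.absNorm_ne hB.1
  have h1 := F.norm_dir hz0
  have h2 : F.dir zu * (starRingEnd ℂ) (F.dir zu) = 1 := by
    rw [Complex.mul_conj, Complex.normSq_eq_norm_sq, h1]; simp
  have hn := F.cop_mul.2 ⟨F.cop_cj.2 hB, hcan⟩
  refine (hf (F.cj B * F.can b) (Ideal.absNorm B) (v * (starRingEnd ℂ) (F.dir zu)) hn
    (F.cop_nat hn0 hB.2) (by simp [hv, h1]) (fun Ψ hΨ => ?_)).trans ?_
  · refine F.genus hQ hD hΨ (F.cop_mul.2 ⟨hn, F.cop_idl hT subset_rfl⟩) hB.2 ?_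
    rw [map_mul, map_mul, absNorm_cj, F.absNorm_can hb',
      F.absNorm_idl (fun _ hp => (F.mem_PP.1 (hT hp)).2.1) subset_rfl, sq, mul_assoc, mul_comm b]
    exact hc.mul_left _
  · refine Nat.cast_le.2 (card_le_card (fun T₁ h => ?_))
    obtain ⟨h3, x, h4, h5, h6⟩ := mem_filter.1 h
    have h7 : Ideal.span {x * zu} =
        Ideal.span {(Ideal.absNorm B : F.O)} * (A * F.idl T T₁ * F.can b) := by
      rw [← Ideal.span_singleton_mul_span_singleton, h4, hz, ← mul_cj]; ring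
    obtain ⟨z, hz'⟩ : (Ideal.absNorm B : F.O) ∣ x * zu := by
      rw [← Ideal.mem_span_singleton, ← F.dvd_span_iff]; exact ⟨_, h7⟩
    have hn1 : (Ideal.absNorm B : F.O) ≠ 0 := by exact_mod_cast hn0
    refine mem_filter.2 ⟨h3, z, ?_, ?_, ?_⟩
    · rw [hz', ← Ideal.span_singleton_mul_span_singleton] at h7
      exact mul_left_cancel₀ (by simpa using hn1) h7
    · refine F.dvd_cancel hB.2 ?_
      rw [mul_sub, ← hz', ← sub_mul]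
      exact h5.mul_right _
    · have h8 := congrArg F.dir hz'
      rw [dir_mul, dir_mul, F.dir_natCast hn0, one_mul] at h8
      have h9 : F.dir z - v = (F.dir x - v * (starRingEnd ℂ) (F.dir zu)) * F.dir zu := by
        rw [← h8]; linear_combination v * h2
      rwa [h9, norm_mul, h1, mul_one]

theorem k2 {Q y : ℕ} (hQ : Q ≠ 0) (hD : 2 * F.D ∣ Q) {γ c₀ : ℝ} {T : Finset ℕ}
    (hT : T ⊆ F.PP Q y) (hf : F.FlipP Q γ c₀ T) {k : ℕ} (hk : (k : ℝ) ≤ c₀ * 2 ^ T.card)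
    {T₀ : Finset ℕ} (h₀ : T₀ ⊆ T) : ∃ Λ : Finset F.O, Λ.card = k ∧ ∀ μ ∈ Λ,
      F.nm μ = (∏ p ∈ T, p) ^ 2 ∧ (Q : F.O) ∣ μ - (∏ p ∈ T, p : ℕ) ∧ ‖F.dir μ - 1‖ < γ ∧
      μ ∈ F.cj (F.idl T T₀) := by
  have hs : ∀ p ∈ T, F.Spl p := fun _ hp => (F.mem_PP.1 (hT hp)).2.1
  have hn := F.cop_cj.2 (F.cop_idl hT h₀)
  have h1 := hk.trans (hf (F.cj (F.idl T T₀)) (∏ p ∈ T, p : ℕ) 1 hn
    (F.cop_nat (F.prod_cop hT).1 (F.prod_cop hT).2) (by simp) (fun Ψ hΨ =>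
      F.genus hQ hD hΨ (F.cop_mul.2 ⟨hn, F.cop_idl hT subset_rfl⟩) (F.prod_cop hT).2 (by
        rw [map_mul, absNorm_cj, F.absNorm_idl hs h₀, F.absNorm_idl hs subset_rfl, sq])))
  obtain ⟨S, hS, hc⟩ := exists_subset_card_eq (Nat.cast_le.1 h1)
  have h2 : ∀ T₁ ∈ S, ∃ x : F.O, Ideal.span {x} = F.cj (F.idl T T₀) * F.idl T T₁ ∧
      (Q : F.O) ∣ x - (∏ p ∈ T, p : ℕ) ∧ ‖F.dir x - 1‖ < γ := fun T₁ h => (mem_filter.1 (hS h)).2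
  have h3 : ∀ T₁ ∈ S, T₁ ⊆ T := fun T₁ h => mem_powerset.1 (mem_filter.1 (hS h)).1
  choose! x hx using h2
  refine ⟨S.image x, ?_, fun μ hμ => ?_⟩
  · rw [card_image_of_injOn, hc]
    intro T₁ a1 T₂ a2 h
    refine F.idl_inj hs (h3 _ a1) (h3 _ a2) (mul_left_cancel₀ hn.1 ?_)
    rw [← (hx _ a1).1, h, (hx _ a2).1]
  · obtain ⟨T₁, a1, rfl⟩ := mem_image.1 hμ
    refine ⟨?_, (hx _ a1).2.1, (hx _ a1).2.2, F.dvd_span_iff.1 ⟨_, (hx _ a1).1⟩⟩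
    rw [← absNorm_span, (hx _ a1).1, map_mul, absNorm_cj, F.absNorm_idl hs h₀,
      F.absNorm_idl hs (h3 _ a1), sq]

theorem k3 {w : F.O} (hw : w ≠ 0) {s x y γ γ' R : ℝ} (hs : 0 ≤ s) (hγ : 0 ≤ γ) {v : ℂ}
    (hxy : (x : ℂ) + y * F.om = (‖(x : ℂ) + y * F.om‖ : ℝ) * v)
    (hR : ‖(x : ℂ) + y * F.om‖ ≤ R) (hγ' : R * γ' ≤ γ / 8)
    (h1 : |F.nm w - s ^ 2 * F.Nr x y| ≤ γ ^ 2 / 16 * s ^ 2) (h2 : ‖F.dir w - v‖ ≤ 2 * γ') :
    |w.re - x * s| ≤ γ * s ∧ |w.im - y * s| ≤ γ * s := by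
  have h3 := F.abs_coord_le (w.re - x * s) (w.im - y * s)
  set r := ‖(x : ℂ) + y * F.om‖
  have r0 : 0 ≤ r := norm_nonneg _
  have hr : r ^ 2 = F.Nr x y := F.norm_real_sq x y
  have e0 := norm_nonneg (F.emb w)
  have h4 : |‖F.emb w‖ - s * r| ≤ γ / 4 * s := by
    refine abs_le_of_sq_le_sq ?_ (by positivity)
    rw [← F.norm_emb_sq, ← hr] at h1
    have h5 : 0 ≤ s * r := by positivity
    have h6 : (‖F.emb w‖ - s * r) ^ 2 ≤ |‖F.emb w‖ ^ 2 - s ^ 2 * r ^ 2| := by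
      rcases le_total ‖F.emb w‖ (s * r) with h | h
      · refine le_trans ?_ (neg_le_abs _); nlinarith
      · refine le_trans ?_ (le_abs_self _); nlinarith
    nlinarith
  have h5 : F.emb w = (‖F.emb w‖ : ℝ) * F.dir w := by
    rw [dir, mul_div_cancel₀]
    exact_mod_cast norm_ne_zero_iff.2 (F.emb_ne hw)
  have h6 : ((w.re - x * s : ℝ) : ℂ) + ((w.im - y * s : ℝ) : ℂ) * F.om =
      ((‖F.emb w‖ - s * r : ℝ) : ℂ) * F.dir w + ((s * r : ℝ) : ℂ) * (F.dir w - v) := by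
    have h7 := F.emb_apply w
    push_cast at h7 ⊢
    linear_combination h5 - h7 - (s : ℂ) * hxy
  have h7 : ‖((w.re - x * s : ℝ) : ℂ) + ((w.im - y * s : ℝ) : ℂ) * F.om‖ ≤ γ / 2 * s := by
    rw [h6]
    refine (norm_add_le _ _).trans ?_
    rw [norm_mul, norm_mul, F.norm_dir hw, Complex.norm_real, Complex.norm_real, Real.norm_eq_abs,
      Real.norm_of_nonneg (by positivity), mul_one]
    have h8 : 0 ≤ γ' := by linarith [norm_nonneg (F.dir w - v)]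
    have h9 : r * ‖F.dir w - v‖ ≤ R * (2 * γ') := mul_le_mul hR h2 (norm_nonneg _) (r0.trans hR)
    nlinarith
  exact ⟨by linarith [h3.1], by linarith [h3.2]⟩

/-- Exact division. -/
def dv (a : ℕ) (z : F.O) : F.O := ⟨z.re / a, z.im / a⟩

theorem mul_dv {a : ℕ} {z : F.O} (h : (a : F.O) ∣ z) : a * F.dv a z = z := by
  rw [natCast_dvd_iff] at h
  ext <;> simp [dv, Int.mul_ediv_cancel' h.1, Int.mul_ediv_cancel' h.2]

theorem lin_dv {a : ℕ} (ha : a ≠ 0) {z : F.O} (h : (a : F.O) ∣ z) (θ : ℝ × ℝ) :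
    F.lin θ (F.dv a z) = F.lin θ z / a := by
  have : (a : ℝ) ≠ 0 := by exact_mod_cast ha
  conv_rhs => rw [← F.mul_dv h]
  simp only [lin]
  simp
  field_simp

theorem k4 {Q T Q' T' L y k : ℕ} (hL : L ≠ 0) (hQ : Q ∣ Q') (hT : T ∣ T') (hd : Q' * T' ∣ L)
    {η γ B Φ γ' c₀ R : ℝ} (hη : 0 < η) (hγ : 0 < γ) (hγ1 : γ ≤ 1) (hB : 0 ≤ B) (hBL : B ≤ L)
    (hs : 2 * (Q : ℝ) ≤ γ * (L / T : ℕ))
    (hT' : 16 * Real.pi * B * (Q' + 3) * (4 * B + 1) ≤ (η ^ 2 * γ ^ 2 / 8) ^ 2 * T')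
    {P : Finset F.O} (hP : P ⊆ F.bx 0 L) {ρ ρ' : F.O} (hρ : ρ ∈ F.bx 0 Q) (hρ' : ρ' ∈ F.bx 0 Q)
    {β β' : ℤ × ℤ} (hβ : β ∈ F.gb Q T Q' T' L η ((η ^ 2 * γ ^ 2 / 16) ^ 2) P ρ)
    (hβ' : β' ∈ F.gb Q T Q' T' L η ((η ^ 2 * γ ^ 2 / 16) ^ 2) P ρ')
    (hD : 2 * F.D ∣ Q) (hy : Q ≤ y) {T₀ : Finset ℕ} (hT₀ : T₀ ⊆ F.PP Q y)
    (hf : F.FlipP Q γ' c₀ T₀) (hk0 : k ≠ 0) (hk : (k : ℝ) ≤ c₀ * 2 ^ T₀.card)
    {zu : F.O} {A₁ B₁ : Ideal F.O} (hz : Ideal.span {zu} = A₁ * B₁) (hz0 : zu ≠ 0)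
    (hB₁ : F.cop Q B₁) (hzρ : (Q : F.O) ∣ zu - (ρ' - ρ))
    (hΦ : ∀ (I : Ideal F.O) (Λ Z : Finset F.O) (θ : ℝ × ℝ),
      Ideal.absNorm I = Ideal.absNorm A₁ * ∏ p ∈ T₀, p → Λ.card = k →
      (∀ μ ∈ Λ, F.nm μ = (∏ p ∈ T₀, p) ^ 2) → Z ⊆ F.bx (-L) L → (∀ z ∈ Z, F.sift Q y I z) →
      ¬ Maj Q' B L θ →
      ∑ z ∈ Z, ‖∑ μ ∈ Λ, ee (F.lin θ (μ * z) / (∏ p ∈ T₀, p : ℕ))‖ ^ 2 / k ^ 2 ≤ Φ) (hΦ0 : 0 ≤ Φ)
    {x x' : ℝ} (hx : |x - (β'.1 - β.1)| ≤ 1 - 2 * γ) (hx' : |x' - (β'.2 - β.2)| ≤ 1 - 2 * γ)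
    (hR : ‖(x : ℂ) + x' * F.om‖ ≤ R) (hγ' : R * γ' ≤ γ / 8) (C : Finset ℕ)
    (hC : ∀ b ∈ C, comp (F.Lg y) b ∧ (∏ p ∈ T₀, p) * b ≡ Ideal.absNorm B₁ [MOD Q ^ 4] ∧
      |((Ideal.absNorm A₁ * (∏ p ∈ T₀, p) * b : ℕ) : ℝ) - ((L / T : ℕ) : ℝ) ^ 2 * F.Nr x x'| ≤
        γ ^ 2 / 16 * ((L / T : ℕ) : ℝ) ^ 2 ∧
      ∀ p ∈ P, ∀ q ∈ P, F.nm (p - q) ≠ Ideal.absNorm A₁ * (∏ p ∈ T₀, p) * b) :
    c₀ * C.card ≤ 8 * Φ / (η ^ 2 * γ ^ 2 / 8) ^ 2 := by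
  have hQ0 : Q ≠ 0 := by
    rintro rfl
    exact hL (Nat.eq_zero_of_zero_dvd ((hQ.mul_right _).trans hd))
  have hTL : T ∣ L := (hT.mul_left _).trans hd
  have hsp : ∀ p ∈ T₀, F.Spl p := fun _ hp => (F.mem_PP.1 (hT₀ hp)).2.1
  obtain ⟨ha0, hac⟩ := F.prod_cop hT₀
  set a := ∏ p ∈ T₀, p with ha
  set s : ℝ := ((L / T : ℕ) : ℝ) with hsd
  have s0 : 0 < s := by
    have : (0 : ℝ) < Q := by exact_mod_cast Nat.pos_of_ne_zero hQ0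
    exact (mul_pos_iff_of_pos_left hγ).1 (by linarith)
  have hLs : (L : ℝ) = T * s := by rw [hsd]; exact_mod_cast (Nat.mul_div_cancel' hTL).symm
  have hA0 : A₁ ≠ ⊥ := by
    rintro rfl
    exact hz0 (by simpa using hz)
  obtain ⟨v, hv, hxv⟩ : ∃ v : ℂ, ‖v‖ = 1 ∧
      (x : ℂ) + x' * F.om = (‖(x : ℂ) + x' * F.om‖ : ℝ) * v := by
    by_cases h : (x : ℂ) + x' * F.om = 0
    · exact ⟨1, by simp, by simp [h]⟩
    · have h' : ((‖(x : ℂ) + x' * F.om‖ : ℝ) : ℂ) ≠ 0 := by exact_mod_cast norm_ne_zero_iff.2 h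
      refine ⟨((x : ℂ) + x' * F.om) / (‖(x : ℂ) + x' * F.om‖ : ℝ), ?_, by field_simp⟩
      rw [norm_div, Complex.norm_real, norm_norm, div_self (norm_ne_zero_iff.2 h)]
  have tg : ∀ b ∈ C, ∀ w : F.O, F.nm w = Ideal.absNorm A₁ * a * b → ‖F.dir w - v‖ ≤ 2 * γ' →
      |(w.re : ℝ) - (β'.1 - β.1) * s| ≤ (1 - γ) * s ∧
      |(w.im : ℝ) - (β'.2 - β.2) * s| ≤ (1 - γ) * s := fun b hb w h1 h2 => by
    have hw : w ≠ 0 := fun h => mul_ne_zero (mul_ne_zero (F.absNorm_ne hA0) ha0) (hC b hb).1.1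
      (h1.symm.trans (F.nm_eq_zero.2 h))
    obtain ⟨a1, a2⟩ := F.k3 hw s0.le hγ.le hxv hR hγ' (h1 ▸ (hC b hb).2.2.1) h2
    exact ⟨tg_aux s0.le a1 hx, tg_aux s0.le a2 hx'⟩
  have key : ∀ T₁ ∈ T₀.powerset, ((C.filter (fun b => ∃ z : F.O,
      Ideal.span {z} = A₁ * F.idl T₀ T₁ * F.can b ∧ (Q : F.O) ∣ z - zu ∧
        ‖F.dir z - v‖ < γ')).card : ℝ) ≤ 8 * Φ / (η ^ 2 * γ ^ 2 / 8) ^ 2 := by
    intro T₁ h₁
    rw [mem_powerset] at h₁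
    obtain ⟨Λ, hΛ, hμ⟩ := F.k2 hQ0 hD hT₀ hf hk h₁
    have hI : Ideal.absNorm (A₁ * F.idl T₀ T₁) = Ideal.absNorm A₁ * a := by
      rw [map_mul, F.absNorm_idl hsp h₁]
    have hdv : ∀ z ∈ A₁ * F.idl T₀ T₁, ∀ μ ∈ Λ, (a : F.O) ∣ μ * z := fun z h μ h' => by
      rw [← Ideal.mem_span_singleton, ha, ← F.absNorm_idl hsp h₁, ← mul_cj, mul_comm μ]
      exact Ideal.mul_mem_mul (Ideal.mul_le_right h) (hμ μ h').2.2.2
    set C₁ := C.filter (fun b => ∃ z : F.O, Ideal.span {z} = A₁ * F.idl T₀ T₁ * F.can b ∧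
      (Q : F.O) ∣ z - zu ∧ ‖F.dir z - v‖ < γ')
    have h2 : ∀ b ∈ C₁, ∃ z : F.O, Ideal.span {z} = A₁ * F.idl T₀ T₁ * F.can b ∧
      (Q : F.O) ∣ z - zu ∧ ‖F.dir z - v‖ < γ' := fun b hb => (mem_filter.1 hb).2
    choose! z hzb using h2
    have hn : ∀ b ∈ C₁, F.nm (z b) = Ideal.absNorm A₁ * a * b := fun b hb => by
      have := (hC b (mem_filter.1 hb).1).1
      rw [← absNorm_span, (hzb b hb).1, map_mul, hI,
        F.absNorm_can ⟨this.1, fun p hp h => (this.2 p hp h).1⟩]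
    have hsf : ∀ b ∈ C₁, F.sift Q y (A₁ * F.idl T₀ T₁) (z b) := fun b hb =>
      F.sift_of (hC b (mem_filter.1 hb).1).1 (mul_ne_zero hA0 (F.cop_idl hT₀ h₁).1) (hzb b hb).1
    have hinj : Set.InjOn z C₁ := fun b hb b' hb' h =>
      mul_left_cancel₀ (mul_ne_zero (F.absNorm_ne hA0) ha0) (by rw [← hn b hb, h, hn b' hb'])
    rw [← card_image_of_injOn hinj]
    refine F.fail hL hQ hT hd hη hγ hγ1 hB hBL hs hT' hP hρ hρ' hβ hβ' _ Λ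
      (card_pos.1 (by omega)) (fun z μ => F.dv a (μ * z)) (fun z' hz' μ h' => ?_)
      (fun θ hθ => ?_) hΦ0
    · obtain ⟨b, hb, rfl⟩ := mem_image.1 hz'
      have e1 := F.mul_dv (hdv _ (hsf b hb).1 μ h')
      have e2 : F.nm (F.dv a (μ * z b)) = Ideal.absNorm A₁ * a * b := by
        have := congrArg F.nm e1
        rw [nm_mul, nm_mul, nm_natCast, (hμ μ h').1, hn b hb] at this
        exact mul_left_cancel₀ (pow_ne_zero 2 ha0) this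
      have e3 : F.dir (F.dv a (μ * z b)) = F.dir μ * F.dir (z b) := by
        rw [← dir_mul, ← e1, dir_mul, F.dir_natCast ha0, one_mul, e1]
      have hz1 : z b ≠ 0 := fun h => mul_ne_zero (mul_ne_zero (F.absNorm_ne hA0) ha0)
        (hC b (mem_filter.1 hb).1).1.1 ((hn b hb).symm.trans (F.nm_eq_zero.2 h))
      have e4 : ‖F.dir (F.dv a (μ * z b)) - v‖ ≤ 2 * γ' := by
        rw [e3, (by ring : F.dir μ * F.dir (z b) - v =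
          (F.dir μ - 1) * F.dir (z b) + (F.dir (z b) - v))]
        refine (norm_add_le _ _).trans ?_
        rw [norm_mul, F.norm_dir hz1]
        linarith [(hμ μ h').2.2.1, (hzb b hb).2.2]
      obtain ⟨e5, e6⟩ := tg b (mem_filter.1 hb).1 _ e2 e4
      refine ⟨?_, e5, e6, fun p hp hp' => (hC b (mem_filter.1 hb).1).2.2.2 _ hp' _ hp (by
        rw [add_sub_cancel_left, e2])⟩
      refine F.dvd_cancel hac ?_
      rw [mul_sub, e1, (by ring : μ * z b - a * (ρ' - ρ) =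
        (μ - a) * z b + a * (z b - zu) + a * (zu - (ρ' - ρ)))]
      exact dvd_add (dvd_add ((hμ μ h').2.1.mul_right _) ((hzb b hb).2.1.mul_left _))
        (hzρ.mul_left _)
    · refine le_of_eq_of_le ?_ (hΦ _ Λ (C₁.image z) θ hI hΛ (fun μ h => (hμ μ h).1) ?_ ?_ hθ)
      · rw [hΛ]
        refine sum_congr rfl (fun z' hz' => ?_)
        obtain ⟨b, hb, rfl⟩ := mem_image.1 hz'
        rw [sum_congr rfl (fun μ h' => by rw [F.lin_dv ha0 (hdv _ (hsf b hb).1 μ h')])]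
      · intro z' hz'
        obtain ⟨b, hb, rfl⟩ := mem_image.1 hz'
        have h3 := (hzb b hb).2.2
        obtain ⟨e5, e6⟩ := tg b (mem_filter.1 hb).1 _ (hn b hb)
          (by linarith [norm_nonneg (F.dir (z b) - v)])
        simp only [gb, mem_filter, mem_product, mem_Ico] at hβ hβ'
        exact F.mem_bx.2 ⟨bx_aux hγ s0 hLs hβ.1.1.1 hβ.1.1.2 hβ'.1.1.1 hβ'.1.1.2 e5,
          bx_aux hγ s0 hLs hβ.1.2.1 hβ.1.2.2 hβ'.1.2.1 hβ'.1.2.2 e6⟩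
      · intro z' hz'
        obtain ⟨b, hb, rfl⟩ := mem_image.1 hz'
        exact hsf b hb
  have h1 := sum_le_card_nsmul _ _ _ key
  rw [card_powerset, nsmul_eq_mul] at h1
  simp only [card_filter, Nat.cast_sum] at h1
  rw [sum_comm] at h1
  have h2 := (card_nsmul_le_sum C _ (c₀ * 2 ^ T₀.card) (fun b hb => by
    have := F.k1 hQ0 hD hy hT₀ hf hz hz0 hB₁ (hC b hb).1 (hC b hb).2.1 hv
    rwa [card_filter, Nat.cast_sum] at this)).trans h1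
  rw [nsmul_eq_mul] at h2
  push_cast at h2
  have h3 : (0 : ℝ) < 2 ^ T₀.card := by positivity
  refine le_of_mul_le_mul_left ?_ h3
  linarith

end IQ

end Pool.Agent.Lib.MP_ad7336_co
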