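import Pool.Agent.Lib.MP_ad7336_co.Setup
import Pool.Agent.Lib.MP_ad7336_co.Eul

set_option autoImplicit false

namespace Pool.Agent.Lib.MP_ad7336_co

open QuadraticAlgebra Finset Filter Topology
open scoped Classical

namespace IQ

variable (F : IQ)

theorem sqrtD_pos : 0 < √(F.D : ℝ) :=
  Real.sqrt_pos.2 (Nat.cast_pos.2 (lt_of_lt_of_le (by norm_num) F.three_le_D))

theorem det_om : Complex.basisOneI.det ![1, F.om] = √(F.D : ℝ) / 2 := by
  rw [Module.Basis.det_apply, Matrix.det_fin_two]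
  simp [Module.Basis.toMatrix_apply, om]

theorem exists_bas : ∃ b : Module.Basis (Fin 2) ℝ ℂ, (b : Fin 2 → ℂ) = ![1, F.om] := by
  have h := (Module.Basis.is_basis_iff_det Complex.basisOneI (v := ![1, F.om])).2
    (by rw [det_om]; exact (div_pos F.sqrtD_pos two_pos).ne'.isUnit)
  exact ⟨Module.Basis.mk h.1 h.2.ge, Module.Basis.coe_mk _ _⟩

theorem count_ball :
    Tendsto (fun t : ℝ => ((F.ball t).card : ℝ) / t) atTop (𝓝 (2 * Real.pi / √(F.D : ℝ))) := by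
  obtain ⟨b, hb⟩ := F.exists_bas
  have h0 : {x ∈ (Set.univ : Set ℂ) | ‖x‖ ^ 2 ≤ 1} = Metric.closedBall 0 1 := by
    ext x
    simp
  have h := ZLattice.covolume.tendsto_card_le_div' (Submodule.span ℤ (Set.range b))
    (X := Set.univ) (F := fun x : ℂ => ‖x‖ ^ 2) (fun _ _ _ _ => trivial)
    (fun x r hr => by simp [mul_pow]) (h0 ▸ Metric.isBounded_closedBall)
    (h0 ▸ measurableSet_closedBall)
    (by rw [h0, frontier_closedBall _ one_ne_zero]; exact MeasureTheory.Measure.addHaar_sphere _ _ _)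
  have h1 : ZLattice.covolume (Submodule.span ℤ (Set.range b)) = √(F.D : ℝ) / 2 := by
    rw [ZLattice.covolume_eq_measure_fundamentalDomain _ _ (ZSpan.isAddFundamentalDomain b _),
      ZSpan.measureReal_fundamentalDomain b _ Complex.basisOneI, hb, det_om,
      MeasureTheory.measureReal_congr (ZSpan.fundamentalDomain_ae_parallelepiped _ _),
      ← Complex.toBasis_orthonormalBasisOneI, OrthonormalBasis.coe_toBasis,
      MeasureTheory.measureReal_def, OrthonormalBasis.volume_parallelepiped,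
      abs_of_pos (div_pos F.sqrtD_pos two_pos)]
    simp
  have h2 : ∀ t : ℝ, {x ∈ (Set.univ : Set ℂ) | ‖x‖ ^ 2 ≤ t} ∩ (Submodule.span ℤ (Set.range b)) =
      F.emb '' (F.ball t) := fun t => by
    ext x
    rw [hb, Matrix.range_cons_cons_empty, Set.mem_inter_iff, SetLike.mem_coe,
      Submodule.mem_span_pair]
    constructor
    · rintro ⟨⟨-, h3⟩, u, v, rfl⟩
      have h4 : F.emb ⟨u, v⟩ = u • (1 : ℂ) + v • F.om := by simp [emb]
      exact ⟨⟨u, v⟩, mem_coe.2 (F.mem_ball.2 (by rwa [← norm_emb_sq, h4])), h4⟩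
    · rintro ⟨z, h3, rfl⟩
      exact ⟨⟨trivial, by rw [norm_emb_sq]; exact F.mem_ball.1 (mem_coe.1 h3)⟩, z.re, z.im,
        by simp [emb]⟩
  simp only [h2, Nat.card_coe_set_eq, Set.ncard_image_of_injective _ F.emb_inj,
    Set.ncard_coe_finset] at h
  rw [h0, h1, MeasureTheory.measureReal_def, Complex.volume_closedBall] at h
  have h5 : 2 * Real.pi / √(F.D : ℝ) = Real.pi / (√(F.D : ℝ) / 2) := by
    have := F.sqrtD_pos
    field_simp
  simpa [h5] using h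

/-- The basic series. -/
noncomputable def ph (k : ℤ) (s : ℝ) (z : F.O) : ℂ :=
  if z = 0 then 0 else F.dir z ^ k * (((F.nm z : ℝ) ^ (-s) : ℝ) : ℂ)

/-- Points of norm `n`. -/
noncomputable def fib (n : ℕ) : Finset F.O := (F.ball n).filter (fun z => F.nm z = n)

theorem mem_fib {n : ℕ} {z : F.O} : z ∈ F.fib n ↔ F.nm z = n := by
  rw [fib, mem_filter, mem_ball]
  exact ⟨And.right, fun h => ⟨by rw [h], h⟩⟩

theorem fib_tendsto : Tendsto (fun n : ℕ => (∑ k ∈ Icc 1 n, ((F.fib k).card : ℝ)) / (n : ℝ)) atTop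
    (𝓝 (2 * Real.pi / √(F.D : ℝ))) := by
  have h1 : ∀ n : ℕ, ∑ k ∈ Icc 1 n, ((F.fib k).card : ℝ) = (F.ball n).card - (F.fib 0).card := by
    intro n
    rw [eq_sub_iff_add_eq, card_eq_sum_card_fiberwise (s := F.ball n) (t := range (n + 1))
      (f := F.nm) fun z hz => by simpa [mem_ball, Nat.lt_succ_iff] using hz,
      range_eq_Ico, sum_eq_sum_Ico_succ_bot (Nat.add_one_pos n), add_comm,
      show Ico (0 + 1) (n + 1) = Icc 1 n from Ico_add_one_right_eq_Icc 1 n]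
    have h2 : ∀ k ≤ n, (F.ball n).filter (fun z => F.nm z = k) = F.fib k := fun k hk => by
      ext z
      rw [mem_fib, mem_filter, mem_ball]
      exact ⟨And.right, fun h => ⟨by rw [h]; exact_mod_cast hk, h⟩⟩
    push_cast
    rw [h2 0 (Nat.zero_le n)]
    exact congrArg _ (sum_congr rfl fun k hk => by rw [h2 k (mem_Icc.1 hk).2])
  simp only [h1, sub_div]
  simpa using (F.count_ball.comp tendsto_natCast_atTop_atTop).sub
    (tendsto_const_div_atTop_nhds_zero_nat ((F.fib 0).card : ℝ))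

theorem ph_zero {s : ℝ} (hs : 1 < s) (z : F.O) :
    F.ph 0 s z = (((F.nm z : ℝ) ^ (-s) : ℝ) : ℂ) := by
  unfold ph
  split_ifs with h
  · rw [F.nm_eq_zero.2 h, Nat.cast_zero, Real.zero_rpow (by linarith), Complex.ofReal_zero]
  · rw [zpow_zero, one_mul]

theorem norm_ph (k : ℤ) {s : ℝ} (hs : 1 < s) (z : F.O) : ‖F.ph k s z‖ = (F.nm z : ℝ) ^ (-s) := by
  unfold ph
  split_ifs with h
  · rw [F.nm_eq_zero.2 h, Nat.cast_zero, Real.zero_rpow (by linarith), _root_.norm_zero]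
  · rw [norm_mul, norm_zpow, F.norm_dir h, one_zpow, one_mul, Complex.norm_real,
      Real.norm_of_nonneg (Real.rpow_nonneg (Nat.cast_nonneg _) _)]

theorem tsum_fib {E : Type} [NormedAddCommGroup E] (g : ℕ → E) (n : ℕ) :
    ∑' z : F.nm ⁻¹' {n}, g (F.nm z) = (F.fib n).card • g n := by
  have h : F.nm ⁻¹' {n} = F.fib n := Set.ext fun z => by simp [mem_fib]
  rw [h, Finset.tsum_subtype' (F.fib n) (fun z => g (F.nm z)), ← sum_const]
  exact sum_congr rfl fun z hz => by rw [F.mem_fib.1 hz]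

theorem term_fib {s : ℝ} (hs : 1 < s) (n : ℕ) :
    LSeries.term (fun n => (((F.fib n).card : ℝ) : ℂ)) s n =
      (((F.fib n).card • (n : ℝ) ^ (-s) : ℝ) : ℂ) := by
  rw [LSeries.term_of_ne_zero' (by exact_mod_cast (by linarith : s ≠ 0)), nsmul_eq_mul,
    Real.rpow_neg (Nat.cast_nonneg n), Complex.ofReal_mul, Complex.ofReal_inv,
    Complex.ofReal_cpow (Nat.cast_nonneg n), div_eq_mul_inv, Complex.ofReal_natCast n]

theorem ph_summable (k : ℤ) {s : ℝ} (hs : 1 < s) : Summable (fun z => ‖F.ph k s z‖) := by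
  simp only [F.norm_ph k hs]
  have h : Summable (LSeries.term (fun n => (((F.fib n).card : ℝ) : ℂ)) s) :=
    LSeriesSummable_of_sum_norm_bigO_and_nonneg (r := 1)
      (Asymptotics.isBigO_atTop_natCast_rpow_of_tendsto_div_rpow (by simpa using F.fib_tendsto))
      (fun _ => Nat.cast_nonneg _) zero_le_one hs
  rw [funext (F.term_fib hs), Complex.summable_ofReal] at h
  refine (summable_partition (s := fun n : ℕ => F.nm ⁻¹' {n})
    (fun z => Real.rpow_nonneg (Nat.cast_nonneg _) _) (fun z => by simp)).2 ⟨fun n => ?_, ?_⟩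
  · have h1 : F.nm ⁻¹' {n} = F.fib n := Set.ext fun z => by simp [mem_fib]
    rw [h1]
    exact (F.fib n).summable fun z => (F.nm z : ℝ) ^ (-s)
  · simpa only [F.tsum_fib (fun n : ℕ => (n : ℝ) ^ (-s))] using h

theorem ph_zero_tendsto : Tendsto (fun s : ℝ => ((s - 1 : ℝ) : ℂ) * ∑' z, F.ph 0 s z) (𝓝[>] 1)
    (𝓝 ((2 * Real.pi / √(F.D : ℝ) : ℝ) : ℂ)) := by
  refine (LSeries_tendsto_sub_mul_nhds_one_of_tendsto_sum_div_and_nonneg _ F.fib_tendsto
    fun _ => Nat.cast_nonneg _).congr' (eventually_mem_nhdsWithin.mono fun s (hs : 1 < s) => ?_)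
  have h := ((F.ph_summable 0 hs).of_norm.hasSum.tsum_fiberwise F.nm).tsum_eq
  simp only [F.ph_zero hs, F.tsum_fib (fun n : ℕ => (((n : ℝ) ^ (-s) : ℝ) : ℂ))] at h
  simp only [F.ph_zero hs, LSeries, F.term_fib hs]
  simp only [← h, Complex.ofReal_sub, Complex.ofReal_one, nsmul_eq_mul, Complex.ofReal_mul,
    Complex.ofReal_natCast]

theorem norm_zpow_sub {u w : ℂ} (hu : ‖u‖ = 1) (hw : ‖w‖ = 1) (k : ℤ) :
    ‖u ^ k - w ^ k‖ ≤ k.natAbs * ‖u - w‖ := by
  have h : ∀ n : ℕ, ‖u ^ n - w ^ n‖ ≤ n * ‖u - w‖ := fun n => by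
    induction n with
    | zero => simp
    | succ n ih =>
      rw [show u ^ (n + 1) - w ^ (n + 1) = u ^ n * (u - w) + (u ^ n - w ^ n) * w by ring]
      refine (norm_add_le _ _).trans ?_
      rw [norm_mul, norm_mul, norm_pow, hu, hw]
      push_cast
      linarith [one_pow (M := ℝ) n ▸ one_mul ‖u - w‖]
  have hu' : u ≠ 0 := norm_ne_zero_iff.1 (by rw [hu]; exact one_ne_zero)
  have hw' : w ≠ 0 := norm_ne_zero_iff.1 (by rw [hw]; exact one_ne_zero)
  obtain ⟨n, rfl | rfl⟩ := k.eq_nat_or_neg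
  · simpa using h n
  · rw [zpow_neg, zpow_neg, zpow_natCast, zpow_natCast,
      inv_sub_inv (pow_ne_zero n hu') (pow_ne_zero n hw'), norm_div, norm_sub_rev]
    simpa [hu, hw] using h n

theorem norm_dir_sub {x y : ℂ} (hx : x ≠ 0) (hy : y ≠ 0) :
    ‖y / ‖y‖ - x / ‖x‖‖ ≤ 2 * ‖y - x‖ / ‖x‖ := by
  have h1 := norm_pos_iff.2 hx
  have h2 := norm_pos_iff.2 hy
  have h3 : (‖x‖ : ℂ) ≠ 0 := by exact_mod_cast h1.ne'
  have h4 : (‖y‖ : ℂ) ≠ 0 := by exact_mod_cast h2.ne'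
  rw [show y / ‖y‖ - x / ‖x‖ = ((y - x) + y / ‖y‖ * ((‖x‖ - ‖y‖ : ℝ) : ℂ)) / ‖x‖ by
    push_cast; field_simp; ring, norm_div, Complex.norm_real, norm_norm]
  refine div_le_div_of_nonneg_right ((norm_add_le _ _).trans ?_) h1.le
  rw [norm_mul, norm_div, Complex.norm_real, norm_norm, div_self h2.ne', Complex.norm_real,
    Real.norm_eq_abs]
  linarith [abs_norm_sub_norm_le x y, norm_sub_rev x y]

theorem rpow_sub_le {a b p : ℝ} (ha : 1 ≤ a) (hb : a / 2 ≤ b) (h2 : 2 ≤ p) (h4 : p ≤ 4) :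
    |b ^ (-p) - a ^ (-p)| ≤ 128 * a ^ (-3 : ℝ) * |b - a| := by
  have h0 : 0 < a / 2 := by linarith
  refine (convex_Ici (a / 2)).norm_image_sub_le_of_norm_hasDerivWithin_le
    (f := fun t : ℝ => t ^ (-p)) (f' := fun t => -p * t ^ (-p - 1))
    (fun t ht => (Real.hasDerivAt_rpow_const (Or.inl (h0.trans_le ht).ne')).hasDerivWithinAt)
    (fun t ht => ?_) (show a / 2 ≤ a by linarith) hb
  have h5 : t ^ (-p - 1) ≤ (a / 2) ^ (-p - 1) := Real.rpow_le_rpow_of_nonpos h0 ht (by linarith)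
  have h6 : a ^ (-p - 1) ≤ a ^ (-3 : ℝ) := Real.rpow_le_rpow_of_exponent_le ha (by linarith)
  have h7 : (2 : ℝ) ^ (p + 1) ≤ 32 := by
    have := Real.rpow_le_rpow_of_exponent_le (one_le_two (α := ℝ)) (show p + 1 ≤ (5 : ℕ) by
      push_cast; linarith)
    rw [Real.rpow_natCast] at this
    linarith
  rw [Real.div_rpow (by linarith) zero_le_two, show -p - 1 = -(p + 1) by ring,
    Real.rpow_neg zero_le_two, div_inv_eq_mul] at h5
  rw [show -p - 1 = -(p + 1) by ring] at h6 ⊢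
  have h8 : 0 ≤ t ^ (-(p + 1)) := Real.rpow_nonneg (h0.le.trans ht) _
  have h9 : 0 ≤ a ^ (-3 : ℝ) := Real.rpow_nonneg (by linarith) _
  have h10 : t ^ (-(p + 1)) ≤ a ^ (-3 : ℝ) * 32 :=
    h5.trans (mul_le_mul h6 h7 (Real.rpow_nonneg zero_le_two _) h9)
  rw [norm_mul, _root_.norm_neg, Real.norm_of_nonneg (by linarith), Real.norm_of_nonneg h8]
  nlinarith

theorem nm_rpow (z : F.O) (s : ℝ) : (F.nm z : ℝ) ^ (-s) = ‖F.emb z‖ ^ (-(2 * s)) := by
  rw [← norm_emb_sq, ← Real.rpow_natCast, ← Real.rpow_mul (norm_nonneg _)]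
  congr 1
  push_cast
  ring

theorem one_le_emb {z : F.O} (hz : z ≠ 0) : 1 ≤ ‖F.emb z‖ := by
  rw [← one_le_sq_iff₀ (norm_nonneg _), norm_emb_sq]
  exact_mod_cast Nat.one_le_iff_ne_zero.2 fun h => hz (F.nm_eq_zero.1 h)

theorem norm_ph_le (k : ℤ) {s : ℝ} (hs : 1 < s) (z : F.O) : ‖F.ph k s z‖ ≤ 1 := by
  by_cases h : z = 0
  · simp [ph, h]
  · rw [F.norm_ph k hs, nm_rpow]
    exact Real.rpow_le_one_of_one_le_of_nonpos (F.one_le_emb h) (by linarith)

theorem ph_shift (k : ℤ) (v : F.O) : ∃ C : ℝ, ∀ s, 1 < s → s ≤ 2 → ∀ z, z ≠ 0 →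
    ‖F.ph k s (z - v) - F.ph k s z‖ ≤ C * ‖F.emb z‖ ^ (-3 : ℝ) := by
  refine ⟨2 * (2 * ‖F.emb v‖) ^ 3 + (2 * k.natAbs + 128) * ‖F.emb v‖, fun s h1 h2 z hz => ?_⟩
  have hx := F.one_le_emb hz
  have h0 : 0 < ‖F.emb z‖ ^ (-3 : ℝ) := Real.rpow_pos_of_pos (by linarith) _
  rcases le_total ‖F.emb z‖ (2 * ‖F.emb v‖) with h | h
  · have h3 : 1 ≤ (2 * ‖F.emb v‖) ^ 3 * ‖F.emb z‖ ^ (-3 : ℝ) := by
      rw [Real.rpow_neg (norm_nonneg _), ← div_eq_mul_inv, one_le_div (by positivity),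
        show (3 : ℝ) = (3 : ℕ) by norm_num, Real.rpow_natCast]
      exact pow_le_pow_left₀ (norm_nonneg _) h 3
    have h4 : 0 ≤ (2 * k.natAbs + 128) * ‖F.emb v‖ * ‖F.emb z‖ ^ (-3 : ℝ) := by positivity
    nlinarith [norm_sub_le (F.ph k s (z - v)) (F.ph k s z), F.norm_ph_le k h1 z,
      F.norm_ph_le k h1 (z - v)]
  · have h3 : ‖F.emb (z - v) - F.emb z‖ = ‖F.emb v‖ := by rw [map_sub, sub_sub_cancel_left,
      _root_.norm_neg]
    have h4 : |‖F.emb (z - v)‖ - ‖F.emb z‖| ≤ ‖F.emb v‖ := h3 ▸ abs_norm_sub_norm_le _ _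
    have h5 : ‖F.emb z‖ / 2 ≤ ‖F.emb (z - v)‖ := by linarith [(abs_le.1 h4).1]
    have h6 : F.emb (z - v) ≠ 0 := norm_pos_iff.1 (by linarith)
    have h7 : z - v ≠ 0 := fun j => h6 (by rw [j, map_zero])
    have h8 := (norm_zpow_sub (F.norm_dir h7) (F.norm_dir hz) k).trans
      (mul_le_mul_of_nonneg_left (norm_dir_sub (norm_pos_iff.1 (by linarith)) h6)
        (Nat.cast_nonneg _))
    have h9 := (rpow_sub_le hx h5 (by linarith : 2 ≤ 2 * s) (by linarith)).trans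
      (mul_le_mul_of_nonneg_left h4 (by positivity))
    have h10 : ‖F.emb z‖ ^ (-(2 * s)) / ‖F.emb z‖ ≤ ‖F.emb z‖ ^ (-3 : ℝ) := by
      rw [← Real.rpow_sub_one (by linarith)]
      exact Real.rpow_le_rpow_of_exponent_le hx (by linarith)
    rw [h3] at h8
    rw [ph, ph, if_neg h7, if_neg hz, nm_rpow, nm_rpow]
    generalize ‖F.emb (z - v)‖ ^ (-(2 * s)) = b at h9 ⊢
    have h11 : 0 ≤ ‖F.emb z‖ ^ (-(2 * s)) := by positivity
    generalize ‖F.emb z‖ ^ (-(2 * s)) = a at h9 h10 h11 ⊢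
    rw [show F.dir (z - v) ^ k * (b : ℂ) - F.dir z ^ k * a =
      F.dir (z - v) ^ k * ((b - a : ℝ) : ℂ) + (F.dir (z - v) ^ k - F.dir z ^ k) * a by
        push_cast; ring]
    refine (norm_add_le _ _).trans ?_
    rw [norm_mul, norm_mul, norm_zpow, F.norm_dir h7, one_zpow, one_mul, Complex.norm_real,
      Complex.norm_real, Real.norm_eq_abs, Real.norm_of_nonneg h11]
    have h12 := (mul_le_mul_of_nonneg_right h8 h11).trans_eq
      (show _ = 2 * k.natAbs * ‖F.emb v‖ * (a / ‖F.emb z‖) by ring)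
    have h13 := mul_le_mul_of_nonneg_left h10 (show 0 ≤ 2 * k.natAbs * ‖F.emb v‖ by positivity)
    have h14 : 0 ≤ (2 * ‖F.emb v‖) ^ 3 * ‖F.emb z‖ ^ (-3 : ℝ) := by positivity
    nlinarith

/-- The weighted series. -/
noncomputable def Lam (k : ℤ) (h : F.O → ℂ) (s : ℝ) : ℂ :=
  ((s - 1 : ℝ) : ℂ) * ∑' z, h z * F.ph k s z

theorem summable_mul {g h : F.O → ℂ} {M : ℝ} (hM : ∀ z, ‖h z‖ ≤ M)
    (hg : Summable fun z => ‖g z‖) : Summable fun z => h z * g z :=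
  (hg.mul_left M).of_norm_bounded fun z => by
    rw [norm_mul]
    exact mul_le_mul_of_nonneg_right (hM z) (norm_nonneg _)

theorem ph_shift' (k : ℤ) (v : F.O) : ∃ g : F.O → ℝ, Summable g ∧ ∀ s, 1 < s → s ≤ 2 → ∀ z,
    ‖F.ph k s (z - v) - F.ph k s z‖ ≤ g z := by
  obtain ⟨C, hC⟩ := F.ph_shift k v
  refine ⟨_, ((F.ph_summable k (s := 3 / 2) (by norm_num)).mul_left C).add
    (hasSum_ite_eq (0 : F.O) (2 : ℝ)).summable, fun s h1 h2 z => ?_⟩
  split_ifs with hz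
  · rw [hz, show F.ph k (3 / 2) 0 = 0 from if_pos rfl, _root_.norm_zero, mul_zero, zero_add]
    linarith [norm_sub_le (F.ph k s (0 - v)) (F.ph k s 0), F.norm_ph_le k h1 0,
      F.norm_ph_le k h1 (0 - v)]
  · rw [add_zero, F.norm_ph k (by norm_num), nm_rpow, show -(2 * (3 / 2 : ℝ)) = -3 by norm_num]
    exact hC s h1 h2 z hz

theorem Lam_shift (k : ℤ) {h : F.O → ℂ} {M : ℝ} (hM : ∀ z, ‖h z‖ ≤ M) (v : F.O) :
    Tendsto (fun s => F.Lam k (fun z => h (z + v)) s - F.Lam k h s) (𝓝[>] 1) (𝓝 0) := by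
  obtain ⟨g, h1, hg⟩ := F.ph_shift' k v
  have h2 : Tendsto (fun s : ℝ => (s - 1) * ∑' z, M * g z) (𝓝[>] 1) (𝓝 0) :=
    tendsto_nhdsWithin_of_tendsto_nhds (Continuous.tendsto' (by fun_prop) _ _ (by simp))
  refine tendsto_zero_iff_norm_tendsto_zero.2
    (squeeze_zero' (Eventually.of_forall fun _ => norm_nonneg _) ?_ h2)
  filter_upwards [Ioc_mem_nhdsGT one_lt_two] with s hs
  have h3 := F.ph_summable k hs.1
  have h4 : Summable fun z => ‖F.ph k s (z - v)‖ := by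
    simpa only [Function.comp_def] using h3.comp_injective (sub_left_injective (b := v))
  have h5 : ∑' z, h (z + v) * F.ph k s z = ∑' z, h z * F.ph k s (z - v) := by
    rw [← (Equiv.subRight v).tsum_eq]
    simp
  have h6 : ∀ z, ‖h z * F.ph k s (z - v) - h z * F.ph k s z‖ ≤ M * g z := fun z => by
    rw [← mul_sub, norm_mul]
    exact mul_le_mul (hM z) (hg s hs.1 hs.2 z) (norm_nonneg _) ((norm_nonneg _).trans (hM 0))
  have h7 := tsum_of_norm_bounded (h1.mul_left M).hasSum h6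
  rw [Lam, Lam, ← mul_sub, h5, ← (F.summable_mul hM h4).tsum_sub (F.summable_mul hM h3), norm_mul,
    Complex.norm_real, Real.norm_of_nonneg (sub_pos.2 hs.1).le]
  exact mul_le_mul_of_nonneg_left h7 (sub_pos.2 hs.1).le

/-- Averaging over finitely many shifts. -/
theorem Lam_avg (k : ℤ) {h g : F.O → ℂ} {M : ℝ} (hM : ∀ z, ‖h z‖ ≤ M) (B : Finset F.O)
    (φ : F.O → F.O) (a : ℂ) (e : ∀ z, ∑ u ∈ B, h (z + φ u) = a * g z) :
    Tendsto (fun s => a * F.Lam k g s - B.card * F.Lam k h s) (𝓝[>] 1) (𝓝 0) := by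
  have h1 := tendsto_finsetSum B fun u _ => F.Lam_shift k hM (φ u)
  rw [sum_const_zero] at h1
  refine h1.congr' (eventually_mem_nhdsWithin.mono fun s (hs : 1 < s) => ?_)
  simp only [sum_sub_distrib, sum_const, nsmul_eq_mul, Lam]
  rw [← mul_sum, ← Summable.tsum_finsetSum fun u _ =>
    F.summable_mul (fun z => hM (z + φ u)) (F.ph_summable k hs)]
  simp only [← sum_mul, e, mul_assoc, tsum_mul_left]
  ring

/-- Reduction of the coordinates. -/
def red (W : ℕ) (z : F.O) : F.O := ⟨z.re % W, z.im % W⟩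

theorem red_mem {W : ℕ} (hW : W ≠ 0) (z : F.O) : F.red W z ∈ F.bx 0 W :=
  have h : (0 : ℤ) < W := by omega
  F.mem_bx.2 ⟨⟨Int.emod_nonneg _ h.ne', Int.emod_lt_of_pos _ h⟩, Int.emod_nonneg _ h.ne',
    Int.emod_lt_of_pos _ h⟩

theorem dvd_red (W : ℕ) (z : F.O) : (W : F.O) ∣ z - F.red W z :=
  F.natCast_dvd_iff.2 ⟨Int.dvd_self_sub_emod, Int.dvd_self_sub_emod⟩

theorem sum_per {W : ℕ} (hW : W ≠ 0) (h : F.O → ℂ) (hh : ∀ z w, (W : F.O) ∣ z - w → h z = h w)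
    (φ : F.O → F.O) (hφ : ∀ u v, (W : F.O) ∣ φ u - φ v → (W : F.O) ∣ u - v) :
    ∑ u ∈ F.bx 0 W, h (φ u) = ∑ u ∈ F.bx 0 W, h u := by
  have h1 : Set.InjOn (fun u => F.red W (φ u)) (F.bx 0 W) := fun u hu v hv (e : F.red W _ = _) => by
    have h2 := dvd_sub (F.dvd_red W (φ u)) (F.dvd_red W (φ v))
    rw [e, sub_sub_sub_cancel_right] at h2
    obtain ⟨h3, h4⟩ := F.natCast_dvd_iff.1 (hφ u v h2)
    have h5 := F.mem_bx.1 hu
    have h6 := F.mem_bx.1 hv
    rw [re_sub] at h3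
    rw [im_sub] at h4
    exact QuadraticAlgebra.ext
      (sub_eq_zero.1 (Int.eq_zero_of_abs_lt_dvd h3 (abs_lt.2 ⟨by omega, by omega⟩)))
      (sub_eq_zero.1 (Int.eq_zero_of_abs_lt_dvd h4 (abs_lt.2 ⟨by omega, by omega⟩)))
  exact sum_nbij _ (fun u _ => F.red_mem hW _) h1
    (surjOn_of_injOn_of_card_le _ (fun u _ => F.red_mem hW _) h1 le_rfl)
    fun u _ => hh _ _ (F.dvd_red W _)

/-- Sums over an ideal prime to `Q`, twisted by a function of the class modulo `Q`. -/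
theorem ph_ideal {Q : ℕ} (hQ : Q ≠ 0) (k : ℤ) (c : F.O → ℂ)
    (hc : ∀ z w, (Q : F.O) ∣ z - w → c z = c w) {I : Ideal F.O} (hI : F.cop Q I) :
    Tendsto (fun s : ℝ => ((s - 1 : ℝ) : ℂ) * ((∑' z, if z ∈ I then c z * F.ph k s z else 0) -
      (∑ z ∈ F.bx 0 Q, c z) / ((Q : ℂ) ^ 2 * Ideal.absNorm I) * ∑' z, F.ph k s z))
      (𝓝[>] 1) (𝓝 0) := by
  have hN : Ideal.absNorm I ≠ 0 := fun h => hI.1 (Ideal.absNorm_eq_zero_iff.1 h)
  have hM : ∀ z, ‖c z‖ ≤ ∑ u ∈ F.bx 0 Q, ‖c u‖ := fun z => by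
    rw [hc _ _ (F.dvd_red Q z)]
    exact single_le_sum (f := fun u => ‖c u‖) (fun _ _ => norm_nonneg _) (F.red_mem hQ z)
  have h1 := F.Lam_avg k (g := fun _ => 1) hM (F.bx 0 Q) id (∑ z ∈ F.bx 0 Q, c z) fun z => by
    rw [mul_one]
    exact F.sum_per hQ c hc (fun u => z + u) fun u v h => by simpa using h
  have h2 := F.Lam_avg k (h := fun z => if z ∈ I then c z else 0) (g := c)
    (M := ∑ u ∈ F.bx 0 Q, ‖c u‖) (fun z => by
      split_ifs
      exacts [hM z, (_root_.norm_zero.trans_le (norm_nonneg _)).trans (hM z)])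
    (F.bx 0 (Ideal.absNorm I)) (fun u => Q * u) (Ideal.absNorm I) fun z => by
      have h3 := F.sum_per hN (fun u => if u ∈ I then c z else 0) (fun u v h => by
        have h4 : u - v ∈ I := Ideal.mem_of_dvd I h I.absNorm_mem
        exact if_congr ⟨fun j => by simpa using I.sub_mem j h4,
          fun j => by simpa using I.add_mem h4 j⟩ rfl rfl) (fun u => z + Q * u) fun u v h =>
        hI.2.cast.dvd_of_dvd_mul_left (by rwa [add_sub_add_left_eq_sub, ← mul_sub] at h)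
      rw [← sum_filter, ← sum_filter, sum_const, sum_const,
        mul_right_cancel₀ hN ((F.card_mem hN I.absNorm_mem).trans (sq _))] at h3
      rw [← nsmul_eq_mul, ← h3, ← sum_const, sum_filter]
      exact sum_congr rfl fun u _ => by rw [hc (z + Q * u) z (by simp)]
  have h4 : (Q : ℂ) ≠ 0 := Nat.cast_ne_zero.2 hQ
  have h5 : (Ideal.absNorm I : ℂ) ≠ 0 := Nat.cast_ne_zero.2 hN
  have h6 := (h2.const_mul (-((Ideal.absNorm I : ℂ) ^ 2)⁻¹)).add
    (h1.const_mul (-((Q : ℂ) ^ 2 * Ideal.absNorm I)⁻¹))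
  rw [mul_zero, mul_zero, add_zero] at h6
  refine h6.congr fun s => ?_
  simp only [Lam, card_bx, sub_zero, Int.toNat_natCast, one_mul, ite_mul, zero_mul]
  push_cast
  field_simp
  ring

end IQ

end Pool.Agent.Lib.MP_ad7336_co
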