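import Pool.Agent.Lib.MP_ad7336_co.Sharp

set_option autoImplicit false

namespace Pool.Agent.Lib.MP_ad7336_co

theorem im_ne_of_li {u v : ℂ} (h : LinearIndependent ℝ ![u, v]) :
    (u * (starRingEnd ℂ) v).im ≠ 0 := by
  intro e
  rw [LinearIndependent.pair_iff] at h
  simp only [Complex.mul_im, Complex.conj_re, Complex.conj_im] at e
  have h1 := h v.re (-u.re) (by
    apply Complex.ext <;> simp <;> linarith)
  have h2 := h v.im (-u.im) (by
    apply Complex.ext <;> simp <;> linarith)
  have h3 := h 0 1 (by apply Complex.ext <;> simp [h1.1, h2.1])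
  exact one_ne_zero h3.2

end Pool.Agent.Lib.MP_ad7336_co
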