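import Pool.Agent.Lib.MP_ad7336_co.Core
import Pool.Agent.Lib.MP_ad7336_co.Hex

set_option autoImplicit false

namespace Pool.Agent.Lib.MP_ad7336_co

open QuadraticAlgebra Finset Filter Topology
open scoped Classical

/-- Number of distinct distances. -/
noncomputable def DD (P : Finset ℂ) : ℕ := {d : ℝ | ∃ p ∈ P, ∃ q ∈ P, p ≠ q ∧ d = dist p q}.ncard

namespace Red

theorem dist_emb (F : IQ) (x y : F.O) : dist (F.emb x) (F.emb y) = √(F.nm (x - y) : ℝ) := by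
  rw [dist_eq_norm, ← map_sub, ← F.norm_emb_sq, Real.sqrt_sq (norm_nonneg _)]

theorem DD_sim (P : Finset ℂ) {l : ℂ} (hl : l ≠ 0) (o : ℂ) :
    DD (P.image fun p => l * (p - o)) = DD P := by
  have hd : ∀ p q : ℂ, dist (l * (p - o)) (l * (q - o)) = ‖l‖ * dist p q := fun p q => by
    rw [dist_eq_norm, dist_eq_norm, ← norm_mul]
    congr 1
    ring
  unfold DD
  rw [← Set.ncard_image_of_injective {d : ℝ | ∃ p ∈ P, ∃ q ∈ P, p ≠ q ∧ d = dist p q}
    (mul_right_injective₀ (norm_ne_zero_iff.2 hl))]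
  congr 1
  ext d
  constructor
  · rintro ⟨_, hp, _, hq, h, rfl⟩
    obtain ⟨p, h1, rfl⟩ := mem_image.1 hp
    obtain ⟨q, h2, rfl⟩ := mem_image.1 hq
    exact ⟨_, ⟨p, h1, q, h2, fun e => h (by rw [e]), rfl⟩, (hd p q).symm⟩
  · rintro ⟨_, ⟨p, hp, q, hq, h, rfl⟩, rfl⟩
    exact ⟨_, mem_image_of_mem _ hp, _, mem_image_of_mem _ hq,
      fun e => h (sub_left_injective (mul_left_cancel₀ hl e)), (hd p q).symm⟩

theorem count {P Q : Finset ℂ} {o : ℂ} (ho : o ∈ P) (hQ : ∀ q ∈ Q, q ∈ P ∧ o ≠ q) {k : ℕ}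
    (h : ∀ d, (Q.filter fun q => dist o q = d).card ≤ k) : Q.card ≤ k * DD P := by
  refine (card_le_mul_card_image (f := fun q => dist o q) Q k fun d _ => h d).trans
    (Nat.mul_le_mul_left _ ?_)
  rw [← Set.ncard_coe_finset]
  refine Set.ncard_le_ncard (fun d hd => ?_) (((P ×ˢ P).image fun p => dist p.1 p.2).finite_toSet.subset ?_)
  · obtain ⟨q, hq, rfl⟩ := mem_image.1 (mem_coe.1 hd)
    exact ⟨o, ho, q, (hQ q hq).1, (hQ q hq).2, rfl⟩
  · rintro _ ⟨p, hp, q, hq, -, rfl⟩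
    exact mem_coe.2 (mem_image.2 ⟨(p, q), mem_product.2 ⟨hp, hq⟩, rfl⟩)

theorem roots_le {S : Finset ℂ} {p : Polynomial ℂ} (hp : p ≠ 0) (h : ∀ w ∈ S, p.eval w = 0) :
    S.card ≤ p.natDegree :=
  Polynomial.card_le_degree_of_subset_roots fun w hw => (Polynomial.mem_roots hp).2 (h w hw)

theorem quart {S : Finset ℂ} {α : ℂ} (β γ δ ε : ℂ) (hα : α ≠ 0)
    (h : ∀ w ∈ S, α * w ^ 4 + β * w ^ 3 + γ * w ^ 2 + δ * w + ε = 0) : S.card ≤ 4 := by
  have e : (Polynomial.C α * Polynomial.X ^ 4 + Polynomial.C β * Polynomial.X ^ 3 +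
      Polynomial.C γ * Polynomial.X ^ 2 + Polynomial.C δ * Polynomial.X +
      Polynomial.C ε).natDegree = 4 := by compute_degree!
  refine (roots_le (fun k => ?_) fun w hw => ?_).trans e.le
  · rw [k] at e
    simp at e
  · simpa using h w hw

theorem quad {S : Finset ℂ} {α : ℂ} (β γ : ℂ) (hα : α ≠ 0)
    (h : ∀ w ∈ S, α * w ^ 2 + β * w + γ = 0) : S.card ≤ 2 := by
  have e := Polynomial.natDegree_quadratic (b := β) (c := γ) hα
  refine (roots_le (fun k => ?_) fun w hw => ?_).trans e.le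
  · rw [k] at e
    simp at e
  · simpa using h w hw

theorem ex_phi {x y : ℝ} (h : ¬ ((∃ q : ℚ, x = q) ∧ ∃ q : ℚ, y = q)) :
    ∃ φ : ℝ →ₗ[ℚ] ℚ, φ 1 = 0 ∧ (φ x ≠ 0 ∨ φ y ≠ 0) := by
  have key : ∀ z : ℝ, (¬ ∃ q : ℚ, z = q) → ∃ φ : ℝ →ₗ[ℚ] ℚ, φ 1 = 0 ∧ φ z ≠ 0 := fun z hz => by
    obtain ⟨f, h1, h2⟩ := (Submodule.span ℚ {(1 : ℝ)}).exists_le_ker_of_notMem (v := z) fun k => by
      obtain ⟨q, hq⟩ := Submodule.mem_span_singleton.1 k
      exact hz ⟨q, by rw [← hq, Rat.smul_one_eq_cast]⟩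
    exact ⟨f, h2 (Submodule.mem_span_singleton_self _), h1⟩
  rcases not_and_or.1 h with h | h
  · obtain ⟨φ, h1, h2⟩ := key x h
    exact ⟨φ, h1, Or.inl h2⟩
  · obtain ⟨φ, h1, h2⟩ := key y h
    exact ⟨φ, h1, Or.inr h2⟩

theorem phi_eq {τ s : ℂ} {r : ℝ} (φ : ℝ →ₗ[ℚ] ℚ) (h1 : φ 1 = 0) {a b : ℤ}
    (h : Complex.normSq (s + a + b * τ) = r) :
    (a : ℂ) * b * φ (2 * τ.re) + (b : ℂ) ^ 2 * φ (Complex.normSq τ) + a * φ (2 * s.re) +
      b * φ (2 * (s.re * τ.re + s.im * τ.im)) + φ (Complex.normSq s - r) = 0 := by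
  have e : ((a : ℚ) ^ 2) • (1 : ℝ) + ((a : ℚ) * b) • (2 * τ.re) + ((b : ℚ) ^ 2) • Complex.normSq τ +
      (a : ℚ) • (2 * s.re) + (b : ℚ) • (2 * (s.re * τ.re + s.im * τ.im)) +
      (Complex.normSq s - r) = 0 := by
    rw [← h]
    simp only [Rat.smul_def, Complex.normSq_apply, Complex.add_re, Complex.add_im, Complex.mul_re,
      Complex.mul_im, Complex.intCast_re, Complex.intCast_im]
    push_cast
    ring
  have e2 := congrArg φ e
  simp only [map_add, map_smul, h1, map_zero, smul_eq_mul] at e2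
  have e3 := congrArg (fun q : ℚ => (q : ℂ)) e2
  simp only [Rat.cast_add, Rat.cast_mul, Rat.cast_pow, Rat.cast_intCast, Rat.cast_zero] at e3
  linear_combination e3

theorem ne_of_im {τ : ℂ} (hτ : τ.im ≠ 0) {p q : ℚ} (h : p ≠ 0 ∨ q ≠ 0) :
    (q : ℂ) - p * (starRingEnd ℂ) τ ≠ 0 := by
  intro e
  have e1 := congrArg Complex.im e
  have e2 := congrArg Complex.re e
  simp [hτ] at e1
  simp [e1] at e2
  exact h.elim (fun k => k e1) fun k => k e2

theorem circ_eq {τ s w : ℂ} {r : ℝ} {a b : ℤ} (h : Complex.normSq w = r) (hw : w = s + a + b * τ) :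
    (τ - (starRingEnd ℂ) τ) * b * w = w ^ 2 + ((starRingEnd ℂ) s - s) * w - r ∧
    (τ - (starRingEnd ℂ) τ) * a * w =
      τ * (r - (starRingEnd ℂ) s * w) - (starRingEnd ℂ) τ * (w - s) * w := by
  have e1 : w * (starRingEnd ℂ) w = r := by rw [Complex.mul_conj, h]
  have e2 : (starRingEnd ℂ) w = (starRingEnd ℂ) s + a + b * (starRingEnd ℂ) τ := by simp [hw]
  exact ⟨by linear_combination (-w) * hw + w * e2 - e1,
    by linear_combination (starRingEnd ℂ) τ * w * hw - τ * w * e2 + τ * e1⟩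

theorem circ4 {τ s : ℂ} {r : ℝ} (hτ : τ.im ≠ 0)
    (h : ¬ ((∃ q : ℚ, 2 * τ.re = q) ∧ ∃ q : ℚ, Complex.normSq τ = q)) {S : Finset ℂ}
    (hS : ∀ w ∈ S, Complex.normSq w = r ∧ ∃ a b : ℤ, w = s + a + b * τ) : S.card ≤ 4 := by
  obtain ⟨φ, h1, h2⟩ := ex_phi h
  generalize hc : (starRingEnd ℂ) τ = c
  generalize hs' : (starRingEnd ℂ) s = s'
  generalize hx : ((φ (2 * τ.re) : ℚ) : ℂ) = x
  generalize hy : ((φ (Complex.normSq τ) : ℚ) : ℂ) = y
  generalize hl1 : ((φ (2 * s.re) : ℚ) : ℂ) = l1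
  generalize hl2 : ((φ (2 * (s.re * τ.re + s.im * τ.im)) : ℚ) : ℂ) = l2
  generalize hl0 : ((φ (Complex.normSq s - r) : ℚ) : ℂ) = l0
  refine quart (α := y - x * c)
    ((y - x * τ) * s' - (y - x * c) * s + (s' - s) * (y - x * c) + (τ - c) * (l2 - l1 * c))
    (-(y - x * τ) * r + (s' - s) * ((y - x * τ) * s' - (y - x * c) * s) - r * (y - x * c) +
      (τ - c) * ((l2 - l1 * τ) * s' - (l2 - l1 * c) * s) + (τ - c) ^ 2 * l0)
    (-(s' - s) * (y - x * τ) * r - r * ((y - x * τ) * s' - (y - x * c) * s) -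
      (τ - c) * (l2 - l1 * τ) * r) ((y - x * τ) * r ^ 2)
    (by rw [← hx, ← hy, ← hc]; exact ne_of_im hτ h2) fun w hw => ?_
  obtain ⟨k, a, b, e⟩ := hS w hw
  have e0 := phi_eq φ h1 (e ▸ k)
  obtain ⟨e1, e2⟩ := circ_eq k e
  rw [hx, hy, hl1, hl2, hl0] at e0
  rw [hc, hs'] at e1 e2
  linear_combination (τ - c) ^ 2 * w ^ 2 * e0 -
    (x * ((τ - c) * a * w) + y * ((τ - c) * b * w) + y * (w ^ 2 + (s' - s) * w - r) +
      (τ - c) * w * l2) * e1 - (x * (w ^ 2 + (s' - s) * w - r) + (τ - c) * w * l1) * e2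

theorem circ2 {τ s : ℂ} {r : ℝ} (hτ : τ.im ≠ 0) {x y : ℚ} (hx : 2 * τ.re = x)
    (hy : Complex.normSq τ = y) (h : ¬ ∃ p q : ℚ, s = p + q * τ) {S : Finset ℂ}
    (hS : ∀ w ∈ S, Complex.normSq w = r ∧ ∃ a b : ℤ, w = s + a + b * τ) : S.card ≤ 2 := by
  obtain ⟨φ, h1, h2⟩ := ex_phi (x := 2 * s.re) (y := 2 * (s.re * τ.re + s.im * τ.im)) (by
    rintro ⟨⟨p, hp⟩, q, hq⟩
    rw [Complex.normSq_apply] at hy
    have e : (4 * y - x ^ 2 : ℝ) = 4 * τ.im ^ 2 := by rw [← hx, ← hy]; ring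
    have e' : (4 * y - x ^ 2 : ℝ) ≠ 0 := by rw [e]; positivity
    have e2 : s.im = ((2 * q - p * x) / (4 * y - x ^ 2) : ℚ) * τ.im := by
      push_cast
      rw [div_mul_eq_mul_div, eq_div_iff e', e, ← hp, ← hq, ← hx]
      ring
    refine h ⟨p / 2 - (2 * q - p * x) / (4 * y - x ^ 2) * (x / 2),
      (2 * q - p * x) / (4 * y - x ^ 2), Complex.ext ?_ ?_⟩
    · simp only [Complex.add_re, Complex.mul_re, Complex.ratCast_re, Complex.ratCast_im]
      push_cast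
      linear_combination hp / 2 - (2 * q - p * x) / (4 * y - x ^ 2) / 2 * hx
    · simp only [Complex.add_im, Complex.mul_im, Complex.ratCast_re, Complex.ratCast_im]
      linear_combination e2)
  have z : ∀ q : ℚ, φ q = 0 := fun q => by rw [← Rat.smul_one_eq_cast, map_smul, h1, smul_zero]
  generalize hc : (starRingEnd ℂ) τ = c
  generalize hs' : (starRingEnd ℂ) s = s'
  generalize hl1 : ((φ (2 * s.re) : ℚ) : ℂ) = l1
  generalize hl2 : ((φ (2 * (s.re * τ.re + s.im * τ.im)) : ℚ) : ℂ) = l2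
  generalize hl0 : ((φ (Complex.normSq s - r) : ℚ) : ℂ) = l0
  refine quad (α := l2 - l1 * c) ((l2 - l1 * τ) * s' - (l2 - l1 * c) * s + (τ - c) * l0)
    (-(l2 - l1 * τ) * r) (by rw [← hl1, ← hl2, ← hc]; exact ne_of_im hτ h2) fun w hw => ?_
  obtain ⟨k, a, b, e⟩ := hS w hw
  have e0 := phi_eq φ h1 (e ▸ k)
  obtain ⟨e1, e2⟩ := circ_eq k e
  rw [hx, hy, z, z, hl1, hl2, hl0] at e0
  rw [hc, hs'] at e1 e2
  push_cast at e0
  linear_combination (τ - c) * w * e0 - l2 * e1 - l1 * e2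

theorem coset {u v o : ℂ} (hu : u ≠ 0) {T P Q : Finset ℂ} (ho : o ∈ P)
    (hQ : ∀ q ∈ Q, q ∈ P ∧ o ≠ q) (A : ℂ → Prop)
    (hT : ∀ q ∈ Q, ∃ t ∈ T, A ((t - o) / u) ∧ ∃ a b : ℤ, q = t + a * u + b * v) {k : ℕ}
    (h : ∀ (s : ℂ) (r : ℝ) (S : Finset ℂ), A s →
      (∀ w ∈ S, Complex.normSq w = r ∧ ∃ a b : ℤ, w = s + a + b * (v / u)) → S.card ≤ k) :
    Q.card ≤ T.card * k * DD P := by
  refine count ho hQ fun d => ?_
  refine (card_le_card (t := T.biUnion fun t => Q.filter fun q => dist o q = d ∧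
    A ((t - o) / u) ∧ ∃ a b : ℤ, q = t + a * u + b * v) fun q hq => ?_).trans
      (card_biUnion_le_card_mul _ _ _ fun t _ => ?_)
  · obtain ⟨h1, h2⟩ := mem_filter.1 hq
    obtain ⟨t, h3, h4⟩ := hT q h1
    exact mem_biUnion.2 ⟨t, h3, mem_filter.2 ⟨h1, h2, h4⟩⟩
  · by_cases hA : A ((t - o) / u)
    · rw [← card_image_of_injective _ (f := fun q => (q - o) / u)
        fun p q e => sub_left_injective ((div_left_inj' hu).1 e)]
      refine h _ (d ^ 2 / Complex.normSq u) _ hA (forall_mem_image.2 fun q hq => ?_)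
      obtain ⟨-, h1, -, a, b, h2⟩ := mem_filter.1 hq
      refine ⟨?_, a, b, by rw [h2]; field_simp; ring⟩
      rw [map_div₀, ← h1, dist_comm, dist_eq_norm, Complex.normSq_eq_norm_sq]
    · simp [hA]

theorem ex_F {τ : ℂ} (hτ : τ.im ≠ 0) {x y : ℚ} (hx : 2 * τ.re = x) (hy : Complex.normSq τ = y) :
    ∃ (F : IQ) (p q : ℚ), τ = p + q * F.om := by
  rw [Complex.normSq_apply] at hy
  obtain ⟨m, hm⟩ : ∃ m : ℚ, m = y - x ^ 2 / 4 := ⟨_, rfl⟩
  have e : τ.im ^ 2 = m := by rw [hm]; push_cast; rw [← hx, ← hy]; ring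
  have hm0 : (0 : ℝ) < m := e ▸ sq_pos_of_ne_zero hτ
  obtain ⟨d, c, h1, h2⟩ := Nat.sq_mul_squarefree (m.num.natAbs * m.den)
  have e1 : (c : ℝ) ^ 2 * d = m * m.den ^ 2 := by
    have k1 : ((m.num.natAbs : ℤ) : ℝ) = m.num := by
      rw [Int.natAbs_of_nonneg (Rat.num_nonneg.2 (by exact_mod_cast hm0.le))]
    have k2 : (m.num : ℝ) = m * m.den := by exact_mod_cast (Rat.mul_den_eq_num m).symm
    have k3 : (c : ℝ) ^ 2 * d = ((m.num.natAbs : ℤ) : ℝ) * m.den := by exact_mod_cast h1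
    rw [k3, k1, k2]
    ring
  have hd : (m.den : ℝ) ≠ 0 := Nat.cast_ne_zero.2 m.den_ne_zero
  obtain ⟨q, hq⟩ : ∃ q : ℚ, τ.im = q * √(d : ℝ) := by
    have : τ.im ^ 2 = ((c : ℝ) / m.den * √(d : ℝ)) ^ 2 := by
      rw [mul_pow, Real.sq_sqrt (Nat.cast_nonneg _), e, div_pow, div_mul_eq_mul_div, e1]
      field_simp
    rcases sq_eq_sq_iff_eq_or_eq_neg.1 this with k | k
    · exact ⟨c / m.den, by rw [k]; push_cast; ring⟩
    · exact ⟨-(c / m.den), by rw [k]; push_cast; ring⟩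
  obtain ⟨F, ⟨k1, k2⟩ | ⟨k1, k2⟩⟩ := exists_IQ h2
  · refine ⟨F, x / 2 - q, 2 * q, Complex.ext ?_ ?_⟩
    · simp [IQ.om, k2]
      linear_combination hx / 2
    · simp [IQ.om, k1, hq]
      ring
  · have : √((4 * d : ℕ) : ℝ) = 2 * √(d : ℝ) := by
      push_cast
      rw [Real.sqrt_mul (by norm_num), show (4 : ℝ) = 2 ^ 2 by norm_num, Real.sqrt_sq (by norm_num)]
    refine ⟨F, x / 2, q, Complex.ext ?_ ?_⟩
    · simp [IQ.om, k2]
      linear_combination hx / 2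
    · simp only [IQ.om, k1, this, hq]
      simp

theorem ex_den (F : IQ) (W : Finset ℂ) : ∃ N : ℕ, N ≠ 0 ∧ ∀ z ∈ W,
    (∃ p q : ℚ, z = p + q * F.om) → ∃ o, F.emb o = N * z := by
  induction W using Finset.induction_on with
  | empty => exact ⟨1, one_ne_zero, by simp⟩
  | insert w W _ ih =>
    obtain ⟨N, h1, h2⟩ := ih
    by_cases hw : ∃ p q : ℚ, w = p + q * F.om
    · obtain ⟨p, q, rfl⟩ := hw
      refine ⟨N * (p.den * q.den), mul_ne_zero h1 (mul_ne_zero p.den_ne_zero q.den_ne_zero),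
        forall_mem_insert _ _ _ |>.2 ⟨fun _ => ⟨⟨N * p.num * q.den, N * q.num * p.den⟩, ?_⟩,
          fun z hz k => ?_⟩⟩
      · have k1 : (p.num : ℂ) = p * p.den := by exact_mod_cast (Rat.mul_den_eq_num p).symm
        have k2 : (q.num : ℂ) = q * q.den := by exact_mod_cast (Rat.mul_den_eq_num q).symm
        change ((N * p.num * q.den : ℤ) : ℂ) + ((N * q.num * p.den : ℤ) : ℂ) * F.om = _
        push_cast
        rw [k1, k2]
        ring
      · obtain ⟨o, ho⟩ := h2 z hz k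
        exact ⟨(p.den * q.den : ℕ) * o, by rw [map_mul, map_natCast, ho]; push_cast; ring⟩
    · exact ⟨N, h1, forall_mem_insert _ _ _ |>.2 ⟨fun k => (hw k).elim, h2⟩⟩

end Red

theorem DD_image (F : IQ) (P : Finset F.O) : DD (P.image F.emb) = F.Dn P := by
  unfold DD IQ.Dn
  rw [← Set.ncard_coe_finset, ← Set.ncard_image_of_injective (f := fun n : ℕ => √(n : ℝ)) _
    fun m n h => Nat.cast_injective ((Real.sqrt_inj (Nat.cast_nonneg _) (Nat.cast_nonneg _)).1 h)]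
  congr 1
  ext d
  constructor
  · rintro ⟨_, hp, _, hq, h, rfl⟩
    obtain ⟨p, h1, rfl⟩ := mem_image.1 hp
    obtain ⟨q, h2, rfl⟩ := mem_image.1 hq
    exact ⟨_, mem_coe.2 (mem_image.2 ⟨(p, q), mem_offDiag.2 ⟨h1, h2, fun e => h (congrArg _ e)⟩, rfl⟩),
      (Red.dist_emb F p q).symm⟩
  · rintro ⟨_, h, rfl⟩
    obtain ⟨p, hp, rfl⟩ := mem_image.1 (mem_coe.1 h)
    obtain ⟨h1, h2, h3⟩ := mem_offDiag.1 hp
    exact ⟨_, mem_image_of_mem _ h1, _, mem_image_of_mem _ h2, fun e => h3 (F.emb_inj e),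
      (Red.dist_emb F _ _).symm⟩

/-- Either many distances, or similar to a subset of a maximal order. -/
theorem red (u v : ℂ) (huv : (u * (starRingEnd ℂ) v).im ≠ 0) (T : Finset ℂ) :
    ∃ (F : IQ) (c : ℝ), 0 < c ∧ ∀ P : Finset ℂ,
      (∀ p ∈ P, ∃ t ∈ T, ∃ a b : ℤ, p = t + a * u + b * v) →
      (P.card : ℝ) ≤ 4 * T.card * (DD P + 1) ∨ ∃ P' : Finset F.O, P'.card = P.card ∧
        F.Dn P' = DD P ∧ ∀ x ∈ P', ∀ y ∈ P', ∃ p ∈ P, ∃ q ∈ P, (F.nm (x - y) : ℝ) = c * dist p q ^ 2 :=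
  by
  have hu : u ≠ 0 := fun e => huv (by simp [e])
  have hτ : (v / u).im ≠ 0 := fun e => huv (by
    have : u * (starRingEnd ℂ) v = (starRingEnd ℂ) (v / u) * (Complex.normSq u : ℝ) := by
      rw [map_div₀, ← Complex.mul_conj]
      field_simp [(map_ne_zero (starRingEnd ℂ)).2 hu]
    rw [this, Complex.mul_im, Complex.conj_im, e, Complex.ofReal_im]
    simp)
  by_cases h : (∃ q : ℚ, 2 * (v / u).re = q) ∧ ∃ q : ℚ, Complex.normSq (v / u) = q
  swap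
  · obtain ⟨F, -⟩ := exists_hex
    refine ⟨F, 1, one_pos, fun P hP => Or.inl ?_⟩
    rcases P.eq_empty_or_nonempty with rfl | ⟨o, ho⟩
    · simp only [card_empty, Nat.cast_zero]
      positivity
    have h1 := Red.coset (v := v) (T := T) (Q := P.erase o) hu ho
      (fun q hq => ⟨mem_of_mem_erase hq, (ne_of_mem_erase hq).symm⟩) (fun _ => True)
      (fun q hq => let ⟨t, a, b⟩ := hP q (mem_of_mem_erase hq); ⟨t, a, trivial, b⟩)
      fun s r S _ hS => Red.circ4 hτ h hS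
    have h2 := card_erase_add_one ho
    have h3 : 0 < T.card := card_pos.2 (let ⟨t, a, _⟩ := hP o ho; ⟨t, a⟩)
    have h4 : P.card ≤ 4 * T.card * (DD P + 1) := by nlinarith
    exact_mod_cast h4
  obtain ⟨⟨x, hx⟩, y, hy⟩ := h
  obtain ⟨F, p0, q0, hF⟩ := Red.ex_F hτ hx hy
  obtain ⟨N, hN, hW⟩ := Red.ex_den F (insert (v / u) ((T ×ˢ T).image fun t => (t.1 - t.2) / u))
  have hl : (N : ℂ) / u ≠ 0 := div_ne_zero (Nat.cast_ne_zero.2 hN) hu
  refine ⟨F, ‖(N : ℂ) / u‖ ^ 2, pow_pos (norm_pos_iff.2 hl) 2, fun P hP => ?_⟩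
  rcases P.eq_empty_or_nonempty with rfl | ⟨o, ho⟩
  · refine Or.inl ?_
    simp only [card_empty, Nat.cast_zero]
    positivity
  let R : ℂ → Prop := fun s => ∃ p q : ℚ, s = p + q * (v / u)
  have hR : ∀ o' : ℂ, o' ∈ P → ∀ Q : Finset ℂ, (∀ q ∈ Q, q ∈ P ∧ ¬ R ((q - o') / u)) →
      Q.card ≤ T.card * 2 * DD P := fun o' ho' Q hQ =>
    Red.coset (v := v) hu ho' (fun q hq => ⟨(hQ q hq).1, fun e => (hQ q hq).2 ⟨0, 0, by simp [e]⟩⟩)
      (fun s => ¬ R s) (fun q hq => by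
        obtain ⟨t, h1, a, b, h2⟩ := hP q (hQ q hq).1
        refine ⟨t, h1, fun ⟨p', q', k⟩ => (hQ q hq).2 ⟨p' + a, q' + b, ?_⟩, a, b, h2⟩
        push_cast
        rw [h2]
        linear_combination k + (a : ℂ) * div_self hu) fun s r S hs hS => Red.circ2 hτ hx hy hs hS
  by_cases hall : ∀ p ∈ P, R ((p - o) / u)
  · right
    obtain ⟨oτ, hoτ⟩ := hW _ (mem_insert_self _ _) ⟨p0, q0, hF⟩
    have key : ∀ p ∈ P, ∃ z, F.emb z = (N : ℂ) / u * (p - o) := fun p hp => by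
      obtain ⟨t, h1, a, b, h2⟩ := hP p hp
      obtain ⟨t', h3, a', b', h4⟩ := hP o ho
      obtain ⟨p', q', k⟩ := hall p hp
      have e : (p - o) / u = (t - t') / u + (a - a') + (b - b') * (v / u) := by
        rw [h2, h4]
        field_simp
        ring
      obtain ⟨z, hz⟩ := hW ((t - t') / u)
        (mem_insert_of_mem (mem_image.2 ⟨(t, t'), mem_product.2 ⟨h1, h3⟩, rfl⟩))
        ⟨p' - (a - a') + (q' - (b - b')) * p0, (q' - (b - b')) * q0, by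
          push_cast
          linear_combination k - e + (q' - (b - b')) * hF⟩
      refine ⟨z + (N * (a - a') : ℤ) + (b - b' : ℤ) * oτ, ?_⟩
      rw [map_add, map_add, map_mul, map_intCast, map_intCast, hz, hoτ]
      push_cast
      linear_combination -(N : ℂ) * e
    choose! z hz using key
    have e : (P.image z).image F.emb = P.image fun p => (N : ℂ) / u * (p - o) := by
      rw [image_image]
      exact image_congr fun p hp => hz p hp
    refine ⟨P.image z, card_image_of_injOn fun p hp q hq k => ?_,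
      by rw [← DD_image, e, Red.DD_sim P hl], forall_mem_image.2 fun p hp =>
        forall_mem_image.2 fun q hq => ⟨p, hp, q, hq, ?_⟩⟩
    · have := congrArg F.emb k
      rw [hz p hp, hz q hq] at this
      exact sub_left_injective (mul_left_cancel₀ hl this)
    · rw [← F.norm_emb_sq, map_sub, hz p hp, hz q hq, dist_eq_norm, ← mul_pow, ← norm_mul]
      congr 2
      ring
  · left
    push Not at hall
    obtain ⟨o', h1, h2⟩ := hall
    have h3 := hR o ho (P.filter fun p => ¬ R ((p - o) / u)) fun q hq => mem_filter.1 hq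
    have h4 := hR o' h1 (P.filter fun p => R ((p - o) / u)) fun q hq => by
      obtain ⟨k, p1, q1, k1⟩ := mem_filter.1 hq
      refine ⟨k, fun ⟨p2, q2, k2⟩ => h2 ⟨p1 - p2, q1 - q2, ?_⟩⟩
      push_cast
      linear_combination k1 - k2
    have h5 := card_filter_add_card_filter_not (s := P) fun p => R ((p - o) / u)
    have h6 : P.card ≤ 4 * T.card * (DD P + 1) := by nlinarith
    exact_mod_cast h6

theorem main (u v : ℂ) (huv : (u * (starRingEnd ℂ) v).im ≠ 0) (T : Finset ℂ) (C : ℝ) :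
    ∃ n₀ : ℕ, ∀ P : Finset ℂ, n₀ ≤ P.card →
      (∀ p ∈ P, ∃ t ∈ T, ∃ a b : ℤ, p = t + a * u + b * v) →
      (∀ p ∈ P, ∀ q ∈ P, dist p q ^ 2 ≤ C * P.card) →
      ∃ Q : Finset ℂ, Q.card = P.card ∧
        (∀ p ∈ Q, ∃ a b : ℤ,
          p = (a : ℂ) + (b : ℂ) * ((1 / 2 : ℂ) + ((Real.sqrt 3 / 2 : ℝ) : ℂ) * Complex.I)) ∧
        DD Q ≤ DD P := by
  obtain ⟨F, c, hc, hF⟩ := red u v huv T
  obtain ⟨H, ha, hb⟩ := exists_hex
  have lat : ∀ K : IQ, K.D = 3 → K.b = 1 → ∀ P' : Finset K.O, ∀ p ∈ P'.image K.emb, ∃ a b : ℤ,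
      p = (a : ℂ) + (b : ℂ) * ((1 / 2 : ℂ) + ((Real.sqrt 3 / 2 : ℝ) : ℂ) * Complex.I) :=
    fun K h1 h2 P' => forall_mem_image.2 fun z _ => ⟨z.re, z.im, by
      change (z.re : ℂ) + z.im * K.om = _
      simp only [IQ.om, h1, h2]
      push_cast
      ring⟩
  have hD : H.D = 3 := by simp [IQ.D, ha, hb]
  obtain ⟨ε, h0, hε⟩ : ∃ ε : ℝ, 0 < ε ∧ (F.D ≠ 3 → (1 + ε) * H.kap ≤ (1 - ε) * F.kap) := by
    by_cases h : F.D = 3
    · exact ⟨1, one_pos, fun k => (k h).elim⟩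
    · have h1 := IQ.kap_lt ha hb h
      have h2 := H.kap_pos
      have h3 : 0 < F.kap + H.kap := by linarith
      refine ⟨(F.kap - H.kap) / (F.kap + H.kap), div_pos (sub_pos.2 h1) h3, fun _ => le_of_eq ?_⟩
      field_simp
      ring
  have t1 : Tendsto (fun n : ℕ => √(Real.log n)) atTop atTop :=
    Real.tendsto_sqrt_atTop.comp (Real.tendsto_log_atTop.comp tendsto_natCast_atTop_atTop)
  obtain ⟨n₀, hn⟩ := eventually_atTop.1 ((IQ.hex_upper ha hb h0).and ((F.core h0 (c * C)).and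
    ((t1.eventually_ge_atTop (8 * T.card * ((1 + ε) * H.kap) + 1)).and
      (eventually_ge_atTop (8 * T.card + 1)))))
  refine ⟨n₀, fun P h1 h2 h3 => ?_⟩
  obtain ⟨⟨Q, q1, q2⟩, q3, q4, q5⟩ := hn _ h1
  have hQ : (H.Dn Q : ℝ) ≤ DD P → ∃ Q : Finset ℂ, Q.card = P.card ∧
      (∀ p ∈ Q, ∃ a b : ℤ,
        p = (a : ℂ) + (b : ℂ) * ((1 / 2 : ℂ) + ((Real.sqrt 3 / 2 : ℝ) : ℂ) * Complex.I)) ∧
      DD Q ≤ DD P := fun k => ⟨Q.image H.emb, by rw [card_image_of_injective _ H.emb_inj, q1],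
        lat H hD hb Q, by rw [DD_image]; exact_mod_cast k⟩
  have hK : 0 < (1 + ε) * H.kap := mul_pos (by linarith) H.kap_pos
  have hs : 0 < √(Real.log P.card) := lt_of_lt_of_le (by positivity) q4
  rcases hF P h2 with k | ⟨P', k1, k2, k3⟩
  · refine hQ (le_of_not_gt fun k' => ?_)
    have q6 : (8 * T.card + 1 : ℝ) ≤ P.card := by exact_mod_cast q5
    have q7 : (0 : ℝ) ≤ T.card := Nat.cast_nonneg _
    rw [le_div_iff₀ hs] at q2
    have q8 : 8 * T.card * (H.Dn Q : ℝ) ≤ P.card := by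
      refine le_of_mul_le_mul_right ?_ hs
      nlinarith [mul_le_mul_of_nonneg_left q2 q7, mul_le_mul_of_nonneg_left q4 (q7.trans (by linarith) : (0 : ℝ) ≤ P.card)]
    nlinarith [mul_le_mul_of_nonneg_left k'.le q7]
  by_cases h : F.D = 3
  · refine ⟨P'.image F.emb, by rw [card_image_of_injective _ F.emb_inj, k1], lat F h ?_ P',
      by rw [DD_image, k2]⟩
    have := F.D_eq
    rcases F.fund with k | k
    · exact k.1
    · rw [h, k.1] at this
      omega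
  · refine hQ (q2.trans (le_trans ?_ (k2 ▸ q3 P' k1 fun x hx y hy => ?_)))
    · exact div_le_div_of_nonneg_right (mul_le_mul_of_nonneg_right (hε h) (Nat.cast_nonneg _)) hs.le
    · obtain ⟨p, hp, q, hq, e⟩ := k3 x hx y hy
      rw [e, mul_assoc]
      exact mul_le_mul_of_nonneg_left (h3 p hp q hq) hc.le

end Pool.Agent.Lib.MP_ad7336_co
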