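import Pool.Agent.Lib.MP_ad7336_co.Defs

set_option autoImplicit false

namespace Pool.Agent.Lib.MP_ad7336_co

open QuadraticAlgebra Finset Filter Topology
open scoped Classical

namespace IQ

variable (F : IQ)

theorem b_cases : F.b = 0 ∨ F.b = 1 := by
  rcases F.fund with h | h
  · exact Or.inr h.1
  · exact Or.inl h.1

theorem three_le_D : 3 ≤ F.D := by
  have h1 := F.D_eq
  have h2 := F.hneg
  rcases F.b_cases with h | h <;> rw [h] at h1 h2 <;> omega

theorem four_norm (z : F.O) : 4 * z.norm = (2 * z.re + F.b * z.im) ^ 2 + F.D * z.im ^ 2 := by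
  rw [norm_def, F.D_eq]; ring

theorem nm_cast (z : F.O) : (F.nm z : ℤ) = z.norm := by
  have := F.four_norm z
  have h : 0 ≤ (2 * z.re + F.b * z.im) ^ 2 + F.D * z.im ^ 2 := by positivity
  unfold nm
  omega

theorem four_nm (z : F.O) : 4 * (F.nm z : ℤ) = (2 * z.re + F.b * z.im) ^ 2 + F.D * z.im ^ 2 := by
  rw [nm_cast, four_norm]

theorem nm_mul (z w : F.O) : F.nm (z * w) = F.nm z * F.nm w := by
  simp [nm, Int.natAbs_mul]

theorem mul_star_eq (z : F.O) : z * star z = (F.nm z : F.O) := by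
  rw [← algebraMap_norm_eq_mul_star, ← F.nm_cast]
  simp

theorem nm_eq_zero {z : F.O} : F.nm z = 0 ↔ z = 0 := by
  constructor
  · intro h
    have h1 := F.mul_star_eq z
    rw [h, Nat.cast_zero] at h1
    rcases mul_eq_zero.1 h1 with h2 | h2
    · exact h2
    · exact star_eq_zero.1 h2
  · rintro rfl
    simp [nm]

theorem nm_star (z : F.O) : F.nm (star z) = F.nm z := by simp [nm]

theorem nm_natCast (n : ℕ) : F.nm (n : F.O) = n ^ 2 := by
  rw [nm, QuadraticAlgebra.norm_natCast]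
  simp

theorem absNorm_span (z : F.O) : Ideal.absNorm (Ideal.span {z}) = F.nm z := by
  have : Algebra.norm ℤ z = z.norm := by
    rw [Algebra.norm_apply, ← det_toLinearMap_eq_norm]
    congr 1
  rw [Ideal.absNorm_span_singleton, this, nm]

theorem om_re : F.om.re = F.b / 2 := by simp [om]

theorem om_im : F.om.im = √(F.D : ℝ) / 2 := by simp [om]

theorem D_real : (F.D : ℝ) = -((F.b : ℝ) ^ 2 + 4 * F.a) := by exact_mod_cast F.D_eq

theorem norm_real_sq (x y : ℝ) : ‖(x : ℂ) + y * F.om‖ ^ 2 = F.Nr x y := by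
  rw [Complex.sq_norm, Complex.normSq_apply]
  simp only [Complex.add_re, Complex.ofReal_re, Complex.mul_re, Complex.ofReal_im, om_re, om_im,
    Complex.add_im, Complex.mul_im, Nr]
  have h := Real.mul_self_sqrt (Nat.cast_nonneg (α := ℝ) F.D)
  have h2 := F.D_real
  linear_combination (y ^ 2 / 4) * h + (y ^ 2 / 4) * h2

theorem emb_apply (z : F.O) : F.emb z = ((z.re : ℝ) : ℂ) + ((z.im : ℝ) : ℂ) * F.om := by
  simp only [Complex.ofReal_intCast]; rfl

theorem Nr_int (z : F.O) : F.Nr z.re z.im = F.nm z := by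
  have h : ((F.nm z : ℤ) : ℝ) = ((z.norm : ℤ) : ℝ) := by rw [F.nm_cast]
  rw [norm_def] at h
  push_cast at h
  rw [h, Nr]; ring

theorem norm_emb_sq (z : F.O) : ‖F.emb z‖ ^ 2 = F.nm z := by
  rw [emb_apply, norm_real_sq, Nr_int]

theorem abs_coord_le (x y : ℝ) :
    |x| ≤ 2 * ‖(x : ℂ) + y * F.om‖ ∧ |y| ≤ 2 * ‖(x : ℂ) + y * F.om‖ := by
  have h := F.norm_real_sq x y
  have h0 := norm_nonneg ((x : ℂ) + y * F.om)
  set r := ‖(x : ℂ) + y * F.om‖
  have h3 : (3 : ℝ) ≤ F.D := by exact_mod_cast F.three_le_D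
  have h2 := F.D_real
  have h4 : 4 * r ^ 2 = (2 * x + F.b * y) ^ 2 + F.D * y ^ 2 := by rw [h, Nr, h2]; ring
  have h5 : 3 * y ^ 2 ≤ F.D * y ^ 2 := mul_le_mul_of_nonneg_right h3 (sq_nonneg y)
  constructor
  · refine abs_le_of_sq_le_sq' ?_ (by positivity) |>.elim (fun a b => abs_le.2 ⟨a, b⟩)
    rcases F.b_cases with hb | hb <;> rw [hb] at h4 <;> push_cast at h4
    · nlinarith [sq_nonneg y]
    · nlinarith [sq_nonneg (3 * x + 4 * y), sq_nonneg y, sq_nonneg x]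
  · refine abs_le_of_sq_le_sq' ?_ (by positivity) |>.elim (fun a b => abs_le.2 ⟨a, b⟩)
    nlinarith [sq_nonneg (2 * x + F.b * y), sq_nonneg y]

theorem emb_star (z : F.O) : F.emb (star z) = (starRingEnd ℂ) (F.emb z) := by
  rw [emb_apply, emb_apply]
  apply Complex.ext <;> simp [om_re, om_im]
  ring

theorem emb_ne {z : F.O} (hz : z ≠ 0) : F.emb z ≠ 0 := by
  intro h
  have h1 := F.norm_emb_sq z
  rw [h, _root_.norm_zero] at h1
  exact hz (F.nm_eq_zero.1 (by exact_mod_cast (by simpa using h1.symm : (F.nm z : ℝ) = 0)))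

theorem emb_inj : Function.Injective F.emb :=
  (injective_iff_map_eq_zero _).2 (fun _ h => by_contra (fun hz => F.emb_ne hz h))

theorem norm_dir {z : F.O} (hz : z ≠ 0) : ‖F.dir z‖ = 1 := by
  rw [dir, norm_div, Complex.norm_real, norm_norm, div_self (norm_ne_zero_iff.2 (F.emb_ne hz))]

theorem dir_mul (z w : F.O) : F.dir (z * w) = F.dir z * F.dir w := by
  simp only [dir, map_mul, norm_mul]
  push_cast
  rw [mul_div_mul_comm]

theorem dir_star (z : F.O) : F.dir (star z) = (starRingEnd ℂ) (F.dir z) := by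
  simp [dir, emb_star]

theorem dir_natCast {n : ℕ} (hn : n ≠ 0) : F.dir (n : F.O) = 1 := by
  have : (n : ℂ) ≠ 0 := by exact_mod_cast hn
  simp [dir, this]

theorem coord_le (z : F.O) : |z.re| ≤ 2 * F.nm z ∧ |z.im| ≤ 2 * F.nm z := by
  have h := F.abs_coord_le z.re z.im
  rw [← emb_apply] at h
  have h1 := F.norm_emb_sq z
  have h2 : ‖F.emb z‖ ≤ F.nm z := by
    rcases Nat.eq_zero_or_pos (F.nm z) with h0 | h0
    · rw [F.nm_eq_zero.1 h0]; simp
    · have : (1 : ℝ) ≤ F.nm z := by exact_mod_cast h0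
      nlinarith [norm_nonneg (F.emb z)]
  constructor
  · exact_mod_cast (h.1.trans (by linarith) : |(z.re : ℝ)| ≤ 2 * F.nm z)
  · exact_mod_cast (h.2.trans (by linarith) : |(z.im : ℝ)| ≤ 2 * F.nm z)

theorem mem_ball {t : ℝ} {z : F.O} : z ∈ F.ball t ↔ (F.nm z : ℝ) ≤ t := by
  rw [ball, mem_filter, mem_bx]
  refine ⟨fun h => h.2, fun h => ⟨?_, h⟩⟩
  have h1 : (F.nm z : ℤ) ≤ ⌈t⌉ := by exact_mod_cast h.trans (Int.le_ceil t)
  obtain ⟨h2, h3⟩ := F.coord_le z
  rw [abs_le] at h2 h3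
  omega

theorem intCast_dvd_iff {n : ℤ} {z : F.O} : (n : F.O) ∣ z ↔ n ∣ z.re ∧ n ∣ z.im := by
  constructor
  · rintro ⟨w, rfl⟩
    simp
  · rintro ⟨⟨x, hx⟩, y, hy⟩
    exact ⟨⟨x, y⟩, by ext <;> simp [hx, hy]⟩

theorem natCast_dvd_iff {n : ℕ} {z : F.O} :
    (n : F.O) ∣ z ↔ (n : ℤ) ∣ z.re ∧ (n : ℤ) ∣ z.im := by
  rw [← F.intCast_dvd_iff, Int.cast_natCast]

theorem nm_unit (u : F.Oˣ) : F.nm u = 1 := by
  have := isUnit_iff_norm_isUnit.1 u.isUnit
  exact Int.isUnit_iff_natAbs_eq.1 this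

instance : Finite F.Oˣ :=
  Finite.of_injective (fun u : F.Oˣ => (⟨u, F.mem_ball.2 (by simp [F.nm_unit])⟩ : F.ball 1))
    (fun _ _ h => Units.ext (congrArg Subtype.val h))

theorem ww_pos : 0 < F.ww := Nat.card_pos

theorem hh_pos : 0 < F.hh := Nat.card_pos

end IQ

end Pool.Agent.Lib.MP_ad7336_co
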