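import Pool.Agent.Lib.MP_ad7336_co.S1

set_option autoImplicit false

namespace Pool.Agent.Lib.MP_ad7336_co

open QuadraticAlgebra Finset Filter Topology
open scoped Classical

namespace IQ

variable (F : IQ)

theorem cj_mul (I J : Ideal F.O) : F.cj (I * J) = F.cj I * F.cj J := Ideal.map_mul _ _ _

theorem mem_cj {I : Ideal F.O} {z : F.O} : z ∈ F.cj I ↔ star z ∈ I := by
  rw [cj, Ideal.mem_map_iff_of_surjective _ (fun w => ⟨star w, star_star w⟩)]
  constructor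
  · rintro ⟨w, hw, rfl⟩
    simpa [starRingEnd_apply] using hw
  · exact fun h => ⟨star z, h, star_star z⟩

theorem cj_cj (I : Ideal F.O) : F.cj (F.cj I) = I := by
  ext z
  rw [mem_cj, mem_cj, star_star]

theorem cj_top : F.cj ⊤ = ⊤ := Ideal.map_top _

theorem cj_bot : F.cj ⊥ = ⊥ := Ideal.map_bot

theorem cj_span (z : F.O) : F.cj (Ideal.span {z}) = Ideal.span {star z} := by
  rw [cj, Ideal.map_span, Set.image_singleton]; rfl

theorem cj_ne_bot {I : Ideal F.O} (h : I ≠ ⊥) : F.cj I ≠ ⊥ := fun h' => h (by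
  rw [← F.cj_cj I, h', cj_bot])

theorem cj_dvd {I J : Ideal F.O} (h : I ∣ J) : F.cj I ∣ F.cj J := by
  obtain ⟨K, rfl⟩ := h
  exact ⟨F.cj K, F.cj_mul _ _⟩

theorem cj_prime {P : Ideal F.O} (hP : Prime P) : Prime (F.cj P) := by
  refine ⟨F.cj_ne_bot hP.ne_zero, fun h => hP.not_isUnit ?_, fun I J h => ?_⟩
  · rw [Ideal.isUnit_iff] at h ⊢
    rw [← F.cj_cj P, h, cj_top]
  · have := F.cj_dvd h
    rw [cj_cj, cj_mul] at this
    rcases hP.dvd_or_dvd this with h1 | h1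
    · left; simpa [cj_cj] using F.cj_dvd h1
    · right; simpa [cj_cj] using F.cj_dvd h1

theorem absNorm_cj (I : Ideal F.O) : Ideal.absNorm (F.cj I) = Ideal.absNorm I := by
  rw [Ideal.absNorm_apply, Ideal.absNorm_apply, Submodule.cardQuot_apply, Submodule.cardQuot_apply]
  exact Nat.card_congr (Ideal.quotientEquiv I (F.cj I) (starRingAut (R := F.O)) rfl).symm.toEquiv

theorem absNorm_nat (n : ℕ) : Ideal.absNorm (Ideal.span {(n : F.O)}) = n ^ 2 := by
  rw [absNorm_span, nm_natCast]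

theorem absNorm_ne {I : Ideal F.O} (hI : I ≠ ⊥) : Ideal.absNorm I ≠ 0 :=
  fun h => hI (Ideal.absNorm_eq_zero_iff.1 h)

theorem dvd_span_iff {I : Ideal F.O} {z : F.O} : I ∣ Ideal.span {z} ↔ z ∈ I := by
  rw [Ideal.dvd_iff_le, Ideal.span_singleton_le_iff_mem]

theorem absNorm_dvd_nm {I : Ideal F.O} {z : F.O} (h : z ∈ I) : Ideal.absNorm I ∣ F.nm z := by
  rw [← F.absNorm_span]
  exact map_dvd Ideal.absNorm (F.dvd_span_iff.2 h)

theorem exists_prime_dvd {I : Ideal F.O} {l : ℕ} (hl : l.Prime)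
    (h : l ∣ Ideal.absNorm I) : ∃ P : Ideal F.O, Prime P ∧ (l : F.O) ∈ P ∧ P ∣ I := by
  obtain ⟨P, hP, h1, h2⟩ := Ideal.exists_isMaximal_dvd_of_dvd_absNorm' hl I h
  have hmem : (l : F.O) ∈ P := by
    have : (l : ℤ) ∈ P.under ℤ := by rw [h1]; exact Ideal.mem_span_singleton_self _
    simpa [Ideal.mem_comap] using this
  have hne : P ≠ ⊥ := by
    rintro rfl
    rw [Ideal.mem_bot] at hmem
    exact hl.ne_zero (by exact_mod_cast hmem)
  exact ⟨P, Ideal.prime_of_isPrime hne hP.isPrime, hmem, h2⟩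

theorem pp_spec {p : ℕ} (hp : p.Prime) : Prime (F.pp p) ∧ (p : F.O) ∈ F.pp p := by
  have h : ∃ P : Ideal F.O, Prime P ∧ (p : F.O) ∈ P := by
    obtain ⟨P, h1, h2, -⟩ := F.exists_prime_dvd (I := Ideal.span {(p : F.O)}) hp
      (by rw [absNorm_nat]; exact dvd_pow_self p two_ne_zero)
    exact ⟨P, h1, h2⟩
  rw [pp, dif_pos h]
  exact h.choose_spec

theorem pp_prime {p : ℕ} (hp : p.Prime) : Prime (F.pp p) := (F.pp_spec hp).1

theorem pp_mem {p : ℕ} (hp : p.Prime) : (p : F.O) ∈ F.pp p := (F.pp_spec hp).2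

theorem exists_under {P : Ideal F.O} (hP : Prime P) : ∃ p : ℕ, p.Prime ∧ (p : F.O) ∈ P := by
  have := (Ideal.isPrime_of_prime hP).isMaximal hP.ne_zero
  obtain ⟨p, n, hn, hpP, hp, he⟩ := Ideal.exists_prime_and_absNorm_eq_pow P
  exact ⟨p, hp, hpP⟩

theorem absNorm_cases {p : ℕ} (hp : p.Prime) {P : Ideal F.O} (hP : Prime P) (h : (p : F.O) ∈ P) :
    Ideal.absNorm P = p ∨ Ideal.absNorm P = p ^ 2 := by
  have h1 := F.absNorm_dvd_nm h
  rw [nm_natCast, Nat.dvd_prime_pow hp] at h1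
  obtain ⟨k, hk, he⟩ := h1
  interval_cases k
  · exact absurd (Ideal.isUnit_iff.2 (Ideal.absNorm_eq_one_iff.1 he)) hP.not_isUnit
  · left; simpa using he
  · right; exact he

theorem dvd_absNorm {p : ℕ} (hp : p.Prime) {P : Ideal F.O} (hP : Prime P) (h : (p : F.O) ∈ P) :
    p ∣ Ideal.absNorm P := by
  rcases F.absNorm_cases hp hP h with h1 | h1 <;> rw [h1]
  exact dvd_pow_self p two_ne_zero

theorem eq_of_mem {p : ℕ} (hp : p.Prime) {P J : Ideal F.O} (hP : Prime P) (hJ : Prime J)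
    (h : (p : F.O) ∈ P) (h' : (p : F.O) ∈ J) : J = P ∨ J = F.cj P := by
  have hJ' := Ideal.isPrime_of_prime hJ
  have key : ∀ z ∈ P, z ∈ J ∨ star z ∈ J := fun z hz => hJ'.mem_or_mem (by
    obtain ⟨c, hc⟩ := (F.dvd_absNorm hp hP h).trans (F.absNorm_dvd_nm hz)
    rw [mul_star_eq, hc]
    push_cast
    exact J.mul_mem_right _ h')
  have mx : ∀ K : Ideal F.O, Prime K → K ≤ J → J = K := fun K hK hle =>
    (((Ideal.isPrime_of_prime hK).isMaximal hK.ne_zero).eq_of_le hJ'.ne_top hle).symm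
  by_cases h1 : P ≤ J
  · exact Or.inl (mx P hP h1)
  · refine Or.inr (mx _ (F.cj_prime hP) (fun w hw => ?_))
    obtain ⟨z, hz, hzJ⟩ := SetLike.not_le_iff_exists.1 h1
    rw [mem_cj] at hw
    by_contra hwJ
    have a1 := (key z hz).resolve_left hzJ
    have a2 := (key _ hw).resolve_right (by rwa [star_star])
    rcases key _ (P.add_mem hz hw) with a3 | a3
    · exact hzJ (by simpa using J.sub_mem a3 a2)
    · rw [star_add, star_star] at a3
      exact hwJ (by simpa using J.sub_mem a3 a1)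

theorem eq_pp {p : ℕ} (hp : p.Prime) {P : Ideal F.O} (hP : Prime P) (h : (p : F.O) ∈ P) :
    P = F.pp p ∨ P = F.cj (F.pp p) := F.eq_of_mem hp (F.pp_prime hp) hP (F.pp_mem hp) h

theorem nat_mem_cj {I : Ideal F.O} {n : ℕ} (h : (n : F.O) ∈ I) : (n : F.O) ∈ F.cj I := by
  rwa [mem_cj, star_natCast]

theorem prime_of_absNorm {p : ℕ} (hp : p.Prime) {J : Ideal F.O} (h : Ideal.absNorm J = p) :
    Prime J :=
  Ideal.prime_of_isPrime (by rintro rfl; simp at h; exact hp.ne_zero h.symm)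
    (Ideal.isPrime_of_irreducible_absNorm (by rw [h]; exact hp))

theorem eq_span_of_sq {p : ℕ} (hp : p.Prime) {P : Ideal F.O} (h : (p : F.O) ∈ P)
    (h2 : Ideal.absNorm P = p ^ 2) : P = Ideal.span {(p : F.O)} := by
  obtain ⟨J, hJ⟩ := F.dvd_span_iff.2 h
  have h3 := congrArg Ideal.absNorm hJ
  rw [absNorm_nat, map_mul, h2] at h3
  have h4 : Ideal.absNorm J = 1 :=
    (mul_eq_left₀ (pow_ne_zero 2 hp.ne_zero)).1 h3.symm
  rw [hJ, Ideal.absNorm_eq_one_iff.1 h4, Ideal.mul_top]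

theorem mul_cj_prime {P : Ideal F.O} (hP : Prime P) :
    P * F.cj P = Ideal.span {(Ideal.absNorm P : F.O)} := by
  obtain ⟨p, hp, h⟩ := F.exists_under hP
  rcases F.absNorm_cases hp hP h with h2 | h2
  · obtain ⟨J, hJ⟩ := F.dvd_span_iff.2 h
    have h3 := congrArg Ideal.absNorm hJ
    rw [absNorm_nat, map_mul, h2, sq] at h3
    have h4 := F.prime_of_absNorm hp (mul_left_cancel₀ hp.ne_zero h3).symm
    have h5 : (p : F.O) ∈ J := F.dvd_span_iff.1 ⟨P, by rw [hJ, mul_comm]⟩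
    rw [h2, hJ]
    rcases F.eq_of_mem hp hP h4 h h5 with h6 | h6
    · have h7 : F.cj P ∣ P * P := by
        rw [← h6, ← (h6 ▸ hJ : Ideal.span {(p : F.O)} = J * J), h6]
        exact F.dvd_span_iff.2 (F.nat_mem_cj h)
      have h8 := (F.cj_prime hP).dvd_of_dvd_pow (n := 2) (by rwa [sq])
      rw [h6, associated_iff_eq.1 ((F.cj_prime hP).associated_of_dvd hP h8)]
    · rw [h6]
  · have h3 := F.eq_span_of_sq hp h h2
    rw [h2, h3, cj_span, star_natCast, Ideal.span_singleton_mul_span_singleton]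
    push_cast
    rw [sq]

theorem mul_cj (I : Ideal F.O) : I * F.cj I = Ideal.span {(Ideal.absNorm I : F.O)} := by
  induction I using UniqueFactorizationMonoid.induction_on_prime with
  | h₁ => simp
  | h₂ I h => rw [Ideal.isUnit_iff.1 h, cj_top]; simp
  | h₃ I P _ hP ih =>
    rw [cj_mul, map_mul, mul_mul_mul_comm, ih, F.mul_cj_prime hP,
      Ideal.span_singleton_mul_span_singleton, Nat.cast_mul]

theorem exists_root {p : ℕ} (hp : p.Prime) {r : ℤ} (hr : (p : ℤ) ∣ r ^ 2 - F.b * r - F.a) :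
    ∃ P : Ideal F.O, Prime P ∧ (p : F.O) ∈ P ∧ Ideal.absNorm P = p ∧
      ∀ z : F.O, z ∈ P ↔ (p : ℤ) ∣ z.re + z.im * r := by
  have : Fact p.Prime := ⟨hp⟩
  have h0 : (r : ZMod p) ^ 2 - F.b * r - F.a = 0 := by
    exact_mod_cast (ZMod.intCast_zmod_eq_zero_iff_dvd _ _).2 hr
  let f : F.O →+* ZMod p :=
    { toFun := fun z => z.re + z.im * r
      map_one' := by simp
      map_mul' := fun z w => by
        simp only [re_mul, im_mul]
        push_cast
        linear_combination (-(z.im : ZMod p) * w.im) * h0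
      map_zero' := by simp
      map_add' := fun z w => by
        simp only [re_add, im_add]
        push_cast
        ring }
  have hn : Ideal.absNorm (RingHom.ker f) = p := by
    rw [Ideal.absNorm_apply, Submodule.cardQuot_apply,
      Nat.card_congr (RingHom.quotientKerEquivOfSurjective (ZMod.ringHom_surjective f)).toEquiv,
      Nat.card_zmod]
  refine ⟨RingHom.ker f, F.prime_of_absNorm hp hn, by simp [RingHom.mem_ker], hn, fun z => ?_⟩
  rw [RingHom.mem_ker, ← ZMod.intCast_zmod_eq_zero_iff_dvd]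
  push_cast
  rfl

theorem disc_eq (r : ℤ) : (F.D : ℤ) = 4 * (r ^ 2 - F.b * r - F.a) - (2 * r - F.b) ^ 2 := by
  rw [D_eq]; ring

theorem root_of_dvd {p : ℕ} (hp : p.Prime) (h : p ∣ F.D) :
    ∃ r : ℤ, (p : ℤ) ∣ r ^ 2 - F.b * r - F.a := by
  have h1 : (p : ℤ) ∣ F.D := by exact_mod_cast h
  rcases hp.eq_two_or_odd' with rfl | ⟨k, hk⟩
  · rcases F.b_cases with hb | hb
    · refine ⟨F.a, ?_⟩
      rw [hb]
      have := Int.even_mul_pred_self F.a
      simpa [sq, mul_sub] using this.two_dvd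
    · rw [D_eq, hb] at h1; omega
  · have hk' : (p : ℤ) = 2 * k + 1 := by exact_mod_cast hk
    refine ⟨F.b * (k + 1), ?_⟩
    have h2 : (p : ℤ) ∣ 2 * (F.b * (k + 1)) - F.b := ⟨F.b, by rw [hk']; ring⟩
    have h3 : (p : ℤ) ∣ 4 * ((F.b * (k + 1)) ^ 2 - F.b * (F.b * (k + 1)) - F.a) := by
      have := dvd_add h1 (dvd_pow h2 two_ne_zero)
      rwa [F.disc_eq (F.b * (k + 1)), sub_add_cancel] at this
    exact IsCoprime.dvd_of_dvd_mul_left ⟨2 * k + 1, -(k * k + k), by rw [hk']; ring⟩ h3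

theorem tri {p : ℕ} (hp : p.Prime) : F.Spl p ∨ F.Ine p ∨ p ∣ F.D := by
  by_cases h : p ∣ F.D
  · exact Or.inr (Or.inr h)
  · by_cases h' : ∃ r : ℤ, (p : ℤ) ∣ r ^ 2 - F.b * r - F.a
    · exact Or.inl ⟨hp, h, h'⟩
    · exact Or.inr (Or.inl ⟨hp, h'⟩)

theorem Ine.not_dvd {F : IQ} {p : ℕ} (h : F.Ine p) : ¬ p ∣ F.D :=
  fun h' => h.2 (F.root_of_dvd h.1 h')

theorem Ine.not_spl {F : IQ} {p : ℕ} (h : F.Ine p) : ¬ F.Spl p := fun h' => h.2 h'.2.2

theorem absNorm_of_root {p : ℕ} (hp : p.Prime) (h : ∃ r : ℤ, (p : ℤ) ∣ r ^ 2 - F.b * r - F.a) :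
    Ideal.absNorm (F.pp p) = p := by
  obtain ⟨r, hr⟩ := h
  obtain ⟨P, h1, h2, h3, -⟩ := F.exists_root hp hr
  rcases F.eq_pp hp h1 h2 with h4 | h4
  · rw [← h4, h3]
  · rw [← F.absNorm_cj, ← h4, h3]

theorem Spl.absNorm {F : IQ} {p : ℕ} (h : F.Spl p) : Ideal.absNorm (F.pp p) = p :=
  F.absNorm_of_root h.1 h.2.2

theorem ram_absNorm {p : ℕ} (hp : p.Prime) (h : p ∣ F.D) : Ideal.absNorm (F.pp p) = p :=
  F.absNorm_of_root hp (F.root_of_dvd hp h)

theorem cj_eq_iff {p : ℕ} (hp : p.Prime) {r : ℤ} (hr : (p : ℤ) ∣ r ^ 2 - F.b * r - F.a) :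
    F.cj (F.pp p) = F.pp p ↔ p ∣ F.D := by
  obtain ⟨P, h1, h2, h3, h4⟩ := F.exists_root hp hr
  have e : F.cj (F.pp p) = F.pp p ↔ F.cj P = P := by
    rcases F.eq_pp hp h1 h2 with h5 | h5
    · rw [h5]
    · rw [h5, cj_cj]; exact eq_comm
  have hp' : Prime (p : ℤ) := Nat.prime_iff_prime_int.1 hp
  rw [e, ← Int.natCast_dvd_natCast, F.disc_eq r]
  constructor
  · intro h
    have h5 : (⟨-r, 1⟩ : F.O) ∈ F.cj P := by rw [h, h4]; simp
    rw [mem_cj, h4] at h5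
    simp only [re_star, im_star] at h5
    refine dvd_sub (hr.mul_left 4) (dvd_pow ?_ two_ne_zero)
    have : 2 * r - F.b = -(-r + F.b * 1 + -1 * r) := by ring
    rw [this]
    exact h5.neg_right
  · intro h
    have h5 : (p : ℤ) ∣ 2 * r - F.b := hp'.dvd_of_dvd_pow (n := 2) (by
      have := dvd_sub (hr.mul_left 4) h
      rwa [sub_sub_cancel] at this)
    ext z
    rw [mem_cj, h4, h4]
    simp only [re_star, im_star]
    have : z.re + F.b * z.im + -z.im * r = z.re + z.im * r - (2 * r - F.b) * z.im := by ring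
    rw [this]
    exact dvd_sub_left (h5.mul_right _)

theorem Spl.ne {F : IQ} {p : ℕ} (h : F.Spl p) : F.cj (F.pp p) ≠ F.pp p := by
  obtain ⟨r, hr⟩ := h.2.2
  exact fun h' => h.2.1 ((F.cj_eq_iff h.1 hr).1 h')

theorem Ine.absNorm {F : IQ} {p : ℕ} (h : F.Ine p) : Ideal.absNorm (F.pp p) = p ^ 2 := by
  refine (F.absNorm_cases h.1 (F.pp_prime h.1) (F.pp_mem h.1)).resolve_left (fun h1 => h.2 ?_)
  have : Fact p.Prime := ⟨h.1⟩
  have h2 : Nat.card (F.O ⧸ F.pp p) = p := h1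
  have : Finite (F.O ⧸ F.pp p) := Nat.finite_of_card_ne_zero (by rw [h2]; exact h.1.ne_zero)
  have := Fintype.ofFinite (F.O ⧸ F.pp p)
  let e := ZMod.ringEquivOfPrime (F.O ⧸ F.pp p) h.1 (by rw [← Nat.card_eq_fintype_card, h2])
  obtain ⟨r, hr⟩ := ZMod.intCast_surjective (e.symm (Ideal.Quotient.mk _ (omega : F.O)))
  refine ⟨r, ?_⟩
  rw [← ZMod.intCast_zmod_eq_zero_iff_dvd]
  push_cast
  rw [hr]
  have h3 : (omega : F.O) ^ 2 - (F.b : F.O) * (omega : F.O) - (F.a : F.O) = 0 := by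
    ext <;> simp [sq]
  have h4 := congrArg (fun x => e.symm (Ideal.Quotient.mk (F.pp p) x)) h3
  simpa using h4

theorem Ine.pp_eq {F : IQ} {p : ℕ} (h : F.Ine p) : F.pp p = Ideal.span {(p : F.O)} :=
  F.eq_span_of_sq h.1 (F.pp_mem h.1) h.absNorm

theorem cj_pp_of_not {p : ℕ} (hp : p.Prime) (h : ¬ F.Spl p) : F.cj (F.pp p) = F.pp p := by
  rcases F.tri hp with h1 | h1 | h1
  · exact absurd h1 h
  · rw [h1.pp_eq, cj_span, star_natCast]
  · obtain ⟨r, hr⟩ := F.root_of_dvd hp h1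
    exact (F.cj_eq_iff hp hr).2 h1

end IQ

end Pool.Agent.Lib.MP_ad7336_co
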