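import Pool.Agent.Lib.MP_ad7336_co.S2

set_option autoImplicit false

namespace Pool.Agent.Lib.MP_ad7336_co

open QuadraticAlgebra Finset Filter Topology
open scoped Classical

namespace IQ

variable (F : IQ)

theorem cop_mul {Q : ℕ} {I J : Ideal F.O} : F.cop Q (I * J) ↔ F.cop Q I ∧ F.cop Q J := by
  simp only [cop, map_mul, Nat.coprime_mul_iff_left, ← Ideal.zero_eq_bot, mul_ne_zero_iff]
  tauto

theorem cop_cj {Q : ℕ} {I : Ideal F.O} : F.cop Q (F.cj I) ↔ F.cop Q I := by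
  rw [cop, cop, absNorm_cj]
  exact and_congr_left' ⟨fun h h' => h (by rw [h', cj_bot]), F.cj_ne_bot⟩

theorem cop_top (Q : ℕ) : F.cop Q ⊤ := ⟨by simp, by simp⟩

theorem cop_iff {Q : ℕ} {I : Ideal F.O} :
    F.cop Q I ↔ I ≠ ⊥ ∧ I ⊔ Ideal.span {(Q : F.O)} = ⊤ := by
  refine and_congr_right (fun hI => ⟨fun h => ?_, fun h => ?_⟩)
  · obtain ⟨u, v, huv⟩ := Nat.isCoprime_iff_coprime.2 h
    rw [Ideal.eq_top_iff_one, Submodule.mem_sup]
    refine ⟨u * (Ideal.absNorm I : ℕ), I.mul_mem_left _ (Ideal.absNorm_mem I), v * Q,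
      Ideal.mul_mem_left _ _ (Ideal.mem_span_singleton_self _), ?_⟩
    exact_mod_cast congrArg (Int.cast : ℤ → F.O) huv
  · refine Nat.coprime_of_dvd (fun p hp h1 h2 => ?_)
    obtain ⟨P, hP, h3, h4⟩ := F.exists_prime_dvd hp h1
    refine (Ideal.isPrime_of_prime hP).ne_top (top_le_iff.1 (h ▸ sup_le (Ideal.le_of_dvd h4) ?_))
    obtain ⟨c, rfl⟩ := h2
    rw [Ideal.span_singleton_le_iff_mem]
    push_cast
    exact P.mul_mem_right _ h3

theorem nm_congr {Q : ℕ} {x y : F.O} (h : (Q : F.O) ∣ x - y) : F.nm y ≡ F.nm x [MOD Q] := by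
  rw [Nat.modEq_iff_dvd, nm_cast, nm_cast]
  obtain ⟨w, hw⟩ := h
  rw [(by linear_combination hw : x = y + Q * w)]
  refine ⟨2 * y.re * w.re + F.b * (y.re * w.im + y.im * w.re) - 2 * F.a * y.im * w.im +
    Q * w.norm, ?_⟩
  simp [norm_def]
  ring

theorem cop_span {Q : ℕ} {x : F.O} :
    F.cop Q (Ideal.span {x}) ↔ x ≠ 0 ∧ Nat.Coprime (F.nm x) Q := by
  rw [cop, absNorm_span, Ne, Ideal.span_singleton_eq_bot]

theorem cop_congr {Q : ℕ} {x y : F.O} (hy : y ≠ 0) (hx : F.cop Q (Ideal.span {x}))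
    (h : (Q : F.O) ∣ x - y) : F.cop Q (Ideal.span {y}) := by
  rw [cop_span] at hx ⊢
  exact ⟨hy, by rw [Nat.Coprime, (F.nm_congr h).gcd_eq]; exact hx.2⟩

theorem cop_nat {Q n : ℕ} (hn : n ≠ 0) (h : Nat.Coprime n Q) :
    F.cop Q (Ideal.span {(n : F.O)}) :=
  F.cop_span.2 ⟨by exact_mod_cast hn, by rw [nm_natCast]; exact h.pow_left 2⟩

theorem exists_span_mul {Q : ℕ} (hQ : Q ≠ 0) {I : Ideal F.O} (hI : I ≠ ⊥) :
    ∃ (z : F.O) (J : Ideal F.O), F.cop Q J ∧ Ideal.span {z} = I * J := by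
  have hQ' : Ideal.span {(Q : F.O)} ≠ ⊥ := by
    rw [Ne, Ideal.span_singleton_eq_bot]; exact_mod_cast hQ
  by_cases h1 : Ideal.span {(Q : F.O)} = ⊤
  · refine ⟨Ideal.absNorm I, F.cj I, F.cop_iff.2 ⟨F.cj_ne_bot hI, by rw [h1]; simp⟩, ?_⟩
    rw [mul_cj]
  obtain ⟨z, hz⟩ := IsDedekindDomain.exists_sup_span_eq (I := I * Ideal.span {(Q : F.O)}) (J := I)
    Ideal.mul_le_left (mul_ne_zero hI hQ')
  obtain ⟨J, hJ⟩ : I ∣ Ideal.span {z} := Ideal.dvd_iff_le.2 (hz ▸ le_sup_right)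
  have h2 : J ⊔ Ideal.span {(Q : F.O)} = ⊤ := by
    rw [hJ, ← Ideal.mul_sup] at hz
    rw [sup_comm, ← Ideal.one_eq_top]
    exact mul_left_cancel₀ hI (hz.trans (mul_one I).symm)
  refine ⟨z, J, F.cop_iff.2 ⟨?_, h2⟩, hJ⟩
  rintro rfl
  exact h1 (by simpa using h2)

theorem mem_PP {Q y p : ℕ} : p ∈ F.PP Q y ↔ p ≤ y ∧ F.Spl p ∧ ¬ p ∣ Q := by
  rw [PP, mem_filter, mem_range, Nat.lt_succ_iff]

theorem absNorm_idl {T T₁ : Finset ℕ} (hT : ∀ p ∈ T, F.Spl p) (h : T₁ ⊆ T) :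
    Ideal.absNorm (F.idl T T₁) = ∏ p ∈ T, p := by
  rw [idl, map_mul, map_prod, map_prod, ← prod_sdiff h, mul_comm,
    prod_congr rfl (fun p hp => (hT p (h hp)).absNorm),
    prod_congr rfl (fun p hp => (F.absNorm_cj _).trans (hT p (sdiff_subset hp)).absNorm)]

theorem pp_inj {p q : ℕ} (hp : F.Spl p) (hq : F.Spl q) (h : F.pp p = F.pp q) : p = q := by
  rw [← hp.absNorm, h, hq.absNorm]

theorem pp_ne_cj {p q : ℕ} (hp : F.Spl p) (hq : F.Spl q) : F.pp p ≠ F.cj (F.pp q) := fun h => by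
  have : p = q := by rw [← hp.absNorm, h, absNorm_cj, hq.absNorm]
  subst this
  exact hp.ne h.symm

theorem eq_of_dvd {P J : Ideal F.O} (hP : Prime P) (hJ : Prime J) (h : P ∣ J) : P = J :=
  associated_iff_eq.1 (hP.associated_of_dvd hJ h)

theorem pp_dvd_idl {T T₁ : Finset ℕ} (hT : ∀ p ∈ T, F.Spl p) (h₁ : T₁ ⊆ T) {p : ℕ} (hp : F.Spl p) :
    F.pp p ∣ F.idl T T₁ ↔ p ∈ T₁ := by
  have h0 := F.pp_prime hp.1
  refine ⟨fun h => ?_, fun h => (dvd_prod_of_mem F.pp h).mul_right _⟩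
  rcases h0.dvd_or_dvd h with h2 | h2
  · obtain ⟨q, hq, h3⟩ := (h0.dvd_finsetProd_iff _).1 h2
    rwa [F.pp_inj hp (hT q (h₁ hq)) (F.eq_of_dvd h0 (F.pp_prime (hT q (h₁ hq)).1) h3)]
  · obtain ⟨q, hq, h3⟩ := (h0.dvd_finsetProd_iff _).1 h2
    have h4 := hT q (sdiff_subset hq)
    exact absurd (F.eq_of_dvd h0 (F.cj_prime (F.pp_prime h4.1)) h3) (F.pp_ne_cj hp h4)

theorem idl_inj {T T₁ T₂ : Finset ℕ} (hT : ∀ p ∈ T, F.Spl p) (h₁ : T₁ ⊆ T) (h₂ : T₂ ⊆ T)
    (h : F.idl T T₁ = F.idl T T₂) : T₁ = T₂ := by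
  ext p
  by_cases hp : p ∈ T
  · rw [← F.pp_dvd_idl hT h₁ (hT p hp), h, F.pp_dvd_idl hT h₂ (hT p hp)]
  · exact ⟨fun h' => absurd (h₁ h') hp, fun h' => absurd (h₂ h') hp⟩

theorem absNorm_can {n : ℕ} (hn : comp F.Spl n) : Ideal.absNorm (F.can n) = n := by
  rw [can, map_list_prod, List.map_map]
  conv_rhs => rw [← Nat.prod_primeFactorsList hn.1]
  congr 1
  conv_rhs => rw [← List.map_id n.primeFactorsList]
  refine List.map_congr_left (fun p hp => ?_)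
  exact (hn.2 p (Nat.prime_of_mem_primeFactorsList hp) (Nat.dvd_of_mem_primeFactorsList hp)).absNorm

theorem dvd_can {n : ℕ} {P : Ideal F.O} (hP : Prime P) (h : P ∣ F.can n) :
    ∃ p : ℕ, p.Prime ∧ p ∣ n ∧ P = F.pp p := by
  obtain ⟨J, hJ, h1⟩ := (Prime.dvd_prod_iff hP).1 h
  obtain ⟨p, hp, rfl⟩ := List.mem_map.1 hJ
  have h2 := Nat.prime_of_mem_primeFactorsList hp
  exact ⟨p, h2, Nat.dvd_of_mem_primeFactorsList hp, F.eq_of_dvd hP (F.pp_prime h2) h1⟩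

theorem sift_of {Q y n : ℕ} (hn : comp (F.Lg y) n) {A : Ideal F.O} (hA : A ≠ ⊥) {z : F.O}
    (h : Ideal.span {z} = A * F.can n) : F.sift Q y A z := by
  have key : ∀ P, z ∈ A * P → P ∣ F.can n := fun P hz => by
    rw [← F.dvd_span_iff, h] at hz
    exact (mul_dvd_mul_iff_left hA).1 hz
  have k2 : ∀ p, F.Spl p → z ∉ A * F.cj (F.pp p) := fun p hp hz => by
    obtain ⟨q, h1, h2, h3⟩ := F.dvd_can (F.cj_prime (F.pp_prime hp.1)) (key _ hz)
    exact F.pp_ne_cj (hn.2 q h1 h2).1 hp h3.symm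
  refine ⟨F.dvd_span_iff.1 ⟨_, h⟩, fun p hp => ?_, fun p hp => k2 p hp.1⟩
  rw [mem_PP] at hp
  refine ⟨fun hz => ?_, k2 p hp.2.1⟩
  obtain ⟨q, h1, h2, h3⟩ := F.dvd_can (F.pp_prime hp.2.1.1) (key _ hz)
  have h4 := hn.2 q h1 h2
  have := F.pp_inj hp.2.1 h4.1 h3
  have := h4.2
  omega

theorem norm_shape {I : Ideal F.O} (hI : I ≠ ⊥) : ∃ s t r : ℕ, comp F.Spl s ∧
    comp (fun p => p ∣ F.D) t ∧ comp F.Ine r ∧ Ideal.absNorm I = s * t * r ^ 2 := by
  have c1 : ∀ S : ℕ → Prop, comp S 1 := fun S =>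
    ⟨one_ne_zero, fun p hp h => absurd h hp.not_dvd_one⟩
  have cm : ∀ (S : ℕ → Prop) (p n : ℕ), p.Prime → S p → comp S n → comp S (p * n) :=
    fun S p n hp hS hn => ⟨mul_ne_zero hp.ne_zero hn.1, fun q hq h => by
      rcases (Nat.Prime.dvd_mul hq).1 h with h1 | h1
      · rwa [(Nat.prime_dvd_prime_iff_eq hq hp).1 h1]
      · exact hn.2 q hq h1⟩
  induction I using UniqueFactorizationMonoid.induction_on_prime with
  | h₁ => exact absurd rfl hI
  | h₂ I h => exact ⟨1, 1, 1, c1 _, c1 _, c1 _, by rw [Ideal.isUnit_iff.1 h]; simp⟩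
  | h₃ I P h0 hP ih =>
    obtain ⟨s, t, r, hs, ht, hr, he⟩ := ih h0
    obtain ⟨p, hp, h⟩ := F.exists_under hP
    have e : Ideal.absNorm P = Ideal.absNorm (F.pp p) := by
      rcases F.eq_pp hp hP h with h1 | h1 <;> rw [h1]
      exact F.absNorm_cj _
    rw [map_mul, he, e]
    rcases F.tri hp with h1 | h1 | h1
    · exact ⟨p * s, t, r, cm _ _ _ hp h1 hs, ht, hr, by rw [h1.absNorm]; ring⟩
    · exact ⟨s, t, p * r, hs, ht, cm _ _ _ hp h1 hr, by rw [h1.absNorm]; ring⟩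
    · exact ⟨s, p * t, r, hs, cm _ _ _ hp h1 ht, hr, by rw [F.ram_absNorm hp h1]; ring⟩

theorem jac_spl {s : ℕ} (hs : comp F.Spl s) (h2 : Nat.Coprime s (2 * F.D)) :
    jacobiSym (-F.D) s = 1 := by
  induction s using Nat.recOnMul with
  | zero => exact absurd rfl hs.1
  | one => exact jacobiSym.one_right _
  | prime p hp =>
    have : Fact p.Prime := ⟨hp⟩
    obtain ⟨-, h3, r, hr⟩ := hs.2 p hp dvd_rfl
    rw [← jacobiSym.legendreSym.to_jacobiSym, legendreSym.eq_one_iff]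
    · refine ⟨((2 * r - F.b : ℤ) : ZMod p), ?_⟩
      rw [F.disc_eq r, ← (ZMod.intCast_zmod_eq_zero_iff_dvd _ _)] at *
      push_cast at hr ⊢
      linear_combination (-4) * hr
    · rw [Ne, ZMod.intCast_zmod_eq_zero_iff_dvd, dvd_neg, Int.natCast_dvd_natCast]
      exact h3
  | mul a b iha ihb =>
    have ha := left_ne_zero_of_mul hs.1
    have hb := right_ne_zero_of_mul hs.1
    rw [jacobiSym.mul_right' _ ha hb,
      iha ⟨ha, fun p hp h => hs.2 p hp (h.mul_right _)⟩ (Nat.Coprime.coprime_mul_right h2),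
      ihb ⟨hb, fun p hp h => hs.2 p hp (h.mul_left _)⟩ (Nat.Coprime.coprime_mul_left h2), mul_one]

theorem jac_norm {I : Ideal F.O} (hI : F.cop (2 * F.D) I) :
    jacobiSym (-F.D) (Ideal.absNorm I) = 1 := by
  obtain ⟨s, t, r, hs, ht, hr, he⟩ := F.norm_shape hI.1
  have h1 := hI.2
  rw [he] at h1 ⊢
  have h2 : t = 1 := Nat.eq_one_iff_not_exists_prime_dvd.2 (fun p hp h => hp.not_dvd_one (by
    rw [← h1]
    exact Nat.dvd_gcd ((h.mul_left _).mul_right _) ((ht.2 p hp h).mul_left _)))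
  subst h2
  rw [mul_one] at h1 ⊢
  rw [jacobiSym.mul_right' _ hs.1 (pow_ne_zero 2 hr.1), F.jac_spl hs h1.coprime_mul_right,
    one_mul, jacobiSym.pow_right]
  refine jacobiSym.sq_one ?_
  have h3 : Nat.Coprime r F.D :=
    (Nat.Coprime.coprime_mul_left h1).coprime_mul_left_right |>.coprime_dvd_left
      (dvd_pow_self r two_ne_zero)
  simpa [Int.gcd] using h3.symm

theorem spl_of_cong {p : ℕ} (hp : p.Prime) {I J : Ideal F.O} (hI : F.cop (2 * F.D) I)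
    (h : p * Ideal.absNorm J ≡ Ideal.absNorm I [MOD 4 * F.D]) : F.Spl p := by
  have hD := F.three_le_D
  have h1 : Nat.Coprime (p * Ideal.absNorm J) (2 * F.D) := by
    rw [Nat.Coprime, (h.of_dvd (⟨2, by ring⟩ : 2 * F.D ∣ 4 * F.D)).gcd_eq]; exact hI.2
  have hJ : F.cop (2 * F.D) J := ⟨by
    rintro rfl
    simp at h1, h1.coprime_mul_left⟩
  have odd : ∀ n, Nat.Coprime n (2 * F.D) → Odd n := fun n hn =>
    Nat.coprime_two_right.1 hn.coprime_mul_right_right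
  have h2 : jacobiSym (-F.D) (p * Ideal.absNorm J) = jacobiSym (-F.D) (Ideal.absNorm I) := by
    rw [jacobiSym.mod_right _ (odd _ h1), jacobiSym.mod_right _ (odd _ hI.2)]
    congr 1
    simpa [Nat.ModEq] using h
  rw [jacobiSym.mul_right' _ hp.ne_zero (F.absNorm_ne hJ.1), F.jac_norm hJ, F.jac_norm hI,
    mul_one] at h2
  have : Fact p.Prime := ⟨hp⟩
  have h3 : ¬ p ∣ F.D := (hp.coprime_iff_not_dvd).1 h1.coprime_mul_right.coprime_mul_left_right
  rw [← jacobiSym.legendreSym.to_jacobiSym, legendreSym.eq_one_iff] at h2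
  · obtain ⟨x, hx⟩ := h2
    obtain ⟨k, hk⟩ := odd _ h1.coprime_mul_right
    obtain ⟨x, rfl⟩ := ZMod.intCast_surjective x
    refine ⟨hp, h3, (x + F.b) * (k + 1), ?_⟩
    rw [← ZMod.intCast_zmod_eq_zero_iff_dvd]
    have h4 : (2 * k + 1 : ZMod p) = 0 := by
      have h5 : ((2 * k + 1 : ℕ) : ZMod p) = 0 := by rw [← hk]; exact ZMod.natCast_self p
      exact_mod_cast h5
    rw [D_eq] at hx
    push_cast at hx ⊢
    linear_combination (-((k : ZMod p) + 1) ^ 2) * hx +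
      ((F.b : ZMod p) * (k + 1) * x + (F.b : ZMod p) ^ 2 * (k + 1) + F.a * (2 * k + 3)) * h4
  · rw [Ne, ZMod.intCast_zmod_eq_zero_iff_dvd, dvd_neg, Int.natCast_dvd_natCast]
    exact h3

theorem exists_split {z : F.O} {m n : ℕ} (hz : z ≠ 0) (h : F.nm z = m * n) (hc : Nat.Coprime m n) :
    ∃ A B : Ideal F.O, Ideal.span {z} = A * B ∧ Ideal.absNorm A = m ∧ Ideal.absNorm B = n := by
  set A := Ideal.span {z} ⊔ Ideal.span {(m : F.O)}
  set B := Ideal.span {z} ⊔ Ideal.span {(n : F.O)}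
  have e : Ideal.span {z} = A * B := by
    apply le_antisymm
    · obtain ⟨u, v, huv⟩ := Nat.isCoprime_iff_coprime.2 hc
      have h1 : (u : F.O) * m + v * n = 1 := by exact_mod_cast congrArg (Int.cast : ℤ → F.O) huv
      rw [Ideal.span_singleton_le_iff_mem,
        (by linear_combination (-z) * h1 : z = u * (m * z) + v * (z * n))]
      have m1 : ∀ (w : F.O) (K : Ideal F.O), w ∈ Ideal.span {w} ⊔ K := fun w K =>
        Ideal.mem_sup_left (Ideal.mem_span_singleton_self w)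
      have m2 : ∀ (w : F.O) (K : Ideal F.O), w ∈ K ⊔ Ideal.span {w} := fun w K =>
        Ideal.mem_sup_right (Ideal.mem_span_singleton_self w)
      exact add_mem (Ideal.mul_mem_left _ _ (Ideal.mul_mem_mul (m2 _ _) (m1 _ _)))
        (Ideal.mul_mem_left _ _ (Ideal.mul_mem_mul (m1 _ _) (m2 _ _)))
    · rw [Ideal.sup_mul, Ideal.mul_sup (Ideal.span {(m : F.O)})]
      refine sup_le Ideal.mul_le_left (sup_le Ideal.mul_le_right ?_)
      rw [Ideal.span_singleton_mul_span_singleton, ← Nat.cast_mul, ← h, ← mul_star_eq,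
        Ideal.span_singleton_le_iff_mem]
      exact Ideal.mul_mem_right _ _ (Ideal.mem_span_singleton_self z)
  have e2 : Ideal.absNorm A * Ideal.absNorm B = m * n := by rw [← map_mul, ← e, absNorm_span, h]
  have a1 : Ideal.absNorm A ∣ m ^ 2 := by
    rw [← F.nm_natCast]
    exact F.absNorm_dvd_nm (Ideal.mem_sup_right (Ideal.mem_span_singleton_self _))
  have a2 : Ideal.absNorm B ∣ n ^ 2 := by
    rw [← F.nm_natCast]
    exact F.absNorm_dvd_nm (Ideal.mem_sup_right (Ideal.mem_span_singleton_self _))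
  refine ⟨A, B, e, Nat.dvd_antisymm ?_ ?_, Nat.dvd_antisymm ?_ ?_⟩
  · exact ((hc.pow_left 2).coprime_dvd_left a1).dvd_of_dvd_mul_right ⟨_, e2.symm⟩
  · exact ((hc.pow_right 2).coprime_dvd_right a2).dvd_of_dvd_mul_right ⟨_, e2⟩
  · exact ((hc.symm.pow_left 2).coprime_dvd_left a2).dvd_of_dvd_mul_left
      ⟨_, e2.symm.trans (mul_comm _ _)⟩
  · exact ((hc.symm.pow_right 2).coprime_dvd_right a1).dvd_of_dvd_mul_left
      ⟨_, e2.trans (mul_comm _ _)⟩

theorem exists_rep {W : ℕ} (hW : W ≠ 0) (z : F.O) : ∃ w ∈ F.bx 0 W, (W : F.O) ∣ z - w := by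
  have h : (0 : ℤ) < W := by omega
  refine ⟨⟨z.re % W, z.im % W⟩, F.mem_bx.2 ⟨⟨Int.emod_nonneg _ h.ne', Int.emod_lt_of_pos _ h⟩,
    Int.emod_nonneg _ h.ne', Int.emod_lt_of_pos _ h⟩, F.natCast_dvd_iff.2 ?_⟩
  simp only [re_sub, im_sub]
  exact ⟨Int.dvd_self_sub_emod, Int.dvd_self_sub_emod⟩

theorem eq_of_rep {W : ℕ} {z w : F.O} (hz : z ∈ F.bx 0 W) (hw : w ∈ F.bx 0 W)
    (h : (W : F.O) ∣ z - w) : z = w := by
  rw [mem_bx] at hz hw
  rw [natCast_dvd_iff, re_sub, im_sub] at h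
  ext
  · exact sub_eq_zero.1 (Int.eq_zero_of_abs_lt_dvd h.1 (abs_lt.2 ⟨by omega, by omega⟩))
  · exact sub_eq_zero.1 (Int.eq_zero_of_abs_lt_dvd h.2 (abs_lt.2 ⟨by omega, by omega⟩))

theorem card_mem {W : ℕ} (hW : W ≠ 0) {I : Ideal F.O} (h : (W : F.O) ∈ I) :
    ((F.bx 0 W).filter (fun z => z ∈ I)).card * Ideal.absNorm I = W ^ 2 := by
  set K := Ideal.span {(W : F.O)}
  have hle : K ≤ I := (Ideal.span_singleton_le_iff_mem _).2 h
  have h1 := AddSubgroup.relIndex_mul_index (show K.toAddSubgroup ≤ I.toAddSubgroup from hle)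
  rw [← F.absNorm_nat W]
  refine Eq.trans ?_ h1
  congr 1
  rw [AddSubgroup.relIndex, AddSubgroup.index, ← Nat.card_eq_finsetCard]
  refine Nat.card_congr (Equiv.ofBijective
    (fun z => QuotientAddGroup.mk (⟨z.1, (mem_filter.1 z.2).2⟩ : I.toAddSubgroup)) ⟨?_, ?_⟩)
  · intro z w hzw
    rw [QuotientAddGroup.eq, AddSubgroup.mem_addSubgroupOf] at hzw
    refine Subtype.ext (F.eq_of_rep (mem_filter.1 w.2).1 (mem_filter.1 z.2).1 ?_).symm
    have : -z.1 + w.1 ∈ K := hzw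
    rw [Ideal.mem_span_singleton] at this
    rwa [sub_eq_neg_add]
  · intro q
    obtain ⟨x, rfl⟩ := QuotientAddGroup.mk_surjective q
    obtain ⟨w, hw, hd⟩ := F.exists_rep hW x.1
    have hd' : x.1 - w ∈ K := Ideal.mem_span_singleton.2 hd
    refine ⟨⟨w, mem_filter.2 ⟨hw, by simpa using I.sub_mem x.2 (hle hd')⟩⟩, ?_⟩
    rw [QuotientAddGroup.eq, AddSubgroup.mem_addSubgroupOf]
    show -w + x.1 ∈ K
    rwa [← sub_eq_neg_add]

theorem mem_mul_prod {A : Ideal F.O} (hA : A ≠ ⊥) {S : Finset (Ideal F.O)} (hS : ∀ P ∈ S, Prime P)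
    {z : F.O} : z ∈ A * ∏ P ∈ S, P ↔ z ∈ A ∧ ∀ P ∈ S, z ∈ A * P := by
  simp only [← F.dvd_span_iff]
  constructor
  · exact fun h => ⟨(dvd_mul_right _ _).trans h, fun P hP =>
      (mul_dvd_mul_left A (dvd_prod_of_mem (fun P : Ideal F.O => P) hP)).trans h⟩
  · rintro ⟨⟨J, hJ⟩, h⟩
    rw [hJ] at h ⊢
    refine mul_dvd_mul_left A (Finset.prod_primes_dvd J hS ?_)
    exact fun P hP => (mul_dvd_mul_iff_left hA).1 (h P hP)

end IQ

theorem exists_IQ_of {a b : ℤ} (hneg : b ^ 2 + 4 * a < 0)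
    (fund : (b = 1 ∧ Squarefree (1 + 4 * a)) ∨ (b = 0 ∧ Squarefree a ∧ a % 4 ≠ 1))
    (H : ∀ (x y : ℚ) (T N : ℤ), T = 2 * x + b * y → N = x * x + b * x * y - a * y * y →
      ∃ x' y' : ℤ, x' = x ∧ y' = y) : ∃ F : IQ, F.a = a ∧ F.b = b := by
  have : Fact (∀ r : ℚ, r ^ 2 ≠ a + b * r) := ⟨fun r hr => by
    have h : ((b : ℚ) ^ 2 + 4 * a) < 0 := by exact_mod_cast hneg
    nlinarith [sq_nonneg (2 * r - b)]⟩
  let φ : QuadraticAlgebra ℤ a b →+* QuadraticAlgebra ℚ a b :=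
    { toFun := fun z => ⟨z.re, z.im⟩
      map_one' := by ext <;> simp
      map_mul' := fun z w => by ext <;> simp
      map_zero' := by ext <;> simp
      map_add' := fun z w => by ext <;> simp }
  have hφ : Function.Injective φ := fun z w h => QuadraticAlgebra.ext
    (Int.cast_injective (α := ℚ) (congrArg QuadraticAlgebra.re h))
    (Int.cast_injective (α := ℚ) (congrArg QuadraticAlgebra.im h))
  have : IsDomain (QuadraticAlgebra ℤ a b) := hφ.isDomain φ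
  let := φ.toAlgebra
  have : IsScalarTower ℤ (QuadraticAlgebra ℤ a b) (QuadraticAlgebra ℚ a b) :=
    IsScalarTower.of_algebraMap_eq' (Subsingleton.elim _ _)
  have : IsIntegralClosure (QuadraticAlgebra ℤ a b) ℤ (QuadraticAlgebra ℚ a b) := by
    refine ⟨hφ, fun {z} => ⟨fun hz => ?_, ?_⟩⟩
    · have h1 : IsIntegral ℤ (star z) := hz.map (starRingEnd _).toIntAlgHom
      have h2 := hz.add h1
      have h3 := hz.mul h1
      rw [← algebraMap_trace_eq_add_star, isIntegral_algebraMap_iff algebraMap_injective,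
        IsIntegrallyClosed.isIntegral_iff] at h2
      rw [← algebraMap_norm_eq_mul_star, isIntegral_algebraMap_iff algebraMap_injective,
        IsIntegrallyClosed.isIntegral_iff] at h3
      obtain ⟨T, hT⟩ := h2
      obtain ⟨N, hN⟩ := h3
      obtain ⟨x, y, hx, hy⟩ := H z.re z.im T N hT hN
      exact ⟨⟨x, y⟩, QuadraticAlgebra.ext hx hy⟩
    · rintro ⟨w, rfl⟩
      exact (Algebra.IsIntegral.isIntegral w).algebraMap
  have := IsIntegralClosure.isDedekindDomain ℤ ℚ (QuadraticAlgebra ℚ a b) (QuadraticAlgebra ℤ a b)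
  have := ClassGroup.fintypeOfAdmissibleOfFinite (S := QuadraticAlgebra ℤ a b) ℚ
    (QuadraticAlgebra ℚ a b) AbsoluteValue.absIsAdmissible
  exact ⟨⟨a, b, hneg, inferInstance, fund⟩, rfl, rfl⟩

theorem int_of_squarefree {d : ℕ} (hd : Squarefree d) {q : ℚ} {n : ℤ} (h : d * q ^ 2 = n) :
    ∃ m : ℤ, (m : ℚ) = q := by
  have h1 : (d : ℤ) * q.num ^ 2 = n * q.den ^ 2 := by
    have h2 : (d : ℚ) * q.num ^ 2 = n * q.den ^ 2 := by
      rw [← h, ← Rat.mul_den_eq_num]; ring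
    exact_mod_cast h2
  have h2 : q.den ^ 2 ∣ d * q.num.natAbs ^ 2 := by
    rw [← Int.natCast_dvd_natCast]
    push_cast
    rw [sq_abs, h1]
    exact dvd_mul_left _ _
  have h3 := hd q.den (by
    rw [← sq]; exact (Nat.Coprime.pow 2 2 q.reduced.symm).dvd_of_dvd_mul_right h2)
  exact ⟨q.num, Rat.coe_int_num_of_den_eq_one (Nat.isUnit_iff.1 h3)⟩

theorem exists_IQ {d : ℕ} (h2 : Squarefree d) :
    ∃ F : IQ, (F.D = d ∧ F.b = 1) ∨ (F.D = 4 * d ∧ F.b = 0) := by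
  have h0 : d ≠ 0 := h2.ne_zero
  have h4 : ¬ 4 ∣ d := fun h => by simpa using h2 2 h
  have hs : Squarefree (-(d : ℤ)) := by rw [← Int.squarefree_natAbs]; simpa using h2
  by_cases h5 : d % 4 = 3
  · obtain ⟨a, ha⟩ : ∃ a : ℤ, -(d : ℤ) = 1 + 4 * a := ⟨-(d + 1) / 4, by omega⟩
    obtain ⟨F, a1, a2⟩ := exists_IQ_of (a := a) (b := 1) (by omega) (Or.inl ⟨rfl, ha ▸ hs⟩)
      (fun x y T N hT hN => by
        have b1 : -(d : ℚ) = 1 + 4 * a := by exact_mod_cast ha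
        have b2 : (d : ℚ) * y ^ 2 = (4 * N - T ^ 2 : ℤ) := by
          push_cast at hT hN ⊢
          rw [hT, hN]; linear_combination (-y ^ 2) * b1
        obtain ⟨m, rfl⟩ := int_of_squarefree h2 b2
        have b3 : (d : ℤ) * m ^ 2 = 4 * N - T ^ 2 := by exact_mod_cast b2
        obtain ⟨c, hc⟩ : Even (T - m) := by
          have b4 : Even (T ^ 2 - m ^ 2) := ⟨2 * (N + a * m ^ 2), by
            linear_combination b3 + m ^ 2 * ha⟩
          simpa [parity_simps] using b4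
        refine ⟨c, m, ?_, rfl⟩
        have b5 : (T : ℚ) - m = c + c := by exact_mod_cast hc
        push_cast at hT
        linarith)
    refine ⟨F, Or.inl ⟨?_, a2⟩⟩
    have := F.D_eq
    rw [a1, a2] at this
    omega
  · obtain ⟨F, a1, a2⟩ := exists_IQ_of (a := -d) (b := 0) (by omega) (Or.inr ⟨rfl, hs, by omega⟩)
      (fun x y T N hT hN => by
        have b2 : (d : ℚ) * (2 * y) ^ 2 = (4 * N - T ^ 2 : ℤ) := by
          push_cast at hT hN ⊢
          rw [hT, hN]; ring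
        obtain ⟨m, hm⟩ := int_of_squarefree h2 b2
        rw [← hm] at b2
        have b3 : (d : ℤ) * m ^ 2 = 4 * N - T ^ 2 := by exact_mod_cast b2
        have b4 : Even T ∧ Even m := by
          obtain ⟨e, he⟩ : ∃ e : ℤ, (d : ℤ) = 4 * e + 1 ∨ (d : ℤ) = 4 * e + 2 := ⟨d / 4, by omega⟩
          rcases Int.even_or_odd' T with ⟨u, rfl | rfl⟩ <;>
          rcases Int.even_or_odd' m with ⟨v, rfl | rfl⟩ <;>
          rcases he with he | he <;> rw [he] at b3 <;>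
          first
          | exact ⟨even_two_mul _, even_two_mul _⟩
          | (exfalso; ring_nf at b3; omega)
        obtain ⟨⟨u, hu⟩, v, hv⟩ := b4
        have b5 : (T : ℚ) = u + u := by exact_mod_cast hu
        have b6 : (m : ℚ) = v + v := by exact_mod_cast hv
        push_cast at hT
        exact ⟨u, v, by linarith, by linarith⟩)
    refine ⟨F, Or.inr ⟨?_, a2⟩⟩
    have := F.D_eq
    rw [a1, a2] at this
    omega

theorem exists_hex : ∃ F : IQ, F.a = -1 ∧ F.b = 1 := by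
  obtain ⟨F, h | h⟩ := exists_IQ (d := 3) Nat.prime_three.squarefree
  · have := F.D_eq
    rw [h.1, h.2] at this
    exact ⟨F, by omega, h.2⟩
  · have := F.D_eq
    rw [h.1, h.2] at this
    rcases F.fund with h1 | h1
    · omega
    · omega

end Pool.Agent.Lib.MP_ad7336_co
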