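import Pool.Agent.Lib.MP_ad7336_co.Red

set_option autoImplicit false

namespace Pool.Agent.Lib.MP_ad7336_co

open QuadraticAlgebra Finset Filter Topology
open scoped Classical

namespace IQ

/-- The proof of `hex_upper` with the diameter bound kept. -/
theorem hex_upper' {H : IQ} (ha : H.a = -1) (hb : H.b = 1) {ε : ℝ} (hε : 0 < ε) :
    ∀ᶠ n : ℕ in atTop, ∃ P : Finset H.O, P.card = n ∧
      (∀ x ∈ P, ∀ y ∈ P, (H.nm (x - y) : ℝ) ≤ 2 * n) ∧
      (H.Dn P : ℝ) ≤ (1 + ε) * H.kap * n / √(Real.log n) := by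
  obtain ⟨δ, hδ, hδ1, hδε⟩ : ∃ δ : ℝ, 0 < δ ∧ δ ≤ 1 / 3 ∧ (1 + δ) * (1 + δ) ≤ 1 + ε := by
    refine ⟨min ε 1 / 3, by positivity, by linarith [min_le_right ε 1], ?_⟩
    have h1 := min_le_left ε 1
    have h2 := min_le_right ε 1
    have h3 : 0 < min ε 1 := by positivity
    nlinarith
  have hpi := Real.pi_pos
  have hs3 : (0 : ℝ) < √3 := by positivity
  have hCE := H.CE_pos
  have hII := H.II_pos
  set c : ℝ := 2 * H.CE / √Real.pi / 2 with hc
  have hc0 : 0 < c := by positivity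
  set K : ℝ := c * (3 / 2) * EE H.Ine 2 with hK
  have hK0 : 0 < K := mul_pos (by positivity) hII
  have hkap : H.kap = K * (4 * (√3 / (2 * Real.pi))) := by
    unfold kap
    rw [hx_ramP ha hb, hx_D ha hb, Nat.prime_three.primeFactors, card_singleton, hK, hc]
    unfold II
    push_cast
    field_simp
    ring
  have h1 := wshape H.Spl H.Ine hc0.le (fun e he => wup H.Spl (karamata _ H.tendsto_CE)
    (fun p _ hp => hx_spl ha hb hp) he) (mul_pos hδ hK0)
  set α : ℝ := (1 + δ) * (√3 / (2 * Real.pi)) with hα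
  have hα0 : 0 < α := by positivity
  have hα1 : 1 ≤ 4 * α := by
    have a1 : (1.7 : ℝ) ≤ √3 := Real.le_sqrt_of_sq_le (by norm_num)
    have a2 := Real.pi_lt_d2
    have a3 : (1 / 4 : ℝ) ≤ √3 / (2 * Real.pi) := by
      rw [le_div_iff₀ (by positivity)]; nlinarith
    nlinarith
  have hα2 : 4 * α ≤ 2 := by
    have a1 : √3 ≤ (2 : ℝ) := Real.sqrt_le_iff.2 ⟨by norm_num, by norm_num⟩
    have a2 := Real.pi_gt_three
    have a3 : √3 / (2 * Real.pi) ≤ 1 / 3 := by
      rw [div_le_iff₀ (by positivity)]; nlinarith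
    nlinarith
  have h2 : ∀ᶠ t : ℝ in atTop, α⁻¹ < ((H.ball t).card : ℝ) / t := by
    refine H.count_ball.eventually (lt_mem_nhds ?_)
    rw [hx_D ha hb, hα, mul_inv, inv_div]
    push_cast
    refine mul_lt_of_lt_one_left (by positivity) (inv_lt_one_of_one_lt₀ (by linarith))
  have t1 : Tendsto (fun n : ℕ => α * n) atTop atTop :=
    tendsto_natCast_atTop_atTop.const_mul_atTop hα0
  have t2 : Tendsto (fun n : ℕ => 4 * (α * n)) atTop atTop := t1.const_mul_atTop (by norm_num)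
  filter_upwards [t1.eventually h2, t2.eventually h1, eventually_ge_atTop 2] with n g1 g2 hn
  have hn' : (2 : ℝ) ≤ n := by exact_mod_cast hn
  have hcard : n ≤ (H.ball (α * n)).card := by
    rw [lt_div_iff₀ (by positivity), inv_mul_cancel_left₀ hα0.ne'] at g1
    exact_mod_cast g1.le
  obtain ⟨P, hP, hPn⟩ := exists_subset_card_eq hcard
  refine ⟨P, hPn, fun x hx y hy => (H.hx_nm_sub (hP hx) (hP hy)).trans (by nlinarith),
    le_trans ?_ (g2.trans ?_)⟩
  · unfold Dn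
    refine Nat.cast_le.2 (card_le_card fun m hm => ?_)
    obtain ⟨⟨z, w⟩, hzw, rfl⟩ := mem_image.1 hm
    obtain ⟨hz, hw, hne⟩ := mem_offDiag.1 hzw
    have h0 : z - w ≠ 0 := sub_ne_zero.2 hne
    refine mem_filter.2 ⟨mem_Icc.2 ⟨Nat.pos_of_ne_zero fun h => h0 (H.nm_eq_zero.1 h),
      Nat.le_floor (H.hx_nm_sub (hP hz) (hP hw))⟩, ?_⟩
    have := H.norm_shape (I := Ideal.span {z - w}) (by simpa using h0)
    rwa [hx_D ha hb, absNorm_span] at this
  · have l0 : 0 < √(Real.log n) := Real.sqrt_pos.2 (Real.log_pos (by linarith))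
    have l1 : √(Real.log n) ≤ √(Real.log (4 * (α * n))) :=
      Real.sqrt_le_sqrt (Real.log_le_log (by linarith) (by nlinarith))
    refine div_le_div₀ (by have := H.kap_pos; positivity) ?_ l0 l1
    have e : (K + δ * K) * (4 * (α * n)) = (1 + δ) * (1 + δ) * H.kap * n := by
      rw [hkap, hα]; ring
    rw [e]
    have := H.kap_pos
    gcongr

end IQ

namespace Sharp

theorem ine_iff {H : IQ} (ha : H.a = -1) (hb : H.b = 1) {p : ℕ} (hp : p.Prime) :
    H.Ine p ↔ p % 3 = 2 := by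
  have : Fact p.Prime := ⟨hp⟩
  have e : ∀ r : ℤ, (p : ℤ) ∣ r ^ 2 - H.b * r - H.a ↔ (r : ZMod p) ^ 2 - r + 1 = 0 := fun r => by
    rw [← ZMod.intCast_zmod_eq_zero_iff_dvd, ha, hb]
    push_cast
    exact iff_of_eq (by congr 1; ring)
  simp only [IQ.Ine, hp, true_and, e]
  constructor
  · intro h
    by_contra h2
    refine h ?_
    have h3 : p % 3 = 0 ∨ p % 3 = 1 := by omega
    rcases h3 with h3 | h3
    · have h4 : p = 3 :=
        ((Nat.prime_dvd_prime_iff_eq Nat.prime_three hp).1 (Nat.dvd_of_mod_eq_zero h3)).symm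
      subst h4
      have h5 := ZMod.natCast_self 3
      refine ⟨2, ?_⟩
      push_cast at h5 ⊢
      linear_combination h5
    · have h4 : 3 ∣ Fintype.card (ZMod p)ˣ := by
        rw [ZMod.card_units]
        omega
      obtain ⟨g, hg⟩ := exists_prime_orderOf_dvd_card 3 h4
      have h5 : (g : ZMod p) ^ 3 = 1 := by
        rw [← Units.val_pow_eq_pow_val, ← hg, pow_orderOf_eq_one, Units.val_one]
      have h6 : (g : ZMod p) - 1 ≠ 0 := by
        intro k
        rw [sub_eq_zero, Units.val_eq_one] at k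
        rw [k, orderOf_one] at hg
        omega
      obtain ⟨r, hr⟩ := ZMod.intCast_surjective (-(g : ZMod p))
      refine ⟨r, mul_left_cancel₀ h6 ?_⟩
      rw [hr]
      linear_combination h5
  · rintro h ⟨r, hr⟩
    have h1 : (-(r : ZMod p)) ^ 3 = 1 := by linear_combination (-(r : ZMod p) - 1) * hr
    have h0 : -(r : ZMod p) ≠ 0 := by
      intro k
      rw [k] at h1
      simp at h1
    have h2 := ZMod.pow_card_sub_one_eq_one h0
    obtain ⟨m, hm⟩ : ∃ m, p - 1 = 3 * m + 1 := ⟨p / 3, by omega⟩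
    rw [hm, pow_succ, pow_mul, h1, one_pow, one_mul] at h2
    have h3 : ((3 : ℕ) : ZMod p) = 0 := by
      push_cast
      linear_combination hr + ((r : ZMod p) - 2) * h2
    have h4 := (Nat.prime_dvd_prime_iff_eq hp Nat.prime_three).1
      ((ZMod.natCast_eq_zero_iff _ _).1 h3)
    omega

theorem kap_hex {H : IQ} (ha : H.a = -1) (hb : H.b = 1) :
    H.kap = √(2 * √3 / Real.pi ^ 2 *
      ∏' p : Nat.Primes, if (p : ℕ) % 3 = 2 then (1 - 1 / ((p : ℕ) : ℝ) ^ 2)⁻¹ else 1) := by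
  have hD : H.D = 3 := by simp [IQ.D, ha, hb]
  have h1 : (∏' p : Nat.Primes, if (p : ℕ) % 3 = 2 then (1 - 1 / ((p : ℕ) : ℝ) ^ 2)⁻¹ else 1)
      = H.II := by
    rw [IQ.II, ← (EE_hasProd H.Ine one_lt_two).tprod_eq]
    refine tprod_congr fun p => if_congr (ine_iff ha hb p.2).symm ?_ rfl
    rw [Real.rpow_neg (Nat.cast_nonneg _), Real.rpow_two, one_div]
  rw [h1, ← Real.sqrt_sq H.kap_pos.le, H.kap_sq, IQ.hex_hh ha hb, IQ.hex_ww ha hb, IQ.ramP, hD,
    Nat.prime_three.primeFactors, prod_singleton, card_singleton]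
  congr 1
  push_cast
  ring

theorem kap_le {H : IQ} (ha : H.a = -1) (hb : H.b = 1) (F : IQ) : H.kap ≤ F.kap := by
  by_cases h : F.D = 3
  · have h1 := F.D_eq
    rw [h] at h1
    rcases F.b_cases with k | k <;> rw [k] at h1
    · omega
    · rw [kap_hex ha hb, kap_hex (H := F) (by omega) k]
  · exact (IQ.kap_lt ha hb h).le

end Sharp

/-- The sharp constant. -/
theorem sharp (c : ℝ) (hc : c = √(2 * √3 / Real.pi ^ 2 *
      ∏' p : Nat.Primes, if (p : ℕ) % 3 = 2 then (1 - 1 / ((p : ℕ) : ℝ) ^ 2)⁻¹ else 1))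
    (ε : ℝ) (hε : 0 < ε) :
    (∀ (u v : ℂ) (T : Finset ℂ) (C : ℝ), (u * (starRingEnd ℂ) v).im ≠ 0 →
      ∀ᶠ n : ℕ in atTop, ∀ P : Finset ℂ, P.card = n →
        (∀ p ∈ P, ∃ t ∈ T, ∃ a b : ℤ, p = t + a * u + b * v) →
        (∀ p ∈ P, ∀ q ∈ P, dist p q ^ 2 ≤ C * n) →
        (c - ε) * n / √(Real.log n) ≤ DD P) ∧
    ∀ᶠ n : ℕ in atTop, ∃ Q : Finset ℂ, Q.card = n ∧
      (∀ p ∈ Q, ∃ a b : ℤ,
        p = (a : ℂ) + (b : ℂ) * ((1 / 2 : ℂ) + ((Real.sqrt 3 / 2 : ℝ) : ℂ) * Complex.I)) ∧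
      (∀ p ∈ Q, ∀ q ∈ Q, dist p q ^ 2 ≤ 2 * n) ∧
      (DD Q : ℝ) ≤ (c + ε) * n / √(Real.log n) := by
  obtain ⟨H, ha, hb⟩ := exists_hex
  rw [← Sharp.kap_hex ha hb] at hc
  have hc0 : 0 < c := hc ▸ H.kap_pos
  constructor
  · intro u v T C huv
    obtain ⟨F, c', hc', hF⟩ := red u v huv T
    have hk := F.kap_pos
    have hle : c ≤ F.kap := hc ▸ Sharp.kap_le ha hb F
    have t1 : Tendsto (fun n : ℕ => √(Real.log n)) atTop atTop :=
      Real.tendsto_sqrt_atTop.comp (Real.tendsto_log_atTop.comp tendsto_natCast_atTop_atTop)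
    filter_upwards [F.core (div_pos hε hk) (c' * C), t1.eventually_ge_atTop (8 * T.card * c + 1),
      eventually_ge_atTop (8 * T.card + 1)] with n q3 q4 q5 P h1 h2 h3
    have q7 : (0 : ℝ) ≤ T.card := Nat.cast_nonneg _
    have q0 : (0 : ℝ) ≤ n := Nat.cast_nonneg _
    have hs : 0 < √(Real.log n) := lt_of_lt_of_le (by positivity) q4
    rcases hF P h2 with k | ⟨P', k1, k2, k3⟩
    · have q6 : (8 * T.card + 1 : ℝ) ≤ n := by exact_mod_cast q5
      have q8 : (0 : ℝ) ≤ DD P := Nat.cast_nonneg _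
      rw [h1] at k
      have q9 : (n : ℝ) ≤ 8 * T.card * DD P := by linarith
      rw [div_le_iff₀ hs]
      have q10 := mul_le_mul_of_nonneg_left q9 hc0.le
      have q11 := mul_le_mul_of_nonneg_left q4 q8
      have q12 := mul_nonneg hε.le q0
      nlinarith
    · refine le_trans ?_ (k2 ▸ q3 P' (k1.trans h1) fun x hx y hy => ?_)
      · refine div_le_div_of_nonneg_right (mul_le_mul_of_nonneg_right ?_ q0) hs.le
        rw [sub_mul, div_mul_cancel₀ _ hk.ne']
        linarith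
      · obtain ⟨p, hp, q, hq, e⟩ := k3 x hx y hy
        rw [e, mul_assoc]
        exact mul_le_mul_of_nonneg_left (h3 p hp q hq) hc'.le
  · have hD : H.D = 3 := by simp [IQ.D, ha, hb]
    filter_upwards [IQ.hex_upper' ha hb (div_pos hε hc0)] with n ⟨Q, q1, q2, q3⟩
    refine ⟨Q.image H.emb, by rw [card_image_of_injective _ H.emb_inj, q1],
      forall_mem_image.2 fun z _ => ⟨z.re, z.im, ?_⟩,
      forall_mem_image.2 fun x hx => forall_mem_image.2 fun y hy => ?_, ?_⟩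
    · change (z.re : ℂ) + z.im * H.om = _
      simp only [IQ.om, hD, hb]
      push_cast
      ring
    · rw [dist_eq_norm, ← map_sub, H.norm_emb_sq]
      exact q2 x hx y hy
    · rw [DD_image]
      refine q3.trans (le_of_eq ?_)
      rw [← hc, add_mul, div_mul_cancel₀ _ hc0.ne', one_mul]

end Pool.Agent.Lib.MP_ad7336_co
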