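import Pool.Agent.Lib.MP_ad7336_co.Eul
import Pool.Agent.Lib.helper57.PNT

set_option autoImplicit false

namespace Pool.Agent.Lib.MP_ad7336_co

open QuadraticAlgebra Finset Filter Topology
open scoped Classical

theorem wirs_sum_le {α β : Type*} (s : Finset α) (t : Finset β) (f : α → ℝ) (g : β → ℝ)
    (e : α → β) (he : ∀ a ∈ s, e a ∈ t) (hinj : Set.InjOn e s) (hf : ∀ a ∈ s, f a ≤ g (e a))
    (hg : ∀ b ∈ t, 0 ≤ g b) : ∑ a ∈ s, f a ≤ ∑ b ∈ t, g b := by
  calc ∑ a ∈ s, f a ≤ ∑ a ∈ s, g (e a) := sum_le_sum hf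
    _ = ∑ b ∈ s.image e, g b := (sum_image hinj).symm
    _ ≤ ∑ b ∈ t, g b := by
      refine sum_le_sum_of_subset_of_nonneg (fun b hb => ?_) (fun b hb _ => hg b hb)
      obtain ⟨a, ha, rfl⟩ := mem_image.1 hb
      exact he a ha

theorem wirs_unif (f : ℝ → ℝ) (hm : Monotone f) (h0 : ∀ t, 0 ≤ f t) {a : ℝ}
    (h : Tendsto (fun x => f x / x) atTop (𝓝 a)) {δ : ℝ} (hδ : 0 < δ) :
    ∃ K : ℝ, 0 ≤ K ∧ ∀ t, 0 ≤ t → |f t - a * t| ≤ δ * t + K := by
  have h1 := (Metric.tendsto_nhds.1 h δ hδ).and (eventually_gt_atTop (0 : ℝ))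
  obtain ⟨T, hT⟩ := eventually_atTop.1 h1
  have hT0 := (hT T le_rfl).2
  have hK : 0 ≤ f T + |a| * T := add_nonneg (h0 T) (mul_nonneg (abs_nonneg a) hT0.le)
  refine ⟨f T + |a| * T, hK, fun t ht => ?_⟩
  rcases le_total T t with h2 | h2
  · obtain ⟨h3, h4⟩ := hT t h2
    rw [Real.dist_eq] at h3
    have h5 : f t - a * t = (f t / t - a) * t := by field_simp
    rw [h5, abs_mul, abs_of_pos h4]
    have := mul_le_mul_of_nonneg_right h3.le h4.le
    linarith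
  · have h3 : |f t - a * t| ≤ |f t| + |a * t| := abs_sub _ _
    rw [abs_of_nonneg (h0 t), abs_mul, abs_of_nonneg ht] at h3
    have h4 := hm h2
    have h5 := mul_le_mul_of_nonneg_left h2 (abs_nonneg a)
    have h6 := mul_nonneg hδ.le ht
    linarith

theorem wirs_log_ratio {A : ℝ} (hA : 0 < A) :
    Tendsto (fun x : ℝ => Real.log (A * x) / Real.log x) atTop (𝓝 1) := by
  have h1 : Tendsto (fun x : ℝ => Real.log A / Real.log x + 1) atTop (𝓝 (0 + 1)) :=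
    (Real.tendsto_log_atTop.const_div_atTop _).add tendsto_const_nhds
  rw [zero_add] at h1
  refine h1.congr' ?_
  filter_upwards [eventually_gt_atTop (1 : ℝ)] with x hx
  have := (Real.log_pos hx).ne'
  rw [Real.log_mul hA.ne' (by linarith)]
  field_simp

theorem wirs_SS_eq (S : ℕ → Prop) (x : ℝ) :
    SS S x = ∑ n ∈ (Icc 1 ⌊x⌋₊).filter (comp S), (n : ℝ)⁻¹ := by
  rw [SS, sum_filter]

theorem wirs_SS_nonneg (S : ℕ → Prop) (x : ℝ) : 0 ≤ SS S x := by
  rw [wirs_SS_eq]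
  exact sum_nonneg (fun n _ => by positivity)

theorem wirs_C_nonneg {S : ℕ → Prop} {C : ℝ}
    (hK : Tendsto (fun x : ℝ => SS S x / √(Real.log x)) atTop (𝓝 C)) : 0 ≤ C :=
  ge_of_tendsto' hK (fun x => div_nonneg (wirs_SS_nonneg S x) (Real.sqrt_nonneg _))

theorem wirs_comp_dvd {S : ℕ → Prop} {m n : ℕ} (h : comp S n) (hd : m ∣ n) : comp S m :=
  ⟨fun e => h.1 (by simpa [e] using hd), fun p hp hpm => h.2 p hp (hpm.trans hd)⟩

theorem wirs_mod3 {S : ℕ → Prop} (hS : ∀ p : ℕ, p.Prime → S p → p % 3 = 1) :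
    ∀ n : ℕ, comp S n → n % 3 = 1 := by
  intro n
  induction n using Nat.recOnMul with
  | zero => exact fun h => absurd rfl h.1
  | one => exact fun _ => rfl
  | prime p hp => exact fun h => hS p hp (h.2 p hp dvd_rfl)
  | mul a b ha hb =>
    intro h
    rw [Nat.mul_mod, ha (wirs_comp_dvd h (Dvd.intro _ rfl)),
      hb (wirs_comp_dvd h (Dvd.intro_left _ rfl))]

theorem wirs_logsum {x : ℝ} (hx : 0 < x) (n : ℕ) :
    ∑ b ∈ Icc 1 n, (Real.log x - Real.log b) ≤ x := by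
  have h1 : ∑ b ∈ Icc 1 n, (Real.log x - Real.log b) =
      n * Real.log x - Real.log (n.factorial : ℝ) := by
    induction n with
    | zero => simp
    | succ k ih =>
      rw [sum_Icc_succ_top (by omega), ih, Nat.factorial_succ]
      push_cast
      rw [Real.log_mul (by positivity) (by positivity)]
      ring
  have h2 := Real.pow_div_factorial_le_exp x hx.le n
  have h3 := Real.log_le_log (by positivity) h2
  rw [Real.log_exp, Real.log_div (by positivity) (by positivity), Real.log_pow] at h3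
  rw [h1]
  exact h3

theorem wirs_card_le (S : ℕ → Prop) {x : ℝ} (hx : 0 ≤ x) :
    (((Icc 1 ⌊x⌋₊).filter (comp S)).card : ℝ) ≤ x := by
  have h1 : ((Icc 1 ⌊x⌋₊).filter (comp S)).card ≤ ⌊x⌋₊ := by
    simpa using card_filter_le (Icc 1 ⌊x⌋₊) (comp S)
  exact le_trans (by exact_mod_cast h1) (Nat.floor_le hx)

open ArithmeticFunction ArithmeticFunction.vonMangoldt in
theorem wirs_up1 (S : ℕ → Prop) (hS : ∀ p : ℕ, p.Prime → S p → p % 3 = 1) {x : ℝ} (hx : 0 < x) :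
    ∑ b ∈ (Icc 1 ⌊x⌋₊).filter (comp S), Real.log b ≤
      ∑ m ∈ (Icc 1 ⌊x⌋₊).filter (comp S), ∑ k ∈ Icc 1 ⌊x / m⌋₊, residueClass (1 : ZMod 3) k := by
  simp_rw [← vonMangoldt_sum]
  rw [sum_sigma', sum_sigma']
  refine wirs_sum_le _ _ _ _ (fun a => ⟨a.1 / a.2, a.2⟩) ?_ ?_ ?_
    (fun b _ => residueClass_nonneg _ _)
  · rintro ⟨b, d⟩ h
    simp only [mem_sigma, mem_filter, mem_Icc, Nat.mem_divisors] at h ⊢
    obtain ⟨⟨⟨h1, h2⟩, h3⟩, ⟨m, rfl⟩, h5⟩ := h
    have hd : 0 < d := Nat.pos_of_ne_zero (fun e => h5 (by simp [e]))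
    have hm : 0 < m := Nat.pos_of_ne_zero (fun e => h5 (by simp [e]))
    rw [Nat.mul_div_cancel_left _ hd]
    refine ⟨⟨⟨hm, le_trans (Nat.le_mul_of_pos_left _ hd) h2⟩,
      wirs_comp_dvd h3 (Dvd.intro_left _ rfl)⟩, hd, Nat.le_floor ?_⟩
    rw [le_div_iff₀ (by exact_mod_cast hm)]
    have := (Nat.le_floor_iff hx.le).1 h2
    exact_mod_cast this
  · rintro ⟨b, d⟩ h ⟨b', d'⟩ h' e
    simp only [coe_sigma, Set.mem_sigma_iff, mem_coe, Nat.mem_divisors, Sigma.mk.injEq,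
      heq_eq_eq] at h h' e ⊢
    obtain ⟨e1, rfl⟩ := e
    refine ⟨?_, rfl⟩
    rw [← Nat.div_mul_cancel h.2.1, e1, Nat.div_mul_cancel h'.2.1]
  · rintro ⟨b, d⟩ h
    simp only [mem_sigma, mem_filter, mem_Icc, Nat.mem_divisors] at h
    have h1 := wirs_mod3 hS d (wirs_comp_dvd h.1.2 h.2.1)
    have h2 : (d : ZMod 3) = 1 := by
      rw [← ZMod.natCast_mod d 3, h1]; rfl
    simp [residueClass, Set.indicator, h2]

open ArithmeticFunction ArithmeticFunction.vonMangoldt in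
theorem wup (S : ℕ → Prop) {C : ℝ}
    (hK : Tendsto (fun x : ℝ => SS S x / √(Real.log x)) atTop (𝓝 C))
    (hS : ∀ p : ℕ, p.Prime → S p → p % 3 = 1) {ε : ℝ} (hε : 0 < ε) :
    ∀ᶠ x : ℝ in atTop,
      (((Icc 1 ⌊x⌋₊).filter (comp S)).card : ℝ) ≤ (C / 2 + ε) * x / √(Real.log x) := by
  have hC := wirs_C_nonneg hK
  have hp := helper57.pnt_ap (q := 3) (a := 1) isUnit_one
  have h3 : ((Nat.totient 3 : ℕ) : ℝ)⁻¹ = 1 / 2 := by
    rw [Nat.totient_prime Nat.prime_three]; norm_num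
  rw [h3] at hp
  set δ : ℝ := ε / (2 * (C + 1)) with hδ
  have hδ0 : 0 < δ := by positivity
  obtain ⟨K, hK0, hKb⟩ := wirs_unif (fun x => ∑ k ∈ Icc 1 ⌊x⌋₊, residueClass (1 : ZMod 3) k)
    (fun s t hst => sum_le_sum_of_subset_of_nonneg (Icc_subset_Icc_right (Nat.floor_mono hst))
      (fun k _ _ => residueClass_nonneg _ _))
    (fun t => sum_nonneg (fun k _ => residueClass_nonneg _ _)) hp hδ0
  have hsq : Tendsto (fun x : ℝ => √(Real.log x)) atTop atTop :=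
    Real.tendsto_sqrt_atTop.comp Real.tendsto_log_atTop
  have hlim : Tendsto (fun x : ℝ => (1 / 2 + δ) * (SS S x / √(Real.log x)) + (K + 1) / √(Real.log x))
      atTop (𝓝 ((1 / 2 + δ) * C + 0)) := (hK.const_mul _).add (hsq.const_div_atTop _)
  have hlt : (1 / 2 + δ) * C + 0 < C / 2 + ε := by
    have : δ * (2 * (C + 1)) = ε := by rw [hδ]; field_simp
    nlinarith
  filter_upwards [hlim.eventually (gt_mem_nhds hlt), eventually_gt_atTop (1 : ℝ)] with x h1 hx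
  have hx0 : 0 < x := by linarith
  have hL := Real.log_pos hx
  have hs := Real.sqrt_pos.2 hL
  have hss := Real.mul_self_sqrt hL.le
  set B := (Icc 1 ⌊x⌋₊).filter (comp S) with hB
  have e1 : (B.card : ℝ) * Real.log x =
      ∑ b ∈ B, Real.log b + ∑ b ∈ B, (Real.log x - Real.log b) := by
    rw [← sum_add_distrib]; simp
  have e2 : ∑ b ∈ B, (Real.log x - Real.log b) ≤ x := by
    refine le_trans (sum_le_sum_of_subset_of_nonneg (filter_subset _ _) (fun b hb _ => ?_))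
      (wirs_logsum hx0 ⌊x⌋₊)
    rw [mem_Icc] at hb
    have := (Nat.le_floor_iff hx0.le).1 hb.2
    exact sub_nonneg.2 (Real.log_le_log (by exact_mod_cast hb.1) this)
  have e3 : ∑ b ∈ B, Real.log b ≤ (1 / 2 + δ) * x * SS S x + K * x := by
    refine (wirs_up1 S hS hx0).trans ?_
    calc _ ≤ ∑ m ∈ B, ((1 / 2 + δ) * x * (m : ℝ)⁻¹ + K) := by
          refine sum_le_sum (fun m _ => ?_)
          have := (abs_le.1 (hKb (x / m) (by positivity))).2
          rw [div_eq_mul_inv x] at this ⊢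
          linarith
      _ = (1 / 2 + δ) * x * SS S x + K * B.card := by
          rw [sum_add_distrib, ← mul_sum, wirs_SS_eq, sum_const, nsmul_eq_mul, mul_comm _ K]
      _ ≤ _ := by
          have := mul_le_mul_of_nonneg_left (wirs_card_le S hx0.le) hK0
          linarith
  rw [le_div_iff₀ hs]
  have e4 : (B.card : ℝ) * √(Real.log x) * √(Real.log x) ≤
      ((1 / 2 + δ) * (SS S x / √(Real.log x)) + (K + 1) / √(Real.log x)) * x * √(Real.log x) := by
    rw [mul_assoc, hss, e1]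
    have : ((1 / 2 + δ) * (SS S x / √(Real.log x)) + (K + 1) / √(Real.log x)) * x * √(Real.log x) =
        (1 / 2 + δ) * x * SS S x + K * x + x := by field_simp; ring
    linarith
  have e5 := le_of_mul_le_mul_right e4 hs
  exact e5.trans (mul_le_mul_of_nonneg_right h1.le hx0.le)


noncomputable def wirsTh (M : ℕ) (c : ZMod M) (x : ℝ) : ℝ :=
  ∑ p ∈ (Icc 1 ⌊x⌋₊).filter (fun p : ℕ => p.Prime ∧ (p : ZMod M) = c), Real.log p

theorem wirs_th_unif {M : ℕ} (hM : M ≠ 0) {δ : ℝ} (hδ : 0 < δ) :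
    ∃ K : ℝ, 0 ≤ K ∧ ∀ c : ZMod M, IsUnit c → ∀ t, 0 ≤ t →
      |wirsTh M c t - (M.totient : ℝ)⁻¹ * t| ≤ δ * t + K := by
  have : NeZero M := ⟨hM⟩
  have h : ∀ c : ZMod M, ∃ K : ℝ, 0 ≤ K ∧ (IsUnit c → ∀ t, 0 ≤ t →
      |wirsTh M c t - (M.totient : ℝ)⁻¹ * t| ≤ δ * t + K) := by
    intro c
    by_cases hc : IsUnit c
    · obtain ⟨K, h1, h2⟩ := wirs_unif (wirsTh M c)
        (fun s t hst => sum_le_sum_of_subset_of_nonneg
          (filter_subset_filter _ (Icc_subset_Icc_right (Nat.floor_mono hst)))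
          (fun k _ _ => Real.log_natCast_nonneg k))
        (fun t => sum_nonneg (fun k _ => Real.log_natCast_nonneg k))
        (helper57.pnt_ap_theta hc) hδ
      exact ⟨K, h1, fun _ => h2⟩
    · exact ⟨0, le_rfl, fun h => absurd h hc⟩
  choose K h1 h2 using h
  refine ⟨∑ c, K c, sum_nonneg (fun c _ => h1 c), fun c hc t ht => (h2 c hc t ht).trans ?_⟩
  have := single_le_sum (f := K) (fun c _ => h1 c) (mem_univ c)
  linarith

theorem wirs_th_diff (M : ℕ) (c : ZMod M) (y : ℕ) (s t : ℝ) :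
    wirsTh M c t - wirsTh M c s - ∑ k ∈ Icc 1 y, Real.log k ≤
      ∑ p ∈ (Ioc ⌊s⌋₊ ⌊t⌋₊).filter (fun p : ℕ => p.Prime ∧ (p : ZMod M) = c ∧ y < p),
        Real.log p := by
  have hn : ∀ k : ℕ, 0 ≤ Real.log k := Real.log_natCast_nonneg
  set A := (Icc 1 ⌊s⌋₊).filter (fun p : ℕ => p.Prime ∧ (p : ZMod M) = c)
  set D := (Ioc ⌊s⌋₊ ⌊t⌋₊).filter (fun p : ℕ => p.Prime ∧ (p : ZMod M) = c ∧ y < p)
  have hu : ∀ U V : Finset ℕ, ∑ k ∈ U ∪ V, Real.log k ≤
      ∑ k ∈ U, Real.log k + ∑ k ∈ V, Real.log k := by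
    intro U V
    rw [← sum_union_inter]
    have := sum_nonneg (s := U ∩ V) (fun k _ => hn k)
    linarith
  have h1 : wirsTh M c t ≤ ∑ k ∈ (A ∪ Icc 1 y) ∪ D, Real.log k := by
    refine sum_le_sum_of_subset_of_nonneg (fun p hp => ?_) (fun k _ _ => hn k)
    simp only [A, D, mem_filter, mem_union, mem_Icc, mem_Ioc] at hp ⊢
    by_cases h1 : p ≤ ⌊s⌋₊
    · exact Or.inl (Or.inl ⟨⟨hp.1.1, h1⟩, hp.2⟩)
    · by_cases h2 : p ≤ y
      · exact Or.inl (Or.inr ⟨hp.1.1, h2⟩)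
      · exact Or.inr ⟨⟨by omega, hp.1.2⟩, hp.2.1, hp.2.2, by omega⟩
  have h2 := hu (A ∪ Icc 1 y) D
  have h3 := hu A (Icc 1 y)
  have h4 : wirsTh M c s = ∑ k ∈ A, Real.log k := rfl
  linarith

theorem wirs_low1 (S : ℕ → Prop) {M : ℕ} (hS : ∀ p, p.Prime → S p → ¬ p ∣ M) (y h : ℕ)
    (hh : ∀ m p : ℕ, comp S m → p.Prime → y < p → m * p ≡ h [MOD M] → S p) {x₁ x₂ : ℝ}
    (h1 : 0 ≤ x₁) (h2 : 0 ≤ x₂) (U : Finset ℕ) (hU : ∀ m ∈ U, comp S m) :
    ∑ m ∈ U, ∑ p ∈ (Ioc ⌊x₁ / m⌋₊ ⌊x₂ / m⌋₊).filter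
        (fun p : ℕ => p.Prime ∧ (p : ZMod M) = (m : ZMod M)⁻¹ * h ∧ y < p), Real.log p ≤
      ∑ b ∈ (Ioc ⌊x₁⌋₊ ⌊x₂⌋₊).filter (fun b => comp S b ∧ b ≡ h [MOD M]), Real.log b := by
  have hlog : ∀ b : ℕ, b ≠ 0 → ∑ p ∈ b.primeFactors, Real.log p ≤ Real.log b := by
    intro b hb
    rw [← Real.log_prod (fun p hp => by
      exact_mod_cast (Nat.prime_of_mem_primeFactors hp).ne_zero), ← Nat.cast_prod]
    refine Real.log_le_log ?_ ?_
    · exact_mod_cast prod_pos (fun p hp => (Nat.prime_of_mem_primeFactors hp).pos)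
    · exact_mod_cast Nat.le_of_dvd (Nat.pos_of_ne_zero hb) (Nat.prod_primeFactors_dvd b)
  refine le_trans ?_ (sum_le_sum (fun b hb => hlog b (mem_filter.1 hb).2.1.1))
  rw [sum_sigma', sum_sigma']
  refine wirs_sum_le _ _ _ _ (fun a => ⟨a.1 * a.2, a.2⟩) ?_ ?_ (fun a _ => le_rfl)
    (fun b _ => Real.log_natCast_nonneg _)
  · rintro ⟨m, p⟩ hmp
    simp only [mem_sigma, mem_filter, mem_Ioc, Nat.mem_primeFactors] at hmp ⊢
    obtain ⟨hm, ⟨h3, h4⟩, hp, hc, hy⟩ := hmp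
    have hcm := hU m hm
    have hm0 : (0 : ℝ) < m := by exact_mod_cast Nat.pos_of_ne_zero hcm.1
    have hcop : Nat.Coprime m M := Nat.coprime_of_dvd (fun q hq hqm => hS q hq (hcm.2 q hq hqm))
    have hmod : m * p ≡ h [MOD M] := by
      rw [← ZMod.natCast_eq_natCast_iff, Nat.cast_mul, hc, ← mul_assoc,
        ZMod.coe_mul_inv_eq_one m hcop, one_mul]
    have hne : m * p ≠ 0 := mul_ne_zero hcm.1 hp.ne_zero
    refine ⟨⟨⟨?_, ?_⟩, ⟨hne, fun q hq hd => ?_⟩, hmod⟩, hp, Dvd.intro_left _ rfl, hne⟩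
    · rw [Nat.floor_lt (by positivity), div_lt_iff₀ hm0] at h3
      rw [Nat.floor_lt h1]
      push_cast
      linarith
    · rw [Nat.le_floor_iff (by positivity), le_div_iff₀ hm0] at h4
      rw [Nat.le_floor_iff h2]
      push_cast
      linarith
    · rcases (Nat.Prime.dvd_mul hq).1 hd with h5 | h5
      · exact hcm.2 q hq h5
      · rw [(Nat.prime_dvd_prime_iff_eq hq hp).1 h5]
        exact hh m p hcm hp hy hmod
  · rintro ⟨m, p⟩ hmp ⟨m', p'⟩ _ e
    simp only [coe_sigma, Set.mem_sigma_iff, mem_coe, mem_filter, Sigma.mk.injEq,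
      heq_eq_eq] at hmp e ⊢
    obtain ⟨e1, rfl⟩ := e
    exact ⟨Nat.eq_of_mul_eq_mul_right hmp.2.2.1.pos e1, rfl⟩

theorem wlow (S : ℕ → Prop) {C : ℝ}
    (hK : Tendsto (fun x : ℝ => SS S x / √(Real.log x)) atTop (𝓝 C)) {M : ℕ} (hM : M ≠ 0)
    (hS : ∀ p, p.Prime → S p → ¬ p ∣ M) (y : ℕ) {A ε : ℝ} (hA : 0 < A) (hε : 0 < ε) :
    ∀ᶠ X : ℝ in atTop, ∀ (h : ℕ) (x₁ x₂ : ℝ), Nat.Coprime h M →
      (∀ m p : ℕ, comp S m → p.Prime → y < p → m * p ≡ h [MOD M] → S p) →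
      0 ≤ x₁ → x₁ ≤ x₂ → x₂ ≤ A * X →
      ((x₂ - x₁) * C / M.totient - ε * X) / √(Real.log X) ≤
        ((Ioc ⌊x₁⌋₊ ⌊x₂⌋₊).filter (fun b => comp S b ∧ b ≡ h [MOD M])).card := by
  have hC := wirs_C_nonneg hK
  set δ : ℝ := ε / (A * C + A + 2 * A * (C + 1) + 1) with hδ
  have hδ0 : 0 < δ := by positivity
  have hδ1 : δ * (A * C + A + 2 * A * (C + 1) + 1) = ε := by rw [hδ]; field_simp
  set τ : ℝ := (C + 1) / (C + 1 + δ) with hτ
  have hτ0 : 0 < τ := by positivity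
  have hτ1 : τ < 1 := by rw [hτ, div_lt_one (by positivity)]; linarith
  have hτ2 : C - δ < C * τ := by
    rw [hτ, ← mul_div_assoc, lt_div_iff₀ (by positivity)]; nlinarith
  have hτ3 : C * τ < C + 1 := by nlinarith
  obtain ⟨K, hK0, hKb⟩ := wirs_th_unif hM hδ0
  set K' : ℝ := 2 * K + ∑ k ∈ Icc 1 y, Real.log k with hK'
  have hK'0 : 0 ≤ K' :=
    add_nonneg (by linarith) (sum_nonneg (fun k _ => Real.log_natCast_nonneg k))
  have hs : Tendsto (fun X : ℝ => SS S (X ^ (τ ^ 2)) / √(Real.log X)) atTop (𝓝 (C * τ)) := by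
    have h1 := (hK.comp (tendsto_rpow_atTop (y := τ ^ 2) (by positivity))).mul_const τ
    refine h1.congr' ?_
    filter_upwards [eventually_gt_atTop (1 : ℝ)] with X hX
    have := Real.sqrt_pos.2 (Real.log_pos hX)
    simp only [Function.comp]
    rw [Real.log_rpow (by linarith), Real.sqrt_mul (sq_nonneg τ), Real.sqrt_sq hτ0.le]
    field_simp
  have hy : Tendsto (fun X : ℝ => K' * X ^ (-(1 - τ ^ 2))) atTop (𝓝 (K' * 0)) :=
    (tendsto_rpow_neg_atTop (by nlinarith)).const_mul _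
  rw [mul_zero] at hy
  filter_upwards [hs.eventually (lt_mem_nhds hτ2), hs.eventually (gt_mem_nhds hτ3),
    hy.eventually (gt_mem_nhds hδ0),
    (wirs_log_ratio hA).eventually (gt_mem_nhds (show (1 : ℝ) < 1 + δ by linarith)),
    Real.tendsto_log_atTop.eventually_ge_atTop 1, eventually_gt_atTop (1 : ℝ)]
    with X e1 e2 e3 e4 e5 hX h x₁ x₂ hh hsp hx1 hx12 hx2
  have hX0 : 0 < X := by linarith
  have hL : 0 < Real.log X := by linarith
  set r := √(Real.log X) with hr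
  have hr0 : 0 < r := Real.sqrt_pos.2 hL
  have hr1 : 1 ≤ r := Real.one_le_sqrt.2 e5
  have hrr : r * r = Real.log X := Real.mul_self_sqrt hL.le
  set Y := X ^ (τ ^ 2) with hY
  have hY0 : 0 ≤ Y := by positivity
  set B := (Ioc ⌊x₁⌋₊ ⌊x₂⌋₊).filter (fun b => comp S b ∧ b ≡ h [MOD M]) with hB
  set U := (Icc 1 ⌊Y⌋₊).filter (comp S) with hU
  set φ : ℝ := (M.totient : ℝ)⁻¹ with hφ
  have hφ1 : (1 : ℝ) ≤ M.totient := by exact_mod_cast Nat.totient_pos.2 (Nat.pos_of_ne_zero hM)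
  have hφ0 : 0 ≤ φ := by positivity
  have hφ2 : φ ≤ 1 := inv_le_one_of_one_le₀ hφ1
  have f1 := wirs_low1 S hS y h hsp hx1 (hx1.trans hx12) U (fun m hm => (mem_filter.1 hm).2)
  have f2 : ∑ b ∈ B, Real.log b ≤ B.card * ((1 + δ) * (r * r)) := by
    rw [← nsmul_eq_mul]
    refine sum_le_card_nsmul _ _ _ (fun b hb => ?_)
    have hb1 := mem_Ioc.1 (mem_filter.1 hb).1
    have hb2 := (Nat.le_floor_iff (hx1.trans hx12)).1 hb1.2
    have hb3 : (0 : ℝ) < b := by exact_mod_cast (show 0 < b by omega)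
    rw [div_lt_iff₀ hL] at e4
    rw [hrr]
    exact (Real.log_le_log hb3 (hb2.trans hx2)).trans e4.le
  have f3 : ((x₂ - x₁) * φ - 2 * δ * (A * X)) * SS S Y - K' * Y ≤ ∑ b ∈ B, Real.log b := by
    refine le_trans ?_ f1
    calc _ ≤ ∑ m ∈ U, (((x₂ - x₁) * φ - 2 * δ * (A * X)) * (m : ℝ)⁻¹ - K') := by
          rw [sum_sub_distrib, ← mul_sum, wirs_SS_eq, sum_const, nsmul_eq_mul, mul_comm _ K']
          have := mul_le_mul_of_nonneg_left (wirs_card_le S hY0) hK'0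
          linarith
      _ ≤ _ := by
          refine sum_le_sum (fun m hm => le_trans ?_ (wirs_th_diff M _ y _ _))
          have hcm := (mem_filter.1 hm).2
          have hcop : Nat.Coprime m M :=
            Nat.coprime_of_dvd (fun q hq hqm => hS q hq (hcm.2 q hq hqm))
          have hu : IsUnit ((m : ZMod M)⁻¹ * h) :=
            (IsUnit.of_mul_eq_one_right _ (ZMod.coe_mul_inv_eq_one m hcop)).mul
              ((ZMod.isUnit_iff_coprime h M).2 hh)
          have hi : (0 : ℝ) ≤ (m : ℝ)⁻¹ := by positivity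
          have g1 := (abs_le.1 (hKb _ hu (x₁ / m) (by positivity))).2
          have g2 := (abs_le.1 (hKb _ hu (x₂ / m) (div_nonneg (hx1.trans hx12) (by positivity)))).1
          have g3 := mul_le_mul_of_nonneg_left (mul_le_mul_of_nonneg_right hx2 hi) hδ0.le
          have g4 := mul_le_mul_of_nonneg_left
            (mul_le_mul_of_nonneg_right (hx12.trans hx2) hi) hδ0.le
          simp only [div_eq_mul_inv] at g1 g2 ⊢
          nlinarith
  have f4 : K' * Y ≤ δ * X * r := by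
    have g1 : Y = X ^ (-(1 - τ ^ 2)) * X := by
      rw [hY, ← Real.rpow_add_one hX0.ne']; congr 1; ring
    have g2 := mul_le_mul_of_nonneg_right e3.le hX0.le
    have g3 := mul_le_mul_of_nonneg_left hr1 (mul_pos hδ0 hX0).le
    rw [g1]
    linarith
  rw [lt_div_iff₀ hr0] at e1
  rw [div_lt_iff₀ hr0] at e2
  rw [div_le_iff₀ hr0]
  set d := (x₂ - x₁) * φ with hd
  have hd0 : 0 ≤ d := mul_nonneg (by linarith) hφ0
  have hd1 : d ≤ A * X := by
    have := mul_le_mul_of_nonneg_left hφ2 (sub_nonneg.2 hx12)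
    linarith
  have f5 : (d * (C - δ) - 2 * δ * (A * X) * (C + 1) - δ * X) * r ≤
      (B.card * r * (1 + δ)) * r := by
    have g1 := mul_le_mul_of_nonneg_left e1.le hd0
    have g2 := mul_le_mul_of_nonneg_left e2.le
      (show 0 ≤ 2 * δ * (A * X) by positivity)
    nlinarith
  have f6 := le_of_mul_le_mul_right f5 hr0
  have f7 : (x₂ - x₁) * C / M.totient = d * C := by rw [hd, hφ]; ring
  rw [f7]
  by_contra hcon
  rw [not_le] at hcon
  set n := (B.card : ℝ) * r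
  have g1 : d * C ≤ A * X * C := mul_le_mul_of_nonneg_right hd1 hC
  have g2 : n ≤ A * X * C := by have := mul_pos hε hX0; linarith
  have g3 := mul_le_mul_of_nonneg_left g2 hδ0.le
  have g4 := mul_le_mul_of_nonneg_left hd1 hδ0.le
  have g5 : δ * (A * C + A + 2 * A * (C + 1) + 1) * X = ε * X := by rw [hδ1]
  nlinarith

theorem wirs_pt (N : ℝ → ℝ) {c : ℝ}
    (h : ∀ ε : ℝ, 0 < ε → ∀ᶠ x : ℝ in atTop, N x ≤ (c + ε) * x / √(Real.log x)) {k : ℝ}
    (hk : 0 < k) :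
    Tendsto (fun x : ℝ => max (N (x / k) * √(Real.log x) / x) (c * k⁻¹)) atTop (𝓝 (c * k⁻¹)) := by
  refine tendsto_order.2 ⟨fun a ha => Eventually.of_forall (fun x => lt_max_of_lt_right ha),
    fun a ha => ?_⟩
  set η : ℝ := (a - c * k⁻¹) * k / 2 with hη
  have hη0 : 0 < η := by have := sub_pos.2 ha; positivity
  have hlt : (c + η) * k⁻¹ * (√1)⁻¹ < a := by
    have : (c + η) * k⁻¹ = c * k⁻¹ + (a - c * k⁻¹) / 2 := by rw [hη]; field_simp
    rw [Real.sqrt_one, inv_one, mul_one, this]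
    linarith
  have hlim : Tendsto (fun x : ℝ => (c + η) * k⁻¹ * (√(Real.log (k⁻¹ * x) / Real.log x))⁻¹) atTop
      (𝓝 ((c + η) * k⁻¹ * (√1)⁻¹)) :=
    ((wirs_log_ratio (inv_pos.2 hk)).sqrt.inv₀ (by simp)).const_mul _
  filter_upwards [hlim.eventually (gt_mem_nhds hlt),
    (tendsto_id.atTop_div_const hk).eventually (h η hη0), eventually_gt_atTop (1 : ℝ)]
    with x e1 e2 hx
  refine max_lt (lt_of_le_of_lt ?_ e1) ha
  have hx0 : 0 < x := by linarith
  have hs := Real.sqrt_pos.2 (Real.log_pos hx)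
  simp only [id] at e2
  have e3 := div_le_div_of_nonneg_right (mul_le_mul_of_nonneg_right e2 hs.le) hx0.le
  refine e3.trans (le_of_eq ?_)
  rw [Real.sqrt_div' _ (Real.log_pos hx).le, inv_div, mul_comm k⁻¹ x, ← div_eq_mul_inv x k]
  field_simp

theorem wirs_bd (N : ℝ → ℝ) {c : ℝ} (hc : 0 ≤ c) (hN : ∀ x, 0 ≤ x → N x ≤ x)
    (h : ∀ᶠ x : ℝ in atTop, N x ≤ (c + 1) * x / √(Real.log x)) :
    ∀ᶠ x : ℝ in atTop, ∀ k : ℝ, 1 ≤ k →
      N (x / k) * √(Real.log x) / x ≤ 2 * (c + 1) * k ^ (-(3 / 4) : ℝ) := by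
  obtain ⟨T, hT⟩ := eventually_atTop.1 h
  filter_upwards [Real.tendsto_sqrt_atTop.eventually_ge_atTop T, eventually_gt_atTop (1 : ℝ)]
    with x hx hx1 k hk
  have hx0 : 0 < x := by linarith
  have hk0 : 0 < k := by linarith
  have hL := Real.log_pos hx1
  have hs := Real.sqrt_pos.2 hL
  have hsx := Real.sqrt_pos.2 hx0
  have hxx := Real.mul_self_sqrt hx0.le
  have hlx : Real.log x = 2 * Real.log (√x) := by rw [Real.log_sqrt hx0.le]; ring
  set q := k ^ (1 / 4 : ℝ) with hq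
  have hq1 : 1 ≤ q := Real.one_le_rpow hk (by norm_num)
  have hq2 : k ^ (-(3 / 4) : ℝ) = q / k := by
    rw [hq, ← Real.rpow_sub_one hk0.ne']; norm_num
  have hq3 : k ^ (1 / 2 : ℝ) = q ^ 2 := by
    rw [hq, ← Real.rpow_natCast, ← Real.rpow_mul hk0.le]; norm_num
  rw [hq2, div_le_iff₀ hx0]
  have hxk : 0 < x / k := by positivity
  have key : N (x / k) * √(Real.log x) ≤ 2 * (c + 1) * q * (x / k) := by
    rcases le_total k (√x) with h1 | h1
    · have h2 : √x ≤ x / k := by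
        rw [le_div_iff₀ hk0]
        have := mul_le_mul_of_nonneg_left h1 hsx.le
        linarith
      have h3 := hT _ (hx.trans h2)
      have h4 := Real.log_le_log hsx h2
      have h5 : 0 < Real.log (x / k) := by linarith
      have h6 := Real.sqrt_pos.2 h5
      have h7 : √(Real.log x) ≤ 2 * √(Real.log (x / k)) := by
        rw [Real.sqrt_le_left (by positivity), mul_pow, Real.sq_sqrt h5.le]
        linarith
      have h8 : 0 ≤ (c + 1) * (x / k) := by positivity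
      calc _ ≤ (c + 1) * (x / k) / √(Real.log (x / k)) * √(Real.log x) :=
            mul_le_mul_of_nonneg_right h3 hs.le
        _ ≤ (c + 1) * (x / k) / √(Real.log (x / k)) * (2 * √(Real.log (x / k))) :=
            mul_le_mul_of_nonneg_left h7 (by positivity)
        _ = 2 * ((c + 1) * (x / k)) * 1 := by field_simp
        _ ≤ 2 * ((c + 1) * (x / k)) * q := mul_le_mul_of_nonneg_left hq1 (by positivity)
        _ = _ := by ring
    · have h2 := Real.log_le_log hsx h1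
      have h3 := Real.log_le_rpow_div hk0.le (show (0 : ℝ) < 1 / 2 by norm_num)
      rw [hq3] at h3
      have h4 : √(Real.log x) ≤ 2 * q := by
        rw [Real.sqrt_le_left (by positivity)]
        linarith
      calc _ ≤ x / k * √(Real.log x) := mul_le_mul_of_nonneg_right (hN _ hxk.le) hs.le
        _ ≤ x / k * (2 * q) := mul_le_mul_of_nonneg_left h4 hxk.le
        _ = 1 * (2 * q * (x / k)) := by ring
        _ ≤ (c + 1) * (2 * q * (x / k)) :=
            mul_le_mul_of_nonneg_right (by linarith) (by positivity)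
        _ = _ := by ring
  refine key.trans (le_of_eq ?_)
  ring

theorem wirs_cover (S S' : ℕ → Prop) {x : ℝ} (hx : 0 ≤ x) :
    (((Icc 1 ⌊x⌋₊).filter (fun n => ∃ s t r : ℕ, comp S s ∧ comp (fun p => p ∣ 3) t ∧ comp S' r ∧
        n = s * t * r ^ 2)).card : ℝ) ≤
      ∑ i ∈ (Icc 1 ⌊x⌋₊ ×ˢ Icc 1 ⌊x⌋₊).filter
          (fun i : ℕ × ℕ => comp (fun p => p ∣ 3) i.1 ∧ comp S' i.2),
        (((Icc 1 ⌊x / ((i.1 : ℝ) * (i.2 : ℝ) ^ 2)⌋₊).filter (comp S)).card : ℝ) := by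
  rw [← Nat.cast_sum, Nat.cast_le]
  refine le_trans (card_le_card (t := ((Icc 1 ⌊x⌋₊ ×ˢ Icc 1 ⌊x⌋₊).filter
    (fun i : ℕ × ℕ => comp (fun p => p ∣ 3) i.1 ∧ comp S' i.2)).biUnion (fun i =>
      ((Icc 1 ⌊x / ((i.1 : ℝ) * (i.2 : ℝ) ^ 2)⌋₊).filter (comp S)).image
        (fun s => s * i.1 * i.2 ^ 2))) (fun n hn => ?_))
    (card_biUnion_le.trans (sum_le_sum (fun i _ => card_image_le)))
  simp only [mem_filter, mem_Icc] at hn
  obtain ⟨⟨_, h2⟩, s, t, r, hs, ht, hr, rfl⟩ := hn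
  have s0 := Nat.pos_of_ne_zero hs.1
  have t0 := Nat.pos_of_ne_zero ht.1
  have r0 := Nat.pos_of_ne_zero hr.1
  have hpos : 0 < s * t * r ^ 2 := by positivity
  refine mem_biUnion.2 ⟨(t, r), ?_, mem_image.2 ⟨s, ?_, rfl⟩⟩
  · simp only [mem_filter, mem_product, mem_Icc]
    refine ⟨⟨⟨t0, le_trans (Nat.le_of_dvd hpos ⟨s * r ^ 2, by ring⟩) h2⟩, r0,
      le_trans (Nat.le_of_dvd hpos ⟨s * t * r, by ring⟩) h2⟩, ht, hr⟩
  · simp only [mem_filter, mem_Icc]
    refine ⟨⟨s0, Nat.le_floor ?_⟩, hs⟩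
    rw [le_div_iff₀ (by positivity), ← mul_assoc]
    exact_mod_cast (Nat.le_floor_iff hx).1 h2

/-- Numbers of the shape `s t r ^ 2`. -/
theorem wshape (S S' : ℕ → Prop) {c : ℝ} (hc : 0 ≤ c)
    (h : ∀ ε : ℝ, 0 < ε → ∀ᶠ x : ℝ in atTop,
      (((Icc 1 ⌊x⌋₊).filter (comp S)).card : ℝ) ≤ (c + ε) * x / √(Real.log x))
    {ε : ℝ} (hε : 0 < ε) : ∀ᶠ x : ℝ in atTop,
      (((Icc 1 ⌊x⌋₊).filter (fun n => ∃ s t r : ℕ, comp S s ∧ comp (fun p => p ∣ 3) t ∧ comp S' r ∧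
        n = s * t * r ^ 2)).card : ℝ) ≤ (c * (3 / 2) * EE S' 2 + ε) * x / √(Real.log x) := by
  set N : ℝ → ℝ := fun x => (((Icc 1 ⌊x⌋₊).filter (comp S)).card : ℝ) with hN
  set w : ℝ → ℕ × ℕ → ℝ := fun s i =>
    (if comp (fun p => p ∣ 3) i.1 then (i.1 : ℝ) ^ (-s) else 0) *
      (if comp S' i.2 then (i.2 : ℝ) ^ (-(2 * s)) else 0) with hw
  have h3 : ∀ s : ℝ, 0 < s → HasSum
      (fun n : ℕ => if comp (fun p => p ∣ 3) n then (n : ℝ) ^ (-s) else 0)
      (∏ p ∈ ({3} : Finset ℕ), (1 - (p : ℝ) ^ (-s))⁻¹) := fun s hs =>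
    EE_fin {3} _ (fun p hp => by
      rw [mem_singleton]; exact Nat.prime_dvd_prime_iff_eq hp Nat.prime_three)
      (fun p hp => by rw [mem_singleton.1 hp]; exact Nat.prime_three) hs
  have hn : ∀ (P : ℕ → Prop) (s : ℝ) (n : ℕ), 0 ≤ if comp P n then (n : ℝ) ^ s else 0 := by
    intro P s n
    split_ifs <;> positivity
  have hw0 : ∀ s i, 0 ≤ w s i := fun s i => mul_nonneg (hn _ _ _) (hn _ _ _)
  have hsum : ∀ s : ℝ, 1 / 2 < s → Summable (w s) := fun s hs =>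
    (h3 s (by linarith)).summable.mul_of_nonneg (EE_summable S' (s := 2 * s) (by linarith))
      (fun n => hn _ _ n) (fun n => hn _ _ n)
  have hw1 : ∑' i, c * w 1 i = c * (3 / 2) * EE S' 2 := by
    have e := (h3 1 one_pos).mul (EE_summable S' (s := 2 * 1) (by norm_num)).hasSum
      (hsum 1 (by norm_num))
    rw [tsum_mul_left, e.tsum_eq, EE, prod_singleton, Real.rpow_neg_one]
    norm_num
    ring
  have hwv : ∀ (s : ℝ) (i : ℕ × ℕ), comp (fun p => p ∣ 3) i.1 ∧ comp S' i.2 →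
      1 ≤ (i.1 : ℝ) * (i.2 : ℝ) ^ 2 ∧ w s i = ((i.1 : ℝ) * (i.2 : ℝ) ^ 2) ^ (-s) := by
    intro s i hi
    have a1 : (1 : ℝ) ≤ i.1 := by exact_mod_cast Nat.pos_of_ne_zero hi.1.1
    have a2 : (1 : ℝ) ≤ i.2 := by exact_mod_cast Nat.pos_of_ne_zero hi.2.1
    refine ⟨one_le_mul_of_one_le_of_one_le a1 (one_le_pow₀ a2), ?_⟩
    simp only [hw, if_pos hi.1, if_pos hi.2]
    rw [Real.mul_rpow (by positivity) (by positivity), ← Real.rpow_natCast,
      ← Real.rpow_mul (by positivity)]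
    norm_num
  set F : ℝ → ℕ × ℕ → ℝ := fun x i => if comp (fun p => p ∣ 3) i.1 ∧ comp S' i.2 then
    N (x / ((i.1 : ℝ) * (i.2 : ℝ) ^ 2)) * √(Real.log x) / x else 0 with hF
  have hb : Summable (fun i => 2 * (c + 1) * w (3 / 4) i + c * w 1 i) :=
    ((hsum _ (by norm_num)).mul_left _).add ((hsum _ (by norm_num)).mul_left _)
  have hm0 : ∀ x i, 0 ≤ max (F x i) (c * w 1 i) := fun x i =>
    le_max_of_le_right (mul_nonneg hc (hw0 _ _))
  have hbd : ∀ᶠ x : ℝ in atTop, ∀ i, ‖max (F x i) (c * w 1 i)‖ ≤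
      2 * (c + 1) * w (3 / 4) i + c * w 1 i := by
    filter_upwards [wirs_bd N hc (fun x hx => wirs_card_le S hx) (h 1 one_pos)] with x hx i
    rw [Real.norm_of_nonneg (hm0 x i)]
    have a1 := mul_nonneg hc (hw0 1 i)
    have a2 : 0 ≤ 2 * (c + 1) * w (3 / 4) i := mul_nonneg (by positivity) (hw0 _ i)
    refine max_le ?_ (by linarith)
    simp only [hF]
    split_ifs with hi
    · have := hx _ (hwv 1 i hi).1
      rw [← (hwv (3 / 4) i hi).2] at this
      linarith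
    · linarith
  have hpt : ∀ i, Tendsto (fun x => max (F x i) (c * w 1 i)) atTop (𝓝 (c * w 1 i)) := by
    intro i
    by_cases hi : comp (fun p => p ∣ 3) i.1 ∧ comp S' i.2
    · simp only [hF, if_pos hi, (hwv 1 i hi).2, Real.rpow_neg_one]
      exact wirs_pt N h (by linarith [(hwv 1 i hi).1])
    · simp only [hF, if_neg hi, max_eq_right (mul_nonneg hc (hw0 1 i))]
      exact tendsto_const_nhds
  have hlim := tendsto_tsum_of_dominated_convergence hb hpt hbd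
  rw [hw1] at hlim
  filter_upwards [hlim.eventually (gt_mem_nhds (lt_add_of_pos_right _ hε)), hbd,
    eventually_gt_atTop (1 : ℝ)] with x e1 e2 hx
  have hx0 : 0 < x := by linarith
  have hs := Real.sqrt_pos.2 (Real.log_pos hx)
  rw [le_div_iff₀ hs, ← div_le_iff₀ hx0]
  refine le_trans ?_ e1.le
  refine le_trans (div_le_div_of_nonneg_right
    (mul_le_mul_of_nonneg_right (wirs_cover S S' hx0.le) hs.le) hx0.le) ?_
  rw [sum_mul, sum_div]
  refine le_trans (sum_le_sum (fun i hi => ?_))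
    ((Summable.of_norm_bounded hb e2).sum_le_tsum _ (fun i _ => hm0 x i))
  refine le_max_of_le_left (le_of_eq ?_)
  simp only [hF, if_pos (mem_filter.1 hi).2, hN]

end Pool.Agent.Lib.MP_ad7336_co
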